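import Pool.Agent.TH700.Mat

/-!
# Signed chord diagrams and systems of strands

The positions `0, …, K - 1` separate the strands `0, …, K`.  A chord joins two positions `p < q`
and has a sign: `a = 1` (oriented) or `a = 0`.  For a set `P` of chords we consider functions on
the strands which are constant at the positions that are not ends of chords of `P`, and satisfy two
equations at each chord of `P`.  Only the constant functions satisfy them if and only if the
principal submatrix on `P` of the overlap matrix is nonsingular.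
-/

namespace Pool.Agent.TH700

open Finset

/-- A signed chord diagram. -/
structure CD (ι : Type*) where
  /-- left ends -/
  p : ι → ℕ
  /-- right ends -/
  q : ι → ℕ
  /-- signs: `1` for oriented chords -/
  a : ι → ZMod 2

namespace CD

variable {ι : Type*} [DecidableEq ι] (D : CD ι)

/-- indicator of strand `t` being below the chord `v` -/
def ind (v : ι) (t : ℕ) : ZMod 2 := if D.p v < t ∧ t ≤ D.q v then 1 else 0

/-- The overlap matrix. -/
def M (u v : ι) : ZMod 2 := if u = v then D.a u else D.ind v (D.p u) + D.ind v (D.q u)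

/-- The chords of `P` have different ends. -/
structure Ok (P : Finset ι) : Prop where
  lt : ∀ v ∈ P, D.p v < D.q v
  ne : ∀ u ∈ P, ∀ v ∈ P, u ≠ v → D.p u ≠ D.p v ∧ D.p u ≠ D.q v ∧ D.q u ≠ D.p v ∧ D.q u ≠ D.q v

variable {D}

theorem M_symm {P : Finset ι} (h : D.Ok P) {u v : ι} (hu : u ∈ P) (hv : v ∈ P) :
    D.M u v = D.M v u := by
  by_cases huv : u = v
  · subst huv; rfl
  · have h1 := h.lt u hu
    have h2 := h.lt v hv
    obtain ⟨h3, h4, h5, h6⟩ := h.ne u hu v hv huv
    simp only [M, if_neg huv, if_neg (Ne.symm huv), ind]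
    split_ifs <;> first | rfl | (exfalso; omega)

variable (D)

/-- The strand function with given jumps. -/
def gx (P : Finset ι) (x : ι → ZMod 2) (t : ℕ) : ZMod 2 := ∑ v ∈ P, x v * D.ind v t

/-- The equations of the strands. -/
structure Sys (K : ℕ) (P : Finset ι) (g : ℕ → ZMod 2) : Prop where
  straight : ∀ e < K, (∀ v ∈ P, e ≠ D.p v ∧ e ≠ D.q v) → g (e + 1) = g e
  ori : ∀ v ∈ P, D.a v = 1 → g (D.p v) = g (D.q v) ∧ g (D.p v + 1) = g (D.q v + 1)
  uno : ∀ v ∈ P, D.a v = 0 → g (D.p v) = g (D.q v + 1) ∧ g (D.p v + 1) = g (D.q v)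

variable {D}

omit [DecidableEq ι] in
theorem gx_zero (P : Finset ι) (x : ι → ZMod 2) : D.gx P x 0 = 0 := by
  simp [gx, ind]

omit [DecidableEq ι] in
theorem gx_succ {P : Finset ι} (h : D.Ok P) (x : ι → ZMod 2) (e : ℕ) :
    D.gx P x (e + 1) + D.gx P x e = ∑ v ∈ P, if D.p v = e ∨ D.q v = e then x v else 0 := by
  simp only [gx]
  rw [← Finset.sum_add_distrib]
  refine Finset.sum_congr rfl fun v hv => ?_
  have h1 := h.lt v hv
  rw [← mul_add]
  by_cases h2 : D.p v = e ∨ D.q v = e
  · rw [if_pos h2]
    simp only [ind]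
    split_ifs <;> first | (exfalso; omega) | simp
  · rw [if_neg h2]
    simp only [ind]
    split_ifs <;> first | (exfalso; omega) | simp [f2_add_self]

omit [DecidableEq ι] in
theorem gx_nonend {P : Finset ι} (h : D.Ok P) (x : ι → ZMod 2) {e : ℕ}
    (he : ∀ v ∈ P, e ≠ D.p v ∧ e ≠ D.q v) : D.gx P x (e + 1) = D.gx P x e := by
  rw [← f2_add_eq_zero, gx_succ h]
  refine Finset.sum_eq_zero fun v hv => if_neg ?_
  obtain ⟨h1, h2⟩ := he v hv
  omega

omit [DecidableEq ι] in
theorem gx_end {P : Finset ι} (h : D.Ok P) (x : ι → ZMod 2) {v : ι} (hv : v ∈ P) {e : ℕ}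
    (he : D.p v = e ∨ D.q v = e) : D.gx P x (e + 1) + D.gx P x e = x v := by
  rw [gx_succ h, Finset.sum_eq_single v, if_pos he]
  · intro u hu huv
    rw [if_neg]
    obtain ⟨h1, h2, h3, h4⟩ := h.ne u hu v hv huv
    omega
  · exact fun h => absurd hv h

theorem gx_K {P : Finset ι} (h : D.Ok P) (x : ι → ZMod 2) {u : ι} (hu : u ∈ P) :
    D.gx P x (D.p u) + D.gx P x (D.q u) = ∑ v ∈ P, D.M u v * x v + (1 + D.a u) * x u := by
  simp only [gx]
  rw [← Finset.sum_add_distrib]
  have : ∀ v ∈ P, x v * D.ind v (D.p u) + x v * D.ind v (D.q u) =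
      D.M u v * x v + (if v = u then (1 + D.a u) * x u else 0) := by
    intro v hv
    by_cases huv : v = u
    · subst huv
      have h1 := h.lt v hv
      simp only [M, if_true, ind]
      rw [if_neg (by omega), if_pos (by omega)]
      rcases f2_cases (D.a v) with h2 | h2 <;> rw [h2] <;> rcases f2_cases (x v) with h3 | h3 <;>
        rw [h3] <;> decide
    · simp only [M, if_neg huv, if_neg (Ne.symm huv)]
      ring
  rw [Finset.sum_congr rfl this, Finset.sum_add_distrib, Finset.sum_ite_eq' P u, if_pos hu]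

omit [DecidableEq ι] in
/-- A function with the jumps `x`. -/
theorem eq_gx {P : Finset ι} (h : D.Ok P) {K : ℕ} (g : ℕ → ZMod 2)
    (x : ι → ZMod 2)
    (hs : ∀ e < K, (∀ v ∈ P, e ≠ D.p v ∧ e ≠ D.q v) → g (e + 1) = g e)
    (hp : ∀ v ∈ P, g (D.p v + 1) + g (D.p v) = x v)
    (hq : ∀ v ∈ P, g (D.q v + 1) + g (D.q v) = x v) :
    ∀ t ≤ K, g t = g 0 + D.gx P x t := by
  intro t
  induction t with
  | zero => intro _; rw [gx_zero, add_zero]
  | succ t ih =>
    intro ht
    have ih := ih (by omega)
    by_cases he : ∀ v ∈ P, t ≠ D.p v ∧ t ≠ D.q v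
    · rw [hs t (by omega) he, gx_nonend h x he, ih]
    · push Not at he
      obtain ⟨v, hv, hev⟩ := he
      have he' : D.p v = t ∨ D.q v = t := by
        by_cases h1 : t = D.p v
        · exact Or.inl h1.symm
        · exact Or.inr (hev h1).symm
      have h1 : g (t + 1) + g t = x v := by
        rcases he' with h2 | h2
        · rw [← h2]; exact hp v hv
        · rw [← h2]; exact hq v hv
      have h2 := gx_end h x hv he'
      have h3 : g (t + 1) = g t + x v := by
        rw [← h1, add_comm (g (t + 1)), ← add_assoc, f2_add_self, zero_add]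
      have h4 : D.gx P x (t + 1) = D.gx P x t + x v := by
        rw [← h2, add_comm (D.gx P x (t + 1)), ← add_assoc, f2_add_self, zero_add]
      rw [h3, h4, ih, add_assoc]

theorem ns_iff_sys {P : Finset ι} (h : D.Ok P) {K : ℕ} (hK : ∀ v ∈ P, D.q v < K) :
    NS D.M P ↔ ∀ g : ℕ → ZMod 2, D.Sys K P g → ∀ t ≤ K, g t = g 0 := by
  constructor
  · intro hNS g hg
    let x : ι → ZMod 2 := fun v => g (D.p v + 1) + g (D.p v)
    have hq : ∀ v ∈ P, g (D.q v + 1) + g (D.q v) = x v := by
      intro v hv
      rcases f2_cases (D.a v) with h1 | h1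
      · obtain ⟨h2, h3⟩ := hg.uno v hv h1
        simp only [x]; rw [h2, h3, add_comm]
      · obtain ⟨h2, h3⟩ := hg.ori v hv h1
        simp only [x]; rw [h2, h3]
    have hgx := eq_gx h (K := K) g x hg.straight (fun v _ => rfl) hq
    have hx0 : ∀ v ∈ P, x v = 0 := by
      refine hNS x fun u hu => ?_
      have hk := gx_K h x hu
      have e1 := hgx (D.p u) (by have := h.lt u hu; have := hK u hu; omega)
      have e2 := hgx (D.q u) (by have := hK u hu; omega)
      have e3 : g (D.p u) + g (D.q u) = D.gx P x (D.p u) + D.gx P x (D.q u) := by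
        rw [e1, e2]
        have := f2_add_self (g 0)
        linear_combination this
      rw [hk] at e3
      rcases f2_cases (D.a u) with h1 | h1
      · obtain ⟨h2, h3⟩ := hg.uno u hu h1
        have h4 : g (D.p u) + g (D.q u) = x u := by
          rw [← hq u hu, h2]
        rw [h4, h1, add_zero, one_mul] at e3
        have := f2_add_self (x u)
        linear_combination (-1 : ZMod 2) * e3
      · obtain ⟨h2, h3⟩ := hg.ori u hu h1
        rw [h2, f2_add_self, h1] at e3
        have h5 : (1 + 1 : ZMod 2) = 0 := by decide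
        rw [h5, zero_mul, add_zero] at e3
        exact e3.symm
    intro t ht
    rw [hgx t ht]
    have : D.gx P x t = 0 := Finset.sum_eq_zero fun v hv => by rw [hx0 v hv, zero_mul]
    rw [this, add_zero]
  · intro hall x hx v hv
    have hsys : D.Sys K P (D.gx P x) := by
      have hends : ∀ v ∈ P, D.gx P x (D.p v + 1) + D.gx P x (D.p v) = x v ∧
          D.gx P x (D.q v + 1) + D.gx P x (D.q v) = x v ∧
          D.gx P x (D.p v) + D.gx P x (D.q v) = (1 + D.a v) * x v := fun v hv =>
        ⟨gx_end h x hv (Or.inl rfl), gx_end h x hv (Or.inr rfl), by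
          rw [gx_K h x hv, hx v hv, zero_add]⟩
      refine ⟨fun e _ he => gx_nonend h x he, fun v hv h1 => ?_, fun v hv h1 => ?_⟩
      · obtain ⟨e1, e2, e3⟩ := hends v hv
        rw [h1] at e3
        generalize D.gx P x (D.p v + 1) = A at *
        generalize D.gx P x (D.p v) = B at *
        generalize D.gx P x (D.q v + 1) = A' at *
        generalize D.gx P x (D.q v) = B' at *
        generalize x v = X at *
        revert A B A' B' X
        decide
      · obtain ⟨e1, e2, e3⟩ := hends v hv
        rw [h1] at e3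
        generalize D.gx P x (D.p v + 1) = A at *
        generalize D.gx P x (D.p v) = B at *
        generalize D.gx P x (D.q v + 1) = A' at *
        generalize D.gx P x (D.q v) = B' at *
        generalize x v = X at *
        revert A B A' B' X
        decide
    have hc := hall _ hsys
    have h1 := gx_end h x hv (Or.inl rfl)
    rw [hc _ (by have := h.lt v hv; have := hK v hv; omega),
      hc (D.p v) (by have := h.lt v hv; have := hK v hv; omega), f2_add_self] at h1
    exact h1.symm

omit [DecidableEq ι] in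
/-- The last strand is equal to the first one. -/
theorem gx_last {P : Finset ι} (x : ι → ZMod 2) {K : ℕ} (hK : ∀ v ∈ P, D.q v < K) :
    D.gx P x K = 0 := by
  refine Finset.sum_eq_zero fun v hv => ?_
  have := hK v hv
  rw [ind, if_neg (by omega), mul_zero]

omit [DecidableEq ι] in
theorem sys_wrap {P : Finset ι} (h : D.Ok P) {K : ℕ} (hK : ∀ v ∈ P, D.q v < K) {g : ℕ → ZMod 2}
    (hg : D.Sys K P g) : g K = g 0 := by
  have := eq_gx h (K := K) g (fun v => g (D.p v + 1) + g (D.p v)) hg.straight (fun v _ => rfl) (by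
    intro v hv
    rcases f2_cases (D.a v) with h1 | h1
    · obtain ⟨h2, h3⟩ := hg.uno v hv h1
      rw [h2, h3, add_comm]
    · obtain ⟨h2, h3⟩ := hg.ori v hv h1
      rw [h2, h3]) K (le_refl _)
  rw [this, gx_last _ hK, add_zero]

end CD

end Pool.Agent.TH700
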