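import Pool.Agent.TH700.Chord

/-!
# The coarse chord diagram of a switching network

Wires `0, …, 2 q`; the block of the wire `j` consists of the positions `j B + o` with
`0 ≤ o < B = s + 2`.  The offsets `1 + k`, `k < s`, are the times.  At the time `k` there is an
unoriented chord between the blocks of the two wires of the `k`-th switch.  Moreover for each wire
`w = 1, …, 2 q` there is an oriented chord between the offset `0` of the block `w` and the offset
`s + 1` of the block of the cyclic successor of `w`.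
-/

namespace Pool.Agent.TH700

open Finset

/-- A switching network. -/
structure Net where
  /-- half of the number of wires minus one -/
  q : ℕ
  /-- number of switches -/
  s : ℕ
  /-- the switches -/
  sw : ℕ → ℕ × ℕ
  hq : 1 ≤ q
  hsw : ∀ k < s, (sw k).1 < (sw k).2 ∧ (sw k).2 ≤ 2 * q

/-- Action of a switch. -/
def stp (ab : ℕ × ℕ) (b : Bool) (j : ℕ) : ℕ :=
  if b then (if j = ab.1 then ab.2 else if j = ab.2 then ab.1 else j) else j

namespace Net

variable (W : Net)

/-- The indices of the chords. -/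
abbrev κ : Type := Fin W.s ⊕ Fin (2 * W.q)

/-- The position of a token after `k` switches. -/
def posn (on : ℕ → Bool) : ℕ → ℕ → ℕ
  | 0, j => j
  | k + 1, j => stp (W.sw k) (on k) (posn on k j)

/-- The cyclic successor. -/
def nx (j : ℕ) : ℕ := if j < 2 * W.q then j + 1 else 0

/-- All tokens end in the next wire. -/
def Shift (on : ℕ → Bool) : Prop := ∀ j ≤ 2 * W.q, W.posn on W.s j = W.nx j

/-- left ends, block -/
def pj : W.κ → ℕ
  | Sum.inl k => (W.sw k).1
  | Sum.inr i => if (i : ℕ) + 1 < 2 * W.q then i + 1 else 0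
/-- left ends, offset -/
def po : W.κ → ℕ
  | Sum.inl k => 1 + k
  | Sum.inr i => if (i : ℕ) + 1 < 2 * W.q then 0 else W.s + 1
/-- right ends, block -/
def qj : W.κ → ℕ
  | Sum.inl k => (W.sw k).2
  | Sum.inr i => if (i : ℕ) + 1 < 2 * W.q then i + 2 else 2 * W.q
/-- right ends, offset -/
def qo : W.κ → ℕ
  | Sum.inl k => 1 + k
  | Sum.inr i => if (i : ℕ) + 1 < 2 * W.q then W.s + 1 else 0

/-- position of the offset `o` in the block `j` -/
def ps (j o : ℕ) : ℕ := j * (W.s + 2) + o

/-- The chord diagram. -/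
def D : CD W.κ where
  p v := W.ps (W.pj v) (W.po v)
  q v := W.ps (W.qj v) (W.qo v)
  a v := match v with
    | Sum.inl _ => 0
    | Sum.inr _ => 1

/-- The number of positions. -/
def K : ℕ := (2 * W.q + 1) * (W.s + 2)

variable {W}

theorem ps_lt {j o j' o' : ℕ} (ho : o < W.s + 2) (ho' : o' < W.s + 2) :
    W.ps j o < W.ps j' o' ↔ j < j' ∨ (j = j' ∧ o < o') := by
  unfold ps
  constructor
  · intro h
    rcases Nat.lt_trichotomy j j' with h1 | h1 | h1
    · exact Or.inl h1
    · subst h1; right; exact ⟨rfl, by omega⟩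
    · exfalso
      have : (j' + 1) * (W.s + 2) ≤ j * (W.s + 2) := Nat.mul_le_mul_right _ h1
      rw [Nat.succ_mul] at this
      omega
  · rintro (h | ⟨rfl, h⟩)
    · have : (j + 1) * (W.s + 2) ≤ j' * (W.s + 2) := Nat.mul_le_mul_right _ h
      rw [Nat.succ_mul] at this
      omega
    · omega

theorem ps_inj {j o j' o' : ℕ} (ho : o < W.s + 2) (ho' : o' < W.s + 2)
    (h : W.ps j o = W.ps j' o') : j = j' ∧ o = o' := by
  have h1 := (ps_lt (j := j) (j' := j') ho ho').not
  have h2 := (ps_lt (j := j') (j' := j) ho' ho).not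
  have h3 := h1.1 (by omega)
  have h4 := h2.1 (by omega)
  omega

theorem ps_le {j o j' o' : ℕ} (ho : o < W.s + 2) (ho' : o' < W.s + 2) :
    W.ps j o ≤ W.ps j' o' ↔ j < j' ∨ (j = j' ∧ o ≤ o') := by
  have h1 := (ps_lt (j := j') (j' := j) ho' ho).not
  rw [not_lt] at h1
  rw [h1]
  omega

theorem po_lt (v : W.κ) : W.po v < W.s + 2 := by
  cases v with
  | inl k => simp only [po]; have := k.2; omega
  | inr i => simp only [po]; split_ifs <;> omega

theorem qo_lt (v : W.κ) : W.qo v < W.s + 2 := by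
  cases v with
  | inl k => simp only [qo]; have := k.2; omega
  | inr i => simp only [qo]; split_ifs <;> omega

theorem pj_le (v : W.κ) : W.pj v ≤ 2 * W.q := by
  cases v with
  | inl k => simp only [pj]; have := W.hsw k k.2; omega
  | inr i => simp only [pj]; have := i.2; split_ifs <;> omega

theorem qj_le (v : W.κ) : W.qj v ≤ 2 * W.q := by
  cases v with
  | inl k => simp only [qj]; have := W.hsw k k.2; omega
  | inr i => simp only [qj]; have := i.2; split_ifs <;> omega

theorem ps_lt_K {j o : ℕ} (hj : j ≤ 2 * W.q) (ho : o < W.s + 2) : W.ps j o < W.K := by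
  unfold ps K
  have : j * (W.s + 2) ≤ (2 * W.q) * (W.s + 2) := Nat.mul_le_mul_right _ hj
  rw [Nat.succ_mul]
  omega

theorem okD (P : Finset W.κ) : W.D.Ok P where
  lt := by
    intro v _
    change W.ps _ _ < W.ps _ _
    rw [ps_lt (po_lt v) (qo_lt v)]
    cases v with
    | inl k => left; simp only [pj, qj]; exact (W.hsw k k.2).1
    | inr i =>
      have := i.2
      simp only [pj, qj, po, qo]
      split_ifs <;> omega
  ne := by
    intro u _ v _ huv
    have key : ∀ j o j' o', o < W.s + 2 → o' < W.s + 2 → ¬ (j = j' ∧ o = o') →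
        W.ps j o ≠ W.ps j' o' := fun j o j' o' h1 h2 h3 h4 => h3 (ps_inj h1 h2 h4)
    have hpu := po_lt u
    have hpv := po_lt v
    have hqu := qo_lt u
    have hqv := qo_lt v
    refine ⟨key _ _ _ _ hpu hpv ?_, key _ _ _ _ hpu hqv ?_, key _ _ _ _ hqu hpv ?_,
      key _ _ _ _ hqu hqv ?_⟩
    all_goals
      cases u with
      | inl k =>
        cases v with
        | inl k' =>
          have h1 : (k : ℕ) ≠ k' := fun h => huv (by rw [Fin.ext h])
          simp only [po, qo]; omega
        | inr i =>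
          have := k.2
          simp only [po, qo]; split_ifs <;> omega
      | inr i =>
        cases v with
        | inl k =>
          have := k.2
          simp only [po, qo]; split_ifs <;> omega
        | inr i' =>
          have h1 : (i : ℕ) ≠ i' := fun h => huv (by rw [Fin.ext h])
          have := i.2
          have := i'.2
          simp only [pj, po, qj, qo]; split_ifs <;> first | omega | tauto

theorem q_lt_K (P : Finset W.κ) : ∀ v ∈ P, W.D.q v < W.K := fun v _ =>
  ps_lt_K (qj_le v) (qo_lt v)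

theorem M_symm' (u v : W.κ) : W.D.M u v = W.D.M v u :=
  CD.M_symm (okD Finset.univ) (Finset.mem_univ _) (Finset.mem_univ _)

/-- The oriented chord `i` covers the block `j` at the times. -/
def Cov (i : Fin (2 * W.q)) (j : ℕ) : Prop :=
  ((i : ℕ) + 1 < 2 * W.q ∧ (j = i + 1 ∨ j = i + 2)) ∨
    (¬ (i : ℕ) + 1 < 2 * W.q ∧ 1 ≤ j ∧ j < 2 * W.q)

theorem cov_iff (i : Fin (2 * W.q)) (j : ℕ) {k : ℕ} (hk : k < W.s) :
    (W.ps (W.pj (Sum.inr i)) (W.po (Sum.inr i)) < W.ps j (1 + k) ∧
      W.ps j (1 + k) ≤ W.ps (W.qj (Sum.inr i)) (W.qo (Sum.inr i))) ↔ Cov i j := by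
  rw [ps_lt (po_lt _) (by omega), ps_le (by omega) (qo_lt _)]
  have hi := i.2
  simp only [pj, po, qj, qo, Cov]
  split_ifs <;> omega

theorem ind_pos {i : Fin (2 * W.q)} {j : ℕ} {k : ℕ} (hk : k < W.s) (h : Cov i j) :
    W.D.ind (Sum.inr i) (W.ps j (1 + k)) = 1 := if_pos ((cov_iff i j hk).2 h)

theorem ind_neg {i : Fin (2 * W.q)} {j : ℕ} {k : ℕ} (hk : k < W.s) (h : ¬ Cov i j) :
    W.D.ind (Sum.inr i) (W.ps j (1 + k)) = 0 := if_neg (fun h' => h ((cov_iff i j hk).1 h'))

/-- Every switch chord crosses an oriented chord. -/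
theorem switch_adj (k : Fin W.s) : ∃ i : Fin (2 * W.q), W.D.M (Sum.inl k) (Sum.inr i) = 1 := by
  obtain ⟨h1, h2⟩ := W.hsw k k.2
  have hq := W.hq
  have hk := k.2
  have gen : ∀ i : Fin (2 * W.q), W.D.M (Sum.inl k) (Sum.inr i) =
      W.D.ind (Sum.inr i) (W.ps (W.sw k).1 (1 + k)) +
      W.D.ind (Sum.inr i) (W.ps (W.sw k).2 (1 + k)) := by
    intro i
    simp only [CD.M, reduceCtorEq, if_false]
    rfl
  by_cases hb : (W.sw k).2 < 2 * W.q
  · refine ⟨⟨(W.sw k).2 - 1, by omega⟩, ?_⟩
    rw [gen, ind_neg hk, ind_pos hk]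
    · rfl
    · simp only [Cov]; omega
    · simp only [Cov]; omega
  · by_cases ha : 1 ≤ (W.sw k).1
    · refine ⟨⟨2 * W.q - 1, by omega⟩, ?_⟩
      rw [gen, ind_pos hk, ind_neg hk]
      · rfl
      · simp only [Cov]; omega
      · simp only [Cov]; omega
    · refine ⟨⟨2 * W.q - 2, by omega⟩, ?_⟩
      rw [gen, ind_neg hk, ind_pos hk]
      · rfl
      · simp only [Cov]; omega
      · simp only [Cov]; omega

theorem stp_le {k : ℕ} (hk : k < W.s) (b : Bool) {j : ℕ} (hj : j ≤ 2 * W.q) :
    stp (W.sw k) b j ≤ 2 * W.q := by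
  have := W.hsw k hk
  unfold stp
  split_ifs <;> omega

theorem stp_stp (ab : ℕ × ℕ) (b : Bool) (j : ℕ) : stp ab b (stp ab b j) = j := by
  unfold stp
  cases b
  · simp
  · simp only [if_true]
    split_ifs <;> omega

theorem posn_le (on : ℕ → Bool) {k : ℕ} (hk : k ≤ W.s) {j : ℕ} (hj : j ≤ 2 * W.q) :
    W.posn on k j ≤ 2 * W.q := by
  induction k with
  | zero => exact hj
  | succ k ih => exact stp_le (by omega) _ (ih (by omega))

theorem posn_inj (on : ℕ → Bool) (k : ℕ) : Function.Injective (W.posn on k) := by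
  induction k with
  | zero => intro a b h; exact h
  | succ k ih =>
    intro a b h
    apply ih
    have h1 : stp (W.sw k) (on k) (W.posn on k a) = stp (W.sw k) (on k) (W.posn on k b) := h
    have h2 := congrArg (stp (W.sw k) (on k)) h1
    rwa [stp_stp, stp_stp] at h2

theorem posn_surj (on : ℕ → Bool) {k : ℕ} (hk : k ≤ W.s) {j : ℕ} (hj : j ≤ 2 * W.q) :
    ∃ t ≤ 2 * W.q, W.posn on k t = j := by
  induction k generalizing j with
  | zero => exact ⟨j, hj, rfl⟩
  | succ k ih =>
    have hk' : k < W.s := by omega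
    obtain ⟨t, ht, ht'⟩ := ih (by omega) (stp_le hk' (on k) hj)
    refine ⟨t, ht, ?_⟩
    change stp (W.sw k) (on k) (W.posn on k t) = j
    rw [ht', stp_stp]

/-- Along a trail the strand function is constant. -/
theorem trail {on : ℕ → Bool} {g : ℕ → ZMod 2}
    (h : ∀ k < W.s, ∀ j ≤ 2 * W.q,
      g (W.ps (stp (W.sw k) (on k) j) (1 + k) + 1) = g (W.ps j (1 + k)))
    {k : ℕ} (hk : k ≤ W.s) {j : ℕ} (hj : j ≤ 2 * W.q) :
    g (W.ps (W.posn on k j) (1 + k)) = g (W.ps j 1) := by
  induction k with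
  | zero => rfl
  | succ k ih =>
    have h1 := h k (by omega) (W.posn on k j) (posn_le on (by omega) hj)
    rw [ih (by omega)] at h1
    rw [← h1]
    rfl

theorem nx_le (j : ℕ) : W.nx j ≤ 2 * W.q := by
  unfold nx; split_ifs <;> omega

/-- The values at the boundaries of the blocks are all equal. -/
theorem bconst {b : ℕ → ZMod 2} (h : ∀ w, 1 ≤ w → w ≤ 2 * W.q → b w = b (W.nx w + 1))
    (hK : b (2 * W.q + 1) = b 0) : ∀ j, 1 ≤ j → j ≤ 2 * W.q + 1 → b j = b 0 := by
  have hodd : ∀ t ≤ W.q, b (2 * (W.q - t) + 1) = b 0 := by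
    intro t
    induction t with
    | zero => intro _; simpa using hK
    | succ t ih =>
      intro ht
      rw [h _ (by omega) (by omega)]
      unfold nx
      rw [if_pos (by omega)]
      have e : 2 * (W.q - (t + 1)) + 1 + 1 + 1 = 2 * (W.q - t) + 1 := by omega
      rw [e]
      exact ih (by omega)
  have hev : ∀ t < W.q, b (2 * (W.q - t)) = b 0 := by
    intro t
    induction t with
    | zero =>
      intro _
      have := W.hq
      rw [h _ (by omega) (by omega)]
      unfold nx
      rw [if_neg (by omega)]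
      have := hodd W.q (le_refl _)
      simpa using this
    | succ t ih =>
      intro ht
      rw [h _ (by omega) (by omega)]
      unfold nx
      rw [if_pos (by omega)]
      have e : 2 * (W.q - (t + 1)) + 1 + 1 = 2 * (W.q - t) := by omega
      rw [e]
      exact ih (by omega)
  intro j hj1 hj2
  rcases Nat.even_or_odd j with he | ho
  · obtain ⟨t, ht⟩ := he
    have := hev (W.q - t) (by omega)
    have e : 2 * (W.q - (W.q - t)) = j := by omega
    rwa [e] at this
  · obtain ⟨t, ht⟩ := ho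
    have := hodd (W.q - t) (by omega)
    have e : 2 * (W.q - (W.q - t)) + 1 = j := by omega
    rwa [e] at this

/-- The switches whose chords belong to `P`. -/
noncomputable def onP (P : Finset W.κ) (k : ℕ) : Bool :=
  if h : k < W.s then decide ((Sum.inl ⟨k, h⟩ : W.κ) ∈ P) else false

theorem onP_eq (P : Finset W.κ) (k : Fin W.s) : onP P k = true ↔ (Sum.inl k : W.κ) ∈ P := by
  unfold onP
  rw [dif_pos k.2, decide_eq_true_iff]

/-- Positions at the times are ends of switch chords only. -/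
theorem nonendk {j k : ℕ} (hk : k < W.s) (v : W.κ)
    (hv : ∀ k' : Fin W.s, v = Sum.inl k' → (k' : ℕ) = k → j ≠ (W.sw k).1 ∧ j ≠ (W.sw k).2) :
    W.ps j (1 + k) ≠ W.D.p v ∧ W.ps j (1 + k) ≠ W.D.q v := by
  have key : ∀ j' o', o' < W.s + 2 → ¬ (j = j' ∧ 1 + k = o') →
      W.ps j (1 + k) ≠ W.ps j' o' := fun j' o' h2 h3 h4 => h3 (ps_inj (by omega) h2 h4)
  refine ⟨key _ _ (po_lt v) ?_, key _ _ (qo_lt v) ?_⟩
  all_goals
    cases v with
    | inl k' =>
      simp only [pj, po, qj, qo]
      rintro ⟨h2, h3⟩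
      have h4 : (k' : ℕ) = k := by omega
      have := hv k' rfl h4
      rw [h4] at h2
      omega
    | inr i =>
      simp only [pj, po, qj, qo]
      split_ifs <;> omega

/-- Equations at the switches. -/
theorem switch_eqs {P : Finset W.κ} {g : ℕ → ZMod 2}
    (hs : ∀ k (hk : k < W.s), ∀ j ≤ 2 * W.q, ((Sum.inl ⟨k, hk⟩ : W.κ) ∈ P →
      j ≠ (W.sw k).1 ∧ j ≠ (W.sw k).2) → g (W.ps j (1 + k) + 1) = g (W.ps j (1 + k)))
    (hc : ∀ k : Fin W.s, (Sum.inl k : W.κ) ∈ P →
      g (W.ps (W.sw k).1 (1 + k)) = g (W.ps (W.sw k).2 (1 + k) + 1) ∧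
      g (W.ps (W.sw k).1 (1 + k) + 1) = g (W.ps (W.sw k).2 (1 + k))) :
    ∀ k < W.s, ∀ j ≤ 2 * W.q,
      g (W.ps (stp (W.sw k) (onP P k) j) (1 + k) + 1) = g (W.ps j (1 + k)) := by
  intro k hk j hj
  have hstr := hs k hk j hj
  unfold stp
  by_cases hon : onP P k = true
  · rw [if_pos hon]
    have hmem := (onP_eq P ⟨k, hk⟩).1 hon
    obtain ⟨h1, h2⟩ := hc ⟨k, hk⟩ hmem
    by_cases hja : j = (W.sw k).1
    · rw [if_pos hja, hja]; exact h1.symm
    · rw [if_neg hja]
      by_cases hjb : j = (W.sw k).2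
      · rw [if_pos hjb, hjb]; exact h2
      · rw [if_neg hjb]
        exact hstr fun _ => ⟨hja, hjb⟩
  · rw [if_neg hon]
    refine hstr fun h => absurd ((onP_eq P ⟨k, hk⟩).2 h) hon

/-- The ends of the oriented chord of the wire `w = i + 1`. -/
theorem fast_ends (i : Fin (2 * W.q)) :
    (W.D.p (Sum.inr i) = W.ps (i + 1) 0 ∧ W.D.q (Sum.inr i) = W.ps (W.nx (i + 1)) (W.s + 1)) ∨
    (W.D.q (Sum.inr i) = W.ps (i + 1) 0 ∧ W.D.p (Sum.inr i) = W.ps (W.nx (i + 1)) (W.s + 1)) := by
  have hi := i.2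
  change (W.ps (W.pj (Sum.inr i)) (W.po (Sum.inr i)) = _ ∧
    W.ps (W.qj (Sum.inr i)) (W.qo (Sum.inr i)) = _) ∨
    (W.ps (W.qj (Sum.inr i)) (W.qo (Sum.inr i)) = _ ∧
    W.ps (W.pj (Sum.inr i)) (W.po (Sum.inr i)) = _)
  simp only [pj, po, qj, qo, nx]
  by_cases h : (i : ℕ) + 1 < 2 * W.q
  · left
    simp only [if_pos h, and_self]
  · right
    have h2 : (i : ℕ) + 1 = 2 * W.q := by omega
    simp only [if_neg h]
    rw [h2]
    simp only [and_self]

/-- The offsets `0` and `s + 1` are ends of oriented chords only. -/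
theorem nonend0 {j : ℕ} (v : W.κ) (hv : ∀ i : Fin (2 * W.q), v = Sum.inr i → j ≠ i + 1) :
    W.ps j 0 ≠ W.D.p v ∧ W.ps j 0 ≠ W.D.q v := by
  have key : ∀ j' o', o' < W.s + 2 → ¬ (j = j' ∧ 0 = o') →
      W.ps j 0 ≠ W.ps j' o' := fun j' o' h2 h3 h4 => h3 (ps_inj (by omega) h2 h4)
  refine ⟨key _ _ (po_lt v) ?_, key _ _ (qo_lt v) ?_⟩
  all_goals
    cases v with
    | inl k =>
      simp only [pj, po, qj, qo]; omega
    | inr i =>
      have := hv i rfl
      have hi := i.2
      simp only [pj, po, qj, qo]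
      split_ifs <;> first | omega | tauto

theorem nonend1 {j : ℕ} (v : W.κ)
    (hv : ∀ i : Fin (2 * W.q), v = Sum.inr i → j ≠ W.nx (i + 1)) :
    W.ps j (W.s + 1) ≠ W.D.p v ∧ W.ps j (W.s + 1) ≠ W.D.q v := by
  have key : ∀ j' o', o' < W.s + 2 → ¬ (j = j' ∧ W.s + 1 = o') →
      W.ps j (W.s + 1) ≠ W.ps j' o' := fun j' o' h2 h3 h4 => h3 (ps_inj (by omega) h2 h4)
  refine ⟨key _ _ (po_lt v) ?_, key _ _ (qo_lt v) ?_⟩
  all_goals
    cases v with
    | inl k =>
      have := k.2
      simp only [pj, po, qj, qo]; omega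
    | inr i =>
      have := hv i rfl
      have hi := i.2
      simp only [nx] at this
      simp only [pj, po, qj, qo]
      split_ifs at this ⊢ <;> first | omega | tauto

theorem ps_succ_block (j : ℕ) : W.ps j (W.s + 1) + 1 = W.ps (j + 1) 0 := by
  unfold ps; ring

theorem K_eq : W.K = W.ps (2 * W.q + 1) 0 := by
  unfold ps K; ring

/-- If the network realises the shift, all sets of oriented chords can be added. -/
theorem allfree {P : Finset W.κ} (h : W.Shift (onP P)) : NS W.D.M P := by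
  rw [CD.ns_iff_sys (okD P) (q_lt_K P)]
  intro g hg
  have hwrap := CD.sys_wrap (okD P) (q_lt_K P) hg
  have hsw := switch_eqs (P := P) (g := g) (fun k hk j hj h1 => by
    refine hg.straight _ (ps_lt_K hj (by omega)) fun v hv => nonendk hk v ?_
    rintro k' rfl h2
    apply h1
    have : k' = ⟨k, hk⟩ := Fin.ext h2
    rw [← this]; exact hv) (fun k hk => hg.uno _ hk rfl)
  have htr := fun {k : ℕ} (hk : k ≤ W.s) {j : ℕ} (hj : j ≤ 2 * W.q) =>
    trail hsw (k := k) hk (j := j) hj
  -- the exit value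
  have hexit : ∀ j ≤ 2 * W.q, g (W.ps (W.nx j) (W.s + 1)) = g (W.ps j 1) := by
    intro j hj
    have := htr (le_refl _) hj
    rwa [h j hj, add_comm 1] at this
  let b : ℕ → ZMod 2 := fun j => g (W.ps j 0)
  have hb0 : b 0 = g 0 := by simp [b, ps]
  have hbK : b (2 * W.q + 1) = b 0 := by
    rw [hb0, ← hwrap, K_eq]
  -- classes
  have hcl : ∀ w, 1 ≤ w → w ≤ 2 * W.q → b w = g (W.ps w 1) ∧ b w = b (W.nx w + 1) := by
    intro w h1 h2
    obtain ⟨i, hi⟩ : ∃ i : Fin (2 * W.q), (i : ℕ) + 1 = w := ⟨⟨w - 1, by omega⟩, by simp; omega⟩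
    have hends := fast_ends i
    rw [hi] at hends
    have hex := hexit w h2
    have e1 : W.ps w 0 + 1 = W.ps w 1 := rfl
    have e2 := ps_succ_block (W := W) (W.nx w)
    by_cases hP : (Sum.inr i : W.κ) ∈ P
    · obtain ⟨h3, h4⟩ := hg.ori _ hP rfl
      have h5 : g (W.ps w 0) = g (W.ps (W.nx w) (W.s + 1)) ∧
          g (W.ps w 0 + 1) = g (W.ps (W.nx w) (W.s + 1) + 1) := by
        rcases hends with ⟨h5, h6⟩ | ⟨h5, h6⟩
        · rw [h5, h6] at h3 h4
          exact ⟨h3, h4⟩
        · rw [h5, h6] at h3 h4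
          exact ⟨h3.symm, h4.symm⟩
      rw [e1, e2] at h5
      refine ⟨h5.1.trans hex, ?_⟩
      exact (h5.1.trans hex).trans h5.2
    · have h5 : g (W.ps w 0 + 1) = g (W.ps w 0) := by
        refine hg.straight _ (ps_lt_K h2 (by omega)) fun v hv => nonend0 v ?_
        rintro i' rfl h6
        apply hP
        have : i = i' := Fin.ext (by omega)
        rw [this]; exact hv
      have h6 : g (W.ps (W.nx w) (W.s + 1) + 1) = g (W.ps (W.nx w) (W.s + 1)) := by
        refine hg.straight _ (ps_lt_K (nx_le w) (by omega)) fun v hv => nonend1 v ?_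
        rintro i' rfl h6
        apply hP
        have hi2 := i'.2
        have : i = i' := Fin.ext (by
          simp only [nx] at h6
          split_ifs at h6 <;> omega)
        rw [this]; exact hv
      rw [e1] at h5
      rw [e2] at h6
      refine ⟨h5.symm, ?_⟩
      exact h5.symm.trans (hex.symm.trans h6.symm)
  have hbc := bconst (fun w h1 h2 => (hcl w h1 h2).2) hbK
  have hin : ∀ j ≤ 2 * W.q, g (W.ps j 1) = g 0 := by
    intro j hj
    by_cases hj0 : j = 0
    · subst hj0
      have h5 : g (W.ps 0 0 + 1) = g (W.ps 0 0) := by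
        refine hg.straight _ (ps_lt_K (by omega) (by omega)) fun v hv => nonend0 v ?_
        rintro i' rfl h6
        omega
      rw [← hb0]
      exact h5
    · rw [← (hcl j (by omega) hj).1, hbc j (by omega) (by omega), hb0]
  -- all strands
  intro t ht
  by_cases htK : t = W.K
  · rw [htK, hwrap]
  · have htl : t < (2 * W.q + 1) * (W.s + 2) := lt_of_le_of_ne ht htK
    have hj : t / (W.s + 2) ≤ 2 * W.q := by
      have := (Nat.div_lt_iff_lt_mul (by omega : 0 < W.s + 2)).2 htl
      omega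
    have ho : t % (W.s + 2) < W.s + 2 := Nat.mod_lt _ (by omega)
    have hte : t = W.ps (t / (W.s + 2)) (t % (W.s + 2)) := by
      unfold ps
      rw [mul_comm]
      exact (Nat.div_add_mod t (W.s + 2)).symm
    generalize t / (W.s + 2) = j at hj hte
    generalize t % (W.s + 2) = o at ho hte
    rw [hte]
    by_cases ho0 : o = 0
    · subst ho0
      by_cases hj0 : j = 0
      · subst hj0; exact hb0
      · rw [← hb0]; exact hbc j (by omega) (by omega)
    · obtain ⟨k, hk⟩ : ∃ k, o = 1 + k := ⟨o - 1, by omega⟩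
      obtain ⟨j', hj', hj''⟩ := posn_surj (onP P) (k := k) (by omega) hj
      rw [hk, ← hj'', htr (by omega) hj', hin j' hj']

/-- If all single and double toggles of oriented chords keep `P` nonsingular then the network
realises the shift. -/
theorem shift_of_toggles {P : Finset W.κ} (hNS : NS W.D.M P)
    (h1 : ∀ i : Fin (2 * W.q), NS W.D.M (symmDiff P {Sum.inr i}))
    (h2 : ∀ i j : Fin (2 * W.q), i ≠ j →
      NS W.D.M (symmDiff (symmDiff P {Sum.inr i}) {Sum.inr j})) : W.Shift (onP P) := by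
  classical
  have main : ∀ i : Fin (2 * W.q), W.posn (onP P) W.s (i + 1) = W.nx (i + 1) := by
    intro i
    let Fa : Finset W.κ := Finset.univ.map ⟨Sum.inr, Sum.inr_injective⟩
    have hFa : ∀ v : W.κ, v ∈ Fa ↔ ∃ i, v = Sum.inr i := by
      intro v
      simp only [Fa, Finset.mem_map, Finset.mem_univ, true_and, Function.Embedding.coeFn_mk]
      exact ⟨fun ⟨i, hi⟩ => ⟨i, hi.symm⟩, fun ⟨i, hi⟩ => ⟨i, hi.symm⟩⟩
    obtain ⟨x, hx1, hx2, hx3⟩ := toggles M_symm' (Fa := Fa) hNS (by
      intro v hv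
      obtain ⟨i, rfl⟩ := (hFa v).1 hv
      exact h1 i) (by
      intro v hv w hw hvw
      obtain ⟨i, rfl⟩ := (hFa v).1 hv
      obtain ⟨j, rfl⟩ := (hFa w).1 hw
      exact h2 i j (fun h => hvw (by rw [h]))) (Sum.inr i) ((hFa _).2 ⟨i, rfl⟩)
    have hok := okD (W := W) Finset.univ
    set g := W.D.gx Finset.univ x with hg
    have hg0 : g 0 = 0 := CD.gx_zero _ _
    have hgK : g W.K = 0 := CD.gx_last _ (q_lt_K _)
    have hJp : ∀ v : W.κ, g (W.D.p v + 1) + g (W.D.p v) = x v := fun v =>
      CD.gx_end hok x (Finset.mem_univ v) (Or.inl rfl)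
    have hJq : ∀ v : W.κ, g (W.D.q v + 1) + g (W.D.q v) = x v := fun v =>
      CD.gx_end hok x (Finset.mem_univ v) (Or.inr rfl)
    have hKK : ∀ v : W.κ, g (W.D.p v) + g (W.D.q v) = rowS W.D.M x v + (1 + W.D.a v) * x v :=
      fun v => CD.gx_K hok x (Finset.mem_univ v)
    -- straight positions
    have hstr : ∀ e < W.K, (∀ v : W.κ, x v ≠ 0 → e ≠ W.D.p v ∧ e ≠ W.D.q v) →
        g (e + 1) = g e := by
      intro e he hne
      rw [← f2_add_eq_zero, hg, CD.gx_succ hok]
      refine Finset.sum_eq_zero fun v _ => ?_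
      by_cases hxv : x v = 0
      · rw [hxv]; simp
      · have := hne v hxv
        rw [if_neg]; omega
    have hfa : ∀ v : W.κ, v ∉ Fa → ∃ k, v = Sum.inl k := by
      intro v hv
      cases v with
      | inl k => exact ⟨k, rfl⟩
      | inr i => exact absurd ((hFa _).2 ⟨i, rfl⟩) hv
    have hinl : ∀ k : Fin W.s, (Sum.inl k : W.κ) ∉ Fa := by
      intro k hk
      obtain ⟨i, hi⟩ := (hFa _).1 hk
      cases hi
    have hsw := switch_eqs (W := W) (P := P) (g := g) (fun k hk j hj h1 => by
      refine hstr _ (ps_lt_K hj (by omega)) fun v hv => nonendk hk v ?_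
      rintro k' rfl h2
      apply h1
      have : k' = ⟨k, hk⟩ := Fin.ext h2
      rw [← this]
      by_contra hkP
      exact hv (hx1 _ hkP (hinl _))) (by
      intro k hk
      have ha : W.D.a (Sum.inl k) = 0 := rfl
      have e1 := hJp (Sum.inl k)
      have e2 := hJq (Sum.inl k)
      have e3 := hKK (Sum.inl k)
      have e4 := hx2 _ hk (hinl k)
      rw [e4, ha] at e3
      change g (W.D.p (Sum.inl k)) = g (W.D.q (Sum.inl k) + 1) ∧
        g (W.D.p (Sum.inl k) + 1) = g (W.D.q (Sum.inl k))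
      generalize g (W.D.p (Sum.inl k) + 1) = A at *
      generalize g (W.D.p (Sum.inl k)) = B at *
      generalize g (W.D.q (Sum.inl k) + 1) = A' at *
      generalize g (W.D.q (Sum.inl k)) = B' at *
      generalize x (Sum.inl k) = X at *
      clear e4
      revert A B A' B' X
      decide)
    have htr := fun {j : ℕ} (hj : j ≤ 2 * W.q) => trail hsw (le_refl W.s) (j := j) hj
    let b : ℕ → ZMod 2 := fun j => g (W.ps j 0)
    have hb0 : b 0 = 0 := by
      have : W.ps 0 0 = 0 := by simp [ps]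
      simp only [b, this, hg0]
    have hbK : b (2 * W.q + 1) = b 0 := by
      rw [hb0]
      simp only [b, ← K_eq, hgK]
    have hcl : ∀ w, 1 ≤ w → w ≤ 2 * W.q →
        b w = b (W.nx w + 1) ∧
        g (W.ps w 1) = b w + (if w = (i : ℕ) + 1 then 1 else 0) ∧
        g (W.ps (W.nx w) (W.s + 1)) = b w + (if w = (i : ℕ) + 1 then 1 else 0) := by
      intro w h1 h2
      obtain ⟨i', hi'⟩ : ∃ i' : Fin (2 * W.q), (i' : ℕ) + 1 = w :=
        ⟨⟨w - 1, by omega⟩, by simp; omega⟩
      have hends := fast_ends i'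
      rw [hi'] at hends
      have e1 : W.ps w 0 + 1 = W.ps w 1 := rfl
      have e2 := ps_succ_block (W := W) (W.nx w)
      have hJ1 := hJp (Sum.inr i')
      have hJ2 := hJq (Sum.inr i')
      have hJ3 := hKK (Sum.inr i')
      have ha : W.D.a (Sum.inr i') = 1 := rfl
      obtain ⟨hx4, hx5⟩ := hx3 (Sum.inr i') ((hFa _).2 ⟨i', rfl⟩)
      have hiff : ((Sum.inr i' : W.κ) = Sum.inr i) ↔ w = (i : ℕ) + 1 := by
        constructor
        · intro h; rw [← Sum.inr_injective h, hi']
        · intro h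
          have : i' = i := Fin.ext (by omega)
          rw [this]
      have hx6 : x (Sum.inr i') = if w = (i : ℕ) + 1 then 1 else 0 := by
        rw [hx4]
        by_cases h : w = (i : ℕ) + 1
        · rw [if_pos (hiff.2 h), if_pos h]
        · rw [if_neg (fun h' => h (hiff.1 h')), if_neg h]
      have hx7 : rowS W.D.M x (Sum.inr i') = if w = (i : ℕ) + 1 then 1 else 0 := by
        rw [hx5]
        by_cases h : w = (i : ℕ) + 1
        · rw [if_pos (hiff.2 h), if_pos h]
        · rw [if_neg (fun h' => h (hiff.1 h')), if_neg h]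
      rw [hx6] at hJ1 hJ2 hJ3
      rw [hx7, ha] at hJ3
      generalize (if w = (i : ℕ) + 1 then (1 : ZMod 2) else 0) = X at *
      have h5 : g (W.ps w 0 + 1) + g (W.ps w 0) = X ∧
          g (W.ps (W.nx w) (W.s + 1) + 1) + g (W.ps (W.nx w) (W.s + 1)) = X ∧
          g (W.ps w 0) + g (W.ps (W.nx w) (W.s + 1)) = X + (1 + 1) * X := by
        rcases hends with ⟨h5, h6⟩ | ⟨h5, h6⟩
        · rw [h5] at hJ1 hJ3
          rw [h6] at hJ2 hJ3
          exact ⟨hJ1, hJ2, hJ3⟩
        · rw [h6] at hJ1 hJ3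
          rw [h5] at hJ2 hJ3
          exact ⟨hJ2, hJ1, by rw [add_comm]; exact hJ3⟩
      rw [e1, e2] at h5
      simp only [b]
      clear hJ1 hJ2 hJ3 hx4 hx5 hx6 hx7
      generalize g (W.ps w 0) = A at *
      generalize g (W.ps w 1) = B at *
      generalize g (W.ps (W.nx w) (W.s + 1)) = A' at *
      generalize g (W.ps (W.nx w + 1) 0) = B' at *
      revert X A B A' B'
      decide
    have hbc := bconst (fun w h1 h2 => (hcl w h1 h2).1) hbK
    have hexit0 : g (W.ps (W.nx 0) (W.s + 1)) = 0 := by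
      have hq := W.hq
      have e0 : W.nx 0 = 1 := by unfold nx; rw [if_pos (by omega)]
      have h6 : g (W.ps (W.nx 0) (W.s + 1) + 1) = g (W.ps (W.nx 0) (W.s + 1)) := by
        refine hstr _ (ps_lt_K (nx_le 0) (by omega)) fun v _ => nonend1 v ?_
        rintro i' rfl h6
        have hi2 := i'.2
        rw [e0] at h6
        unfold nx at h6
        split_ifs at h6 <;> omega
      rw [ps_succ_block, e0] at h6
      rw [e0, ← h6]
      exact (hbc 2 (by omega) (by omega)).trans hb0
    -- the exit values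
    have hexit : ∀ j ≤ 2 * W.q, g (W.ps (W.nx j) (W.s + 1)) = 1 → j = i + 1 := by
      intro j hj h1
      by_cases hj0 : j = 0
      · rw [hj0, hexit0] at h1
        exact absurd h1 (by decide)
      · have h2 := (hcl j (by omega) hj).2.2
        rw [hbc j (by omega) (by omega), hb0, h1, zero_add] at h2
        by_contra hne
        rw [if_neg hne] at h2
        exact absurd h2 (by decide)
    have hi2 := i.2
    have h3 := htr (j := (i : ℕ) + 1) (by omega)
    have h4 := (hcl ((i : ℕ) + 1) (by omega) (by omega)).2.1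
    rw [hbc _ (by omega) (by omega), hb0, zero_add, if_pos rfl] at h4
    rw [h4, add_comm 1 W.s] at h3
    -- the final position is the successor of some wire
    have h5 := posn_le (W := W) (onP P) (le_refl W.s) (j := (i : ℕ) + 1) (by omega)
    obtain ⟨j, hj, hj'⟩ : ∃ j ≤ 2 * W.q, W.nx j = W.posn (onP P) W.s ((i : ℕ) + 1) := by
      by_cases h6 : W.posn (onP P) W.s ((i : ℕ) + 1) = 0
      · exact ⟨2 * W.q, le_refl _, by unfold nx; rw [if_neg (by omega), h6]⟩
      · exact ⟨W.posn (onP P) W.s ((i : ℕ) + 1) - 1, by omega, by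
          unfold nx; rw [if_pos (by omega)]; omega⟩
    rw [← hj'] at h3
    rw [← hj', hexit j hj h3]
  intro j hj
  by_cases hj0 : j = 0
  · subst hj0
    have hq := W.hq
    have h5 := posn_le (W := W) (onP P) (le_refl W.s) (j := 0) (by omega)
    have e0 : W.nx 0 = 1 := by unfold nx; rw [if_pos (by omega)]
    rw [e0]
    by_contra hne
    have h6 : ∃ i : Fin (2 * W.q), W.nx (i + 1) = W.posn (onP P) W.s 0 := by
      by_cases h7 : W.posn (onP P) W.s 0 = 0
      · exact ⟨⟨2 * W.q - 1, by omega⟩, by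
          unfold nx; rw [if_neg (by simp only; omega), h7]⟩
      · exact ⟨⟨W.posn (onP P) W.s 0 - 2, by omega⟩, by
          unfold nx; rw [if_pos (by simp only; omega)]; simp only; omega⟩
    obtain ⟨i, hi⟩ := h6
    rw [← main i] at hi
    have := posn_inj (W := W) (onP P) W.s hi
    omega
  · have := main ⟨j - 1, by omega⟩
    simp only at this
    rwa [Nat.sub_add_cancel (by omega)] at this

end Net

end Pool.Agent.TH700
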