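import Mathlib

/-!
# Counting words with multiplicities

A state is a vector `k` of numbers of remaining items of the classes `κ`.  `cnt ok r k` is the
number of ways to remove `r` items one after the other such that all states after a removal
satisfy `ok`.
-/

namespace Pool.Agent.TH700

open Finset

variable {κ : Type*} [DecidableEq κ]

/-- Removal of one item of the class `c`. -/
def dec (k : κ → ℕ) (c : κ) : κ → ℕ := Function.update k c (k c - 1)

theorem dec_self (k : κ → ℕ) (c : κ) : dec k c c = k c - 1 := by simp [dec]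

theorem dec_of_ne (k : κ → ℕ) {c d : κ} (h : d ≠ c) : dec k c d = k d := by simp [dec, h]

theorem le_dec (k : κ → ℕ) (c d : κ) : k d ≤ dec k c d + 1 := by
  by_cases h : d = c
  · subst h; rw [dec_self]; omega
  · rw [dec_of_ne k h]; omega

variable [Fintype κ]

theorem sum_dec (k : κ → ℕ) (c : κ) (h : 1 ≤ k c) : ∑ d, dec k c d + 1 = ∑ d, k d := by
  rw [← Finset.add_sum_erase _ _ (Finset.mem_univ c), ← Finset.add_sum_erase _ k
    (Finset.mem_univ c), dec_self]
  have : ∑ x ∈ Finset.univ.erase c, dec k c x = ∑ x ∈ Finset.univ.erase c, k x :=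
    Finset.sum_congr rfl fun d hd => dec_of_ne k (Finset.ne_of_mem_erase hd)
  rw [this]; omega

open Classical in
/-- The number of ways to remove `r` items, passing only through good states. -/
noncomputable def cnt (ok : (κ → ℕ) → Prop) : ℕ → (κ → ℕ) → ℕ
  | 0, _ => 1
  | r + 1, k => ∑ c, k c * (if ok (dec k c) then cnt ok r (dec k c) else 0)

theorem cnt_le_factorial (ok : (κ → ℕ) → Prop) (t : ℕ) (k : κ → ℕ) (hk : ∑ c, k c = t) :
    cnt ok t k ≤ t.factorial := by
  induction t generalizing k with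
  | zero => simp [cnt]
  | succ t ih =>
    rw [cnt, Nat.factorial_succ, ← hk, Finset.sum_mul]
    refine Finset.sum_le_sum fun c _ => ?_
    by_cases hc : k c = 0
    · rw [hc]; simp
    · refine Nat.mul_le_mul_left _ ?_
      split_ifs
      · exact ih _ (by have := sum_dec k c (by omega); omega)
      · exact Nat.zero_le _

/-- **Upper bound.**  If every good state with enough items of the classes in `Fa` has a single or
double removal of items of `Fa` leading to a bad state, then there are few ways to remove all the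
items. -/
theorem cnt_upper (ok : (κ → ℕ) → Prop) (Fa : Finset κ) (m T : ℕ)
    (hFa : Fa.Nonempty)
    (hbad : ∀ k, ok k → (∀ i ∈ Fa, 2 ≤ k i) → (∃ i ∈ Fa, ¬ ok (dec k i)) ∨
      (∃ i ∈ Fa, ∃ j ∈ Fa, i ≠ j ∧ ¬ ok (dec (dec k i) j))) (r : ℕ) :
    ∀ t k, ∑ c, k c = t → t ≤ T → ok k → (∀ i ∈ Fa, m + 2 * r ≤ k i) →
      cnt ok t k * (T ^ 2) ^ r ≤ t.factorial * (T ^ 2 - m ^ 2) ^ r := by
  classical
  induction r with
  | zero =>
    intro t k hk _ _ _
    simpa using cnt_le_factorial ok t k hk
  | succ r ih =>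
    intro t k hk htT hok hm
    obtain ⟨i0, hi0⟩ := hFa
    have hsum_ge : ∀ i, k i ≤ t := fun i => by
      rw [← hk]; exact Finset.single_le_sum (fun _ _ => Nat.zero_le _) (Finset.mem_univ i)
    have ht2 : m + 2 ≤ t := by
      have := hm i0 hi0; have := hsum_ge i0; omega
    obtain ⟨t', rfl⟩ : ∃ t', t = t' + 2 := ⟨t - 2, by omega⟩
    -- the pair sums
    let f : κ → κ → ℕ := fun c d => k c * dec k c d
    let g : κ → κ → ℕ := fun c d => if ok (dec k c) ∧ ok (dec (dec k c) d) then f c d else 0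
    have hf : ∑ c, ∑ d, f c d = (t' + 2) * (t' + 1) := by
      have : ∀ c, ∑ d, f c d = k c * (t' + 1) := by
        intro c
        simp only [f]
        rw [← Finset.mul_sum]
        by_cases hc : k c = 0
        · rw [hc]; simp
        · congr 1
          have := sum_dec k c (by omega); omega
      simp only [this]
      rw [← Finset.sum_mul, hk]
    have hgf : ∀ c d, g c d ≤ f c d := by
      intro c d; simp only [g]; split_ifs <;> omega
    have hrow : ∀ c, ∑ d, g c d ≤ ∑ d, f c d := fun c => Finset.sum_le_sum fun d _ => hgf c d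
    have hg : ∑ c, ∑ d, g c d + m ^ 2 ≤ (t' + 2) * (t' + 1) := by
      rw [← hf]
      rcases hbad k hok (fun i hi => by have := hm i hi; omega) with ⟨i, hi, hb⟩ | ⟨i, hi, j, hj, hij, hb⟩
      · rw [← Finset.add_sum_erase _ _ (Finset.mem_univ i),
          ← Finset.add_sum_erase _ (fun c => ∑ d, f c d) (Finset.mem_univ i)]
        have h0 : ∑ d, g i d = 0 := Finset.sum_eq_zero fun d _ => by
          simp only [g]; rw [if_neg]; exact fun h => hb h.1
        have h1 : m ^ 2 ≤ ∑ d, f i d := by
          simp only [f]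
          rw [← Finset.mul_sum]
          have h2 := sum_dec k i (by have := hm i hi; omega)
          have h3 := hm i hi
          rw [pow_two]
          exact Nat.mul_le_mul (by omega) (by omega)
        have h2 : ∑ c ∈ Finset.univ.erase i, ∑ d, g c d ≤ ∑ c ∈ Finset.univ.erase i, ∑ d, f c d :=
          Finset.sum_le_sum fun c _ => hrow c
        omega
      · rw [← Finset.add_sum_erase _ _ (Finset.mem_univ i),
          ← Finset.add_sum_erase _ (fun c => ∑ d, f c d) (Finset.mem_univ i)]
        have h1 : ∑ d, g i d + m ^ 2 ≤ ∑ d, f i d := by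
          rw [← Finset.add_sum_erase _ _ (Finset.mem_univ j),
            ← Finset.add_sum_erase _ (f i) (Finset.mem_univ j)]
          have h2 : g i j = 0 := by
            simp only [g]; rw [if_neg]; exact fun h => hb h.2
          have h3 : m ^ 2 ≤ f i j := by
            simp only [f]
            rw [dec_of_ne k (Ne.symm hij), pow_two]
            have h3 := hm i hi
            have h4 := hm j hj
            exact Nat.mul_le_mul (by omega) (by omega)
          have h4 : ∑ d ∈ Finset.univ.erase j, g i d ≤ ∑ d ∈ Finset.univ.erase j, f i d :=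
            Finset.sum_le_sum fun d _ => hgf i d
          omega
        have h2 : ∑ c ∈ Finset.univ.erase i, ∑ d, g c d ≤ ∑ c ∈ Finset.univ.erase i, ∑ d, f c d :=
          Finset.sum_le_sum fun c _ => hrow c
        omega
    -- expansion of cnt
    have hexp : cnt ok (t' + 2) k = ∑ c, ∑ d, (if ok (dec k c) ∧ ok (dec (dec k c) d) then
        f c d * cnt ok t' (dec (dec k c) d) else 0) := by
      rw [cnt]
      refine Finset.sum_congr rfl fun c _ => ?_
      by_cases hc : ok (dec k c)
      · rw [if_pos hc, cnt, Finset.mul_sum]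
        refine Finset.sum_congr rfl fun d _ => ?_
        by_cases hd : ok (dec (dec k c) d)
        · simp only [hd, hc, and_self, if_true, f]; ring
        · simp only [hd, and_false, if_false]; ring
      · simp [hc]
    set D := T ^ 2 with hD
    have hmain : cnt ok (t' + 2) k * D ^ r ≤
        (∑ c, ∑ d, g c d) * (t'.factorial * (D - m ^ 2) ^ r) := by
      rw [hexp, Finset.sum_mul, Finset.sum_mul]
      refine Finset.sum_le_sum fun c _ => ?_
      rw [Finset.sum_mul, Finset.sum_mul]
      refine Finset.sum_le_sum fun d _ => ?_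
      simp only [g]
      split_ifs with hcd
      · by_cases h0 : f c d = 0
        · rw [h0]; simp
        · have hc0 : k c ≠ 0 := by
            intro h; apply h0; simp [f, h]
          have hd0 : dec k c d ≠ 0 := by
            intro h; apply h0; simp [f, h]
          have h1 := sum_dec k c (by omega)
          have h2 := sum_dec (dec k c) d (by omega)
          rw [mul_assoc]
          refine Nat.mul_le_mul_left _ ?_
          refine ih t' _ (by omega) (by omega) hcd.2 fun i hi => ?_
          have h3 := le_dec k c i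
          have h4 := le_dec (dec k c) d i
          have h5 := hm i hi
          omega
      · simp
    have hmT : m ^ 2 ≤ D := by
      rw [hD]; exact Nat.pow_le_pow_left (by omega) 2
    have htD : (t' + 2) * (t' + 1) ≤ D := by
      rw [hD, pow_two]; exact Nat.mul_le_mul (by omega) (by omega)
    have hfin : (∑ c, ∑ d, g c d) * D ≤ ((t' + 2) * (t' + 1)) * (D - m ^ 2) := by
      generalize (∑ c, ∑ d, g c d) = G at *
      generalize (t' + 2) * (t' + 1) = E at *
      generalize m ^ 2 = b at *
      obtain ⟨x, rfl⟩ := Nat.exists_eq_add_of_le hg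
      obtain ⟨y, hy⟩ := Nat.exists_eq_add_of_le hmT
      rw [hy, Nat.add_sub_cancel_left]
      rw [hy] at htD
      nlinarith [Nat.zero_le (x * y), Nat.zero_le (x * b), Nat.zero_le (G * y)]
    calc cnt ok (t' + 2) k * D ^ (r + 1) = (cnt ok (t' + 2) k * D ^ r) * D := by ring
      _ ≤ ((∑ c, ∑ d, g c d) * (t'.factorial * (D - m ^ 2) ^ r)) * D :=
          Nat.mul_le_mul_right _ hmain
      _ = ((∑ c, ∑ d, g c d) * D) * (t'.factorial * (D - m ^ 2) ^ r) := by ring
      _ ≤ (((t' + 2) * (t' + 1)) * (D - m ^ 2)) * (t'.factorial * (D - m ^ 2) ^ r) :=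
          Nat.mul_le_mul_right _ hfin
      _ = (t' + 2).factorial * (D - m ^ 2) ^ (r + 1) := by
          rw [Nat.factorial_succ, Nat.factorial_succ]; ring

theorem cnt_step (ok : (κ → ℕ) → Prop) (r : ℕ) (k : κ → ℕ) (c : κ) (h : 1 ≤ k c)
    (hok : ok (dec k c)) : cnt ok r (dec k c) ≤ cnt ok (r + 1) k := by
  classical
  rw [cnt]
  calc cnt ok r (dec k c) ≤ k c * (if ok (dec k c) then cnt ok r (dec k c) else 0) := by
        rw [if_pos hok]; exact Nat.le_mul_of_pos_left _ h
    _ ≤ _ := Finset.single_le_sum (f := fun c => k c * (if ok (dec k c) then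
        cnt ok r (dec k c) else 0)) (fun _ _ => Nat.zero_le _) (Finset.mem_univ c)

omit [Fintype κ] in
/-- The number of occurrences of a letter. -/
def wc (w : List κ) (c : κ) : ℕ := (w.filter (fun d => decide (d = c))).length

omit [Fintype κ] in
theorem wc_nil (c : κ) : wc [] c = 0 := rfl

omit [Fintype κ] in
theorem wc_cons (a : κ) (w : List κ) (c : κ) :
    wc (a :: w) c = (if a = c then 1 else 0) + wc w c := by
  unfold wc
  by_cases h : a = c
  · simp [h]; omega
  · simp [h]

omit [Fintype κ] in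
theorem wc_append (w w' : List κ) (c : κ) : wc (w ++ w') c = wc w c + wc w' c := by
  simp [wc]

omit [Fintype κ] in
theorem wc_reverse (w : List κ) (c : κ) : wc w.reverse c = wc w c := by
  simp [wc, List.filter_reverse]

omit [Fintype κ] in
theorem wc_pos {w : List κ} {c : κ} : 0 < wc w c ↔ c ∈ w := by
  unfold wc
  rw [List.length_pos_iff_exists_mem]
  simp

omit [Fintype κ] in
theorem wc_nodup {w : List κ} (h : w.Nodup) (c : κ) : wc w c = if c ∈ w then 1 else 0 := by
  induction w with
  | nil => simp [wc]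
  | cons a w ih =>
    rw [List.nodup_cons] at h
    rw [wc_cons, ih h.2]
    by_cases h1 : a = c
    · subst h1
      simp [h.1]
    · have : ¬ c = a := fun h' => h1 h'.symm
      simp [h1, this]

omit [Fintype κ] in
theorem wc_take_le (w : List κ) (j : ℕ) (c : κ) : wc (w.take j) c ≤ wc w c := by
  conv_rhs => rw [← List.take_append_drop j w, wc_append]
  omega

omit [Fintype κ] in
/-- Removal of a word. -/
def subw (k : κ → ℕ) (w : List κ) (c : κ) : ℕ := k c - wc w c

omit [Fintype κ] in
theorem subw_cons (k : κ → ℕ) (a : κ) (w : List κ) : subw k (a :: w) = subw (dec k a) w := by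
  funext c
  simp only [subw, wc_cons]
  by_cases h : c = a
  · subst h
    rw [dec_self]; simp; omega
  · rw [dec_of_ne k h]
    have : ¬ a = c := fun h' => h h'.symm
    simp [this]

omit [Fintype κ] in
theorem subw_nil (k : κ → ℕ) : subw k [] = k := by
  funext c; simp [subw, wc]

theorem cnt_word (ok : (κ → ℕ) → Prop) (w : List κ) : ∀ (r : ℕ) (k : κ → ℕ),
    (∀ c, wc w c ≤ k c) → (∀ j, 1 ≤ j → j ≤ w.length → ok (subw k (w.take j))) →
    cnt ok r (subw k w) ≤ cnt ok (r + w.length) k := by
  induction w with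
  | nil => intro r k _ _; rw [subw_nil]; simp
  | cons a w ih =>
    intro r k hc hok
    have ha : 1 ≤ k a := by
      have := hc a
      rw [wc_cons, if_pos rfl] at this; omega
    have h1 := ih r (dec k a) (by
      intro c
      have := hc c
      rw [wc_cons] at this
      by_cases h : c = a
      · subst h
        rw [if_pos rfl] at this
        rw [dec_self]; omega
      · rw [dec_of_ne k h]
        rw [if_neg (fun h' => h h'.symm)] at this
        omega) (by
      intro j hj1 hj2
      have := hok (j + 1) (by omega) (by simpa using hj2)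
      rw [List.take_succ_cons, subw_cons] at this
      exact this)
    have h2 := hok 1 (le_refl _) (by simp)
    rw [List.take_succ_cons, subw_cons, List.take_zero, subw_nil] at h2
    rw [subw_cons, List.length_cons, ← add_assoc]
    exact h1.trans (cnt_step ok _ k a ha h2)

/-- **Lower bound.** -/
theorem cnt_mid (ok : (κ → ℕ) → Prop) (Fa : Finset κ) (kb : κ → ℕ)
    (hok : ∀ e : κ → ℕ, (∀ c, c ∉ Fa → e c = 0) → ok (fun c => kb c + e c)) (r : ℕ) :
    ∀ (n : ℕ) (e : κ → ℕ), (∀ c, c ∉ Fa → e c = 0) → ∑ c, e c = n →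
      n.factorial * cnt ok r kb ≤ cnt ok (r + n) (fun c => kb c + e c) := by
  classical
  intro n
  induction n with
  | zero =>
    intro e he hn
    have : (fun c => kb c + e c) = kb := by
      funext c
      have := (Finset.sum_eq_zero_iff.1 hn) c (Finset.mem_univ c)
      omega
    rw [this]; simp
  | succ n ih =>
    intro e he hn
    rw [← add_assoc, cnt, Nat.factorial_succ, ← hn, mul_assoc, Finset.sum_mul]
    refine Finset.sum_le_sum fun c _ => ?_
    by_cases hc : e c = 0
    · rw [hc]; simp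
    · have hdec : dec (fun c => kb c + e c) c = fun d => kb d + dec e c d := by
        funext d
        by_cases h : d = c
        · subst h; rw [dec_self, dec_self]; omega
        · rw [dec_of_ne _ h, dec_of_ne _ h]
      have hde : ∀ d, d ∉ Fa → dec e c d = 0 := by
        intro d hd
        by_cases h : d = c
        · subst h; rw [dec_self, he d hd]
        · rw [dec_of_ne _ h, he d hd]
      rw [hdec, if_pos (hok _ hde)]
      refine Nat.mul_le_mul (Nat.le_add_left _ _) ?_
      exact ih _ hde (by have := sum_dec e c (by omega); omega)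

/-- Numerical comparison. -/
theorem two_mul_pow_le (y : ℕ) : 2 * y ^ (y + 1) ≤ (y + 1) ^ (y + 1) := by
  rcases Nat.eq_zero_or_pos y with rfl | hy
  · simp
  · have h := one_add_mul_le_pow (R := ℝ) (a := 1 / (y : ℝ)) (by
      have : (0 : ℝ) ≤ 1 / (y : ℝ) := by positivity
      linarith) (y + 1)
    have hy' : (0 : ℝ) < y := by exact_mod_cast hy
    have h1 : (2 : ℝ) ≤ (1 + 1 / (y : ℝ)) ^ (y + 1) := by
      refine le_trans ?_ h
      have : ((y + 1 : ℕ) : ℝ) * (1 / (y : ℝ)) = 1 + 1 / y := by
        push_cast; field_simp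
      rw [this]
      have : (0 : ℝ) ≤ 1 / (y : ℝ) := by positivity
      linarith
    have h2 : (2 : ℝ) * (y : ℝ) ^ (y + 1) ≤ ((y : ℝ) + 1) ^ (y + 1) := by
      have h3 : ((y : ℝ) + 1) ^ (y + 1) = (1 + 1 / (y : ℝ)) ^ (y + 1) * (y : ℝ) ^ (y + 1) := by
        rw [← mul_pow]
        congr 1
        field_simp
      rw [h3]
      exact mul_le_mul_of_nonneg_right h1 (by positivity)
    exact_mod_cast h2

theorem numeric (w T u : ℕ) (hw : 1 ≤ w) (hu : u ≤ w) (hT : T ≤ 256 * w ^ 5)
    (hT' : 128 * w ^ 4 ≤ T) :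
    4 * T ^ u * (T ^ 2 - (128 * w ^ 4) ^ 2) ^ (64 * w ^ 4) ≤ (T ^ 2) ^ (64 * w ^ 4) := by
  set D := T ^ 2 with hD
  set b := (128 * w ^ 4) ^ 2 with hb
  have hbD : b ≤ D := Nat.pow_le_pow_left hT' 2
  -- 4 w^2 b ≥ D
  have h4 : D ≤ 4 * w ^ 2 * b := by
    calc D ≤ (256 * w ^ 5) ^ 2 := Nat.pow_le_pow_left hT 2
      _ = 4 * w ^ 2 * b := by rw [hb]; ring
  obtain ⟨y, hy⟩ : ∃ y, 4 * w ^ 2 = y + 1 := ⟨4 * w ^ 2 - 1, by
    have : 1 ≤ w ^ 2 := Nat.one_le_pow _ _ hw
    omega⟩
  have h5 : (D - b) * (y + 1) ≤ D * y := by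
    rw [hy] at h4
    obtain ⟨z, hz⟩ := Nat.exists_eq_add_of_le hbD
    rw [hz, Nat.add_sub_cancel_left]
    rw [hz] at h4
    nlinarith
  have h6 := two_mul_pow_le y
  -- exponent
  have hexp : 64 * w ^ 4 = (y + 1) * (16 * w ^ 2) := by rw [← hy]; ring
  have h7 : 2 ^ (16 * w ^ 2) * y ^ (64 * w ^ 4) ≤ (y + 1) ^ (64 * w ^ 4) := by
    calc 2 ^ (16 * w ^ 2) * y ^ (64 * w ^ 4)
        = (2 * y ^ (y + 1)) ^ (16 * w ^ 2) := by rw [hexp, mul_pow, ← pow_mul]
      _ ≤ ((y + 1) ^ (y + 1)) ^ (16 * w ^ 2) := Nat.pow_le_pow_left h6 _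
      _ = (y + 1) ^ (64 * w ^ 4) := by rw [hexp, ← pow_mul]
  have h8 : ((D - b) * (y + 1)) ^ (64 * w ^ 4) ≤ (D * y) ^ (64 * w ^ 4) :=
    Nat.pow_le_pow_left h5 _
  rw [mul_pow, mul_pow] at h8
  have h9 : 4 * T ^ u ≤ 2 ^ (16 * w ^ 2) := by
    have h10 : T ^ u ≤ (256 * w ^ 5) ^ w := by
      calc T ^ u ≤ (256 * w ^ 5) ^ u := Nat.pow_le_pow_left hT u
        _ ≤ (256 * w ^ 5) ^ w := Nat.pow_le_pow_right (by positivity) hu
    have h11 : 256 * w ^ 5 ≤ 2 ^ (8 + 5 * w) := by
      rw [pow_add]
      have : w ^ 5 ≤ 2 ^ (5 * w) := by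
        rw [mul_comm, pow_mul]
        exact Nat.pow_le_pow_left Nat.lt_two_pow_self.le 5
      exact Nat.mul_le_mul (by norm_num) this
    calc 4 * T ^ u ≤ 4 * (2 ^ (8 + 5 * w)) ^ w :=
          Nat.mul_le_mul_left _ (h10.trans (Nat.pow_le_pow_left h11 w))
      _ = 2 ^ (2 + (8 + 5 * w) * w) := by
          rw [← pow_mul, pow_add 2 2]; norm_num
      _ ≤ 2 ^ (16 * w ^ 2) := Nat.pow_le_pow_right (by norm_num) (by nlinarith)
  have hypos : 0 < (y + 1) ^ (64 * w ^ 4) := by positivity
  refine Nat.le_of_mul_le_mul_right ?_ hypos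
  calc 4 * T ^ u * (D - b) ^ (64 * w ^ 4) * (y + 1) ^ (64 * w ^ 4)
      = 4 * T ^ u * ((D - b) ^ (64 * w ^ 4) * (y + 1) ^ (64 * w ^ 4)) := by ring
    _ ≤ 4 * T ^ u * (D ^ (64 * w ^ 4) * y ^ (64 * w ^ 4)) := Nat.mul_le_mul_left _ h8
    _ ≤ 2 ^ (16 * w ^ 2) * (D ^ (64 * w ^ 4) * y ^ (64 * w ^ 4)) := Nat.mul_le_mul_right _ h9
    _ = D ^ (64 * w ^ 4) * (2 ^ (16 * w ^ 2) * y ^ (64 * w ^ 4)) := by ring
    _ ≤ D ^ (64 * w ^ 4) * (y + 1) ^ (64 * w ^ 4) := Nat.mul_le_mul_left _ h7

/-- Final comparison of the bad and of all sequences. -/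
theorem final_ratio {bad total T Tm u D b r : ℕ} (h1 : bad * D ^ r ≤ T.factorial * (D - b) ^ r)
    (h2 : Tm.factorial ≤ total) (hT : T = Tm + u) (h3 : 4 * T ^ u * (D - b) ^ r ≤ D ^ r)
    (hD : 0 < D) : 4 * bad ≤ total := by
  have h4 : T.factorial ≤ Tm.factorial * T ^ u := by
    have := Nat.factorial_mul_descFactorial (n := T) (k := u) (by omega)
    rw [← this]
    have e : T - u = Tm := by omega
    rw [e]
    exact Nat.mul_le_mul_left _ (Nat.descFactorial_le_pow _ _)
  have hpos : 0 < D ^ r := by positivity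
  refine Nat.le_of_mul_le_mul_right ?_ hpos
  calc 4 * bad * D ^ r = 4 * (bad * D ^ r) := by ring
    _ ≤ 4 * (T.factorial * (D - b) ^ r) := Nat.mul_le_mul_left _ h1
    _ ≤ 4 * ((Tm.factorial * T ^ u) * (D - b) ^ r) :=
        Nat.mul_le_mul_left _ (Nat.mul_le_mul_right _ h4)
    _ = Tm.factorial * (4 * T ^ u * (D - b) ^ r) := by ring
    _ ≤ Tm.factorial * D ^ r := Nat.mul_le_mul_left _ h3
    _ ≤ total * D ^ r := Nat.mul_le_mul_right _ h2

end Pool.Agent.TH700
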