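import Pool.Agent.TH700.Chord

/-!
# Reversals and breakpoint graphs with short cycles

Points: for `0 ≤ e ≤ n` the integer `e` is the right end of the element `e`, and `-1 - e` is the
left end of the element `e + 1`.  `C : Cyc n` describes a signed permutation all of whose
breakpoint cycles have length at most two: `χ` pairs the desired adjacencies.  For a set `Q` of
cycles not yet resolved, `bet Q` is the involution of the points given by the current adjacencies.
-/

namespace Pool.Agent.TH700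

open Finset

/-- A breakpoint graph with cycles of length at most two. -/
structure Cyc (n : ℕ) where
  /-- the partner of a desired adjacency -/
  χ : ℕ → ℕ
  /-- orientation -/
  o : ℕ → Bool
  le : ∀ e ≤ n, χ e ≤ n
  inv : ∀ e ≤ n, χ (χ e) = e
  oχ : ∀ e ≤ n, o (χ e) = o e

/-- The index of a point. -/
def idx (x : ℤ) : ℕ := if 0 ≤ x then x.toNat else (-1 - x).toNat

theorem idx_nat (e : ℕ) : idx (e : ℤ) = e := by simp [idx]

theorem idx_neg (e : ℕ) : idx (-1 - (e : ℤ)) = e := by
  unfold idx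
  rw [if_neg (by omega)]
  omega

theorem point_cases (x : ℤ) : x = (idx x : ℤ) ∨ x = -1 - (idx x : ℤ) := by
  unfold idx
  split_ifs with h <;> omega

theorem idx_gamma (x : ℤ) : idx (-1 - x) = idx x := by
  rcases point_cases x with h | h
  · rw [h, idx_neg, idx_nat]
  · have : -1 - x = (idx x : ℤ) := by omega
    rw [this, idx_nat]

namespace Cyc

variable {n : ℕ} (C : Cyc n)

/-- The label of the cycle containing a desired adjacency. -/
def lab (e : ℕ) : ℕ := min e (C.χ e)

/-- The labels of the cycles of length two. -/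
def V : Finset ℕ := (range (n + 1)).filter (fun e => e < C.χ e)

/-- The chord diagram. -/
def D : CD ℕ := ⟨fun e => e, C.χ, fun e => if C.o e then 1 else 0⟩

/-- The partner of a right end. -/
def bR (Q : Finset ℕ) (e : ℕ) : ℤ :=
  if C.lab e ∈ Q then (if C.o e then (C.χ e : ℤ) else -1 - (C.χ e : ℤ)) else -1 - (e : ℤ)

/-- The current partner of a point. -/
def bet (Q : Finset ℕ) (x : ℤ) : ℤ :=
  if 0 ≤ x then C.bR Q x.toNat else -1 - C.bR Q (-1 - x).toNat

variable {C}

theorem bet_nat (Q : Finset ℕ) (e : ℕ) : C.bet Q (e : ℤ) = C.bR Q e := by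
  simp [bet]

theorem bet_neg (Q : Finset ℕ) (e : ℕ) : C.bet Q (-1 - (e : ℤ)) = -1 - C.bR Q e := by
  unfold bet
  rw [if_neg (by omega)]
  congr 2
  omega

theorem bet_gamma (Q : Finset ℕ) (x : ℤ) : C.bet Q (-1 - x) = -1 - C.bet Q x := by
  rcases point_cases x with h | h
  · rw [h, bet_neg, bet_nat]
  · have : -1 - x = (idx x : ℤ) := by omega
    rw [this, bet_nat]
    conv_rhs => rw [h, bet_neg]
    ring

theorem lab_chi {e : ℕ} (he : e ≤ n) : C.lab (C.χ e) = C.lab e := by
  simp only [lab]; rw [C.inv e he, min_comm]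

theorem mem_V {v : ℕ} : v ∈ C.V ↔ v ≤ n ∧ v < C.χ v := by
  simp only [V, mem_filter, mem_range, Nat.lt_succ_iff]

theorem lab_of_V {v : ℕ} (hv : v ∈ C.V) : C.lab v = v := by
  have := (mem_V.1 hv).2
  simp only [lab]; omega

theorem chi_ne {Q : Finset ℕ} (hQ : Q ⊆ C.V) {e : ℕ} (h : C.lab e ∈ Q) : C.χ e ≠ e := by
  intro h1
  have h2 := (mem_V.1 (hQ h)).2
  simp only [lab, h1, min_self] at h2
  omega

/-- If the label of `e` is `v` then `e` is one of the two ends. -/
theorem ends_of_lab {e v : ℕ} (he : e ≤ n) (h : C.lab e = v) : e = v ∨ e = C.χ v := by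
  simp only [lab] at h
  rcases le_total e (C.χ e) with h1 | h1
  · left; omega
  · right
    have : C.χ e = v := by omega
    rw [← this, C.inv e he]

theorem idx_bR (Q : Finset ℕ) (e : ℕ) :
    idx (C.bR Q e) = if C.lab e ∈ Q then C.χ e else e := by
  unfold bR
  split_ifs
  · exact idx_nat _
  · exact idx_neg _
  · exact idx_neg _

theorem idx_bet (Q : Finset ℕ) (x : ℤ) :
    idx (C.bet Q x) = if C.lab (idx x) ∈ Q then C.χ (idx x) else idx x := by
  rcases point_cases x with h | h
  · have : C.bet Q x = C.bR Q (idx x) := by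
      conv_lhs => rw [h]
      exact bet_nat _ _
    rw [this, idx_bR]
  · have : C.bet Q x = -1 - C.bR Q (idx x) := by
      conv_lhs => rw [h]
      exact bet_neg _ _
    rw [this, idx_gamma, idx_bR]

theorem idx_bet_le {Q : Finset ℕ} {x : ℤ} (hx : idx x ≤ n) : idx (C.bet Q x) ≤ n := by
  rw [idx_bet]
  split_ifs
  · exact C.le _ hx
  · exact hx

theorem lab_bet {Q : Finset ℕ} {x : ℤ} (hx : idx x ≤ n) :
    C.lab (idx (C.bet Q x)) = C.lab (idx x) := by
  rw [idx_bet]
  split_ifs
  · exact lab_chi hx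
  · rfl

theorem bR_bR {Q : Finset ℕ} {e : ℕ} (he : e ≤ n) : C.bet Q (C.bR Q e) = (e : ℤ) := by
  unfold bR
  by_cases h : C.lab e ∈ Q
  · have h' : C.lab (C.χ e) ∈ Q := by rw [lab_chi he]; exact h
    rw [if_pos h]
    by_cases ho : C.o e
    · rw [if_pos ho, bet_nat]
      unfold bR
      rw [if_pos h', C.oχ e he, if_pos ho, C.inv e he]
    · rw [if_neg ho, bet_neg]
      unfold bR
      rw [if_pos h', C.oχ e he, if_neg ho, C.inv e he]
      ring
  · rw [if_neg h, bet_neg]
    unfold bR
    rw [if_neg h]; ring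

theorem bet_bet {Q : Finset ℕ} {x : ℤ} (hx : idx x ≤ n) : C.bet Q (C.bet Q x) = x := by
  rcases point_cases x with h | h
  · have h1 : C.bet Q x = C.bR Q (idx x) := by
      conv_lhs => rw [h]
      exact bet_nat _ _
    rw [h1, bR_bR hx, ← h]
  · have h1 : C.bet Q x = -1 - C.bR Q (idx x) := by
      conv_lhs => rw [h]
      exact bet_neg _ _
    rw [h1, bet_gamma, bR_bR hx, ← h]

theorem bet_ne {Q : Finset ℕ} (hQ : Q ⊆ C.V) {x : ℤ} (h : C.lab (idx x) ∈ Q) :
    C.bet Q x ≠ -1 - x := by
  intro h1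
  have h2 := idx_bet (C := C) Q x
  rw [h1, idx_gamma, if_pos h] at h2
  exact chi_ne hQ h h2.symm

theorem bet_not_mem {Q : Finset ℕ} {x : ℤ} (h : C.lab (idx x) ∉ Q) : C.bet Q x = -1 - x := by
  rcases point_cases x with h1 | h1
  · have h2 : C.bet Q x = C.bR Q (idx x) := by
      conv_lhs => rw [h1]
      exact bet_nat _ _
    rw [h2]
    unfold bR
    rw [if_neg h]; omega
  · have h2 : C.bet Q x = -1 - C.bR Q (idx x) := by
      conv_lhs => rw [h1]
      exact bet_neg _ _
    rw [h2]
    unfold bR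
    rw [if_neg h]; omega

theorem bR_erase {Q : Finset ℕ} {v e : ℕ} (h : C.lab e ≠ v) :
    C.bR (Q.erase v) e = C.bR Q e := by
  unfold bR
  simp only [Finset.mem_erase, ne_eq, h, not_false_eq_true, true_and]

theorem bet_erase {Q : Finset ℕ} {v : ℕ} {x : ℤ} (h : C.lab (idx x) ≠ v) :
    C.bet (Q.erase v) x = C.bet Q x := by
  rcases point_cases x with h1 | h1
  · have h2 : ∀ Q, C.bet Q x = C.bR Q (idx x) := by
      intro Q
      conv_lhs => rw [h1]
      exact bet_nat _ _
    rw [h2, h2, bR_erase h]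
  · have h2 : ∀ Q, C.bet Q x = -1 - C.bR Q (idx x) := by
      intro Q
      conv_lhs => rw [h1]
      exact bet_neg _ _
    rw [h2, h2, bR_erase h]

theorem bet_erase_self {Q : Finset ℕ} {v : ℕ} {x : ℤ} (h : C.lab (idx x) = v) :
    C.bet (Q.erase v) x = -1 - x := bet_not_mem (by rw [h]; exact Finset.notMem_erase _ _)

/-- The points with the label of `x`. -/
theorem same_lab {Q : Finset ℕ} {x y : ℤ} (hx : idx x ≤ n) (hy : idx y ≤ n)
    (hQ : C.lab (idx x) ∈ Q) (h : C.lab (idx y) = C.lab (idx x)) :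
    y = x ∨ y = -1 - x ∨ y = C.bet Q x ∨ y = -1 - C.bet Q x := by
  have h1 : idx y = idx x ∨ idx y = C.χ (idx x) := by
    rcases ends_of_lab (C := C) (v := C.lab (idx x)) hx rfl with h2 | h2
    · rcases ends_of_lab hy h with h3 | h3
      · left; omega
      · right; rw [h3, ← h2]
    · rcases ends_of_lab hy h with h3 | h3
      · right
        have hl : C.lab (idx x) ≤ n := le_trans (min_le_left (idx x) (C.χ (idx x))) hx
        rw [h3]
        conv_rhs => rw [h2]
        rw [C.inv _ hl]
      · left; omega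
  rcases h1 with h1 | h1
  · rcases point_cases x with h2 | h2 <;> rcases point_cases y with h3 | h3 <;> omega
  · have h4 : idx y = idx (C.bet Q x) := by rw [idx_bet, if_pos hQ]; exact h1
    rcases point_cases (C.bet Q x) with h2 | h2 <;> rcases point_cases y with h3 | h3 <;> omega

theorem okV : C.D.Ok C.V where
  lt := fun v hv => (mem_V.1 hv).2
  ne := by
    intro u hu v hv huv
    obtain ⟨hu1, hu2⟩ := mem_V.1 hu
    obtain ⟨hv1, hv2⟩ := mem_V.1 hv
    refine ⟨huv, ?_, ?_, ?_⟩
    · intro h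
      change u = C.χ v at h
      rw [h, C.inv v hv1] at hu2
      omega
    · intro h
      change C.χ u = v at h
      rw [← h, C.inv u hu1] at hv2
      omega
    · intro h
      change C.χ u = C.χ v at h
      apply huv
      rw [← C.inv u hu1, h, C.inv v hv1]

theorem okQ {Q : Finset ℕ} (hQ : Q ⊆ C.V) : C.D.Ok Q :=
  ⟨fun v hv => okV.lt v (hQ hv), fun u hu v hv => okV.ne u (hQ hu) v (hQ hv)⟩

theorem q_lt {Q : Finset ℕ} (hQ : Q ⊆ C.V) : ∀ v ∈ Q, C.D.q v < n + 1 := fun v hv =>
  Nat.lt_succ_of_le (C.le v (mem_V.1 (hQ hv)).1)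

theorem sys_of_bet {Q : Finset ℕ} (hQ : Q ⊆ C.V) {g : ℕ → ZMod 2}
    (h : ∀ x, idx x ≤ n → g x.natAbs = g (C.bet Q x).natAbs) : C.D.Sys (n + 1) Q g := by
  have hR : ∀ e ≤ n, g e = g (C.bR Q e).natAbs := by
    intro e he
    have := h (e : ℤ) (by rw [idx_nat]; exact he)
    rw [bet_nat] at this
    simpa using this
  have hL : ∀ e ≤ n, g (e + 1) = g (-1 - C.bR Q e).natAbs := by
    intro e he
    have := h (-1 - (e : ℤ)) (by rw [idx_neg]; exact he)
    rw [bet_neg] at this
    rw [← this]; congr 1; omega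
  refine ⟨fun e he hne => ?_, fun v hv ho => ?_, fun v hv ho => ?_⟩
  · have hlab : C.lab e ∉ Q := by
      intro hl
      obtain ⟨h1, h2⟩ := hne _ hl
      rcases ends_of_lab (C := C) (Nat.lt_succ_iff.1 he) rfl with h3 | h3
      · exact h1 h3
      · exact h2 h3
    rw [hR e (by omega)]
    unfold bR
    rw [if_neg hlab]
    congr 1; omega
  · have hvn := (mem_V.1 (hQ hv)).1
    have ho' : C.o v = true := by
      by_contra hc
      simp [D, hc] at ho
    have hl : C.lab v ∈ Q := by rw [lab_of_V (hQ hv)]; exact hv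
    have hb : C.bR Q v = (C.χ v : ℤ) := by unfold bR; rw [if_pos hl, if_pos ho']
    refine ⟨?_, ?_⟩
    · change g v = g (C.χ v)
      rw [hR v hvn, hb]; simp
    · change g (v + 1) = g (C.χ v + 1)
      rw [hL v hvn, hb]; congr 1; omega
  · have hvn := (mem_V.1 (hQ hv)).1
    have ho' : ¬ C.o v = true := by
      intro hc
      simp [D, hc] at ho
    have hl : C.lab v ∈ Q := by rw [lab_of_V (hQ hv)]; exact hv
    have hb : C.bR Q v = -1 - (C.χ v : ℤ) := by unfold bR; rw [if_pos hl, if_neg ho']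
    refine ⟨?_, ?_⟩
    · change g v = g (C.χ v + 1)
      rw [hR v hvn, hb]; congr 1; omega
    · change g (v + 1) = g (C.χ v)
      rw [hL v hvn, hb]; congr 1; omega

theorem bet_of_sys {Q : Finset ℕ} (hQ : Q ⊆ C.V) {g : ℕ → ZMod 2} (h : C.D.Sys (n + 1) Q g) :
    ∀ x, idx x ≤ n → g x.natAbs = g (C.bet Q x).natAbs := by
  have key : ∀ e ≤ n, g e = g (C.bR Q e).natAbs ∧ g (e + 1) = g (-1 - C.bR Q e).natAbs := by
    intro e he
    by_cases hl : C.lab e ∈ Q
    · have hlV := hQ hl
      set v := C.lab e with hv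
      have hvn := (mem_V.1 hlV).1
      have hbR : C.bR Q e = if C.o e then (C.χ e : ℤ) else -1 - (C.χ e : ℤ) := by
        unfold bR; rw [if_pos hl]
      rw [hbR]
      rcases ends_of_lab he hv.symm with h1 | h1
      · rw [h1]
        by_cases ho : C.o v = true
        · obtain ⟨h2, h3⟩ := h.ori v hl (by simp [D, ho])
          rw [if_pos ho]
          refine ⟨?_, ?_⟩
          · change g v = g (C.χ v) at h2
            rw [h2]; simp
          · change g (v + 1) = g (C.χ v + 1) at h3
            rw [h3]; congr 1; omega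
        · obtain ⟨h2, h3⟩ := h.uno v hl (by simp [D, ho])
          rw [if_neg ho]
          refine ⟨?_, ?_⟩
          · change g v = g (C.χ v + 1) at h2
            rw [h2]; congr 1; omega
          · change g (v + 1) = g (C.χ v) at h3
            rw [h3]; congr 1; omega
      · have ho' : C.o e = C.o v := by rw [h1, C.oχ v hvn]
        have hχ : C.χ e = v := by rw [h1, C.inv v hvn]
        rw [hχ, ho', h1]
        by_cases ho : C.o v = true
        · obtain ⟨h2, h3⟩ := h.ori v hl (by simp [D, ho])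
          rw [if_pos ho]
          refine ⟨?_, ?_⟩
          · change g v = g (C.χ v) at h2
            rw [← h2]; simp
          · change g (v + 1) = g (C.χ v + 1) at h3
            rw [← h3]; congr 1; omega
        · obtain ⟨h2, h3⟩ := h.uno v hl (by simp [D, ho])
          rw [if_neg ho]
          refine ⟨?_, ?_⟩
          · change g (v + 1) = g (C.χ v) at h3
            rw [← h3]; congr 1; omega
          · change g v = g (C.χ v + 1) at h2
            rw [← h2]; congr 1; omega
    · have h1 := h.straight e (by omega) (by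
        intro w hw
        have hwV := hQ hw
        refine ⟨?_, ?_⟩
        · intro h2
          change e = w at h2
          apply hl
          rw [h2, lab_of_V hwV]; exact hw
        · intro h2
          change e = C.χ w at h2
          apply hl
          rw [h2, lab_chi (mem_V.1 hwV).1, lab_of_V hwV]; exact hw)
      unfold bR
      rw [if_neg hl]
      refine ⟨?_, ?_⟩
      · rw [← h1]; congr 1; omega
      · rw [h1]; congr 1; omega
  intro x hx
  obtain ⟨h1, h2⟩ := key _ hx
  rcases point_cases x with h3 | h3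
  · have h4 : C.bet Q x = C.bR Q (idx x) := by
      conv_lhs => rw [h3]
      exact bet_nat _ _
    rw [h4, ← h1]; congr 1; omega
  · have h4 : C.bet Q x = -1 - C.bR Q (idx x) := by
      conv_lhs => rw [h3]
      exact bet_neg _ _
    rw [h4, ← h2]; congr 1; omega

/-- The list `L 0, …, L (n + 1)` is a signed permutation whose adjacencies are described by `Q`. -/
structure Inv (C : Cyc n) (Q : Finset ℕ) (L : ℕ → ℤ) : Prop where
  z : L 0 = 0
  e : L (n + 1) = n + 1
  inj : ∀ p ≤ n + 1, ∀ q ≤ n + 1, (L p).natAbs = (L q).natAbs → p = q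
  bd : ∀ p ≤ n + 1, (L p).natAbs ≤ n + 1
  adj : ∀ p ≤ n, C.bet Q (L p) = -L (p + 1)

namespace Inv

variable {Q : Finset ℕ} {L : ℕ → ℤ}

theorem surj (h : Inv C Q L) {t : ℕ} (ht : t ≤ n + 1) : ∃ p ≤ n + 1, (L p).natAbs = t := by
  let f : Fin (n + 2) → Fin (n + 2) := fun p =>
    ⟨(L p).natAbs, Nat.lt_succ_of_le (h.bd p (Nat.lt_succ_iff.1 p.2))⟩
  have hinj : Function.Injective f := by
    intro p q hpq
    have := h.inj p (Nat.lt_succ_iff.1 p.2) q (Nat.lt_succ_iff.1 q.2) (by
      simpa [f] using hpq)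
    exact Fin.ext this
  obtain ⟨p, hp⟩ := (Finite.injective_iff_surjective.1 hinj) ⟨t, Nat.lt_succ_of_le ht⟩
  exact ⟨p, Nat.lt_succ_iff.1 p.2, by simpa [f] using congrArg Fin.val hp⟩

theorem idx_le (h : Inv C Q L) {p : ℕ} (hp : p ≤ n) : idx (L p) ≤ n := by
  have h1 := h.bd p (by omega)
  have h2 : (L p).natAbs ≠ n + 1 := by
    intro h3
    have := h.inj p (by omega) (n + 1) (le_refl _) (by rw [h3, h.e]; omega)
    omega
  unfold idx
  split_ifs <;> omega

theorem idx_le' (h : Inv C Q L) {p : ℕ} (hp : p ≤ n) : idx (-L (p + 1)) ≤ n := by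
  rw [← h.adj p hp]
  exact idx_bet_le (h.idx_le hp)

theorem adj' (h : Inv C Q L) {p : ℕ} (hp : p ≤ n) : C.bet Q (-L (p + 1)) = L p := by
  rw [← h.adj p hp]
  exact bet_bet (h.idx_le hp)

theorem ne_zero (h : Inv C Q L) {p : ℕ} (hp : p ≤ n + 1) (hp0 : p ≠ 0) : L p ≠ 0 := by
  intro h1
  apply hp0
  exact h.inj p hp 0 (by omega) (by rw [h1, h.z])

theorem lab' (h : Inv C Q L) {p : ℕ} (hp : p ≤ n) :
    C.lab (idx (-L (p + 1))) = C.lab (idx (L p)) := by
  rw [← h.adj p hp]
  exact lab_bet (h.idx_le hp)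

/-- Every point occurs in an adjacency. -/
theorem edge (h : Inv C Q L) {x : ℤ} (hx : idx x ≤ n) : ∃ p ≤ n, x = L p ∨ x = -L (p + 1) := by
  obtain ⟨p, hp, hp1⟩ := h.surj (t := x.natAbs) (by
    rcases point_cases x with h1 | h1 <;> omega)
  rcases Int.natAbs_eq_natAbs_iff.1 hp1 with h1 | h1
  · by_cases hpn : p = n + 1
    · exfalso
      rw [hpn, h.e] at h1
      rcases point_cases x with h2 | h2 <;> omega
    · exact ⟨p, by omega, Or.inl h1.symm⟩
  · by_cases hp0 : p = 0
    · rw [hp0, h.z] at h1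
      exact ⟨0, by omega, Or.inl (by rw [h.z]; omega)⟩
    · refine ⟨p - 1, by omega, Or.inr ?_⟩
      rw [Nat.sub_add_cancel (by omega), h1]; ring

/-- The adjacencies and the elements form a single cycle. -/
theorem ns (h : Inv C Q L) (hQ : Q ⊆ C.V) : NS C.D.M Q := by
  rw [CD.ns_iff_sys (okQ hQ) (q_lt hQ)]
  intro g hg
  have hb := bet_of_sys hQ hg
  have hc : ∀ p ≤ n + 1, g (L p).natAbs = g 0 := by
    intro p
    induction p with
    | zero => intro _; rw [h.z]; rfl
    | succ p ih =>
      intro hp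
      have h1 := hb (L p) (h.idx_le (by omega))
      rw [h.adj p (by omega), Int.natAbs_neg] at h1
      rw [← h1]; exact ih (by omega)
  intro t ht
  obtain ⟨p, hp, hpt⟩ := h.surj ht
  rw [← hpt]; exact hc p hp

end Inv

/-- The reversal of the segment from `i` to `j`. -/
def revF (i j : ℕ) (L : ℕ → ℤ) (p : ℕ) : ℤ := if i ≤ p ∧ p ≤ j then -L (i + j - p) else L p

/-- The reversal creates two desired adjacencies. -/
def R2 (L : ℕ → ℤ) (i j : ℕ) : Prop := L j = -1 - L (i - 1) ∧ -L (j + 1) = -1 + L i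

/-- Positions with the label of a reversal. -/
theorem Inv.key {Q : Finset ℕ} {L : ℕ → ℤ} (h : Inv C Q L) {i j q : ℕ}
    (hj : j ≤ n) (hi1 : i ≤ n)
    (hset : ∀ y, idx y ≤ n → C.lab (idx y) = C.lab (idx (L i)) →
      y = L i ∨ y = L j ∨ y = -L (i + 1) ∨ y = -L (j + 1)) (hq : q ≤ n)
    (hqi : q ≠ i) (hqj : q ≠ j) : C.lab (idx (L q)) ≠ C.lab (idx (L i)) := by
  intro hl
  have hcon : ∀ r ≤ n, L q ≠ -L (r + 1) := by
    intro r hr h1
    have h2 : (L q).natAbs = (L (r + 1)).natAbs := by rw [h1, Int.natAbs_neg]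
    have h3 := h.inj q (by omega) (r + 1) (by omega) h2
    rw [h3] at h1
    exact h.ne_zero (p := r + 1) (by omega) (by omega) (by omega)
  rcases hset _ (h.idx_le hq) hl with h1 | h1 | h1 | h1
  · exact hqi (h.inj q (by omega) i (by omega) (by rw [h1]))
  · exact hqj (h.inj q (by omega) j (by omega) (by rw [h1]))
  · exact hcon i hi1 h1
  · exact hcon j hj h1

theorem Inv.step {Q : Finset ℕ} {L : ℕ → ℤ} (h : Inv C Q L) {i j : ℕ}
    (hi : 1 ≤ i) (hij : i ≤ j) (hj : j ≤ n) (hr : R2 L i j) :
    C.lab (idx (L (i - 1))) ∈ Q ∧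
      Inv C (Q.erase (C.lab (idx (L (i - 1))))) (revF i j L) ∧
      (∀ y, idx y ≤ n → C.lab (idx y) = C.lab (idx (L (i - 1))) →
        y = L (i - 1) ∨ y = L j ∨ y = -L i ∨ y = -L (j + 1)) := by
  obtain ⟨hr1, hr2⟩ := hr
  have ha : C.bet Q (L (i - 1)) = -L i := by
    have := h.adj (i - 1) (by omega)
    rwa [Nat.sub_add_cancel hi] at this
  have hc : C.bet Q (L j) = -L (j + 1) := h.adj j hj
  have hia : idx (L (i - 1)) ≤ n := h.idx_le (by omega)
  set v := C.lab (idx (L (i - 1))) with hv
  have hvQ : v ∈ Q := by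
    by_contra hvn
    have h1 := bet_not_mem (C := C) (x := L (i - 1)) hvn
    rw [ha, ← hr1] at h1
    have h2 : (L i).natAbs = (L j).natAbs := by rw [← h1, Int.natAbs_neg]
    have h3 := h.inj i (by omega) j (by omega) h2
    rw [← h3] at h1
    exact h.ne_zero (p := i) (by omega) (by omega) (by omega)
  have hset : ∀ y, idx y ≤ n → C.lab (idx y) = v →
      y = L (i - 1) ∨ y = L j ∨ y = -L i ∨ y = -L (j + 1) := by
    intro y hy hl
    rcases same_lab hia hy hvQ hl with h1 | h1 | h1 | h1
    · exact Or.inl h1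
    · exact Or.inr (Or.inl (by rw [h1, hr1]))
    · exact Or.inr (Or.inr (Or.inl (by rw [h1, ha])))
    · exact Or.inr (Or.inr (Or.inr (by rw [h1, ha, hr2]; ring)))
  have hkey : ∀ q ≤ n, q ≠ i - 1 → q ≠ j → C.lab (idx (L q)) ≠ v := by
    intro q hq h1 h2
    refine h.key hj (by omega) ?_ hq h1 h2
    intro y hy hl
    rcases hset y hy hl with h1 | h1 | h1 | h1
    · exact Or.inl h1
    · exact Or.inr (Or.inl h1)
    · refine Or.inr (Or.inr (Or.inl ?_))
      rw [Nat.sub_add_cancel hi]; exact h1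
    · exact Or.inr (Or.inr (Or.inr h1))
  refine ⟨hvQ, ?_, hset⟩
  have hnat : ∀ p, (revF i j L p).natAbs = (L (if i ≤ p ∧ p ≤ j then i + j - p else p)).natAbs := by
    intro p
    unfold revF
    split_ifs
    · rw [Int.natAbs_neg]
    · rfl
  refine ⟨?_, ?_, ?_, ?_, ?_⟩
  · unfold revF; rw [if_neg (by omega)]; exact h.z
  · unfold revF; rw [if_neg (by omega)]; exact h.e
  · intro p hp q hq hpq
    rw [hnat, hnat] at hpq
    have := h.inj _ (by split_ifs <;> omega) _ (by split_ifs <;> omega) hpq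
    split_ifs at this <;> omega
  · intro p hp
    rw [hnat]
    exact h.bd _ (by split_ifs <;> omega)
  · intro p hp
    unfold revF
    by_cases h1 : p + 1 < i
    · rw [if_neg (by omega), if_neg (by omega), bet_erase, h.adj p hp]
      exact hkey p hp (by omega) (by omega)
    · by_cases h2 : p + 1 = i
      · rw [if_neg (by omega), if_pos (by omega)]
        have e1 : i + j - (p + 1) = j := by omega
        have e2 : p = i - 1 := by omega
        rw [e1, e2, bet_erase_self hv.symm, hr1]; ring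
      · by_cases h3 : p < j
        · rw [if_pos (by omega), if_pos (by omega)]
          obtain ⟨q, hq⟩ : ∃ q, i + j - p = q + 1 := ⟨i + j - p - 1, by omega⟩
          have hq' : i + j - (p + 1) = q := by omega
          rw [hq, hq', bet_erase, h.adj' (p := q) (by omega)]
          · ring
          · rw [h.lab' (p := q) (by omega)]
            exact hkey q (by omega) (by omega) (by omega)
        · by_cases h4 : p = j
          · rw [if_pos (by omega), if_neg (by omega)]
            have e1 : i + j - p = i := by omega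
            rw [e1, h4, bet_erase_self, hr2]
            · ring
            · have := lab_bet (C := C) (Q := Q) hia
              rw [ha] at this
              exact this
          · rw [if_neg (by omega), if_neg (by omega), bet_erase, h.adj p hp]
            exact hkey p hp (by omega) (by omega)

/-- Two such reversals with the same label are equal. -/
theorem Inv.uniq {Q : Finset ℕ} {L : ℕ → ℤ} (h : Inv C Q L) {i j i' j' : ℕ}
    (hi : 1 ≤ i) (hij : i ≤ j) (hj : j ≤ n) (hr : R2 L i j)
    (hi' : 1 ≤ i') (hij' : i' ≤ j') (hj' : j' ≤ n) (hr' : R2 L i' j')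
    (hl : C.lab (idx (L (i - 1))) = C.lab (idx (L (i' - 1)))) : i = i' ∧ j = j' := by
  obtain ⟨h1, h2, h3⟩ := h.step hi hij hj hr
  obtain ⟨h1', h2', h3'⟩ := h.step hi' hij' hj' hr'
  have hcon : ∀ q ≤ n, ∀ r, 1 ≤ r → r ≤ n + 1 → L q ≠ -L r := by
    intro q hq r hr hr' h1
    have h2 : (L q).natAbs = (L r).natAbs := by rw [h1, Int.natAbs_neg]
    have h3 := h.inj q (by omega) r (by omega) h2
    rw [h3] at h1
    exact h.ne_zero (p := r) (by omega) (by omega) (by omega)
  have hA : i' - 1 = i - 1 ∨ i' - 1 = j := by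
    rcases h3 _ (h.idx_le (p := i' - 1) (by omega)) hl.symm with h4 | h4 | h4 | h4
    · exact Or.inl (h.inj _ (by omega) _ (by omega) (by rw [h4]))
    · exact Or.inr (h.inj _ (by omega) _ (by omega) (by rw [h4]))
    · exact absurd h4 (hcon _ (by omega) _ (by omega) (by omega))
    · exact absurd h4 (hcon _ (by omega) _ (by omega) (by omega))
  have hlj : C.lab (idx (L j')) = C.lab (idx (L (i' - 1))) := by
    rw [hr'.1, idx_gamma]
  have hB : j' = i - 1 ∨ j' = j := by
    rcases h3 _ (h.idx_le (p := j') (by omega)) (hlj.trans hl.symm) with h4 | h4 | h4 | h4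
    · exact Or.inl (h.inj _ (by omega) _ (by omega) (by rw [h4]))
    · exact Or.inr (h.inj _ (by omega) _ (by omega) (by rw [h4]))
    · exact absurd h4 (hcon _ (by omega) _ (by omega) (by omega))
    · exact absurd h4 (hcon _ (by omega) _ (by omega) (by omega))
  omega

/-- If resolving the cycle `v` leads to a nonsingular state, it is done by a reversal. -/
theorem Inv.exists_rev {Q : Finset ℕ} {L : ℕ → ℤ} (h : Inv C Q L) (hQ : Q ⊆ C.V) {v : ℕ}
    (hv : v ∈ Q) (hns : NS C.D.M (Q.erase v)) :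
    ∃ i j, 1 ≤ i ∧ i ≤ j ∧ j ≤ n ∧ R2 L i j ∧ C.lab (idx (L (i - 1))) = v := by
  have hvV := hQ hv
  have hvn := (mem_V.1 hvV).1
  have hlv := lab_of_V hvV
  have hx1 : idx (v : ℤ) = v := idx_nat v
  obtain ⟨p1, hp1, hp1'⟩ := h.edge (x := (v : ℤ)) (by rw [hx1]; exact hvn)
  obtain ⟨p2, hp2, hp2'⟩ := h.edge (x := -1 - (v : ℤ)) (by rw [idx_neg]; exact hvn)
  have hbv : C.bet Q (v : ℤ) ≠ -1 - (v : ℤ) := bet_ne hQ (by rw [hx1, hlv]; exact hv)
  have hidxv : idx (v : ℤ) ≤ n := by rw [hx1]; exact hvn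
  have hbb : C.bet Q (C.bet Q (v : ℤ)) = v := bet_bet hidxv
  have hbg : C.bet Q (-1 - (v : ℤ)) = -1 - C.bet Q (v : ℤ) := bet_gamma _ _
  -- the set of points of the two edges
  have e1 : (L p1 = v ∧ -L (p1 + 1) = C.bet Q v) ∨ (L p1 = C.bet Q v ∧ -L (p1 + 1) = v) := by
    rcases hp1' with h1 | h1
    · left; exact ⟨h1.symm, by rw [← h.adj p1 hp1, ← h1]⟩
    · right; exact ⟨by rw [← h.adj' hp1, ← h1], h1.symm⟩
  have e2 : (L p2 = -1 - v ∧ -L (p2 + 1) = -1 - C.bet Q v) ∨
      (L p2 = -1 - C.bet Q v ∧ -L (p2 + 1) = -1 - v) := by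
    rcases hp2' with h1 | h1
    · left; exact ⟨h1.symm, by rw [← h.adj p2 hp2, ← h1, hbg]⟩
    · right; exact ⟨by rw [← h.adj' hp2, ← h1, hbg], h1.symm⟩
  have hne : p1 ≠ p2 := by
    intro h12
    subst h12
    rcases e1 with ⟨a1, a2⟩ | ⟨a1, a2⟩ <;> rcases e2 with ⟨b1, b2⟩ | ⟨b1, b2⟩
    · omega
    · apply hbv; rw [← a2, b2]
    · apply hbv; rw [← a1, b1]
    · omega
  -- general form
  obtain ⟨p, q, hp, hpq, hq, hcase, hlp⟩ : ∃ p q, p ≤ n ∧ p < q ∧ q ≤ n ∧
      ((L q = -1 - L p ∧ -L (q + 1) = -1 + L (p + 1)) ∨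
        (L q = -1 + L (p + 1) ∧ -L (q + 1) = -1 - L p)) ∧ C.lab (idx (L p)) = v := by
    have hl1 : C.lab (idx (L p1)) = v := by
      rcases e1 with ⟨a1, _⟩ | ⟨a1, _⟩
      · rw [a1, hx1, hlv]
      · rw [a1, lab_bet hidxv, hx1, hlv]
    have hl2 : C.lab (idx (L p2)) = v := by
      rcases e2 with ⟨a1, _⟩ | ⟨a1, _⟩
      · rw [a1, idx_neg, hlv]
      · rw [a1, idx_gamma, lab_bet hidxv, hx1, hlv]
    rcases lt_or_gt_of_ne hne with h12 | h12
    · refine ⟨p1, p2, hp1, h12, hp2, ?_, hl1⟩
      rcases e1 with ⟨a1, a2⟩ | ⟨a1, a2⟩ <;> rcases e2 with ⟨b1, b2⟩ | ⟨b1, b2⟩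
      · left; constructor <;> omega
      · right; constructor <;> omega
      · right; constructor <;> omega
      · left; constructor <;> omega
    · refine ⟨p2, p1, hp2, h12, hp1, ?_, hl2⟩
      rcases e1 with ⟨a1, a2⟩ | ⟨a1, a2⟩ <;> rcases e2 with ⟨b1, b2⟩ | ⟨b1, b2⟩
      · left; constructor <;> omega
      · right; constructor <;> omega
      · right; constructor <;> omega
      · left; constructor <;> omega
  rcases hcase with hc | hc
  · exact ⟨p + 1, q, by omega, by omega, hq, ⟨by simpa using hc.1, hc.2⟩, by simpa using hlp⟩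
  · exfalso
    have hlpQ : C.lab (idx (L p)) ∈ Q := by rw [hlp]; exact hv
    have hset : ∀ y, idx y ≤ n → C.lab (idx y) = C.lab (idx (L p)) →
        y = L p ∨ y = L q ∨ y = -L (p + 1) ∨ y = -L (q + 1) := by
      intro y hy hl
      rcases same_lab (h.idx_le hp) hy hlpQ hl with h1 | h1 | h1 | h1
      · exact Or.inl h1
      · exact Or.inr (Or.inr (Or.inr (by rw [h1, hc.2])))
      · exact Or.inr (Or.inr (Or.inl (by rw [h1, h.adj p hp])))
      · exact Or.inr (Or.inl (by rw [h1, h.adj p hp, hc.1]; ring))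
    classical
    let u : ℕ → ZMod 2 := fun t => if ∃ r, p + 1 ≤ r ∧ r ≤ q ∧ (L r).natAbs = t then 1 else 0
    have hu : ∀ r ≤ n + 1, u (L r).natAbs = if p + 1 ≤ r ∧ r ≤ q then 1 else 0 := by
      intro r hr
      simp only [u]
      by_cases h1 : p + 1 ≤ r ∧ r ≤ q
      · rw [if_pos ⟨r, h1.1, h1.2, rfl⟩, if_pos h1]
      · rw [if_neg, if_neg h1]
        rintro ⟨s, hs1, hs2, hs3⟩
        have := h.inj s (by omega) r hr hs3
        omega
    have hu' : ∀ r ≤ n + 1, u (-L r).natAbs = if p + 1 ≤ r ∧ r ≤ q then 1 else 0 := by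
      intro r hr
      rw [Int.natAbs_neg]; exact hu r hr
    have hQ' : Q.erase v ⊆ C.V := (Finset.erase_subset _ _).trans hQ
    have hsys : C.D.Sys (n + 1) (Q.erase v) u := by
      refine sys_of_bet hQ' ?_
      intro x hx
      obtain ⟨r, hr, hr'⟩ := h.edge hx
      by_cases hrp : r = p
      · subst hrp
        have hlab : C.lab (idx x) = v := by
          rcases hr' with h1 | h1
          · rw [h1, hlp]
          · rw [h1, h.lab' hp, hlp]
        rw [bet_erase_self hlab]
        rcases hr' with h1 | h1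
        · have h2 : -1 - x = -L (q + 1) := by rw [h1, hc.2]
          rw [h2, h1, hu r (by omega), hu' (q + 1) (by omega), if_neg (by omega),
            if_neg (by omega)]
        · have h2 : -1 - x = L q := by rw [h1, hc.1]; ring
          rw [h2, h1, hu' (r + 1) (by omega), hu q (by omega), if_pos (by omega),
            if_pos (by omega)]
      · by_cases hrq : r = q
        · subst hrq
          have hlq : C.lab (idx (L r)) = v := by
            have h1 : L r = -1 - (C.bet Q (L p)) := by rw [h.adj p hp, hc.1]; ring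
            rw [h1, idx_gamma, lab_bet (h.idx_le hp), hlp]
          have hlab : C.lab (idx x) = v := by
            rcases hr' with h1 | h1
            · rw [h1, hlq]
            · rw [h1, h.lab' hr, hlq]
          rw [bet_erase_self hlab]
          rcases hr' with h1 | h1
          · have h2 : -1 - x = -L (p + 1) := by rw [h1, hc.1]; ring
            rw [h2, h1, hu r (by omega), hu' (p + 1) (by omega), if_pos (by omega),
              if_pos (by omega)]
          · have h2 : -1 - x = L p := by rw [h1]; have := hc.2; omega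
            rw [h2, h1, hu' (r + 1) (by omega), hu p (by omega), if_neg (by omega),
              if_neg (by omega)]
        · have hlr : C.lab (idx (L r)) ≠ v := by
            rw [← hlp]
            exact h.key hq hp hset hr hrp hrq
          rcases hr' with h1 | h1
          · rw [bet_erase (by rw [h1]; exact hlr), h1, h.adj r hr, hu r (by omega),
              hu' (r + 1) (by omega)]
            split_ifs <;> first | rfl | omega
          · rw [bet_erase (by rw [h1, h.lab' hr]; exact hlr), h1, h.adj' hr,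
              hu' (r + 1) (by omega), hu r (by omega)]
            split_ifs <;> first | rfl | omega
    have hconst := (CD.ns_iff_sys (okQ hQ') (q_lt hQ')).1 hns u hsys
    have h1 := hconst (L q).natAbs (h.bd q (by omega))
    have h0 : u 0 = 0 := by
      have := hu 0 (by omega)
      rw [h.z, if_neg (by omega)] at this
      simpa using this
    rw [h0, hu q (by omega), if_pos (by omega)] at h1
    exact one_ne_zero h1

/-- The number of breakpoints. -/
def bp (n : ℕ) (L : ℕ → ℤ) : ℕ := ((range (n + 1)).filter (fun p => L (p + 1) ≠ L p + 1)).card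

theorem Inv.bp_ge {Q : Finset ℕ} {L : ℕ → ℤ} (h : Inv C Q L) (hQ : Q ⊆ C.V) :
    2 * Q.card ≤ bp n L := by
  classical
  have hedge : ∀ x : ℤ, ∃ p, idx x ≤ n → p ≤ n ∧ (x = L p ∨ x = -L (p + 1)) := by
    intro x
    by_cases hx : idx x ≤ n
    · obtain ⟨p, hp, hp'⟩ := h.edge hx
      exact ⟨p, fun _ => ⟨hp, hp'⟩⟩
    · exact ⟨0, fun h1 => absurd h1 hx⟩
  choose ed hed using hedge
  let pt : ℕ × Bool → ℤ := fun z => if z.2 then (z.1 : ℤ) else -1 - (z.1 : ℤ)
  have hpt : ∀ z, idx (pt z) = z.1 := by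
    rintro ⟨v, b⟩
    cases b
    · exact idx_neg v
    · exact idx_nat v
  have hcard : (Q ×ˢ (Finset.univ : Finset Bool)).card = 2 * Q.card := by
    rw [Finset.card_product]; simp [mul_comm]
  rw [← hcard]
  refine Finset.card_le_card_of_injOn (fun z => ed (pt z)) ?_ ?_
  · intro z hz
    have hz := Finset.mem_product.1 (Finset.mem_coe.1 hz)
    have hzV := hQ hz.1
    have hle : idx (pt z) ≤ n := by rw [hpt]; exact (mem_V.1 hzV).1
    obtain ⟨h1, h2⟩ := hed (pt z) hle
    rw [Finset.mem_coe, Finset.mem_filter, Finset.mem_range]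
    refine ⟨Nat.lt_succ_of_le h1, ?_⟩
    intro h3
    simp only at h3
    have hl : C.lab (idx (L (ed (pt z)))) ∈ Q := by
      have : C.lab (idx (L (ed (pt z)))) = C.lab (idx (pt z)) := by
        rcases h2 with h2 | h2
        · rw [← h2]
        · have := h.lab' h1
          rw [← h2] at this
          exact this.symm
      rw [this, hpt, lab_of_V hzV]; exact hz.1
    apply bet_ne hQ hl
    rw [h.adj _ h1, h3]; ring
  · intro z hz z' hz' heq
    have hz := Finset.mem_product.1 (Finset.mem_coe.1 hz)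
    have hz' := Finset.mem_product.1 (Finset.mem_coe.1 hz')
    have hzV := hQ hz.1
    have hzV' := hQ hz'.1
    have hle : idx (pt z) ≤ n := by rw [hpt]; exact (mem_V.1 hzV).1
    have hle' : idx (pt z') ≤ n := by rw [hpt]; exact (mem_V.1 hzV').1
    obtain ⟨h1, h2⟩ := hed (pt z) hle
    obtain ⟨h1', h2'⟩ := hed (pt z') hle'
    simp only at heq
    rw [← heq] at h2' h1'
    obtain ⟨e, he⟩ : ∃ e, e = ed (pt z) := ⟨_, rfl⟩
    rw [← he] at h1 h2 h2' h1'
    have hcases : pt z' = pt z ∨ pt z' = C.bet Q (pt z) := by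
      rcases h2 with h2 | h2 <;> rcases h2' with h2' | h2'
      · left; rw [h2, h2']
      · right; rw [h2', h2, h.adj _ h1]
      · right; rw [h2', h2, h.adj' h1]
      · left; rw [h2, h2']
    have hvv : z'.1 = z.1 := by
      have : C.lab (idx (pt z')) = C.lab (idx (pt z)) := by
        rcases hcases with h3 | h3
        · rw [h3]
        · rw [h3, lab_bet hle]
      rwa [hpt, hpt, lab_of_V hzV, lab_of_V hzV'] at this
    have hbb : z'.2 = z.2 := by
      rcases hcases with h3 | h3
      · obtain ⟨v, b⟩ := z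
        obtain ⟨v', b'⟩ := z'
        simp only at hvv
        subst hvv
        cases b <;> cases b' <;> simp [pt] at h3 ⊢ <;> omega
      · by_contra hne
        have h4 : pt z' = -1 - pt z := by
          obtain ⟨v, b⟩ := z
          obtain ⟨v', b'⟩ := z'
          simp only at hvv
          subst hvv
          cases b <;> cases b' <;> simp [pt] at hne ⊢
        have hl : C.lab (idx (pt z)) ∈ Q := by rw [hpt, lab_of_V hzV]; exact hz.1
        exact bet_ne hQ hl (by rw [← h3, h4])
    exact Prod.ext hvv.symm hbb.symm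

end Cyc

end Pool.Agent.TH700
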