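import Pool.Agent.NPC.Defs

/-!
# Signed permutations, reversals, optimal sorting sequences, almost uniform samplers

A signed permutation of size `n` is a list of `n` nonzero integers whose absolute values are
`1, …, n`.
-/

namespace Pool.Agent.TH700

open Pool.Agent.NPC

/-- `l` is a signed permutation: the absolute values of its entries are `1, …, l.length`, each
occurring once. -/
def IsSignedPerm (l : List ℤ) : Prop := (l.map Int.natAbs).Perm (List.range' 1 l.length)

/-- The identity `(1, 2, …, n)`. -/
def idPerm (n : ℕ) : List ℤ := (List.range n).map (fun i : ℕ => (i : ℤ) + 1)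

/-- The reversal `ρ_{i,j}` with `r = (i, j)`, for `1 ≤ i ≤ j ≤ n`: it reverses the order and the
signs of the entries in the positions `i, …, j` (positions are numbered from `1`). -/
def reversal (l : List ℤ) (r : ℕ × ℕ) : List ℤ :=
  l.take (r.1 - 1) ++ ((l.take r.2).drop (r.1 - 1)).reverse.map (fun x => -x) ++ l.drop r.2

/-- `r = (i, j)` is a reversal of permutations of size `n`: `1 ≤ i ≤ j ≤ n`. -/
def Legal (n : ℕ) (r : ℕ × ℕ) : Prop := 1 ≤ r.1 ∧ r.1 ≤ r.2 ∧ r.2 ≤ n

/-- The sequence `rs` of reversals sorts `l`. -/
def Sorts (l : List ℤ) (rs : List (ℕ × ℕ)) : Prop :=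
  (∀ r ∈ rs, Legal l.length r) ∧ rs.foldl reversal l = idPerm l.length

/-- The reversal distance. -/
noncomputable def revDist (l : List ℤ) : ℕ := sInf {k | ∃ rs, Sorts l rs ∧ rs.length = k}

/-- The set of optimal sorting sequences. -/
def Opt (l : List ℤ) : Set (List (ℕ × ℕ)) := {rs | Sorts l rs ∧ rs.length = revDist l}

/-- The probability, for a uniformly random bit string `r` of length `m`, that `E r` holds. -/
noncomputable def prob (m : ℕ) (E : List Bool → Prop) : ℝ :=
  ({r : List Bool | r.length = m ∧ E r}.ncard : ℝ) / 2 ^ m

/-- The output of the randomized algorithm `F` (a function of the permutation, the precision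
parameter `k` and a random bit string of length `m`) is within total variation distance `δ` of the
uniform distribution on the optimal sorting sequences of `l`: the probabilities of every event
differ by at most `δ`. -/
def Close (F : List ℤ × ℕ × List Bool → List (ℕ × ℕ)) (l : List ℤ) (k m : ℕ) (δ : ℝ) : Prop :=
  ∀ E : Set (List (ℕ × ℕ)),
    |prob m (fun r => F (l, k, r) ∈ E) - ((E ∩ Opt l).ncard : ℝ) / ((Opt l).ncard : ℝ)| ≤ δ

/-- There is an almost uniform sampler for the optimal sorting sequences of signed permutations: a
polynomial-time function `F` which, given a signed permutation `l`, a number `k` and a random bit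
string of length polynomial in the size of `l` and `k`, outputs a sequence of reversals whose
distribution is within total variation distance `2 ^ (-k)` of the uniform distribution on the
optimal sorting sequences of `l`. -/
def HasSampler : Prop :=
  ∃ (F : List ℤ × ℕ × List Bool → List (ℕ × ℕ)) (A : List Bool → List Bool) (p : Polynomial ℕ),
    PolyTime A ∧ (∀ s, A (bits s) = bits (F s)) ∧
    ∀ l, IsSignedPerm l → ∀ k : ℕ, Close F l k (p.eval ((bits l).length + k)) ((1 / 2 : ℝ) ^ k)

/-- There is a polynomial-time randomized algorithm which, given a signed permutation, outputs a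
sequence of reversals whose distribution is within the fixed total variation distance `δ` of the
uniform distribution on its optimal sorting sequences. -/
def HasRoughSampler (δ : ℝ) : Prop :=
  ∃ (F : List ℤ × ℕ × List Bool → List (ℕ × ℕ)) (A : List Bool → List Bool) (p : Polynomial ℕ),
    PolyTime A ∧ (∀ s, A (bits s) = bits (F s)) ∧
    ∀ l, IsSignedPerm l → Close F l 0 (p.eval (bits l).length) δ

end Pool.Agent.TH700
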