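import Pool.Agent.TH700.Cyc
import Pool.Agent.TH700.Count
import Pool.Agent.TH700.SPDefs

/-!
# Counting optimal sorting sequences
-/

namespace Pool.Agent.TH700

open Finset

/-- The extended list `0, l, n + 1` as a function. -/
def ext (l : List ℤ) (p : ℕ) : ℤ :=
  if p = 0 then 0 else if p ≤ l.length then l.getD (p - 1) 0 else (l.length : ℤ) + 1

theorem reversal_length {l : List ℤ} {r : ℕ × ℕ} (h : Legal l.length r) :
    (reversal l r).length = l.length := by
  obtain ⟨h1, h2, h3⟩ := h
  simp only [reversal, List.length_append, List.length_take, List.length_map, List.length_reverse,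
    List.length_drop]
  omega

theorem ext_reversal {l : List ℤ} {r : ℕ × ℕ} (h : Legal l.length r) (p : ℕ) :
    ext (reversal l r) p = Cyc.revF r.1 r.2 (ext l) p := by
  obtain ⟨i, j⟩ := r
  have hl := reversal_length h
  obtain ⟨h1, h2, h3⟩ := h
  simp only at h1 h2 h3
  unfold Cyc.revF
  simp only [ext]
  rw [hl]
  by_cases hp0 : p = 0
  · rw [if_pos hp0, if_neg (by omega), if_pos hp0]
  · rw [if_neg hp0]
    by_cases hpn : p ≤ l.length
    · rw [if_pos hpn]
      obtain ⟨k, rfl⟩ : ∃ k, p = k + 1 := ⟨p - 1, by omega⟩
      rw [Nat.add_sub_cancel]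
      simp only [reversal, List.getD_eq_getElem?_getD, List.getElem?_append, List.length_take,
        List.length_append, List.length_map, List.length_reverse, List.length_drop]
      by_cases hk1 : k < i - 1
      · rw [if_pos (by omega), if_pos (by omega), List.getElem?_take, if_pos hk1,
          if_neg (by omega), if_neg (by omega), if_pos hpn]
      · by_cases hk2 : k < j
        · rw [if_pos (by omega), if_neg (by omega), List.getElem?_map,
            List.getElem?_reverse (by
              simp only [List.length_drop, List.length_take]; omega), List.getElem?_drop,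
            List.getElem?_take]
          simp only [List.length_drop, List.length_take]
          rw [if_pos (by omega), if_pos (by omega), if_neg (by omega), if_pos (by omega)]
          have e : i - 1 + (min j l.length - (i - 1) - 1 - (k - min (i - 1) l.length)) =
              i + j - (k + 1) - 1 := by omega
          rw [e]
          have hlt : i + j - (k + 1) - 1 < l.length := by omega
          rw [List.getElem?_eq_getElem hlt]
          simp
        · rw [if_neg (by omega), List.getElem?_drop, if_neg (by omega), if_neg (by omega),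
            if_pos hpn]
          congr 2
          omega
    · rw [if_neg hpn, if_neg (by omega), if_neg hp0, if_neg hpn]

theorem idPerm_length (n : ℕ) : (idPerm n).length = n := by simp [idPerm]

theorem ext_idPerm (n p : ℕ) (hp : p ≤ n + 1) : ext (idPerm n) p = p := by
  unfold ext
  rw [idPerm_length]
  by_cases h0 : p = 0
  · rw [if_pos h0, h0]; rfl
  · rw [if_neg h0]
    by_cases h1 : p ≤ n
    · rw [if_pos h1]
      unfold idPerm
      rw [List.getD_eq_getElem?_getD, List.getElem?_map, List.getElem?_range (by omega)]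
      simp
      omega
    · rw [if_neg h1]; omega

theorem eq_of_ext {l l' : List ℤ} (h : l.length = l'.length)
    (he : ∀ p, 1 ≤ p → p ≤ l.length → ext l p = ext l' p) : l = l' := by
  apply List.ext_getElem h
  intro k hk hk'
  have := he (k + 1) (by omega) (by omega)
  unfold ext at this
  rw [if_neg (by omega), if_pos (by omega), if_neg (by omega), if_pos (by omega),
    Nat.add_sub_cancel, List.getD_eq_getElem _ _ hk, List.getD_eq_getElem _ _ hk'] at this
  exact this

/-- The breakpoint indicator -/
theorem bp_eq_sum (n : ℕ) (L : ℕ → ℤ) :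
    Cyc.bp n L = ∑ p ∈ range (n + 1), if L (p + 1) ≠ L p + 1 then 1 else 0 := by
  unfold Cyc.bp
  rw [Finset.card_filter]

theorem bp_rev {n : ℕ} (L : ℕ → ℤ) {i j : ℕ} (hi : 1 ≤ i) (hij : i ≤ j) (hj : j ≤ n) :
    Cyc.bp n L ≤ Cyc.bp n (Cyc.revF i j L) + 2 ∧
      (Cyc.bp n (Cyc.revF i j L) + 2 ≤ Cyc.bp n L → Cyc.R2 L i j) := by
  set L' := Cyc.revF i j L with hL'
  rw [bp_eq_sum, bp_eq_sum]
  set β : (ℕ → ℤ) → ℕ → ℕ := fun L p => if L (p + 1) ≠ L p + 1 then 1 else 0 with hβ
  have hi' : i - 1 ∈ range (n + 1) := Finset.mem_range.2 (by omega)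
  have hj' : j ∈ (range (n + 1)).erase (i - 1) :=
    Finset.mem_erase.2 ⟨by omega, Finset.mem_range.2 (by omega)⟩
  have hsplit : ∀ M : ℕ → ℤ, ∑ p ∈ range (n + 1), (if M (p + 1) ≠ M p + 1 then 1 else 0) =
      β M (i - 1) + (β M j + ∑ p ∈ ((range (n + 1)).erase (i - 1)).erase j, β M p) := by
    intro M
    rw [← Finset.add_sum_erase _ _ hi', ← Finset.add_sum_erase _ _ hj']
  rw [hsplit L, hsplit L']
  have hrest : ∑ p ∈ ((range (n + 1)).erase (i - 1)).erase j, β L' p =
      ∑ p ∈ ((range (n + 1)).erase (i - 1)).erase j, β L p := by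
    refine Finset.sum_bij' (fun p _ => if i ≤ p ∧ p < j then i + j - 1 - p else p)
      (fun p _ => if i ≤ p ∧ p < j then i + j - 1 - p else p) ?_ ?_ ?_ ?_ ?_
    · intro p hp
      simp only [Finset.mem_erase, Finset.mem_range] at hp ⊢
      split_ifs <;> omega
    · intro p hp
      simp only [Finset.mem_erase, Finset.mem_range] at hp ⊢
      split_ifs <;> omega
    · intro p hp
      simp only [Finset.mem_erase, Finset.mem_range] at hp ⊢
      split_ifs <;> omega
    · intro p hp
      simp only [Finset.mem_erase, Finset.mem_range] at hp ⊢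
      split_ifs <;> omega
    · intro p hp
      simp only [Finset.mem_erase, Finset.mem_range] at hp
      simp only [hβ]
      by_cases h1 : i ≤ p ∧ p < j
      · rw [if_pos h1]
        have e1 : L' (p + 1) = -L (i + j - 1 - p) := by
          rw [hL']; unfold Cyc.revF
          rw [if_pos (by omega)]; congr 2; omega
        have e2 : L' p = -L (i + j - 1 - p + 1) := by
          rw [hL']; unfold Cyc.revF
          rw [if_pos (by omega)]; congr 2; omega
        rw [e1, e2]
        by_cases h2 : L (i + j - 1 - p + 1) = L (i + j - 1 - p) + 1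
        · rw [if_neg (by omega), if_neg (by omega)]
        · rw [if_pos (by omega), if_pos (by omega)]
      · rw [if_neg h1]
        have e1 : L' (p + 1) = L (p + 1) := by
          rw [hL']; unfold Cyc.revF
          rw [if_neg (by omega)]
        have e2 : L' p = L p := by
          rw [hL']; unfold Cyc.revF
          rw [if_neg (by omega)]
        rw [e1, e2]
  rw [hrest]
  have hb : ∀ M p, β M p ≤ 1 := by
    intro M p; simp only [hβ]; split_ifs <;> omega
  refine ⟨by have := hb L (i - 1); have := hb L j; omega, fun h => ?_⟩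
  have h1 := hb L (i - 1)
  have h2 := hb L j
  have h3 : β L' (i - 1) = 0 := by omega
  have h4 : β L' j = 0 := by omega
  simp only [hβ] at h3 h4
  have h3' : L' (i - 1 + 1) = L' (i - 1) + 1 := by
    by_contra hc; rw [if_pos hc] at h3; omega
  have h4' : L' (j + 1) = L' j + 1 := by
    by_contra hc; rw [if_pos hc] at h4; omega
  have e1 : L' (i - 1 + 1) = -L j := by
    rw [hL']; unfold Cyc.revF
    rw [if_pos (by omega)]; congr 2; omega
  have e2 : L' (i - 1) = L (i - 1) := by
    rw [hL']; unfold Cyc.revF
    rw [if_neg (by omega)]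
  have e3 : L' (j + 1) = L (j + 1) := by
    rw [hL']; unfold Cyc.revF
    rw [if_neg (by omega)]
  have e4 : L' j = -L i := by
    rw [hL']; unfold Cyc.revF
    rw [if_pos (by omega)]; congr 2; omega
  rw [e1, e2] at h3'
  rw [e3, e4] at h4'
  exact ⟨by omega, by omega⟩

/-- The legal reversals. -/
def pairs (n : ℕ) : Finset (ℕ × ℕ) :=
  ((range (n + 1)) ×ˢ (range (n + 1))).filter (fun r => 1 ≤ r.1 ∧ r.1 ≤ r.2 ∧ r.2 ≤ n)

theorem mem_pairs {n : ℕ} {r : ℕ × ℕ} : r ∈ pairs n ↔ Legal n r := by
  simp only [pairs, Finset.mem_filter, Finset.mem_product, Finset.mem_range, Legal]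
  omega

open Classical in
/-- The sorting sequences with `r` steps which never meet `good` after a step. -/
noncomputable def seqs (good : List ℤ → Prop) (n : ℕ) : ℕ → List ℤ → Finset (List (ℕ × ℕ))
  | 0, l => if l = idPerm n then {[]} else ∅
  | r + 1, l => (pairs n).biUnion fun ij =>
      if good (reversal l ij) then ∅ else (seqs good n r (reversal l ij)).image (List.cons ij)

theorem mem_seqs (good : List ℤ → Prop) (n : ℕ) : ∀ (r : ℕ) (l : List ℤ), l.length = n →
    ∀ rs, rs ∈ seqs good n r l ↔ (Sorts l rs ∧ rs.length = r ∧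
      ∀ k, 1 ≤ k → k ≤ r → ¬ good ((rs.take k).foldl reversal l)) := by
  intro r
  induction r with
  | zero =>
    intro l hl rs
    simp only [seqs]
    by_cases h : l = idPerm n
    · rw [if_pos h, Finset.mem_singleton]
      constructor
      · rintro rfl
        refine ⟨⟨by simp, by simpa [hl] using h⟩, rfl, fun k h1 h2 => by omega⟩
      · rintro ⟨_, h2, _⟩
        exact List.length_eq_zero_iff.1 h2
    · rw [if_neg h]
      constructor
      · intro h1; simp at h1
      · rintro ⟨h1, h2, _⟩
        exfalso
        rw [List.length_eq_zero_iff] at h2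
        subst h2
        apply h
        have := h1.2
        rw [hl] at this
        simpa using this
  | succ r ih =>
    intro l hl rs
    simp only [seqs, Finset.mem_biUnion, mem_pairs]
    constructor
    · rintro ⟨ij, hij, hmem⟩
      by_cases hg : good (reversal l ij)
      · rw [if_pos hg] at hmem; simp at hmem
      · rw [if_neg hg, Finset.mem_image] at hmem
        obtain ⟨rs', h1, rfl⟩ := hmem
        have hl' : (reversal l ij).length = n := by
          rw [reversal_length (by rw [hl]; exact hij), hl]
        obtain ⟨h2, h3, h4⟩ := (ih _ hl' rs').1 h1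
        refine ⟨⟨?_, ?_⟩, by simp [h3], ?_⟩
        · intro z hz
          rcases List.mem_cons.1 hz with rfl | hz
          · rw [hl]; exact hij
          · have := h2.1 z hz
            rw [hl'] at this
            rw [hl]; exact this
        · have := h2.2
          rw [hl'] at this
          rw [hl]; exact this
        · intro k hk1 hk2
          obtain ⟨k, rfl⟩ : ∃ k', k = k' + 1 := ⟨k - 1, by omega⟩
          rw [List.take_succ_cons, List.foldl_cons]
          by_cases hk0 : k = 0
          · rw [hk0]; simpa using hg
          · exact h4 k (by omega) (by omega)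
    · rintro ⟨h1, h2, h3⟩
      cases rs with
      | nil => simp at h2
      | cons ij rs' =>
        have hij : Legal n ij := by
          have := h1.1 ij (List.mem_cons_self ..)
          rwa [hl] at this
        have hl' : (reversal l ij).length = n := by
          rw [reversal_length (by rw [hl]; exact hij), hl]
        refine ⟨ij, hij, ?_⟩
        have hg : ¬ good (reversal l ij) := by
          have := h3 1 (le_refl _) (by omega)
          simpa using this
        rw [if_neg hg, Finset.mem_image]
        refine ⟨rs', (ih _ hl' rs').2 ⟨⟨?_, ?_⟩, ?_, ?_⟩, rfl⟩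
        · intro z hz
          have := h1.1 z (List.mem_cons_of_mem _ hz)
          rw [hl] at this
          rw [hl']; exact this
        · have := h1.2
          rw [hl] at this
          rw [hl']; exact this
        · simpa using h2
        · intro k hk1 hk2
          have := h3 (k + 1) (by omega) (by omega)
          rwa [List.take_succ_cons, List.foldl_cons] at this

open Classical in
theorem card_seqs_succ (good : List ℤ → Prop) (n r : ℕ) (l : List ℤ) :
    (seqs good n (r + 1) l).card =
      ∑ ij ∈ pairs n, if good (reversal l ij) then 0 else (seqs good n r (reversal l ij)).card := by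
  simp only [seqs]
  rw [Finset.card_biUnion]
  · refine Finset.sum_congr rfl fun ij _ => ?_
    split_ifs
    · simp
    · exact Finset.card_image_of_injective _ (List.cons_injective)
  · intro a _ b _ hab
    rw [Function.onFun, Finset.disjoint_left]
    intro z hz hz'
    split_ifs at hz hz'
    · simp at hz
    · simp at hz
    · simp at hz'
    · rw [Finset.mem_image] at hz hz'
      obtain ⟨z1, _, h1⟩ := hz
      obtain ⟨z2, _, h2⟩ := hz'
      rw [← h2] at h1
      exact hab (List.cons.inj h1).1

theorem bp_of_mem (n : ℕ) : ∀ (rs : List (ℕ × ℕ)) (l : List ℤ), l.length = n → Sorts l rs →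
    Cyc.bp n (ext l) ≤ 2 * rs.length := by
  intro rs
  induction rs with
  | nil =>
    intro l hl h
    have : l = idPerm n := by
      have := h.2
      rwa [hl] at this
    rw [this]
    simp only [List.length_nil, mul_zero, nonpos_iff_eq_zero, Cyc.bp, Finset.card_eq_zero]
    rw [Finset.filter_eq_empty_iff]
    intro p hp
    rw [Finset.mem_range] at hp
    rw [ext_idPerm n _ (by omega), ext_idPerm n _ (by omega)]
    push_cast; simp
  | cons ij rs ih =>
    intro l hl h
    have hij : Legal n ij := by
      have := h.1 ij (List.mem_cons_self ..)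
      rwa [hl] at this
    have hij' : Legal l.length ij := by rw [hl]; exact hij
    have hl' : (reversal l ij).length = n := by rw [reversal_length hij', hl]
    have h1 := ih _ hl' ⟨fun z hz => by
      have := h.1 z (List.mem_cons_of_mem _ hz)
      rw [hl] at this
      rw [hl']; exact this, by
      have := h.2
      rw [hl] at this
      rw [hl']; exact this⟩
    have h2 := (bp_rev (n := n) (ext l) hij.1 hij.2.1 hij.2.2).1
    have h3 : Cyc.bp n (Cyc.revF ij.1 ij.2 (ext l)) = Cyc.bp n (ext (reversal l ij)) := by
      congr 1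
      funext p
      rw [ext_reversal hij']
    rw [List.length_cons]
    omega

section Main

variable {κ : Type*} [DecidableEq κ]

/-- The vector of the numbers of labels in the classes. -/
def kv (cls : ℕ → κ) (Q : Finset ℕ) (c : κ) : ℕ := (Q.filter (fun v => cls v = c)).card

theorem kv_erase (cls : ℕ → κ) {Q : Finset ℕ} {v : ℕ} (hv : v ∈ Q) :
    kv cls (Q.erase v) = dec (kv cls Q) (cls v) := by
  funext c
  by_cases h : c = cls v
  · subst h
    rw [dec_self]
    unfold kv
    rw [Finset.filter_erase, Finset.card_erase_of_mem]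
    exact Finset.mem_filter.2 ⟨hv, rfl⟩
  · rw [dec_of_ne _ h]
    unfold kv
    rw [Finset.filter_erase, Finset.erase_eq_of_notMem]
    intro h1
    exact h (Finset.mem_filter.1 h1).2.symm

variable [Fintype κ]

theorem sum_kv (cls : ℕ → κ) (Q : Finset ℕ) : ∑ c, kv cls Q c = Q.card := by
  unfold kv
  rw [← Finset.card_eq_sum_card_fiberwise]
  intro v _; simp

open Classical in
theorem cnt_kv (ok : (κ → ℕ) → Prop) (cls : ℕ → κ) (r : ℕ) (Q : Finset ℕ) :
    cnt ok (r + 1) (kv cls Q) = ∑ v ∈ Q, if ok (kv cls (Q.erase v)) then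
      cnt ok r (kv cls (Q.erase v)) else 0 := by
  rw [cnt]
  have : ∀ v ∈ Q, (if ok (kv cls (Q.erase v)) then cnt ok r (kv cls (Q.erase v)) else 0) =
      (fun c => if ok (dec (kv cls Q) c) then cnt ok r (dec (kv cls Q) c) else 0) (cls v) := by
    intro v hv
    rw [kv_erase cls hv]
  rw [Finset.sum_congr rfl this, ← Finset.sum_fiberwise_of_maps_to (g := cls)
    (t := Finset.univ) (fun _ _ => Finset.mem_univ _)]
  refine Finset.sum_congr rfl fun c _ => ?_
  rw [Finset.sum_congr (g := fun _ => if ok (dec (kv cls Q) c) then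
    cnt ok r (dec (kv cls Q) c) else 0) rfl]
  · rw [Finset.sum_const, smul_eq_mul]
    congr 1
  · intro v hv
    rw [(Finset.mem_filter.1 hv).2]

/-- **Sorting sequences correspond to words.** -/
theorem card_seqs {n : ℕ} (C : Cyc n) (cls : ℕ → κ) (ok : (κ → ℕ) → Prop)
    (good : List ℤ → Prop)
    (hok1 : ∀ Q ⊆ C.V, ok (kv cls Q) → NS C.D.M Q)
    (hok2 : ∀ Q ⊆ C.V, ∀ l : List ℤ, l.length = n → Cyc.Inv C Q (ext l) →
      (ok (kv cls Q) ↔ ¬ good l)) :
    ∀ (r : ℕ) (Q : Finset ℕ) (l : List ℤ), Q ⊆ C.V → Q.card = r → l.length = n →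
      Cyc.Inv C Q (ext l) → (seqs good n r l).card = cnt ok r (kv cls Q) := by
  classical
  intro r
  induction r with
  | zero =>
    intro Q l hQ hr hl hI
    rw [Finset.card_eq_zero] at hr
    subst hr
    have hid : l = idPerm n := by
      apply eq_of_ext (by rw [hl, idPerm_length])
      have : ∀ p ≤ n + 1, ext l p = p := by
        intro p
        induction p with
        | zero => intro _; exact hI.z
        | succ p ih =>
          intro hp
          have h1 := hI.adj p (by omega)
          rw [Cyc.bet_not_mem (by simp), ih (by omega)] at h1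
          push_cast; omega
      intro p _ hp
      rw [this p (by omega), ext_idPerm n p (by omega)]
    simp only [seqs, cnt, if_pos hid, Finset.card_singleton]
  | succ r ih =>
    intro Q l hQ hr hl hI
    rw [card_seqs_succ, cnt_kv]
    have hbp := hI.bp_ge hQ
    -- facts about legal reversals
    have hext : ∀ ij ∈ pairs n, ext (reversal l ij) = Cyc.revF ij.1 ij.2 (ext l) := by
      intro ij hij
      funext p
      exact ext_reversal (by rw [hl]; exact mem_pairs.1 hij) p
    have hlen : ∀ ij ∈ pairs n, (reversal l ij).length = n := by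
      intro ij hij
      rw [reversal_length (by rw [hl]; exact mem_pairs.1 hij), hl]
    let A := (pairs n).filter (fun ij => Cyc.R2 (ext l) ij.1 ij.2 ∧ ¬ good (reversal l ij))
    have hA : ∑ ij ∈ pairs n, (if good (reversal l ij) then 0 else
        (seqs good n r (reversal l ij)).card) =
        ∑ ij ∈ A, (seqs good n r (reversal l ij)).card := by
      simp only [A]
      rw [Finset.sum_filter]
      refine Finset.sum_congr rfl fun ij hij => ?_
      by_cases hg : good (reversal l ij)
      · rw [if_pos hg, if_neg (fun h => h.2 hg)]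
      · rw [if_neg hg]
        by_cases hR : Cyc.R2 (ext l) ij.1 ij.2
        · rw [if_pos ⟨hR, hg⟩]
        · rw [if_neg (fun h => hR h.1), Finset.card_eq_zero, Finset.eq_empty_iff_forall_notMem]
          intro rs hrs
          obtain ⟨h1, h2, _⟩ := (mem_seqs good n r _ (hlen ij hij) rs).1 hrs
          have h3 := bp_of_mem n rs _ (hlen ij hij) h1
          rw [hext ij hij, h2] at h3
          obtain ⟨a1, a2, a3⟩ := mem_pairs.1 hij
          apply hR
          refine (bp_rev (n := n) (ext l) a1 a2 a3).2 ?_
          omega
    rw [hA, ← Finset.sum_filter]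
    have hstep : ∀ ij ∈ A, C.lab (idx (ext l (ij.1 - 1))) ∈ Q ∧
        Cyc.Inv C (Q.erase (C.lab (idx (ext l (ij.1 - 1))))) (ext (reversal l ij)) := by
      intro ij hij
      obtain ⟨h1, h2, h3⟩ := Finset.mem_filter.1 hij
      obtain ⟨a1, a2, a3⟩ := mem_pairs.1 h1
      have := hI.step a1 a2 a3 h2
      rw [hext ij h1]
      exact ⟨this.1, this.2.1⟩
    refine Finset.sum_bij (fun ij _ => C.lab (idx (ext l (ij.1 - 1)))) ?_ ?_ ?_ ?_
    · intro ij hij
      obtain ⟨h1, h2⟩ := hstep ij hij
      obtain ⟨h3, h4, h5⟩ := Finset.mem_filter.1 hij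
      refine Finset.mem_filter.2 ⟨h1, ?_⟩
      exact (hok2 _ ((Finset.erase_subset _ _).trans hQ) _ (hlen ij h3) h2).2 h5
    · intro ij hij ij' hij' heq
      obtain ⟨h3, h4, h5⟩ := Finset.mem_filter.1 hij
      obtain ⟨h3', h4', h5'⟩ := Finset.mem_filter.1 hij'
      obtain ⟨a1, a2, a3⟩ := mem_pairs.1 h3
      obtain ⟨a1', a2', a3'⟩ := mem_pairs.1 h3'
      obtain ⟨e1, e2⟩ := hI.uniq a1 a2 a3 h4 a1' a2' a3' h4' heq
      exact Prod.ext e1 e2
    · intro v hv
      obtain ⟨hv1, hv2⟩ := Finset.mem_filter.1 hv
      have hQ' : Q.erase v ⊆ C.V := (Finset.erase_subset _ _).trans hQ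
      obtain ⟨i, j, hi, hij, hj, hR, hlab⟩ := hI.exists_rev hQ hv1 (hok1 _ hQ' hv2)
      have hmem : (i, j) ∈ pairs n := mem_pairs.2 ⟨hi, hij, hj⟩
      have hI' := (hI.step hi hij hj hR).2.1
      rw [hlab] at hI'
      refine ⟨(i, j), Finset.mem_filter.2 ⟨hmem, hR, ?_⟩, hlab⟩
      refine (hok2 _ hQ' _ (hlen _ hmem) ?_).1 hv2
      rw [hext _ hmem]; exact hI'
    · intro ij hij
      obtain ⟨h1, h2⟩ := hstep ij hij
      obtain ⟨h3, h4, h5⟩ := Finset.mem_filter.1 hij
      refine ih _ _ ((Finset.erase_subset _ _).trans hQ) ?_ (hlen ij h3) h2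
      rw [Finset.card_erase_of_mem h1, hr]; rfl

/-- A sorting sequence has length at least the number of unresolved cycles. -/
theorem length_ge {n : ℕ} {C : Cyc n} {Q : Finset ℕ} (hQ : Q ⊆ C.V) {l : List ℤ}
    (hl : l.length = n) (hI : Cyc.Inv C Q (ext l)) {rs : List (ℕ × ℕ)} (h : Sorts l rs) :
    Q.card ≤ rs.length := by
  have h1 := bp_of_mem n rs l hl h
  have h2 := hI.bp_ge hQ
  omega

end Main

end Pool.Agent.TH700
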