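import Pool.Agent.TH700.Words
import Pool.Agent.TH700.Rev

/-!
# The signed permutation of a switching network

The slots `t = j b + o`, `0 ≤ j ≤ 2 q`, `0 ≤ o < b = 2 h + s`; the slot `t` gives the two desired
adjacencies `2 t + 1` and `2 t + 2`.
-/

namespace Pool.Agent.TH700

open Finset

namespace Net

variable (W : Net) (h : ℕ)

/-- The size of a block. -/
def bl : ℕ := 2 * h + W.s

/-- The cyclic predecessor. -/
def pv (j : ℕ) : ℕ := if j = 0 then 2 * W.q else j - 1

/-- The block of the partner slot. -/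
def tj (j o : ℕ) : ℕ :=
  if o < h then (if j = 0 then 0 else W.nx j)
  else if o < h + W.s then (if j = (W.sw (o - h)).1 then (W.sw (o - h)).2
    else if j = (W.sw (o - h)).2 then (W.sw (o - h)).1 else j)
  else (if j = 1 then 1 else W.pv j)

/-- The sign: the partner is connected by a negative pair. -/
def ng (j o : ℕ) : Bool :=
  if o < h then decide (j ≠ 0) else if o < h + W.s then false else decide (j ≠ 1)

/-- The offset of the partner slot. -/
def tt (j o : ℕ) : ℕ := if W.ng h j o then W.bl h - 1 - o else o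

/-- The number of slots. -/
def K0 : ℕ := (2 * W.q + 1) * W.bl h

/-- The size of the permutation. -/
def nn : ℕ := 2 * W.K0 h + 1

/-- The partner slot. -/
def tau (t : ℕ) : ℕ := W.tj h (t / W.bl h) (t % W.bl h) * W.bl h +
  W.tt h (t / W.bl h) (t % W.bl h)

/-- The entry in the position `p + 1`. -/
def entry (p : ℕ) : ℤ :=
  if p % 2 = 0 then (p : ℤ) + 1
  else if W.ng h (p / 2 / W.bl h) (p / 2 % W.bl h) then -(2 * (W.tau h (p / 2) : ℤ) + 2)
  else 2 * (W.tau h (p / 2) : ℤ) + 2

/-- The signed permutation. -/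
def perm : List ℤ := (List.range (W.nn h)).map (W.entry h)

/-- block of an adjacency -/
def fj (e : ℕ) : ℕ := (e - 1) / 2 / W.bl h
/-- offset of an adjacency -/
def fo (e : ℕ) : ℕ := (e - 1) / 2 % W.bl h
/-- parity of an adjacency -/
def fb (e : ℕ) : ℕ := (e - 1) % 2
/-- the adjacency with given block, offset, parity -/
def enc (j o b : ℕ) : ℕ := 1 + 2 * (j * W.bl h + o) + b

/-- The partner adjacency. -/
def chi (e : ℕ) : ℕ :=
  if e = 0 ∨ 2 * W.K0 h < e then e
  else W.enc h (W.tj h (W.fj h e) (W.fo h e)) (W.tt h (W.fj h e) (W.fo h e))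
    (if W.ng h (W.fj h e) (W.fo h e) then 1 - fb e else fb e)

/-- Orientation. -/
def ori (e : ℕ) : Bool := if e = 0 ∨ 2 * W.K0 h < e then false else W.ng h (W.fj h e) (W.fo h e)

variable {W h}

theorem bl_pos (hh : 1 ≤ h) : 0 < W.bl h := by unfold bl; omega

theorem enc_decode (hh : 1 ≤ h) {e : ℕ} (he : 1 ≤ e) (he' : e ≤ 2 * W.K0 h) :
    ∃ j o b, j ≤ 2 * W.q ∧ o < W.bl h ∧ b < 2 ∧ e = W.enc h j o b ∧ W.fj h e = j ∧
      W.fo h e = o ∧ fb e = b := by
  have hb := bl_pos (W := W) hh
  refine ⟨W.fj h e, W.fo h e, fb e, ?_, ?_, ?_, ?_, rfl, rfl, rfl⟩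
  · unfold fj
    have : (e - 1) / 2 < (2 * W.q + 1) * W.bl h := by
      unfold K0 at he'; omega
    have := (Nat.div_lt_iff_lt_mul hb).2 this
    omega
  · exact Nat.mod_lt _ hb
  · exact Nat.mod_lt _ (by norm_num)
  · unfold enc fj fo fb
    have h1 := Nat.div_add_mod ((e - 1) / 2) (W.bl h)
    rw [mul_comm] at h1
    omega

theorem enc_fields {j o b : ℕ} (ho : o < W.bl h) (hb : b < 2) :
    W.fj h (W.enc h j o b) = j ∧ W.fo h (W.enc h j o b) = o ∧ fb (W.enc h j o b) = b := by
  have h0 : 0 < W.bl h := by omega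
  have h1 : (W.enc h j o b - 1) / 2 = j * W.bl h + o := by unfold enc; omega
  have h2 : (W.enc h j o b - 1) % 2 = b := by unfold enc; omega
  refine ⟨?_, ?_, ?_⟩
  · unfold fj
    rw [h1, mul_comm, Nat.mul_add_div h0, Nat.div_eq_of_lt ho, add_zero]
  · unfold fo
    rw [h1, mul_comm, Nat.mul_add_mod, Nat.mod_eq_of_lt ho]
  · unfold fb
    exact h2

theorem enc_bounds {j o b : ℕ} (hj : j ≤ 2 * W.q) (ho : o < W.bl h) (hb : b < 2) :
    1 ≤ W.enc h j o b ∧ W.enc h j o b ≤ 2 * W.K0 h := by
  unfold enc K0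
  have : (j + 1) * W.bl h ≤ (2 * W.q + 1) * W.bl h := Nat.mul_le_mul_right _ (by omega)
  rw [Nat.succ_mul] at this
  omega

theorem enc_lt_iff {j o b j' o' b' : ℕ} (ho : o < W.bl h) (ho' : o' < W.bl h)
    (hb : b < 2) (hb' : b' < 2) :
    W.enc h j o b < W.enc h j' o' b' ↔
      j < j' ∨ (j = j' ∧ (o < o' ∨ (o = o' ∧ b < b'))) := by
  unfold enc
  rcases Nat.lt_trichotomy j j' with h1 | h1 | h1
  · have : (j + 1) * W.bl h ≤ j' * W.bl h := Nat.mul_le_mul_right _ h1
    rw [Nat.succ_mul] at this
    constructor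
    · intro _; exact Or.inl h1
    · intro _; omega
  · subst h1
    constructor
    · intro h2; right; refine ⟨rfl, ?_⟩; omega
    · rintro (h2 | ⟨_, h2⟩)
      · omega
      · omega
  · have : (j' + 1) * W.bl h ≤ j * W.bl h := Nat.mul_le_mul_right _ h1
    rw [Nat.succ_mul] at this
    constructor
    · intro h2; omega
    · rintro (h2 | ⟨h2, _⟩) <;> omega

theorem pv_nx {j : ℕ} (hj : j ≤ 2 * W.q) : W.pv (W.nx j) = j := by
  unfold nx
  by_cases h1 : j < 2 * W.q
  · rw [if_pos h1]; unfold pv; rw [if_neg (by omega)]; omega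
  · rw [if_neg h1]; unfold pv; rw [if_pos rfl]; omega

theorem nx_pv {j : ℕ} (hj : j ≤ 2 * W.q) : W.nx (W.pv j) = j := by
  have := W.hq
  unfold pv
  by_cases h1 : j = 0
  · rw [if_pos h1]; unfold nx; rw [if_neg (by omega)]; omega
  · rw [if_neg h1]; unfold nx; rw [if_pos (by omega)]; omega

/-- Facts about the partner slot. -/
theorem pair_facts {j o : ℕ} (hj : j ≤ 2 * W.q) (ho : o < W.bl h) :
    W.tj h j o ≤ 2 * W.q ∧ W.tt h j o < W.bl h ∧
    W.ng h (W.tj h j o) (W.tt h j o) = W.ng h j o ∧
    W.tj h (W.tj h j o) (W.tt h j o) = j ∧ W.tt h (W.tj h j o) (W.tt h j o) = o := by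
  have hq := W.hq
  unfold bl at ho
  by_cases h1 : o < h
  · by_cases h2 : j = 0
    · subst h2
      have e1 : W.tj h 0 o = 0 := by unfold tj; rw [if_pos h1, if_pos rfl]
      have e2 : W.ng h 0 o = false := by unfold ng; rw [if_pos h1]; simp
      have e3 : W.tt h 0 o = o := by unfold tt; rw [e2]; simp
      rw [e1, e3, e1, e3, e2]
      exact ⟨by omega, ho, rfl, rfl, rfl⟩
    · have e1 : W.tj h j o = W.nx j := by unfold tj; rw [if_pos h1, if_neg h2]
      have e2 : W.ng h j o = true := by unfold ng; rw [if_pos h1]; simpa using h2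
      have e3 : W.tt h j o = W.bl h - 1 - o := by unfold tt; rw [e2]; simp
      have hn1 : W.nx j ≠ 1 := by unfold nx; split_ifs <;> omega
      have e4 : W.ng h (W.nx j) (W.bl h - 1 - o) = true := by
        unfold ng bl; rw [if_neg (by omega), if_neg (by omega)]; simpa using hn1
      have e5 : W.tj h (W.nx j) (W.bl h - 1 - o) = j := by
        unfold tj bl; rw [if_neg (by omega), if_neg (by omega), if_neg hn1]
        exact pv_nx hj
      have e6 : W.tt h (W.nx j) (W.bl h - 1 - o) = o := by
        unfold tt; rw [e4]; unfold bl; simp; omega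
      rw [e1, e3, e4, e5, e6, e2]
      exact ⟨nx_le j, by unfold bl; omega, rfl, rfl, rfl⟩
  · by_cases h2 : o < h + W.s
    · have e2 : ∀ j', W.ng h j' o = false := by
        intro j'; unfold ng; rw [if_neg h1, if_pos h2]
      have e3 : ∀ j', W.tt h j' o = o := by intro j'; unfold tt; rw [e2]; simp
      have hsw := W.hsw (o - h) (by omega)
      rw [e3]
      have e1 : ∀ j', W.tj h j' o = if j' = (W.sw (o - h)).1 then (W.sw (o - h)).2
          else if j' = (W.sw (o - h)).2 then (W.sw (o - h)).1 else j' := by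
        intro j'; unfold tj; rw [if_neg h1, if_pos h2]
      refine ⟨?_, by unfold bl; exact ho, by rw [e2, e2], ?_, e3 _⟩
      · rw [e1]; split_ifs <;> omega
      · rw [e1 (W.tj h j o), e1 j]
        split_ifs <;> omega
    · by_cases h3 : j = 1
      · subst h3
        have e1 : W.tj h 1 o = 1 := by unfold tj; rw [if_neg h1, if_neg h2, if_pos rfl]
        have e2 : W.ng h 1 o = false := by unfold ng; rw [if_neg h1, if_neg h2]; simp
        have e3 : W.tt h 1 o = o := by unfold tt; rw [e2]; simp
        rw [e1, e3, e1, e3, e2]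
        exact ⟨by omega, ho, rfl, rfl, rfl⟩
      · have e1 : W.tj h j o = W.pv j := by unfold tj; rw [if_neg h1, if_neg h2, if_neg h3]
        have e2 : W.ng h j o = true := by
          unfold ng; rw [if_neg h1, if_neg h2]; simpa using h3
        have e3 : W.tt h j o = W.bl h - 1 - o := by unfold tt; rw [e2]; simp
        have hp0 : W.pv j ≠ 0 := by unfold pv; split_ifs <;> omega
        have e4 : W.ng h (W.pv j) (W.bl h - 1 - o) = true := by
          unfold ng bl; rw [if_pos (by omega)]; simpa using hp0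
        have e5 : W.tj h (W.pv j) (W.bl h - 1 - o) = j := by
          unfold tj bl; rw [if_pos (by omega), if_neg hp0]
          exact nx_pv hj
        have e6 : W.tt h (W.pv j) (W.bl h - 1 - o) = o := by
          unfold tt; rw [e4]; unfold bl; simp; omega
        rw [e1, e3, e4, e5, e6, e2]
        refine ⟨?_, by unfold bl; omega, rfl, rfl, rfl⟩
        unfold pv; split_ifs <;> omega

theorem chi_enc {j o b : ℕ} (hj : j ≤ 2 * W.q) (ho : o < W.bl h) (hb : b < 2) :
    W.chi h (W.enc h j o b) = W.enc h (W.tj h j o) (W.tt h j o)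
      (if W.ng h j o then 1 - b else b) := by
  obtain ⟨h1, h2⟩ := enc_bounds (W := W) hj ho hb
  obtain ⟨h3, h4, h5⟩ := enc_fields (W := W) (j := j) ho hb
  unfold chi
  rw [if_neg (by omega), h3, h4, h5]

theorem ori_enc {j o b : ℕ} (hj : j ≤ 2 * W.q) (ho : o < W.bl h) (hb : b < 2) :
    W.ori h (W.enc h j o b) = W.ng h j o := by
  obtain ⟨h1, h2⟩ := enc_bounds (W := W) hj ho hb
  obtain ⟨h3, h4, h5⟩ := enc_fields (W := W) (j := j) ho hb
  unfold ori
  rw [if_neg (by omega), h3, h4]

theorem chi_triv {e : ℕ} (he : e = 0 ∨ 2 * W.K0 h < e) : W.chi h e = e := by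
  unfold chi; rw [if_pos he]

theorem ori_triv {e : ℕ} (he : e = 0 ∨ 2 * W.K0 h < e) : W.ori h e = false := by
  unfold ori; rw [if_pos he]

theorem cases_e (hh : 1 ≤ h) (e : ℕ) : (e = 0 ∨ 2 * W.K0 h < e) ∨
    ∃ j o b, j ≤ 2 * W.q ∧ o < W.bl h ∧ b < 2 ∧ e = W.enc h j o b := by
  by_cases he : e = 0 ∨ 2 * W.K0 h < e
  · exact Or.inl he
  · right
    obtain ⟨j, o, b, h1, h2, h3, h4, _⟩ := enc_decode (W := W) hh (e := e) (by omega) (by omega)
    exact ⟨j, o, b, h1, h2, h3, h4⟩

/-- The breakpoint graph of the permutation. -/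
def cyc (W : Net) (h : ℕ) (hh : 1 ≤ h) : Cyc (W.nn h) where
  χ := W.chi h
  o := W.ori h
  le := by
    intro e he
    rcases cases_e (W := W) hh e with h1 | ⟨j, o, b, hj, ho, hb, rfl⟩
    · rw [chi_triv h1]; exact he
    · rw [chi_enc hj ho hb]
      obtain ⟨h1, h2, _⟩ := pair_facts (W := W) hj ho
      have := (enc_bounds (W := W) h1 h2 (b := if W.ng h j o then 1 - b else b)
        (by split_ifs <;> omega)).2
      unfold nn; omega
  inv := by
    intro e he
    rcases cases_e (W := W) hh e with h1 | ⟨j, o, b, hj, ho, hb, rfl⟩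
    · rw [chi_triv h1, chi_triv h1]
    · rw [chi_enc hj ho hb]
      obtain ⟨h1, h2, h3, h4, h5⟩ := pair_facts (W := W) hj ho
      rw [chi_enc h1 h2 (by split_ifs <;> omega), h3, h4, h5]
      congr 1
      split_ifs <;> omega
  oχ := by
    intro e he
    rcases cases_e (W := W) hh e with h1 | ⟨j, o, b, hj, ho, hb, rfl⟩
    · rw [chi_triv h1]
    · rw [chi_enc hj ho hb]
      obtain ⟨h1, h2, h3, h4, h5⟩ := pair_facts (W := W) hj ho
      rw [ori_enc h1 h2 (by split_ifs <;> omega), ori_enc hj ho hb, h3]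

theorem perm_length : (W.perm h).length = W.nn h := by simp [perm]

theorem ext_perm (p : ℕ) (_ : p ≤ W.nn h + 1) : ext (W.perm h) p =
    if p = 0 then 0 else if p ≤ W.nn h then W.entry h (p - 1) else (W.nn h : ℤ) + 1 := by
  unfold ext
  rw [perm_length]
  by_cases h0 : p = 0
  · rw [if_pos h0, if_pos h0]
  · rw [if_neg h0, if_neg h0]
    by_cases h1 : p ≤ W.nn h
    · rw [if_pos h1, if_pos h1]
      unfold perm
      rw [List.getD_eq_getElem?_getD, List.getElem?_map, List.getElem?_range (by omega)]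
      simp
    · rw [if_neg h1, if_neg h1]

/-- Value at the odd positions. -/
theorem ext_odd {t : ℕ} (ht : t ≤ W.K0 h) : ext (W.perm h) (2 * t + 1) = 2 * (t : ℤ) + 1 := by
  rw [ext_perm _ (by unfold nn; omega), if_neg (by omega), if_pos (by unfold nn; omega)]
  unfold entry
  rw [if_pos (by omega)]
  push_cast; simp

/-- Value at the even positions. -/
theorem ext_even {j o : ℕ} (hj : j ≤ 2 * W.q) (ho : o < W.bl h) :
    ext (W.perm h) (2 * (j * W.bl h + o) + 2) =
      if W.ng h j o then -(2 * ((W.tj h j o * W.bl h + W.tt h j o : ℕ) : ℤ) + 2)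
      else 2 * ((W.tj h j o * W.bl h + W.tt h j o : ℕ) : ℤ) + 2 := by
  have h0 : 0 < W.bl h := by omega
  have hlt : j * W.bl h + o < W.K0 h := by
    unfold K0
    have : (j + 1) * W.bl h ≤ (2 * W.q + 1) * W.bl h := Nat.mul_le_mul_right _ (by omega)
    rw [Nat.succ_mul] at this
    omega
  rw [ext_perm _ (by unfold nn; omega), if_neg (by omega), if_pos (by unfold nn; omega)]
  unfold entry
  have e1 : (2 * (j * W.bl h + o) + 2 - 1) / 2 = j * W.bl h + o := by omega
  have e2 : (j * W.bl h + o) / W.bl h = j := by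
    rw [mul_comm, Nat.mul_add_div h0, Nat.div_eq_of_lt ho, add_zero]
  have e3 : (j * W.bl h + o) % W.bl h = o := by
    rw [mul_comm, Nat.mul_add_mod, Nat.mod_eq_of_lt ho]
  rw [if_neg (by omega), e1]
  unfold tau
  rw [e2, e3]

theorem slot_inj {j o j' o' : ℕ} (ho : o < W.bl h) (ho' : o' < W.bl h)
    (he : j * W.bl h + o = j' * W.bl h + o') : j = j' ∧ o = o' := by
  have h1 := enc_fields (W := W) (h := h) (j := j) ho (b := 0) (by omega)
  have h2 := enc_fields (W := W) (h := h) (j := j') ho' (b := 0) (by omega)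
  have h3 : W.enc h j o 0 = W.enc h j' o' 0 := by unfold enc; rw [he]
  rw [h3] at h1
  exact ⟨h1.1.symm.trans h2.1, h1.2.1.symm.trans h2.2.1⟩

theorem pos_cases (hh : 1 ≤ h) {p : ℕ} (hp : p ≤ W.nn h + 1) :
    p = 0 ∨ (∃ t ≤ W.K0 h, p = 2 * t + 1) ∨
      (∃ j o, j ≤ 2 * W.q ∧ o < W.bl h ∧ p = 2 * (j * W.bl h + o) + 2) ∨ p = W.nn h + 1 := by
  by_cases h0 : p = 0
  · exact Or.inl h0
  · by_cases h1 : p = W.nn h + 1
    · exact Or.inr (Or.inr (Or.inr h1))
    · rcases Nat.even_or_odd p with ⟨t, ht⟩ | ⟨t, ht⟩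
      · right; right; left
        unfold nn at h1 hp
        obtain ⟨j, o, b, hj, ho, hb, he, _⟩ := enc_decode (W := W) hh (e := p) (by omega)
          (by omega)
        refine ⟨j, o, hj, ho, ?_⟩
        unfold enc at he
        omega
      · right; left
        unfold nn at h1 hp
        exact ⟨t, by omega, ht⟩

theorem natAbs_even {j o : ℕ} (hj : j ≤ 2 * W.q) (ho : o < W.bl h) :
    (ext (W.perm h) (2 * (j * W.bl h + o) + 2)).natAbs =
      2 * (W.tj h j o * W.bl h + W.tt h j o) + 2 := by
  rw [ext_even hj ho]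
  split_ifs <;> omega

theorem slot_lt {j o : ℕ} (hj : j ≤ 2 * W.q) (ho : o < W.bl h) : j * W.bl h + o < W.K0 h := by
  unfold K0
  have : (j + 1) * W.bl h ≤ (2 * W.q + 1) * W.bl h := Nat.mul_le_mul_right _ (by omega)
  rw [Nat.succ_mul] at this
  omega

/-- The absolute values are distinct. -/
theorem perm_inj (hh : 1 ≤ h) : ∀ p ≤ W.nn h + 1, ∀ p' ≤ W.nn h + 1,
    (ext (W.perm h) p).natAbs = (ext (W.perm h) p').natAbs → p = p' := by
  have hz : (ext (W.perm h) 0).natAbs = 0 := by rw [ext_perm _ (by omega)]; simp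
  have hl : (ext (W.perm h) (W.nn h + 1)).natAbs = W.nn h + 1 := by
    rw [ext_perm _ (le_refl _), if_neg (by omega), if_neg (by omega)]; omega
  have ho : ∀ t ≤ W.K0 h, (ext (W.perm h) (2 * t + 1)).natAbs = 2 * t + 1 := by
    intro t ht; rw [ext_odd ht]; omega
  intro p hp p' hp' heq
  have hnn : W.nn h = 2 * W.K0 h + 1 := rfl
  rcases pos_cases hh hp with rfl | ⟨t, ht, rfl⟩ | ⟨j, o, hj, hoo, rfl⟩ | rfl <;>
  rcases pos_cases hh hp' with rfl | ⟨t', ht', rfl⟩ | ⟨j', o', hj', hoo', rfl⟩ | rfl
  · rfl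
  · rw [hz, ho t' ht'] at heq; omega
  · rw [hz, natAbs_even hj' hoo'] at heq; omega
  · rw [hz, hl] at heq; omega
  · rw [hz, ho t ht] at heq; omega
  · rw [ho t ht, ho t' ht'] at heq; omega
  · rw [ho t ht, natAbs_even hj' hoo'] at heq; omega
  · rw [ho t ht, hl] at heq; omega
  · rw [hz, natAbs_even hj hoo] at heq; omega
  · rw [ho t' ht', natAbs_even hj hoo] at heq; omega
  · rw [natAbs_even hj hoo, natAbs_even hj' hoo'] at heq
    obtain ⟨a1, a2, a3, a4, a5⟩ := pair_facts (W := W) hj hoo
    obtain ⟨b1, b2, b3, b4, b5⟩ := pair_facts (W := W) hj' hoo'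
    obtain ⟨c1, c2⟩ := slot_inj (W := W) (j := W.tj h j o) (j' := W.tj h j' o') a2 b2 (by omega)
    rw [c1, c2] at a4 a5
    rw [← a4, ← a5, b4, b5]
  · rw [natAbs_even hj hoo, hl] at heq
    obtain ⟨a1, a2, _⟩ := pair_facts (W := W) hj hoo
    have := slot_lt a1 a2
    omega
  · rw [hz, hl] at heq; omega
  · rw [ho t' ht', hl] at heq; omega
  · rw [natAbs_even hj' hoo', hl] at heq
    obtain ⟨a1, a2, _⟩ := pair_facts (W := W) hj' hoo'
    have := slot_lt a1 a2
    omega
  · rfl

theorem perm_bd (hh : 1 ≤ h) : ∀ p ≤ W.nn h + 1, (ext (W.perm h) p).natAbs ≤ W.nn h + 1 := by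
  intro p hp
  have hnn : W.nn h = 2 * W.K0 h + 1 := rfl
  rcases pos_cases hh hp with rfl | ⟨t, ht, rfl⟩ | ⟨j, o, hj, hoo, rfl⟩ | rfl
  · rw [ext_perm _ (by omega)]; simp
  · rw [ext_odd ht]; omega
  · rw [natAbs_even hj hoo]
    obtain ⟨a1, a2, _⟩ := pair_facts (W := W) hj hoo
    have := slot_lt a1 a2
    omega
  · rw [ext_perm _ (le_refl _), if_neg (by omega), if_neg (by omega)]; omega

/-- `perm` is a signed permutation. -/
theorem perm_isSignedPerm (hh : 1 ≤ h) : IsSignedPerm (W.perm h) := by
  unfold IsSignedPerm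
  rw [perm_length]
  have hget : ∀ k (hk : k < (W.perm h).length), (W.perm h)[k] = ext (W.perm h) (k + 1) := by
    intro k hk
    unfold ext
    rw [if_neg (by omega), if_pos (by omega), Nat.add_sub_cancel, List.getD_eq_getElem _ _ hk]
  have hlen : ((W.perm h).map Int.natAbs).length = W.nn h := by
    rw [List.length_map, perm_length]
  have hnd : ((W.perm h).map Int.natAbs).Nodup := by
    rw [List.nodup_iff_injective_get]
    intro a b hab
    have ha : (a : ℕ) < W.nn h := lt_of_lt_of_eq a.2 hlen
    have hb : (b : ℕ) < W.nn h := lt_of_lt_of_eq b.2 hlen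
    simp only [List.get_eq_getElem, List.getElem_map] at hab
    rw [hget, hget] at hab
    have := perm_inj (W := W) hh _ (by omega) _ (by omega) hab
    exact Fin.ext (by omega)
  have hmem : ∀ x ∈ (W.perm h).map Int.natAbs, 1 ≤ x ∧ x ≤ W.nn h := by
    intro x hx
    obtain ⟨k, hk, rfl⟩ := List.mem_iff_getElem.1 hx
    have hk' := hk
    rw [hlen] at hk
    rw [List.getElem_map, hget]
    have h1 := perm_bd (W := W) hh (k + 1) (by omega)
    have h2 : (ext (W.perm h) (k + 1)).natAbs ≠ 0 := by
      intro h3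
      have := perm_inj (W := W) hh (k + 1) (by omega) 0 (by omega) (by
        rw [h3, ext_perm _ (by omega)]; simp)
      omega
    have h4 : (ext (W.perm h) (k + 1)).natAbs ≠ W.nn h + 1 := by
      intro h3
      have := perm_inj (W := W) hh (k + 1) (by omega) (W.nn h + 1) (by omega) (by
        rw [h3, ext_perm _ (le_refl _), if_neg (by omega), if_neg (by omega)]; omega)
      omega
    omega
  refine (List.perm_ext_iff_of_nodup hnd (List.nodup_range' ..)).2 ?_
  have hsub : ((W.perm h).map Int.natAbs).toFinset ⊆ (List.range' 1 (W.nn h)).toFinset := by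
    intro x hx
    rw [List.mem_toFinset] at hx ⊢
    have := hmem x hx
    rw [List.mem_range'_1]; omega
  have heq := Finset.eq_of_subset_of_card_le hsub (by
    rw [List.toFinset_card_of_nodup hnd, hlen]
    refine (List.toFinset_card_le _).trans ?_
    simp)
  intro x
  rw [← List.mem_toFinset, heq, List.mem_toFinset]

/-- The initial adjacencies. -/
theorem perm_inv (hh : 1 ≤ h) : Cyc.Inv (cyc W h hh) (cyc W h hh).V (ext (W.perm h)) where
  z := by rw [ext_perm _ (by omega)]; simp
  e := by rw [ext_perm _ (le_refl _), if_neg (by omega), if_neg (by omega)]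
  inj := perm_inj hh
  bd := perm_bd hh
  adj := by
    intro p hp
    have hnn : W.nn h = 2 * W.K0 h + 1 := rfl
    -- value of bR
    have hbR : ∀ e ≤ W.nn h, (cyc W h hh).bR (cyc W h hh).V e =
        if W.ori h e then (W.chi h e : ℤ) else -1 - (W.chi h e : ℤ) := by
      intro e he
      unfold Cyc.bR
      by_cases hl : (cyc W h hh).lab e ∈ (cyc W h hh).V
      · rw [if_pos hl]; rfl
      · rw [if_neg hl]
        have hfix : W.chi h e = e := by
          by_contra hne
          apply hl
          rw [Cyc.mem_V]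
          have h1 : (cyc W h hh).χ e = W.chi h e := rfl
          rcases Nat.lt_or_gt_of_ne hne with h2 | h2
          · have h3 : (cyc W h hh).lab e = W.chi h e := by
              unfold Cyc.lab; rw [h1]; omega
            rw [h3]
            have h4 : (cyc W h hh).χ (W.chi h e) = e := (cyc W h hh).inv e he
            rw [h4]; omega
          · have h3 : (cyc W h hh).lab e = e := by
              unfold Cyc.lab; rw [h1]; omega
            rw [h3, h1]; omega
        have hof : W.ori h e = false := by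
          rcases cases_e (W := W) hh e with h1 | ⟨j, o, b, hj, ho, hb, rfl⟩
          · exact ori_triv h1
          · rw [ori_enc hj ho hb]
            by_contra hng
            rw [Bool.not_eq_false] at hng
            rw [chi_enc hj ho hb, hng] at hfix
            simp only [if_true] at hfix
            obtain ⟨a1, a2, _⟩ := pair_facts (W := W) hj ho
            have h5 := enc_fields (W := W) (h := h) (j := W.tj h j o) a2 (b := 1 - b) (by omega)
            have h6 := enc_fields (W := W) (h := h) (j := j) ho (b := b) hb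
            rw [hfix] at h5
            have := h5.2.2.symm.trans h6.2.2
            omega
        rw [hof, hfix]; simp
    by_cases hp0 : p = 0
    · subst hp0
      rw [show ext (W.perm h) (0 + 1) = 1 by
        have := ext_odd (W := W) (h := h) (t := 0) (by omega)
        simpa using this]
      rw [show ext (W.perm h) 0 = ((0 : ℕ) : ℤ) by rw [ext_perm _ (by omega)]; simp,
        Cyc.bet_nat, hbR 0 (by omega), ori_triv (Or.inl rfl), chi_triv (Or.inl rfl)]
      simp
    · rcases Nat.even_or_odd p with ⟨t, ht⟩ | ⟨t, ht⟩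
      · -- even position
        obtain ⟨j, o, b, hj, ho, hb, he, _⟩ := enc_decode (W := W) hh (e := p) (by omega)
          (by omega)
        have hpe : p = 2 * (j * W.bl h + o) + 2 := by unfold enc at he; omega
        obtain ⟨a1, a2, a3, a4, a5⟩ := pair_facts (W := W) hj ho
        have hnext : ext (W.perm h) (p + 1) = 2 * ((j * W.bl h + o : ℕ) : ℤ) + 3 := by
          have h1 := ext_odd (W := W) (h := h) (t := j * W.bl h + o + 1)
            (by have := slot_lt (W := W) hj ho; omega)
          have e1 : p + 1 = 2 * (j * W.bl h + o + 1) + 1 := by omega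
          rw [e1, h1]; push_cast; ring
        rw [hnext, hpe, ext_even hj ho]
        by_cases hng : W.ng h j o
        · rw [if_pos hng]
          have e1 : -(2 * ((W.tj h j o * W.bl h + W.tt h j o : ℕ) : ℤ) + 2) =
              -1 - ((W.enc h (W.tj h j o) (W.tt h j o) 0 : ℕ) : ℤ) := by
            unfold enc; push_cast; ring
          rw [e1, Cyc.bet_neg, hbR _ (by
            have := (enc_bounds (W := W) a1 a2 (b := 0) (by omega)).2; omega),
            ori_enc a1 a2 (by omega), a3, if_pos hng, chi_enc a1 a2 (by omega), a3, a4, a5,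
            if_pos hng]
          unfold enc; push_cast; ring
        · rw [if_neg hng]
          have e1 : 2 * ((W.tj h j o * W.bl h + W.tt h j o : ℕ) : ℤ) + 2 =
              ((W.enc h (W.tj h j o) (W.tt h j o) 1 : ℕ) : ℤ) := by
            unfold enc; push_cast; ring
          rw [e1, Cyc.bet_nat, hbR _ (by
            have := (enc_bounds (W := W) a1 a2 (b := 1) (by omega)).2; omega),
            ori_enc a1 a2 (by omega), a3, if_neg hng, chi_enc a1 a2 (by omega), a3, a4, a5,
            if_neg hng]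
          unfold enc; push_cast; ring
      · by_cases htK : t = W.K0 h
        · have e1 : p = W.nn h := by omega
          have e2 : ext (W.perm h) p = ((W.nn h : ℕ) : ℤ) := by
            rw [ht, ext_odd (le_of_eq htK), htK, hnn]; push_cast; ring
          have e3 : ext (W.perm h) (p + 1) = (W.nn h : ℤ) + 1 := by
            rw [e1, ext_perm _ (le_refl _), if_neg (by omega), if_neg (by omega)]
          rw [e2, e3, Cyc.bet_nat, hbR _ (le_refl _), ori_triv (Or.inr (by omega)),
            chi_triv (Or.inr (by omega))]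
          simp; ring
        · obtain ⟨j, o, b, hj, ho, hb, he, _⟩ := enc_decode (W := W) hh (e := p) (by omega)
            (by omega)
          have hpe : p = 2 * (j * W.bl h + o) + 1 := by unfold enc at he; omega
          obtain ⟨a1, a2, a3, a4, a5⟩ := pair_facts (W := W) hj ho
          have e0 : ext (W.perm h) p = ((W.enc h j o 0 : ℕ) : ℤ) := by
            rw [hpe, ext_odd (by have := slot_lt (W := W) hj ho; omega)]
            unfold enc; push_cast; ring
          rw [e0, Cyc.bet_nat, hbR _ (by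
            have := (enc_bounds (W := W) hj ho (b := 0) (by omega)).2; omega),
            ori_enc hj ho (by omega), chi_enc hj ho (by omega), hpe, ext_even hj ho]
          by_cases hng : W.ng h j o
          · rw [if_pos hng, if_pos hng, if_pos hng]
            unfold enc; push_cast; ring
          · rw [if_neg hng, if_neg hng, if_neg hng]
            unfold enc; push_cast; ring

end Net

end Pool.Agent.TH700
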