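import Pool.Agent.TH700.Fine

/-!
# The overlap matrix of the permutation is a twin extension of the coarse matrix
-/

namespace Pool.Agent.TH700

open Finset

namespace Net

variable {W : Net} {h : ℕ}

/-- The class of the oriented pairs of the wire `w`. -/
def fastc (W : Net) (w : ℕ) : W.κ :=
  if hw : w - 1 < 2 * W.q then Sum.inr ⟨w - 1, hw⟩ else
    Sum.inr ⟨0, by have := W.hq; omega⟩

/-- The class of a label. -/
def cls (W : Net) (h : ℕ) (e : ℕ) : W.κ :=
  if W.fo h e < h then fastc W (W.fj h e)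
  else if h3 : W.fo h e - h < W.s then Sum.inl ⟨W.fo h e - h, h3⟩
  else fastc W (W.pv (W.fj h e))

theorem fastc_succ (i : Fin (2 * W.q)) : fastc W (i + 1) = Sum.inr i := by
  unfold fastc
  rw [dif_pos (by have := i.2; omega)]
  congr 1

theorem cls_enc {j o b : ℕ} (ho : o < W.bl h) (hb : b < 2) :
    cls W h (W.enc h j o b) = if o < h then fastc W j
      else if h3 : o - h < W.s then Sum.inl ⟨o - h, h3⟩ else fastc W (W.pv j) := by
  obtain ⟨h1, h2, _⟩ := enc_fields (W := W) (j := j) ho hb
  unfold cls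
  simp only [h1, h2]

theorem V_cases (hh : 1 ≤ h) {e : ℕ} (he : e ∈ (cyc W h hh).V) :
    (∃ k : Fin W.s, ∃ b < 2, e = W.enc h (W.sw k).1 (h + k) b ∧
      W.chi h e = W.enc h (W.sw k).2 (h + k) b ∧ cls W h e = Sum.inl k ∧ W.ori h e = false) ∨
    (∃ i : Fin (2 * W.q), (i : ℕ) + 1 < 2 * W.q ∧ ∃ o < h, ∃ b < 2, e = W.enc h (i + 1) o b ∧
      W.chi h e = W.enc h (i + 2) (W.bl h - 1 - o) (1 - b) ∧ cls W h e = Sum.inr i ∧
      W.ori h e = true) ∨
    (∃ i : Fin (2 * W.q), (i : ℕ) + 1 = 2 * W.q ∧ ∃ o < h, ∃ b < 2,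
      e = W.enc h 0 (W.bl h - 1 - o) b ∧
      W.chi h e = W.enc h (2 * W.q) o (1 - b) ∧ cls W h e = Sum.inr i ∧
      W.ori h e = true) := by
  obtain ⟨h1, h2⟩ := Cyc.mem_V.1 he
  change e < W.chi h e at h2
  have hbl : W.bl h = 2 * h + W.s := rfl
  have hq := W.hq
  rcases cases_e (W := W) hh e with h3 | ⟨j, o, b, hj, ho, hb, rfl⟩
  · rw [chi_triv h3] at h2; omega
  · have hchi := chi_enc (W := W) hj ho hb
    have hori := ori_enc (W := W) hj ho hb
    have hcls := cls_enc (W := W) (j := j) ho hb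
    rw [hchi] at h2
    by_cases c1 : o < h
    · by_cases c2 : j = 0
      · exfalso
        have e1 : W.tj h j o = j := by unfold tj; rw [if_pos c1, if_pos c2, c2]
        have e2 : W.ng h j o = false := by unfold ng; rw [if_pos c1]; simpa using c2
        have e3 : W.tt h j o = o := by unfold tt; rw [e2]; simp
        rw [e1, e2, e3] at h2
        simp at h2
      · have e1 : W.tj h j o = W.nx j := by unfold tj; rw [if_pos c1, if_neg c2]
        have e2 : W.ng h j o = true := by unfold ng; rw [if_pos c1]; simpa using c2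
        have e3 : W.tt h j o = W.bl h - 1 - o := by unfold tt; rw [e2]; simp
        rw [e1, e2, e3] at h2 hchi
        simp only [if_true] at h2 hchi
        by_cases c3 : j < 2 * W.q
        · right; left
          have e4 : W.nx j = j + 1 := by unfold nx; rw [if_pos c3]
          refine ⟨⟨j - 1, by omega⟩, by simp only; omega, o, c1, b, hb, ?_, ?_, ?_, ?_⟩
          · congr 1; simp only; omega
          · rw [hchi, e4]; congr 1; simp only; omega
          · rw [hcls, if_pos c1]
            have := fastc_succ (W := W) ⟨j - 1, by omega⟩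
            rw [← this]; congr 1; simp only; omega
          · rw [hori, e2]
        · exfalso
          have e4 : W.nx j = 0 := by unfold nx; rw [if_neg c3]
          rw [e4, enc_lt_iff ho (by omega) hb (by omega)] at h2
          omega
    · by_cases c2 : o < h + W.s
      · have e2 : W.ng h j o = false := by unfold ng; rw [if_neg c1, if_pos c2]
        have e3 : W.tt h j o = o := by unfold tt; rw [e2]; simp
        have hsw := W.hsw (o - h) (by omega)
        rw [e2, e3] at h2 hchi
        simp only [Bool.false_eq_true, if_false] at h2 hchi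
        have e1 : W.tj h j o = if j = (W.sw (o - h)).1 then (W.sw (o - h)).2
            else if j = (W.sw (o - h)).2 then (W.sw (o - h)).1 else j := by
          unfold tj; rw [if_neg c1, if_pos c2]
        by_cases c3 : j = (W.sw (o - h)).1
        · left
          rw [if_pos c3] at e1
          refine ⟨⟨o - h, by omega⟩, b, hb, ?_, ?_, ?_, ?_⟩
          · simp only [← c3]; congr 1; omega
          · rw [hchi, e1]; simp only; congr 1; omega
          · rw [hcls, if_neg c1, dif_pos (by omega)]
          · rw [hori, e2]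
        · exfalso
          rw [if_neg c3] at e1
          by_cases c4 : j = (W.sw (o - h)).2
          · rw [if_pos c4] at e1
            rw [e1, enc_lt_iff ho ho hb hb] at h2
            omega
          · rw [if_neg c4] at e1
            rw [e1] at h2; omega
      · by_cases c3 : j = 1
        · exfalso
          have e1 : W.tj h j o = j := by unfold tj; rw [if_neg c1, if_neg c2, if_pos c3, c3]
          have e2 : W.ng h j o = false := by unfold ng; rw [if_neg c1, if_neg c2]; simpa using c3
          have e3 : W.tt h j o = o := by unfold tt; rw [e2]; simp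
          rw [e1, e2, e3] at h2
          simp at h2
        · have e1 : W.tj h j o = W.pv j := by unfold tj; rw [if_neg c1, if_neg c2, if_neg c3]
          have e2 : W.ng h j o = true := by
            unfold ng; rw [if_neg c1, if_neg c2]; simpa using c3
          have e3 : W.tt h j o = W.bl h - 1 - o := by unfold tt; rw [e2]; simp
          rw [e1, e2, e3] at h2 hchi
          simp only [if_true] at h2 hchi
          by_cases c4 : j = 0
          · right; right
            have e4 : W.pv j = 2 * W.q := by unfold pv; rw [if_pos c4]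
            refine ⟨⟨2 * W.q - 1, by omega⟩, by simp only; omega, W.bl h - 1 - o, by omega, b, hb,
              ?_, ?_, ?_, ?_⟩
            · rw [c4]; congr 1; omega
            · rw [hchi, e4]
            · rw [hcls, if_neg c1, dif_neg (by omega), e4]
              have := fastc_succ (W := W) ⟨2 * W.q - 1, by omega⟩
              rw [← this]; congr 1; simp only; omega
            · rw [hori, e2]
          · exfalso
            have e4 : W.pv j = j - 1 := by unfold pv; rw [if_neg c4]
            rw [e4, enc_lt_iff ho (by omega) hb (by omega)] at h2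
            omega

/-- The labels of the switch `k`. -/
theorem mem_V_switch (hh : 1 ≤ h) (k : Fin W.s) {b : ℕ} (hb : b < 2) :
    W.enc h (W.sw k).1 (h + k) b ∈ (cyc W h hh).V ∧
      cls W h (W.enc h (W.sw k).1 (h + k) b) = Sum.inl k := by
  have hbl : W.bl h = 2 * h + W.s := rfl
  have hk := k.2
  have hsw := W.hsw k k.2
  have ho : h + (k : ℕ) < W.bl h := by omega
  have hj : (W.sw k).1 ≤ 2 * W.q := by omega
  have e0 : h + (k : ℕ) - h = k := by omega
  refine ⟨?_, ?_⟩
  · rw [Cyc.mem_V]
    refine ⟨?_, ?_⟩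
    · have := (enc_bounds (W := W) hj ho hb).2
      unfold nn; omega
    · change _ < W.chi h _
      rw [chi_enc hj ho hb]
      have e2 : W.ng h (W.sw k).1 (h + k) = false := by
        unfold ng; rw [if_neg (by omega), if_pos (by omega)]
      have e3 : W.tt h (W.sw k).1 (h + k) = h + k := by unfold tt; rw [e2]; simp
      have e1 : W.tj h (W.sw k).1 (h + k) = (W.sw k).2 := by
        unfold tj; rw [if_neg (by omega), if_pos (by omega), e0, if_pos rfl]
      rw [e1, e3, e2, enc_lt_iff ho ho hb (by simpa using hb)]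
      omega
  · rw [cls_enc ho hb, if_neg (by omega), dif_pos (by omega)]
    congr 1
    exact Fin.ext e0

theorem mem_V_fast1 (hh : 1 ≤ h) (i : Fin (2 * W.q)) (hi : (i : ℕ) + 1 < 2 * W.q) {o b : ℕ}
    (ho : o < h) (hb : b < 2) :
    W.enc h (i + 1) o b ∈ (cyc W h hh).V ∧ cls W h (W.enc h (i + 1) o b) = Sum.inr i := by
  have hbl : W.bl h = 2 * h + W.s := rfl
  have ho' : o < W.bl h := by omega
  have hj : (i : ℕ) + 1 ≤ 2 * W.q := by omega
  refine ⟨?_, ?_⟩
  · rw [Cyc.mem_V]
    refine ⟨?_, ?_⟩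
    · have := (enc_bounds (W := W) hj ho' hb).2
      unfold nn; omega
    · change _ < W.chi h _
      rw [chi_enc hj ho' hb]
      have e1 : W.tj h (i + 1) o = i + 2 := by
        unfold tj nx; rw [if_pos ho, if_neg (by omega), if_pos hi]
      have e2 : W.ng h (i + 1) o = true := by unfold ng; rw [if_pos ho]; simp
      have e3 : W.tt h (i + 1) o = W.bl h - 1 - o := by unfold tt; rw [e2]; simp
      rw [e1, e2, e3, enc_lt_iff ho' (by omega) hb (by simp only [if_true]; omega)]
      omega
  · rw [cls_enc ho' hb, if_pos ho, fastc_succ]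

theorem mem_V_fast2 (hh : 1 ≤ h) (i : Fin (2 * W.q)) (hi : (i : ℕ) + 1 = 2 * W.q) {o b : ℕ}
    (ho : o < h) (hb : b < 2) :
    W.enc h 0 (W.bl h - 1 - o) b ∈ (cyc W h hh).V ∧
      cls W h (W.enc h 0 (W.bl h - 1 - o) b) = Sum.inr i := by
  have hbl : W.bl h = 2 * h + W.s := rfl
  have ho' : W.bl h - 1 - o < W.bl h := by omega
  have hj : 0 ≤ 2 * W.q := by omega
  refine ⟨?_, ?_⟩
  · rw [Cyc.mem_V]
    refine ⟨?_, ?_⟩
    · have := (enc_bounds (W := W) hj ho' hb).2
      unfold nn; omega
    · change _ < W.chi h _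
      rw [chi_enc hj ho' hb]
      have e1 : W.tj h 0 (W.bl h - 1 - o) = 2 * W.q := by
        unfold tj pv; rw [if_neg (by omega), if_neg (by omega), if_neg (by omega), if_pos rfl]
      have e2 : W.ng h 0 (W.bl h - 1 - o) = true := by
        unfold ng; rw [if_neg (by omega), if_neg (by omega)]; simp
      have e3 : W.tt h 0 (W.bl h - 1 - o) = o := by unfold tt; rw [e2]; simp; omega
      rw [e1, e2, e3, enc_lt_iff ho' (by omega) hb (by simp only [if_true]; omega)]
      have := W.hq
      omega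
  · rw [cls_enc ho' hb, if_neg (by omega), dif_neg (by omega)]
    have e1 : W.pv 0 = (i : ℕ) + 1 := by unfold pv; rw [if_pos rfl]; omega
    rw [e1, fastc_succ]

/-- The coarse offset. -/
def co (W : Net) (h o : ℕ) : ℕ :=
  if o < h then 0 else if o < h + W.s then 1 + (o - h) else W.s + 1

/-- The coarse position. -/
def cp (W : Net) (h e : ℕ) : ℕ := W.ps (W.fj h e) (co W h (W.fo h e))

theorem co_lt (o : ℕ) : co W h o < W.s + 2 := by unfold co; split_ifs <;> omega

theorem co_mono {o o' : ℕ} (ho : o ≤ o') : co W h o ≤ co W h o' := by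
  unfold co; split_ifs <;> omega

theorem cp_enc {j o b : ℕ} (ho : o < W.bl h) (hb : b < 2) :
    cp W h (W.enc h j o b) = W.ps j (co W h o) := by
  obtain ⟨h1, h2, _⟩ := enc_fields (W := W) (j := j) ho hb
  unfold cp
  rw [h1, h2]

theorem cp_mono (hh : 1 ≤ h) {e e' : ℕ} (he : 1 ≤ e) (hee : e ≤ e') (he' : e' ≤ 2 * W.K0 h) :
    cp W h e ≤ cp W h e' := by
  obtain ⟨j, o, b, hj, ho, hb, h1, _⟩ := enc_decode (W := W) hh (e := e) he (by omega)
  obtain ⟨j', o', b', hj', ho', hb', h1', _⟩ := enc_decode (W := W) hh (e := e') (by omega) he'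
  rw [h1, h1', cp_enc ho hb, cp_enc ho' hb', ps_le (co_lt _) (co_lt _)]
  rcases Nat.lt_or_ge e e' with h2 | h2
  · rw [h1, h1', enc_lt_iff ho ho' hb hb'] at h2
    rcases h2 with h2 | ⟨h2, h3⟩
    · exact Or.inl h2
    · exact Or.inr ⟨h2, co_mono (by omega)⟩
  · have h3 : e = e' := by omega
    rw [h1, h1'] at h3
    have h4 := enc_fields (W := W) (j := j) ho hb
    have h5 := enc_fields (W := W) (j := j') ho' hb'
    rw [h3] at h4
    have h6 : j = j' := h4.1.symm.trans h5.1
    have h7 : o = o' := h4.2.1.symm.trans h5.2.1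
    exact Or.inr ⟨h6, by rw [h7]⟩

theorem cp_lt_iff (hh : 1 ≤ h) {e e' : ℕ} (he1 : 1 ≤ e) (he2 : e ≤ 2 * W.K0 h) (he1' : 1 ≤ e')
    (he2' : e' ≤ 2 * W.K0 h) (hne : cp W h e ≠ cp W h e') : e < e' ↔ cp W h e < cp W h e' := by
  constructor
  · intro h1
    have := cp_mono hh he1 (le_of_lt h1) he2'
    omega
  · intro h1
    by_contra h2
    have := cp_mono hh he1' (not_lt.1 h2) he2
    omega

theorem V_bounds (hh : 1 ≤ h) {e : ℕ} (he : e ∈ (cyc W h hh).V) :
    1 ≤ e ∧ e ≤ 2 * W.K0 h ∧ 1 ≤ W.chi h e ∧ W.chi h e ≤ 2 * W.K0 h := by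
  have h2 := (Cyc.mem_V.1 he).2
  change e < W.chi h e at h2
  rcases cases_e (W := W) hh e with h3 | ⟨j, o, b, hj, ho, hb, rfl⟩
  · rw [chi_triv h3] at h2; omega
  · have h4 := enc_bounds (W := W) hj ho hb
    rw [chi_enc hj ho hb]
    obtain ⟨a1, a2, _⟩ := pair_facts (W := W) hj ho
    have h5 := enc_bounds (W := W) a1 a2 (b := if W.ng h j o then 1 - b else b)
      (by split_ifs <;> omega)
    exact ⟨h4.1, h4.2, h5.1, h5.2⟩

theorem cp_V (hh : 1 ≤ h) {e : ℕ} (he : e ∈ (cyc W h hh).V) :
    cp W h e = W.D.p (cls W h e) ∧ cp W h (W.chi h e) = W.D.q (cls W h e) := by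
  have hbl : W.bl h = 2 * h + W.s := rfl
  have hq := W.hq
  rcases V_cases hh he with ⟨k, b, hb, h1, h2, h3, h4⟩ | ⟨i, hi, o, ho, b, hb, h1, h2, h3, h4⟩ |
    ⟨i, hi, o, ho, b, hb, h1, h2, h3, h4⟩
  · have hk := k.2
    rw [h3, h2]
    conv_lhs => rw [h1]
    rw [cp_enc (by omega) hb, cp_enc (by omega) hb]
    have e1 : co W h (h + k) = 1 + k := by
      unfold co; rw [if_neg (by omega), if_pos (by omega)]; omega
    rw [e1]
    exact ⟨rfl, rfl⟩
  · rw [h3, h2]
    conv_lhs => rw [h1]
    rw [cp_enc (by omega) hb, cp_enc (by omega) (by omega)]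
    have e1 : co W h o = 0 := by unfold co; rw [if_pos ho]
    have e2 : co W h (W.bl h - 1 - o) = W.s + 1 := by
      unfold co; rw [if_neg (by omega), if_neg (by omega)]
    rw [e1, e2]
    change _ = W.ps (W.pj (Sum.inr i)) (W.po (Sum.inr i)) ∧
      _ = W.ps (W.qj (Sum.inr i)) (W.qo (Sum.inr i))
    simp only [pj, po, qj, qo, if_pos hi, and_self]
  · rw [h3, h2]
    conv_lhs => rw [h1]
    rw [cp_enc (by omega) hb, cp_enc (by omega) (by omega)]
    have e1 : co W h o = 0 := by unfold co; rw [if_pos ho]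
    have e2 : co W h (W.bl h - 1 - o) = W.s + 1 := by
      unfold co; rw [if_neg (by omega), if_neg (by omega)]
    rw [e1, e2]
    change _ = W.ps (W.pj (Sum.inr i)) (W.po (Sum.inr i)) ∧
      _ = W.ps (W.qj (Sum.inr i)) (W.qo (Sum.inr i))
    have hi' : ¬ (i : ℕ) + 1 < 2 * W.q := by omega
    simp only [pj, po, qj, qo, if_neg hi', and_self]

/-- Labels of different classes. -/
theorem M_diff (hh : 1 ≤ h) {u v : ℕ} (hu : u ∈ (cyc W h hh).V) (hv : v ∈ (cyc W h hh).V)
    (hne : cls W h u ≠ cls W h v) :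
    (cyc W h hh).D.M u v = W.D.M (cls W h u) (cls W h v) := by
  have huv : u ≠ v := fun h' => hne (by rw [h'])
  obtain ⟨u1, u2, u3, u4⟩ := V_bounds hh hu
  obtain ⟨v1, v2, v3, v4⟩ := V_bounds hh hv
  obtain ⟨cu1, cu2⟩ := cp_V hh hu
  obtain ⟨cv1, cv2⟩ := cp_V hh hv
  obtain ⟨n1, n2, n3, n4⟩ := (okD (W := W) Finset.univ).ne _ (Finset.mem_univ (cls W h u)) _
    (Finset.mem_univ (cls W h v)) hne
  rw [← cu1, ← cv1] at n1
  rw [← cu1, ← cv2] at n2
  rw [← cu2, ← cv1] at n3
  rw [← cu2, ← cv2] at n4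
  unfold CD.M
  rw [if_neg huv, if_neg hne]
  have e1 : (cyc W h hh).D.ind v ((cyc W h hh).D.p u) = W.D.ind (cls W h v)
      (W.D.p (cls W h u)) := by
    unfold CD.ind
    change (if v < u ∧ u ≤ W.chi h v then (1 : ZMod 2) else 0) = _
    rw [← cu1, ← cv1, ← cv2]
    have a1 := cp_lt_iff hh v1 v2 u1 u2 (Ne.symm n1)
    have a2 := cp_lt_iff hh v3 v4 u1 u2 (Ne.symm n2)
    by_cases c : v < u ∧ u ≤ W.chi h v
    · rw [if_pos c, if_pos]
      exact ⟨a1.1 c.1, by
        by_contra hc
        have := a2.2 (by omega)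
        omega⟩
    · rw [if_neg c, if_neg]
      rintro ⟨b1, b2⟩
      apply c
      refine ⟨a1.2 b1, ?_⟩
      by_contra hc
      have := a2.1 (by omega)
      omega
  have e2 : (cyc W h hh).D.ind v ((cyc W h hh).D.q u) = W.D.ind (cls W h v)
      (W.D.q (cls W h u)) := by
    unfold CD.ind
    change (if v < W.chi h u ∧ W.chi h u ≤ W.chi h v then (1 : ZMod 2) else 0) = _
    rw [← cu2, ← cv1, ← cv2]
    have a1 := cp_lt_iff hh v1 v2 u3 u4 (Ne.symm n3)
    have a2 := cp_lt_iff hh v3 v4 u3 u4 (Ne.symm n4)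
    by_cases c : v < W.chi h u ∧ W.chi h u ≤ W.chi h v
    · rw [if_pos c, if_pos]
      exact ⟨a1.1 c.1, by
        by_contra hc
        have := a2.2 (by omega)
        omega⟩
    · rw [if_neg c, if_neg]
      rintro ⟨b1, b2⟩
      apply c
      refine ⟨a1.2 b1, ?_⟩
      by_contra hc
      have := a2.1 (by omega)
      omega
  rw [e1, e2]

theorem M_diag (hh : 1 ≤ h) {u : ℕ} (hu : u ∈ (cyc W h hh).V) :
    (cyc W h hh).D.M u u = W.D.M (cls W h u) (cls W h u) := by
  unfold CD.M
  rw [if_pos rfl, if_pos rfl]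
  change (if W.ori h u then (1 : ZMod 2) else 0) = _
  rcases V_cases hh hu with ⟨k, b, hb, h1, h2, h3, h4⟩ | ⟨i, hi, o, ho, b, hb, h1, h2, h3, h4⟩ |
    ⟨i, hi, o, ho, b, hb, h1, h2, h3, h4⟩
  · rw [h4, h3]; rfl
  · rw [h4, h3]; rfl
  · rw [h4, h3]; rfl

/-- Labels of the same class. -/
theorem M_same (hh : 1 ≤ h) {u v : ℕ} (hu : u ∈ (cyc W h hh).V) (hv : v ∈ (cyc W h hh).V)
    (hne : u ≠ v) (hc : cls W h u = cls W h v) :
    (cyc W h hh).D.M u v = 1 + W.D.M (cls W h u) (cls W h u) := by
  have hbl : W.bl h = 2 * h + W.s := rfl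
  have hq := W.hq
  have hu2 := (Cyc.mem_V.1 hu).2
  have hv2 := (Cyc.mem_V.1 hv).2
  change u < W.chi h u at hu2
  change v < W.chi h v at hv2
  have hM : (cyc W h hh).D.M u v =
      (if v < u ∧ u ≤ W.chi h v then (1 : ZMod 2) else 0) +
      (if v < W.chi h u ∧ W.chi h u ≤ W.chi h v then (1 : ZMod 2) else 0) := by
    unfold CD.M
    rw [if_neg hne]; rfl
  rcases V_cases hh hu with ⟨k, b, hb, h1, h2, h3, h4⟩ | ⟨i, hi, o, ho, b, hb, h1, h2, h3, h4⟩ |
    ⟨i, hi, o, ho, b, hb, h1, h2, h3, h4⟩ <;>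
  rcases V_cases hh hv with ⟨k', b', hb', h1', h2', h3', h4'⟩ |
    ⟨i', hi', o', ho', b', hb', h1', h2', h3', h4'⟩ |
    ⟨i', hi', o', ho', b', hb', h1', h2', h3', h4'⟩
  · rw [h3, h3'] at hc
    have hk : k = k' := Sum.inl_injective hc
    subst hk
    have e0 : W.D.M (cls W h u) (cls W h u) = 0 := by rw [h3]; unfold CD.M; rw [if_pos rfl]; rfl
    rw [hM, e0]
    have hsw := W.hsw k k.2
    -- chi is a translation
    have e1 : W.chi h u + v = W.chi h v + u := by
      rw [h2, h2']
      conv_lhs => rw [h1']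
      conv_rhs => rw [h1]
      unfold enc; omega
    have e2 : v < W.chi h u := by
      have hk2 := k.2
      rw [h2]
      conv_lhs => rw [h1']
      rw [enc_lt_iff (by omega) (by omega) hb' hb]
      exact Or.inl hsw.1
    have e3 : u < W.chi h v := by
      have hk2 := k.2
      rw [h2']
      conv_lhs => rw [h1]
      rw [enc_lt_iff (by omega) (by omega) hb hb']
      exact Or.inl hsw.1
    rcases Nat.lt_or_gt_of_ne hne with c | c
    · rw [if_neg (by omega), if_pos (by omega)]; rfl
    · rw [if_pos (by omega), if_neg (by omega)]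
  · rw [h3, h3'] at hc; cases hc
  · rw [h3, h3'] at hc; cases hc
  · rw [h3, h3'] at hc; cases hc
  · rw [h3, h3'] at hc
    have hk : i = i' := Sum.inr_injective hc
    subst hk
    have e0 : W.D.M (cls W h u) (cls W h u) = 1 := by rw [h3]; exact ori_diag i
    rw [hM, e0]
    have e1 : W.chi h u + u = W.chi h v + v := by
      rw [h2, h2']
      conv_lhs => rw [h1]
      conv_rhs => rw [h1']
      unfold enc; omega
    have e2 : v < W.chi h u := by
      rw [h2]
      conv_lhs => rw [h1']
      rw [enc_lt_iff (by omega) (by omega) hb' (by omega)]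
      omega
    have e3 : u < W.chi h v := by
      rw [h2']
      conv_lhs => rw [h1]
      rw [enc_lt_iff (by omega) (by omega) hb (by omega)]
      omega
    rcases Nat.lt_or_gt_of_ne hne with c | c
    · rw [if_neg (by omega), if_neg (by omega)]; rfl
    · rw [if_pos (by omega), if_pos (by omega)]
  · rw [h3, h3'] at hc
    have hk : i = i' := Sum.inr_injective hc
    subst hk
    omega
  · rw [h3, h3'] at hc; cases hc
  · rw [h3, h3'] at hc
    have hk : i = i' := Sum.inr_injective hc
    subst hk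
    omega
  · rw [h3, h3'] at hc
    have hk : i = i' := Sum.inr_injective hc
    subst hk
    have e0 : W.D.M (cls W h u) (cls W h u) = 1 := by rw [h3]; exact ori_diag i
    rw [hM, e0]
    have e1 : W.chi h u + u = W.chi h v + v := by
      rw [h2, h2']
      conv_lhs => rw [h1]
      conv_rhs => rw [h1']
      unfold enc; omega
    have e2 : v < W.chi h u := by
      rw [h2]
      conv_lhs => rw [h1']
      rw [enc_lt_iff (by omega) (by omega) hb' (by omega)]
      omega
    have e3 : u < W.chi h v := by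
      rw [h2']
      conv_lhs => rw [h1]
      rw [enc_lt_iff (by omega) (by omega) hb (by omega)]
      omega
    rcases Nat.lt_or_gt_of_ne hne with c | c
    · rw [if_neg (by omega), if_neg (by omega)]; rfl
    · rw [if_pos (by omega), if_pos (by omega)]

theorem kv_pos_mem {κ : Type*} [DecidableEq κ] (cl : ℕ → κ) (Q : Finset ℕ) (c : κ) :
    0 < kv cl Q c ↔ c ∈ Q.image cl := by
  unfold kv
  rw [Finset.card_pos, Finset.mem_image]
  constructor
  · rintro ⟨u, hu⟩
    obtain ⟨h1, h2⟩ := Finset.mem_filter.1 hu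
    exact ⟨u, h1, h2⟩
  · rintro ⟨u, h1, h2⟩
    exact ⟨u, Finset.mem_filter.2 ⟨h1, h2⟩⟩

/-- Nonsingularity in terms of the parities of the classes. -/
theorem NS_fine (hh : 1 ≤ h) {Q : Finset ℕ} (hQ : Q ⊆ (cyc W h hh).V) :
    NS (cyc W h hh).D.M Q ↔ W.Valid (kv (cls W h) Q) := by
  rw [ns_twin (cyc W h hh).D.M W.D.M (cls W h) Q
    (fun u hu v hv hne => M_diff hh (hQ hu) (hQ hv) hne)
    (fun u hu => M_diag hh (hQ hu))
    (fun u hu v hv hne hc => M_same hh (hQ hu) (hQ hv) hne hc)]
  unfold Valid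
  have : (Q.image (cls W h)).filter
      (fun c => (Q.filter (fun u => cls W h u = c)).card % 2 = 1) = W.oddS (kv (cls W h) Q) := by
    ext c
    rw [Finset.mem_filter, mem_oddS]
    change _ ∧ kv (cls W h) Q c % 2 = 1 ↔ _
    constructor
    · exact fun h' => h'.2
    · intro h'
      exact ⟨(kv_pos_mem _ _ _).1 (by omega), h'⟩
  rw [this]

/-- The labels of a switch. -/
theorem filter_switch (hh : 1 ≤ h) (k : Fin W.s) :
    (cyc W h hh).V.filter (fun v => cls W h v = Sum.inl k) =
      {W.enc h (W.sw k).1 (h + k) 0, W.enc h (W.sw k).1 (h + k) 1} := by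
  ext e
  rw [Finset.mem_filter, Finset.mem_insert, Finset.mem_singleton]
  constructor
  · rintro ⟨h1, h2⟩
    rcases V_cases hh h1 with ⟨k', b, hb, a1, a2, a3, a4⟩ |
      ⟨i, hi, o, ho, b, hb, a1, a2, a3, a4⟩ | ⟨i, hi, o, ho, b, hb, a1, a2, a3, a4⟩
    · rw [a3] at h2
      have hk : k' = k := Sum.inl_injective h2
      subst hk
      interval_cases b
      · exact Or.inl a1
      · exact Or.inr a1
    · rw [a3] at h2; cases h2
    · rw [a3] at h2; cases h2
  · rintro (rfl | rfl)
    · exact mem_V_switch hh k (by omega)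
    · exact mem_V_switch hh k (by omega)

/-- The initial vector. -/
theorem kv_V (hh : 1 ≤ h) : kv (cls W h) (cyc W h hh).V = W.k0 (2 * h) := by
  have hbl : W.bl h = 2 * h + W.s := rfl
  have hq := W.hq
  funext c
  cases c with
  | inl k =>
    unfold kv
    rw [filter_switch hh k, Finset.card_pair]
    · rfl
    · unfold enc; omega
  | inr i =>
    unfold kv
    have hi := i.2
    by_cases hi1 : (i : ℕ) + 1 < 2 * W.q
    · have : (cyc W h hh).V.filter (fun v => cls W h v = Sum.inr i) =
          Finset.Ico (W.enc h (i + 1) 0 0) (W.enc h (i + 1) 0 0 + 2 * h) := by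
        ext e
        rw [Finset.mem_filter, Finset.mem_Ico]
        constructor
        · rintro ⟨h1, h2⟩
          rcases V_cases hh h1 with ⟨k', b, hb, a1, a2, a3, a4⟩ |
            ⟨i', hi', o, ho, b, hb, a1, a2, a3, a4⟩ | ⟨i', hi', o, ho, b, hb, a1, a2, a3, a4⟩
          · rw [a3] at h2; cases h2
          · rw [a3] at h2
            have hk : i' = i := Sum.inr_injective h2
            subst hk
            rw [a1]; unfold enc; omega
          · rw [a3] at h2
            have hk : i' = i := Sum.inr_injective h2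
            subst hk
            omega
        · rintro ⟨h1, h2⟩
          have he : e = W.enc h (i + 1) ((e - W.enc h (i + 1) 0 0) / 2)
              ((e - W.enc h (i + 1) 0 0) % 2) := by
            unfold enc at h1 ⊢; omega
          rw [he]
          exact mem_V_fast1 hh i hi1 (by omega) (by omega)
      rw [this, Nat.card_Ico]
      simp only [k0]; omega
    · have hi2 : (i : ℕ) + 1 = 2 * W.q := by omega
      have : (cyc W h hh).V.filter (fun v => cls W h v = Sum.inr i) =
          Finset.Ico (W.enc h 0 (h + W.s) 0) (W.enc h 0 (h + W.s) 0 + 2 * h) := by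
        ext e
        rw [Finset.mem_filter, Finset.mem_Ico]
        constructor
        · rintro ⟨h1, h2⟩
          rcases V_cases hh h1 with ⟨k', b, hb, a1, a2, a3, a4⟩ |
            ⟨i', hi', o, ho, b, hb, a1, a2, a3, a4⟩ | ⟨i', hi', o, ho, b, hb, a1, a2, a3, a4⟩
          · rw [a3] at h2; cases h2
          · rw [a3] at h2
            have hk : i' = i := Sum.inr_injective h2
            subst hk
            omega
          · rw [a3] at h2
            have hk : i' = i := Sum.inr_injective h2
            subst hk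
            rw [a1]; unfold enc; omega
        · rintro ⟨h1, h2⟩
          have he : e = W.enc h 0 (W.bl h - 1 -
              (2 * h + W.s - 1 - (h + W.s + (e - W.enc h 0 (h + W.s) 0) / 2)))
              ((e - W.enc h 0 (h + W.s) 0) % 2) := by
            unfold enc at h1 h2 ⊢; omega
          rw [he]
          exact mem_V_fast2 hh i hi2 (by omega) (by omega)
      rw [this, Nat.card_Ico]
      simp only [k0]; omega

/-- The number of cycles. -/
theorem card_V (hh : 1 ≤ h) : (cyc W h hh).V.card = 2 * W.s + 2 * W.q * (2 * h) := by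
  rw [← sum_kv (cls W h), kv_V hh, sum_k0]

/-- The adjacency `e` is present. -/
def adjL (l : List ℤ) (e : ℕ) : Prop :=
  ∃ p ≤ l.length, (ext l p = e ∧ ext l (p + 1) = e + 1) ∨
    (ext l p = -(e : ℤ) - 1 ∧ ext l (p + 1) = -(e : ℤ))

theorem adjL_iff {n : ℕ} {C : Cyc n} {Q : Finset ℕ} (hQ : Q ⊆ C.V) {l : List ℤ}
    (hl : l.length = n) (hI : Cyc.Inv C Q (ext l)) {e : ℕ} (he : e ≤ n) :
    adjL l e ↔ C.lab e ∉ Q := by
  have hidx : idx (e : ℤ) = e := idx_nat e
  constructor
  · rintro ⟨p, hp, h1⟩ hlab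
    have hb : C.bet Q (e : ℤ) = -1 - (e : ℤ) := by
      rcases h1 with ⟨h1, h2⟩ | ⟨h1, h2⟩
      · have := hI.adj p (by omega)
        rw [h1, h2] at this
        rw [this]; ring
      · have := hI.adj p (by omega)
        rw [h1, h2] at this
        have h3 : C.bet Q (-1 - (e : ℤ)) = -1 - C.bet Q (e : ℤ) := Cyc.bet_gamma Q _
        have h4 : -(e : ℤ) - 1 = -1 - (e : ℤ) := by ring
        rw [h4, h3] at this
        linarith
    exact Cyc.bet_ne hQ (by rw [hidx]; exact hlab) hb
  · intro hlab
    have hb : C.bet Q (e : ℤ) = -1 - (e : ℤ) := Cyc.bet_not_mem (by rw [hidx]; exact hlab)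
    obtain ⟨p, hp, h1⟩ := hI.edge (x := (e : ℤ)) (by rw [hidx]; exact he)
    refine ⟨p, by omega, ?_⟩
    rcases h1 with h1 | h1
    · left
      refine ⟨h1.symm, ?_⟩
      have := hI.adj p hp
      rw [← h1, hb] at this
      linarith
    · right
      have := hI.adj' hp
      rw [← h1, hb] at this
      refine ⟨by rw [← this]; ring, by linarith⟩

end Net

end Pool.Agent.TH700
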