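import Pool.Agent.H628R2.Forb.PolyF
import Pool.Agent.H628R2.FPTW

set_option autoImplicit false

/-!
# The scheduling algorithm for forbidden start and end times runs in fixed-parameter time
-/

namespace Pool.Agent.NPC.TH700F

open Pool.Agent.NPC.H628F Pool.Agent.H628R2.Forb

variable {α : Type} [TEnc α]

/-- the exponent of the padding -/
def SS (t : ℕ) : ℕ := MM t + (2 * t + 1) * (2 * t)

lemma SS_mono {s t : ℕ} (h : s ≤ t) : SS s ≤ SS t := by
  unfold SS
  exact Nat.add_le_add (MM_mono h) (Nat.mul_le_mul (by omega) (by omega))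

theorem p_fst0 {F : α → List ℕ} (hF : Poly F) : Poly (fun a => fst0 (F a)) := by
  have h1 : Poly (fun a => List.range ((F a).length + 1)) :=
    (UPoly.add (UPoly.length hF) (UPoly.const 1)).range
  exact Poly.head?_getD (Poly.filter (p := fun a s => !decide (s ∈ F a)) h1
    (Poly.not (Poly.decide_mem p_snd (hF.comp p_fst)))) 0

theorem p_rng1 {n : α → ℕ} (hn : UPoly n) : Poly (fun a => rng1 (n a)) :=
  Poly.map (F := fun _ i => i + 1) hn.range (Poly.succ p_snd)

theorem p_shift {F : α → List ℕ} {y : α → ℕ} (hF : Poly F) (hy : Poly y) :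
    Poly (fun a => shift (F a) (y a)) := by
  unfold shift
  exact Poly.map (F := fun a f => f - y a)
    (Poly.filter (p := fun a f => decide (y a ≤ f)) hF (Poly.decide_le (hy.comp p_fst) p_snd))
    (Poly.sub p_snd (hy.comp p_fst))

theorem p_decAt {F J : α → List ℕ} {y N : α → ℕ} (hF : Poly F) (hy : Poly y) (hJ : Poly J)
    (hN : UPoly N) (hb : ∀ a, 2 ^ (SS (F a).length) ≤ N a) :
    Poly (fun a => decAt (F a) (y a) (J a)) := by
  refine p_dec hJ (p_shift hF hy) hN fun a => le_trans ?_ (hb a)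
  refine Nat.pow_le_pow_right (by norm_num) ?_
  refine le_trans (MM_mono (shift_length (F a) (y a))) ?_
  unfold SS
  omega

theorem p_cands {p F : α → List ℕ} {N : α → ℕ} (hp : Poly p) (hF : Poly F)
    (hN : UPoly N) (hb : ∀ a, 2 ^ (SS (F a).length) ≤ N a) :
    Poly (fun a => cands (p a) (F a)) := by
  have ht : UPoly (fun a => (F a).length) := UPoly.length hF
  have h2 : UPoly (fun a => 2 * (F a).length) := UPoly.mul (UPoly.const 2) ht
  refine Poly.filter (p := fun a Z => decAt (F a) (fst0 (F a)) (p a ++ Z))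
    (p_enum (p_rng1 h2) h2 hN ?_) ?_
  · intro a
    refine le_trans ?_ (hb a)
    have e : (rng1 (2 * (F a).length)).length = 2 * (F a).length := by simp [rng1]
    rw [e]
    calc (2 * (F a).length + 1) ^ (2 * (F a).length)
        ≤ (2 ^ (2 * (F a).length + 1)) ^ (2 * (F a).length) :=
          Nat.pow_le_pow_left Nat.lt_two_pow_self.le _
      _ = 2 ^ ((2 * (F a).length + 1) * (2 * (F a).length)) := (pow_mul _ _ _).symm
      _ ≤ 2 ^ (SS (F a).length) := Nat.pow_le_pow_right (by norm_num) (by unfold SS; omega)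
  · exact p_decAt (hF.comp p_fst) ((p_fst0 hF).comp p_fst) (Poly.append (hp.comp p_fst) p_snd)
      (hN.comp p_fst) fun a => hb a.1

theorem p_goodZ {p F : α → List ℕ} {N : α → ℕ} (hp : Poly p) (hF : Poly F)
    (hN : UPoly N) (hb : ∀ a, 2 ^ (SS (F a).length) ≤ N a) :
    Poly (fun a => goodZ (p a) (F a)) := by
  have hc := p_cands hp hF hN hb
  refine Poly.head?_getD (Poly.filter (p := fun a Z => (cands (p a) (F a)).all
    (fun Z' => decide (Z.sum ≤ Z'.sum))) hc ?_) []
  exact Poly.all (p := fun (a : α × List ℕ) Z' => decide (a.2.sum ≤ Z'.sum)) (hc.comp p_fst)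
    (Poly.decide_le (Poly.sum (Poly.snd p_fst)) (Poly.sum p_snd))

theorem p_pick {F : α → List ℕ} {W : α → List (ℕ × ℕ)} {y N : α → ℕ} (hF : Poly F) (hW : Poly W)
    (hy : Poly y) (hN : UPoly N) (hb : ∀ a, 2 ^ (SS (F a).length) ≤ N a) :
    Poly (fun a => pick (F a) (W a) (y a)) := by
  refine Poly.head? (Poly.filter (p := fun a w => !decide (y a + w.1 ∈ F a) &&
    decAt (F a) (y a + w.1) (((W a).filter (fun v => !decide (v = w))).map (fun v => v.1))) hW ?_)
  have h1 : Poly (fun a : α × (ℕ × ℕ) => y a.1 + a.2.1) :=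
    Poly.add (hy.comp p_fst) (Poly.fst p_snd)
  refine Poly.and (Poly.not (Poly.decide_mem h1 (hF.comp p_fst))) ?_
  refine p_decAt (hF.comp p_fst) h1 ?_ (hN.comp p_fst) fun a => hb a.1
  refine Poly.map (F := fun _ (v : ℕ × ℕ) => v.1)
    (Poly.filter (p := fun (a : α × (ℕ × ℕ)) (v : ℕ × ℕ) => !decide (v = a.2))
      (hW.comp p_fst) (Poly.not (Poly.decide_eq p_snd (Poly.snd p_fst)))) (Poly.fst p_snd)

theorem p_tick {F : α → List ℕ} {s : α → List (ℕ × ℕ) × ℕ × List ((ℕ × ℕ) × ℕ)} {N : α → ℕ}
    (hF : Poly F) (hs : Poly s) (hN : UPoly N) (hb : ∀ a, 2 ^ (SS (F a).length) ≤ N a) :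
    Poly (fun a => tick (F a) (s a)) := by
  have h1 := p_pick hF (Poly.fst hs) (Poly.fst (Poly.snd hs)) hN hb
  refine (Poly.optCases (g := fun a => s a)
    (h := fun a w => ((s a).1.filter (fun v => !decide (v = w)), (s a).2.1 + w.1,
      (w, (s a).2.1) :: (s a).2.2)) h1 hs ?_).congr fun a => ?_
  · have hs' := hs.comp (p_fst (α := α) (β := ℕ × ℕ))
    refine Poly.pair (Poly.filter (p := fun (a : α × (ℕ × ℕ)) (v : ℕ × ℕ) => !decide (v = a.2))
      (Poly.fst hs') (Poly.not (Poly.decide_eq p_snd (Poly.snd p_fst)))) (Poly.pair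
      (Poly.add (Poly.fst (Poly.snd hs')) (Poly.fst p_snd))
      (Poly.cons (Poly.pair p_snd (Poly.fst (Poly.snd hs'))) (Poly.snd (Poly.snd hs'))))
  · rw [tick]
    cases pick (F a) (s a).1 (s a).2.1 <;> rfl

/-- the size invariant of the loop -/
lemma tick_inv (F : List ℕ) (s : List (ℕ × ℕ) × ℕ × List ((ℕ × ℕ) × ℕ)) (S Y : ℕ)
    (h1 : sz s.1 ≤ S) (h2 : s.2.1 + (s.1.map (fun v => v.1)).sum ≤ Y) (A : ℕ)
    (h3 : sz s.2.2 ≤ A) :
    sz (tick F s).1 ≤ S ∧ (tick F s).2.1 + ((tick F s).1.map (fun v => v.1)).sum ≤ Y ∧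
      sz (tick F s).2.2 ≤ A + (S + 2 * sz Y + 2) := by
  rw [tick]
  cases hp : pick F s.1 s.2.1 with
  | none => exact ⟨h1, h2, by simp only; omega⟩
  | some w =>
    simp only
    have hw : w ∈ s.1 := by
      rw [pick] at hp
      exact List.mem_of_mem_filter (List.mem_of_mem_head? hp)
    have hy : sz s.2.1 ≤ 2 * sz Y := sz_nat_mono_le (by omega)
    refine ⟨(sz_sublist List.filter_sublist).trans h1, ?_, ?_⟩
    · have key : ∀ l : List (ℕ × ℕ), w ∈ l →
          w.1 + ((l.filter (fun v => !decide (v = w))).map (fun v => v.1)).sum ≤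
            (l.map (fun v => v.1)).sum := by
        intro l
        induction l with
        | nil => intro h; simp at h
        | cons x l ih =>
          intro h
          have hsub : ((l.filter (fun v => !decide (v = w))).map (fun v => v.1)).sum ≤
              (l.map (fun v => v.1)).sum :=
            (List.filter_sublist.map _).sum_le_sum (fun _ _ => Nat.zero_le _)
          rw [List.filter_cons]
          by_cases hx : x = w
          · subst hx
            simp only [decide_true, Bool.not_true, Bool.false_eq_true, if_false, List.map_cons,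
              List.sum_cons]
            omega
          · have hwl : w ∈ l := by
              rcases List.mem_cons.1 h with h | h
              · exact absurd h.symm hx
              · exact h
            have := ih hwl
            simp only [hx, decide_false, Bool.not_false, if_true, List.map_cons, List.sum_cons]
            omega
      have := key s.1 hw
      omega
    · rw [sz_list_cons, sz_pair]
      have := sz_le_of_mem hw
      omega

lemma foldl_tick_inv (F : List ℕ) (S Y : ℕ) {β : Type} (l : List β) :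
    ∀ (s : List (ℕ × ℕ) × ℕ × List ((ℕ × ℕ) × ℕ)), sz s.1 ≤ S →
      s.2.1 + (s.1.map (fun v => v.1)).sum ≤ Y →
      sz (l.foldl (fun s _ => tick F s) s) ≤
        S + 2 * sz Y + (sz s.2.2 + l.length * (S + 2 * sz Y + 2)) + 2 := by
  induction l with
  | nil =>
    intro s h1 h2
    have hy : sz s.2.1 ≤ 2 * sz Y := sz_nat_mono_le (by omega)
    have e : sz s = sz s.1 + (sz s.2.1 + sz s.2.2 + 1) + 1 := by
      obtain ⟨a, b, c⟩ := s
      rw [sz_pair, sz_pair]
    simp only [List.foldl_nil, List.length_nil]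
    rw [e]
    omega
  | cons x l ih =>
    intro s h1 h2
    obtain ⟨g1, g2, g3⟩ := tick_inv F s S Y h1 h2 _ le_rfl
    rw [List.foldl_cons]
    refine (ih _ g1 g2).trans ?_
    rw [List.length_cons, Nat.add_mul]
    omega

theorem p_runW {p F : α → List ℕ} {N : α → ℕ} (hp : Poly p) (hF : Poly F)
    (hN : UPoly N) (hb : ∀ a, 2 ^ (SS (F a).length) ≤ N a) :
    Poly (fun a => runW (p a) (F a)) := by
  have hl : Poly (fun a => (p a ++ goodZ (p a) (F a)).zipIdx) :=
    Poly.zipIdx (Poly.append hp (p_goodZ hp hF hN hb))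
  have hs0 : Poly (fun a => ((p a ++ goodZ (p a) (F a)).zipIdx, fst0 (F a),
      ([] : List ((ℕ × ℕ) × ℕ)))) := Poly.pair hl (Poly.pair (p_fst0 hF) (Poly.const []))
  have hY : Poly (fun a => fst0 (F a) +
      ((p a ++ goodZ (p a) (F a)).zipIdx.map (fun v => v.1)).sum) :=
    Poly.add (p_fst0 hF) (Poly.sum (Poly.map (F := fun _ (v : ℕ × ℕ) => v.1) hl (Poly.fst p_snd)))
  obtain ⟨r, hr⟩ := hl.sz_le
  obtain ⟨q, hq⟩ := hY.sz_le
  refine Poly.snd (Poly.snd (Poly.foldl (l := fun a => (p a ++ goodZ (p a) (F a)).zipIdx)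
    (s := fun a => ((p a ++ goodZ (p a) (F a)).zipIdx, fst0 (F a), ([] : List ((ℕ × ℕ) × ℕ))))
    (F := fun a s _ => tick (F a) s) hl hs0 ?_
    (r + Polynomial.C 2 * q + (Polynomial.C 1 + r * (r + Polynomial.C 2 * q + Polynomial.C 2)) +
      Polynomial.C 2) ?_))
  · exact p_tick (hF.comp p_fst) (Poly.fst p_snd) (hN.comp p_fst) fun a => hb a.1
  · intro a k hk
    refine (foldl_tick_inv (F a) _ _ _ _ le_rfl le_rfl).trans ?_
    have h1 := hr a
    have h2 := hq a
    set S := sz (p a ++ goodZ (p a) (F a)).zipIdx with hS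
    set Y := sz (fst0 (F a) + ((p a ++ goodZ (p a) (F a)).zipIdx.map (fun v => v.1)).sum) with hYdef
    have h3 : (((p a ++ goodZ (p a) (F a)).zipIdx).take k).length ≤ r.eval (sz a) := by
      rw [List.length_take]
      have := length_lt_sz (p a ++ goodZ (p a) (F a)).zipIdx
      omega
    simp only [sz_list_nil, Polynomial.eval_add, Polynomial.eval_mul, Polynomial.eval_C]
    have h4 : S + 2 * Y + 2 ≤ r.eval (sz a) + 2 * q.eval (sz a) + 2 := by omega
    have h5 := Nat.mul_le_mul h3 h4
    omega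

theorem p_sched {p F : α → List ℕ} {N : α → ℕ} (hp : Poly p) (hF : Poly F)
    (hN : UPoly N) (hb : ∀ a, 2 ^ (SS (F a).length) ≤ N a) :
    Poly (fun a => sched (p a) (F a)) := by
  have hr := p_runW hp hF hN hb
  refine Poly.map (F := fun a j => lookup (runW (p a) (F a)) j) (UPoly.length hp).range ?_
  refine Poly.head?_getD (l := fun x : α × ℕ => ((runW (p x.1) (F x.1)).filter
    (fun e => decide (e.1.2 = x.2))).map (fun e => e.2)) ?_ 0
  exact Poly.map (F := fun (_ : α × ℕ) (e : (ℕ × ℕ) × ℕ) => e.2)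
    (Poly.filter (p := fun (x : α × ℕ) (e : (ℕ × ℕ) × ℕ) => decide (e.1.2 = x.2)) (hr.comp p_fst)
      (Poly.decide_eq (Poly.snd (Poly.fst p_snd)) (Poly.snd p_fst))) (Poly.snd p_snd)

/-! ### Removing repeated instants -/

lemma mem_ded {x : ℕ} {l : List ℕ} : x ∈ ded l ↔ x ∈ l := by
  have key : ∀ (l s : List ℕ), x ∈ l.foldl (fun s a => if a ∈ s then s else a :: s) s ↔
      x ∈ s ∨ x ∈ l := by
    intro l
    induction l with
    | nil => intro s; simp
    | cons a l ih =>
      intro s
      rw [List.foldl_cons, ih]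
      by_cases h : a ∈ s
      · rw [if_pos h, List.mem_cons]
        constructor
        · rintro (h1 | h1)
          · exact Or.inl h1
          · exact Or.inr (Or.inr h1)
        · rintro (h1 | h1 | h1)
          · exact Or.inl h1
          · subst h1; exact Or.inl h
          · exact Or.inr h1
      · rw [if_neg h, List.mem_cons, List.mem_cons]
        tauto
  exact (key l []).trans (by simp)

lemma nodup_ded (l : List ℕ) : (ded l).Nodup := by
  have key : ∀ (l s : List ℕ), s.Nodup →
      (l.foldl (fun s a => if a ∈ s then s else a :: s) s).Nodup := by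
    intro l
    induction l with
    | nil => intro s hs; exact hs
    | cons a l ih =>
      intro s hs
      rw [List.foldl_cons]
      apply ih
      by_cases h : a ∈ s
      · rw [if_pos h]; exact hs
      · rw [if_neg h]; exact List.nodup_cons.2 ⟨h, hs⟩
  exact key l [] List.nodup_nil

lemma length_ded (l : List ℕ) : (ded l).length = l.toFinset.card := by
  rw [← List.toFinset_card_of_nodup (nodup_ded l)]
  congr 1
  ext x
  simp [mem_ded]

/-- the algorithm: repeated instants are removed first -/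
def alg (x : List ℕ × List ℕ) : List ℕ := sched x.1 (ded x.2)

/-- the parameter: the number of forbidden instants -/
def kap (x : List ℕ × List ℕ) : ℕ := (ded x.2).length

theorem primrec_SS : Primrec SS := by
  have hid : Primrec (fun t : ℕ => t) := Primrec.id
  have hadd : ∀ {f g : ℕ → ℕ}, Primrec f → Primrec g → Primrec (fun t => f t + g t) :=
    fun hf hg => Primrec.nat_add.comp hf hg
  have hmul : ∀ {f g : ℕ → ℕ}, Primrec f → Primrec g → Primrec (fun t => f t * g t) :=
    fun hf hg => Primrec.nat_mul.comp hf hg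
  have h1 : Primrec (fun t : ℕ => t + 1) := hadd hid (Primrec.const 1)
  have h2 : Primrec (fun t : ℕ => 2 * t) := hmul (Primrec.const 2) hid
  have h21 : Primrec (fun t : ℕ => 2 * t + 1) := hadd h2 (Primrec.const 1)
  have hLL : Primrec LL := hmul hid h1
  have hGG : Primrec GG := by
    have h3 : Primrec (fun t : ℕ => (t * (t + 1)) * (t * (t + 1)) + 3 * (t * (t + 1)) +
        (t + (t + 1) * (t + 1))) :=
      hadd (hadd (hmul hLL hLL) (hmul (Primrec.const 3) hLL)) (hadd hid (hmul h1 h1))
    refine h3.of_eq fun t => ?_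
    simp only [GG, pow_two]
  have hMM : Primrec MM := by
    have h4 : Primrec (fun t : ℕ => (2 * t + 1) * (LL t + 2 * t * GG t + 2 * t + t + 1)) :=
      hmul h21 (hadd (hadd (hadd (hadd hLL (hmul h2 hGG)) h2) hid) (Primrec.const 1))
    exact h4
  exact hadd hMM (hmul h21 h2)

theorem u_SS {t : α → ℕ} (ht : UPoly t) : UPoly (fun a => SS (t a)) := by
  have h2 : UPoly (fun a => 2 * t a) := UPoly.mul (UPoly.const 2) ht
  have h21 : UPoly (fun a => 2 * t a + 1) := UPoly.add h2 (UPoly.const 1)
  have hMM : UPoly (fun a => MM (t a)) :=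
    UPoly.mul h21 (UPoly.add (UPoly.add (UPoly.add (UPoly.add (u_LL ht)
      (UPoly.mul h2 (u_GG ht))) h2) ht) (UPoly.const 1))
  exact UPoly.add hMM (UPoly.mul h21 h2)

theorem fpt : ∃ (tm : Turing.FinTM2) (e₀ : tm.Γ tm.k₀ ≃ Bool) (e₁ : tm.Γ tm.k₁ ≃ Bool)
    (f : ℕ → ℕ) (c : ℕ), Computable f ∧ ∀ x : List ℕ × List ℕ,
      Nonempty (Turing.TM2OutputsInTime tm ((bits x).map e₀.invFun)
        (some ((bits (alg x)).map e₁.invFun)) (f (kap x) * ((bits x).length + 1) ^ c)) := by
  refine fpt_tm alg kap SS primrec_SS ?_ ?_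
  · exact u_SS (UPoly.length (p_ded p_snd))
  · have hv := Poly.val (fun x : (List ℕ × List ℕ) × List Unit =>
        2 ^ (SS (kap x.1)) ≤ x.2.length)
    have h1 := Poly.fst hv
    exact p_sched (Poly.fst h1) (p_ded (Poly.snd h1)) (UPoly.length (Poly.snd hv)) fun a => a.2

end Pool.Agent.NPC.TH700F
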