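import Pool.Agent.TH700.NetSat

/-!
# A satisfying assignment gives a way to realise the shift
-/

namespace Pool.Agent.TH700

open Finset Pool.Agent.NPC

theorem real_two (n : ℕ) (b : Bool) (i j : ℕ) : Real (two n b i j)
    (fun w => stp (lane b i, 2 * n + 2 * j + 1) true (stp (lane b i, 2 * n + 2 * j) true w)) := by
  have := (Real.single (lane b i, 2 * n + 2 * j) true).append
    (Real.single (lane b i, 2 * n + 2 * j + 1) true)
  exact this

theorem real_blk {n : ℕ} {c : Cl} {j : ℕ} {b : Bool} {i : ℕ} (hi : i < n)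
    (hslot : slot n c j i = two n b i j) : Real (blk n c j)
    (fun w => stp (lane b i, 2 * n + 2 * j + 1) true (stp (lane b i, 2 * n + 2 * j) true w)) := by
  unfold blk
  rw [range_split hi, List.flatMap_append, List.flatMap_cons, hslot]
  exact (Real.off _).append ((real_two n b i j).append (Real.off _))

/-- The home lane of the red token. -/
def home (τ : ℕ → Bool) (i : ℕ) : ℕ := if τ i then 2 * i else 2 * i + 1

theorem real_st2 {n : ℕ} (τ : ℕ → Bool) : ∀ (ψ : List Cl) (j : ℕ),
    (∀ c ∈ ψ, ∃ b i, i < n ∧ τ i = b ∧ ∀ j, slot n c j i = two n b i j) →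
    ∃ F, Real (st2 n j ψ) F ∧ (∀ i < n, F (home τ i) = home τ i) ∧
      (∀ t < ψ.length, F (2 * n + 2 * (j + t)) = 2 * n + 2 * (j + t) + 1) ∧
      (∀ w, 2 * n ≤ w → w < 2 * n + 2 * j → F w = w)
  | [], j, _ => ⟨fun w => w, Real.nil, fun _ _ => rfl, fun t ht => by simp at ht,
      fun _ _ _ => rfl⟩
  | c :: ψ, j, h => by
    obtain ⟨b, i, hi, hb, hslot⟩ := h c (List.mem_cons_self ..)
    obtain ⟨F, hF1, hF2, hF3, hF4⟩ := real_st2 τ ψ (j + 1)
      (fun c' hc' => h c' (List.mem_cons_of_mem _ hc'))
    have hl := lane_bounds b i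
    refine ⟨_, (real_blk hi (hslot j)).append hF1, ?_, ?_, ?_⟩
    · intro i' hi'
      have hne : home τ i' ≠ lane b i := by
        by_cases h1 : i' = i
        · subst h1
          unfold home lane
          rw [hb]
          split_ifs <;> omega
        · have : 2 * i' ≤ home τ i' ∧ home τ i' ≤ 2 * i' + 1 := by
            unfold home; split_ifs <;> omega
          omega
      have hlt : home τ i' < 2 * n := by unfold home; split_ifs <;> omega
      have e1 : stp (lane b i, 2 * n + 2 * j) true (home τ i') = home τ i' := by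
        unfold stp; rw [if_pos rfl, if_neg hne, if_neg (by simp only; omega)]
      have e2 : stp (lane b i, 2 * n + 2 * j + 1) true (home τ i') = home τ i' := by
        unfold stp; rw [if_pos rfl, if_neg hne, if_neg (by simp only; omega)]
      simp only [e1, e2]
      exact hF2 i' hi'
    · intro t ht
      by_cases ht0 : t = 0
      · subst ht0
        have e1 : stp (lane b i, 2 * n + 2 * j) true (2 * n + 2 * (j + 0)) = lane b i := by
          unfold stp; rw [if_pos rfl, if_neg (by simp only; omega), if_pos (by simp only; omega)]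
        have e2 : stp (lane b i, 2 * n + 2 * j + 1) true (lane b i) = 2 * n + 2 * j + 1 := by
          unfold stp; rw [if_pos rfl, if_pos rfl]
        simp only [e1, e2]
        rw [hF4 _ (by omega) (by omega)]; omega
      · have e1 : stp (lane b i, 2 * n + 2 * j) true (2 * n + 2 * (j + t)) =
            2 * n + 2 * (j + t) := by
          unfold stp; rw [if_pos rfl, if_neg (by simp only; omega), if_neg (by simp only; omega)]
        have e2 : stp (lane b i, 2 * n + 2 * j + 1) true (2 * n + 2 * (j + t)) =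
            2 * n + 2 * (j + t) := by
          unfold stp; rw [if_pos rfl, if_neg (by simp only; omega), if_neg (by simp only; omega)]
        simp only [e1, e2]
        have := hF3 (t - 1) (by simp only [List.length_cons] at ht; omega)
        have e3 : j + 1 + (t - 1) = j + t := by omega
        rwa [e3] at this
    · intro w hw1 hw2
      have e1 : stp (lane b i, 2 * n + 2 * j) true w = w := by
        unfold stp; rw [if_pos rfl, if_neg (by simp only; omega), if_neg (by simp only; omega)]
      have e2 : stp (lane b i, 2 * n + 2 * j + 1) true w = w := by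
        unfold stp; rw [if_pos rfl, if_neg (by simp only; omega), if_neg (by simp only; omega)]
      simp only [e1, e2]
      exact hF4 w hw1 (by omega)

theorem real_st1 (n : ℕ) (b : ℕ → Bool) : Real (st1 n)
    (fun w => if w < 2 * n then stp (2 * (w / 2), 2 * (w / 2) + 1) (b (w / 2)) w else w) := by
  intro off
  refine ⟨fun k => b (k - off), fun w => ?_⟩
  rw [run_st1]
  simp only [Nat.add_sub_cancel_left]

theorem real_sym : ∀ (z : ℕ) (θ : ℕ → ℕ), (∀ x < z, θ x < z) →
    (∀ x < z, ∀ y < z, θ x = θ y → x = y) → ∃ F, Real (sym z) F ∧ ∀ x < z, F (2 * x) = 2 * θ x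
  | 0, θ, _, _ => ⟨fun w => w, Real.nil, fun x hx => by omega⟩
  | z + 1, θ, h1, h2 => by
    have hsurj : ∃ y, y < z + 1 ∧ θ y = z := by
      let f : Fin (z + 1) → Fin (z + 1) := fun x => ⟨θ x, h1 x x.2⟩
      have hinj : Function.Injective f := fun x y hxy =>
        Fin.ext (h2 x x.2 y y.2 (by simpa [f] using hxy))
      obtain ⟨y, hy⟩ := (Finite.injective_iff_surjective.1 hinj) ⟨z, by omega⟩
      exact ⟨y, y.2, by simpa [f] using congrArg Fin.val hy⟩
    obtain ⟨y, hy, hyz⟩ := hsurj
    obtain ⟨F, hF1, hF2⟩ := real_sym z (fun x => if x = y then θ z else θ x) (by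
      intro x hx
      by_cases hxy : x = y
      · rw [if_pos hxy]
        have := h1 z (by omega)
        have h3 : θ z ≠ z := by
          intro h4
          have := h2 z (by omega) y hy (by rw [h4, hyz])
          omega
        omega
      · rw [if_neg hxy]
        have := h1 x (by omega)
        have h3 : θ x ≠ z := by
          intro h4
          exact hxy (h2 x (by omega) y hy (by rw [h4, hyz]))
        omega) (by
      intro x hx x' hx' heq
      split_ifs at heq with c1 c2 c2
      · omega
      · have := h2 z (by omega) x' (by omega) heq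
        omega
      · have := h2 x (by omega) z (by omega) heq
        omega
      · exact h2 x (by omega) x' (by omega) heq)
    have hfix : F (2 * z) = 2 * z := by
      obtain ⟨on, hon⟩ := hF1 0
      rw [← hon]
      apply runO_fix
      intro ab hab
      obtain ⟨i, z', a1, a2, rfl⟩ := mem_sym hab
      simp only; omega
    by_cases hyz' : y = z
    · refine ⟨_, (Real.off _).append hF1, fun x hx => ?_⟩
      by_cases hxz : x = z
      · rw [hxz, hfix, ← hyz']; rw [hyz, hyz']
      · rw [hF2 x (by omega), if_neg (by omega)]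
    · have hmem : (2 * y, 2 * z) ∈ (List.range z).map (fun i => (2 * i, 2 * z)) :=
        List.mem_map.2 ⟨y, List.mem_range.2 (by omega), rfl⟩
      refine ⟨_, (Real.mem hmem true).append hF1, fun x hx => ?_⟩
      by_cases hxz : x = z
      · have e1 : stp (2 * y, 2 * z) true (2 * x) = 2 * y := by
          unfold stp; rw [if_pos rfl, if_neg (by simp only; omega), if_pos (by simp only; omega)]
        rw [e1, hF2 y (by omega), if_pos rfl, hxz]
      · by_cases hxy : x = y
        · have e1 : stp (2 * y, 2 * z) true (2 * x) = 2 * z := by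
            unfold stp; rw [if_pos rfl, if_pos (by simp only; omega)]
          rw [e1, hfix, hxy, hyz]
        · have e1 : stp (2 * y, 2 * z) true (2 * x) = 2 * x := by
            unfold stp
            rw [if_pos rfl, if_neg (by simp only; omega), if_neg (by simp only; omega)]
          rw [e1, hF2 x (by omega), if_neg hxy]

theorem runO_le (on : ℕ → Bool) {m : ℕ} : ∀ (l : List (ℕ × ℕ)) (off w : ℕ),
    (∀ ab ∈ l, ab.1 ≤ m ∧ ab.2 ≤ m) → w ≤ m → runO on off l w ≤ m
  | [], _, _, _, hw => hw
  | ab :: l, off, w, h, hw => by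
    rw [runO]
    have h1 := h ab (List.mem_cons_self ..)
    refine runO_le on l _ _ (fun ab' h' => h ab' (List.mem_cons_of_mem _ h')) ?_
    unfold stp
    split_ifs <;> omega

theorem slot_of_lit {n : ℕ} {c : Cl} (hd : c.1.2 ≠ c.2.1.2 ∧ c.1.2 ≠ c.2.2.2 ∧
    c.2.1.2 ≠ c.2.2.2) {b : Bool} {i : ℕ} (hb : InC (b, i) c) (j : ℕ) :
    slot n c j i = two n b i j := by
  obtain ⟨⟨b1, i1⟩, ⟨b2, i2⟩, ⟨b3, i3⟩⟩ := c
  simp only at hd
  unfold slot
  cases b
  · have : ¬ InC (true, i) ((b1, i1), (b2, i2), (b3, i3)) := by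
      intro hT
      simp only [InC, Prod.mk.injEq] at hb hT
      rcases hb with ⟨h1, h2⟩ | ⟨h1, h2⟩ | ⟨h1, h2⟩ <;>
      rcases hT with ⟨h3, h4⟩ | ⟨h3, h4⟩ | ⟨h3, h4⟩
      · rw [← h1] at h3; exact absurd h3 (by decide)
      · exact hd.1 (h2.symm.trans h4)
      · exact hd.2.1 (h2.symm.trans h4)
      · exact hd.1 (h4.symm.trans h2)
      · rw [← h1] at h3; exact absurd h3 (by decide)
      · exact hd.2.2 (h2.symm.trans h4)
      · exact hd.2.1 (h4.symm.trans h2)
      · exact hd.2.2 (h4.symm.trans h2)
      · rw [← h1] at h3; exact absurd h3 (by decide)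
    rw [if_neg this, if_pos hb]
  · rw [if_pos hb]

/-- **A satisfying assignment gives the shift.** -/
theorem shift_of_sat {φ : List Cl} (hφ : φ ≠ []) (hd : Distinct3 φ)
    (hb : ∀ c ∈ φ, ∀ b i, InC (b, i) c → i < 3 * φ.length) {τ : ℕ → Bool} (hτ : SatBy φ τ) :
    ∃ on, (netOf φ hφ).Shift on := by
  set M := φ.length with hM
  set n := 3 * M with hn
  have hM1 : 1 ≤ M := List.length_pos_iff.2 hφ
  obtain ⟨F2, hF2, hF2a, hF2b, _⟩ := real_st2 (n := n) τ φ 0 (by
    intro c hc
    obtain ⟨b, i, h1, h2⟩ := (satBy_iff c τ).1 (hτ c hc)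
    exact ⟨b, i, hb c hc b i h1, h2, fun j => slot_of_lit (hd c hc) h1 j⟩)
  obtain ⟨F1, hF1⟩ : ∃ F1, F1 = (fun w => if w < 2 * n then
      stp (2 * (w / 2), 2 * (w / 2) + 1) ((fun i => !τ i) (w / 2)) w else w) := ⟨_, rfl⟩
  obtain ⟨F3, hF3⟩ : ∃ F3, F3 = (fun w => if w < 2 * n then
      stp (2 * (w / 2), 2 * (w / 2) + 1) (τ (w / 2)) w else w) := ⟨_, rfl⟩
  have hR1 : Real (st1 n) F1 := by rw [hF1]; exact real_st1 n (fun i => !τ i)
  have hR3 : Real (st1 n) F3 := by rw [hF3]; exact real_st1 n _
  have hG := hR1.append (hF2.append hR3)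
  obtain ⟨G, hGdef⟩ : ∃ G : ℕ → ℕ, G = (fun w => F3 (F2 (F1 w))) := ⟨_, rfl⟩
  have hG' : Real (st1 n ++ (st2 n 0 φ ++ st1 n)) G := by rw [hGdef]; exact hG
  have hGeven : ∀ x < 4 * M, G (2 * x) = 2 * x + 1 := by
    intro x hx
    rw [hGdef]
    simp only
    by_cases hxn : x < n
    · have e1 : F1 (2 * x) = home τ x := by
        rw [hF1]
        simp only
        have e : 2 * x / 2 = x := by omega
        rw [if_pos (by omega), e]
        unfold stp home
        cases τ x <;> simp
      have e3 : F3 (home τ x) = 2 * x + 1 := by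
        rw [hF3]
        simp only
        have e : home τ x / 2 = x := by unfold home; split_ifs <;> omega
        have e' : home τ x < 2 * n := by unfold home; split_ifs <;> omega
        rw [if_pos e', e]
        unfold stp home
        cases τ x <;> simp
      rw [e1, hF2a x hxn, e3]
    · obtain ⟨t, rfl⟩ : ∃ t, x = n + t := ⟨x - n, by omega⟩
      have e1 : F1 (2 * (n + t)) = 2 * n + 2 * (0 + t) := by
        rw [hF1]
        simp only
        rw [if_neg (by omega)]; omega
      rw [e1, hF2b t (by omega), hF3]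
      simp only
      rw [if_neg (by omega)]; omega
  have hGinj : Function.Injective G := by
    obtain ⟨on, hon⟩ := hG' 0
    intro x y hxy
    rw [← hon, ← hon] at hxy
    exact runO_inj on _ _ hxy
  have hGle : ∀ w ≤ 2 * (4 * M), G w ≤ 2 * (4 * M) := by
    obtain ⟨on, hon⟩ := hG' 0
    intro w hw
    rw [← hon]
    refine runO_le on _ _ _ (fun ab hab => ?_) hw
    have : ab ∈ swl φ := by
      unfold swl
      rw [List.mem_append, List.mem_append] at hab
      rw [List.mem_append, List.mem_append, List.mem_append]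
      rcases hab with h | h | h
      · exact Or.inl h
      · exact Or.inr (Or.inl h)
      · exact Or.inr (Or.inr (Or.inl h))
    have := mem_swl this
    omega
  have hsurj : ∀ x, ∃ w, x ≤ 4 * M → w ≤ 2 * (4 * M) ∧ G w = 2 * x := by
    intro x
    by_cases hx : x ≤ 4 * M
    · let f : Fin (2 * (4 * M) + 1) → Fin (2 * (4 * M) + 1) := fun w =>
        ⟨G w, Nat.lt_succ_of_le (hGle w (Nat.lt_succ_iff.1 w.2))⟩
      have hinj : Function.Injective f := fun a b hab =>
        Fin.ext (hGinj (by simpa [f] using hab))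
      obtain ⟨w, hw⟩ := (Finite.injective_iff_surjective.1 hinj) ⟨2 * x, by omega⟩
      exact ⟨w, fun _ => ⟨Nat.lt_succ_iff.1 w.2, by simpa [f] using congrArg Fin.val hw⟩⟩
    · exact ⟨0, fun h => absurd h hx⟩
  choose wx hwx using hsurj
  set W := netOf φ hφ with hW
  have hWq : 2 * W.q = 2 * (4 * M) := rfl
  have hnxv : ∀ w, W.nx w = if w < 2 * (4 * M) then w + 1 else 0 := fun w => rfl
  have hwx_odd : ∀ x ≤ 4 * M, W.nx (wx x) % 2 = 0 ∧ W.nx (wx x) ≤ 2 * (4 * M) := by
    intro x hx
    obtain ⟨h1, h2⟩ := hwx x hx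
    rw [hnxv]
    by_cases h3 : wx x < 2 * (4 * M)
    · rw [if_pos h3]
      have : wx x % 2 = 1 := by
        by_contra h4
        have h5 := hGeven (wx x / 2) (by omega)
        have e : 2 * (wx x / 2) = wx x := by omega
        rw [e, h2] at h5
        omega
      omega
    · rw [if_neg h3]; omega
  obtain ⟨F4, hF4, hF4a⟩ := real_sym (4 * M + 1) (fun x => W.nx (wx x) / 2) (by
    intro x hx
    have := hwx_odd x (by omega)
    omega) (by
    intro x hx y hy hxy
    have a1 := hwx_odd x (by omega)
    have a2 := hwx_odd y (by omega)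
    obtain ⟨b1, b2⟩ := hwx x (by omega)
    obtain ⟨c1, c2⟩ := hwx y (by omega)
    have h3 : W.nx (wx x) = W.nx (wx y) := by omega
    have h4 : wx x = wx y := by
      rw [hnxv, hnxv] at h3
      split_ifs at h3 <;> omega
    rw [h4, c2] at b2
    omega)
  have hF4odd : ∀ w, w % 2 = 1 → F4 w = w := by
    intro w hw
    obtain ⟨on, hon⟩ := hF4 0
    rw [← hon]
    exact sym_odd on _ _ w hw
  have htot := hG'.append hF4
  have hlist : (st1 n ++ (st2 n 0 φ ++ st1 n)) ++ sym (4 * M + 1) = swl φ := by
    unfold swl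
    simp only [List.append_assoc]
    rfl
  rw [hlist] at htot
  obtain ⟨on, hon⟩ := htot 0
  refine ⟨on, fun w hw => ?_⟩
  rw [posn_netOf, hon]
  change F4 (G w) = _
  change w ≤ 2 * (4 * M) at hw
  have hcase : (∃ x < 4 * M, w = 2 * x) ∨ ¬ (∃ x < 4 * M, w = 2 * x) := em _
  rcases hcase with ⟨x, hx, rfl⟩ | hno
  · rw [hGeven x hx, hF4odd _ (by omega), hnxv, if_pos (by omega)]
  · have hGw : G w % 2 = 0 := by
      by_contra h1
      have h2 := hGle w hw
      have h3 := hGeven (G w / 2) (by omega)
      have e : 2 * (G w / 2) + 1 = G w := by omega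
      rw [e] at h3
      exact hno ⟨G w / 2, by omega, (hGinj h3).symm⟩
    have h2 := hGle w hw
    obtain ⟨a1, a2⟩ := hwx (G w / 2) (by omega)
    have e : 2 * (G w / 2) = G w := by omega
    rw [e] at a2
    have h3 := hF4a (G w / 2) (by omega)
    rw [e, hGinj a2] at h3
    rw [h3]
    have h4 := hwx_odd (G w / 2) (by omega)
    rw [hGinj a2] at h4
    omega

end Pool.Agent.TH700
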