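import Pool.Agent.TH700.Fine2
import Pool.Agent.TH700.NetSat2
import Pool.Agent.NPC.Sat2

/-!
# Most optimal sorting sequences reveal a satisfying assignment
-/

namespace Pool.Agent.TH700

open Finset Pool.Agent.NPC

/-- The adjacency `e` is present, as a test. -/
def adjB (l : List ℤ) (e : ℕ) : Bool :=
  (l.zip l.tail).any (fun xy => (decide (xy.1 = (e : ℤ)) && decide (xy.2 = ((e + 1 : ℕ) : ℤ))) ||
    (decide (xy.1 = -((e + 1 : ℕ) : ℤ)) && decide (xy.2 = -(e : ℤ))))

theorem mem_zip_tail (l : List ℤ) (x y : ℤ) :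
    (x, y) ∈ l.zip l.tail ↔ ∃ k, k + 1 < l.length ∧ l.getD k 0 = x ∧ l.getD (k + 1) 0 = y := by
  constructor
  · intro h
    obtain ⟨k, hk, h1⟩ := List.getElem_of_mem h
    have hk' : k + 1 < l.length := by
      simp only [List.length_zip, List.length_tail] at hk; omega
    refine ⟨k, hk', ?_⟩
    rw [List.getElem_zip, List.getElem_tail] at h1
    rw [List.getD_eq_getElem _ _ (by omega), List.getD_eq_getElem _ _ hk']
    exact ⟨congrArg Prod.fst h1, congrArg Prod.snd h1⟩
  · rintro ⟨k, hk, h1, h2⟩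
    rw [List.getD_eq_getElem _ _ (by omega)] at h1
    rw [List.getD_eq_getElem _ _ hk] at h2
    have hk' : k < (l.zip l.tail).length := by
      simp only [List.length_zip, List.length_tail]; omega
    have : (l.zip l.tail)[k] = (x, y) := by
      rw [List.getElem_zip, List.getElem_tail, h1, h2]
    rw [← this]
    exact List.getElem_mem hk'

theorem adjB_iff {l : List ℤ} {e : ℕ} (h1 : 1 ≤ e) (h2 : e < l.length) :
    adjB l e = true ↔ Net.adjL l e := by
  unfold adjB
  rw [List.any_eq_true]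
  have hext : ∀ k, k < l.length → ext l (k + 1) = l.getD k 0 := by
    intro k hk
    unfold ext
    rw [if_neg (by omega), if_pos (by omega), Nat.add_sub_cancel]
  constructor
  · rintro ⟨⟨x, y⟩, hmem, h⟩
    obtain ⟨k, hk, hx, hy⟩ := (mem_zip_tail l x y).1 hmem
    refine ⟨k + 1, by omega, ?_⟩
    rw [hext k (by omega), hext (k + 1) hk, hx, hy]
    simp only [Bool.or_eq_true, Bool.and_eq_true, decide_eq_true_eq] at h
    rcases h with ⟨a, b⟩ | ⟨a, b⟩
    · left; rw [a, b]; push_cast; exact ⟨rfl, rfl⟩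
    · right; rw [a, b]; push_cast; exact ⟨by ring, rfl⟩
  · rintro ⟨p, hp, h⟩
    have hp0 : p ≠ 0 := by
      rintro rfl
      have : ext l 0 = 0 := by unfold ext; rw [if_pos rfl]
      rw [this] at h
      rcases h with ⟨a, _⟩ | ⟨a, _⟩ <;> omega
    obtain ⟨k, rfl⟩ : ∃ k, p = k + 1 := ⟨p - 1, by omega⟩
    have hpl : k + 1 ≠ l.length := by
      intro hc
      have : ext l (k + 1 + 1) = (l.length : ℤ) + 1 := by
        unfold ext; rw [if_neg (by omega), if_neg (by omega)]
      rw [this] at h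
      rcases h with ⟨_, a⟩ | ⟨_, a⟩ <;> omega
    rw [hext k (by omega), hext (k + 1) (by omega)] at h
    refine ⟨(l.getD k 0, l.getD (k + 1) 0), (mem_zip_tail _ _ _).2 ⟨k, by omega, rfl, rfl⟩, ?_⟩
    simp only [Bool.or_eq_true, Bool.and_eq_true, decide_eq_true_eq]
    rcases h with ⟨a, b⟩ | ⟨a, b⟩
    · left; rw [a, b]; push_cast; exact ⟨rfl, rfl⟩
    · right; rw [a, b]; push_cast; exact ⟨by ring, rfl⟩

/-- The half of the number of twins. -/
def hOf (φ : List Cl) : ℕ := 128 * (2 * (swl φ).length + 16 * φ.length) ^ 4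

/-- The size of a block. -/
def blOf (φ : List Cl) : ℕ := 2 * hOf φ + (swl φ).length

/-- The first adjacency of the variable `i`. -/
def eOf (φ : List Cl) (i : ℕ) : ℕ := 1 + 2 * (2 * i * blOf φ + (hOf φ + i))

/-- The value of the variable `i` in the state `l`. -/
def valOf (φ : List Cl) (l : List ℤ) (i : ℕ) : Bool :=
  adjB l (eOf φ i) == adjB l (eOf φ i + 1)

/-- The state reveals a satisfying assignment. -/
def goodB (φ : List Cl) (l : List ℤ) : Bool :=
  φ.all (fun c => (valOf φ l c.1.2 == c.1.1) || ((valOf φ l c.2.1.2 == c.2.1.1) ||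
    (valOf φ l c.2.2.2 == c.2.2.1)))

theorem goodB_iff (φ : List Cl) (l : List ℤ) : goodB φ l = true ↔ SatBy φ (valOf φ l) := by
  unfold goodB SatBy
  rw [List.all_eq_true]
  refine forall₂_congr fun c _ => ?_
  simp only [Bool.or_eq_true, beq_iff_eq]

theorem satBy_congr {φ : List Cl} (hb : Bounded3 φ) {a b : ℕ → Bool}
    (h : ∀ i < 3 * φ.length, a i = b i) : SatBy φ a ↔ SatBy φ b := by
  unfold SatBy
  refine forall₂_congr fun c hc => ?_
  obtain ⟨h1, h2, h3⟩ := hb c hc
  rw [h _ h1, h _ h2, h _ h3]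

theorem hOf_pos {φ : List Cl} (hφ : φ ≠ []) : 1 ≤ hOf φ := by
  unfold hOf
  have h1 : 0 < φ.length := List.length_pos_iff.2 hφ
  have : 0 < (2 * (swl φ).length + 16 * φ.length) ^ 4 := Nat.pow_pos (by omega)
  omega

theorem swl_getD {φ : List Cl} {i : ℕ} (hi : i < 3 * φ.length) :
    i < (swl φ).length ∧ (swl φ).getD i (0, 1) = (2 * i, 2 * i + 1) := by
  have h1 : (st1 (3 * φ.length)).length = 3 * φ.length := by simp [st1]
  have h2 : i < (swl φ).length := by
    unfold swl
    rw [List.length_append, h1]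
    omega
  refine ⟨h2, ?_⟩
  have h3 : swl φ = st1 (3 * φ.length) ++ (st2 (3 * φ.length) 0 φ ++ (st1 (3 * φ.length) ++
    sym (4 * φ.length + 1))) := rfl
  rw [h3, List.getD_eq_getElem?_getD, List.getElem?_append_left (by rw [h1]; exact hi)]
  simp [st1, hi]

section

variable {φ : List Cl} (hφ : φ ≠ [])

theorem val_key {Q : Finset ℕ}
    (hQ : Q ⊆ (Net.cyc (netOf φ hφ) (hOf φ) (hOf_pos hφ)).V) {l : List ℤ}
    (hl : l.length = (netOf φ hφ).nn (hOf φ))
    (hI : Cyc.Inv (Net.cyc (netOf φ hφ) (hOf φ) (hOf_pos hφ)) Q (ext l)) {i : ℕ}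
    (hi : i < 3 * φ.length) :
    valOf φ l i = !(Net.onP ((netOf φ hφ).oddS (kv (Net.cls (netOf φ hφ) (hOf φ)) Q)) i) := by
  set W := netOf φ hφ with hW
  set hh := hOf_pos hφ with hhh
  obtain ⟨h1, h2⟩ := swl_getD hi
  have hs : i < W.s := h1
  let k : Fin W.s := ⟨i, hs⟩
  have hsw : W.sw k = (2 * i, 2 * i + 1) := h2
  have hM : 0 < φ.length := List.length_pos_iff.2 hφ
  have hbl : W.bl (hOf φ) = blOf φ := rfl
  have hj : 2 * i ≤ 2 * W.q := by
    change 2 * i ≤ 2 * (4 * φ.length); omega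
  have ho : hOf φ + i < W.bl (hOf φ) := by
    unfold Net.bl; omega
  have he0 : W.enc (hOf φ) (W.sw k).1 (hOf φ + k) 0 = eOf φ i := by
    rw [hsw]; rfl
  have he1 : W.enc (hOf φ) (W.sw k).1 (hOf φ + k) 1 = eOf φ i + 1 := by
    rw [hsw]; rfl
  have hf := Net.filter_switch hh k
  rw [he0, he1] at hf
  have hm0 : eOf φ i ∈ (Net.cyc W (hOf φ) hh).V := by
    have : eOf φ i ∈ (Net.cyc W (hOf φ) hh).V.filter
      (fun v => Net.cls W (hOf φ) v = Sum.inl k) := by rw [hf]; simp
    exact (Finset.mem_filter.1 this).1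
  have hm1 : eOf φ i + 1 ∈ (Net.cyc W (hOf φ) hh).V := by
    have : eOf φ i + 1 ∈ (Net.cyc W (hOf φ) hh).V.filter
      (fun v => Net.cls W (hOf φ) v = Sum.inl k) := by rw [hf]; simp
    exact (Finset.mem_filter.1 this).1
  have hb1 := Net.enc_bounds (W := W) (h := hOf φ) (j := 2 * i) (b := 1) hj ho (by omega)
  have hb0 : eOf φ i + 1 ≤ 2 * W.K0 (hOf φ) := by
    rw [← he1, hsw]; exact hb1.2
  have hnn : W.nn (hOf φ) = 2 * W.K0 (hOf φ) + 1 := rfl
  have hpos : 1 ≤ eOf φ i := by unfold eOf; omega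
  have a0 : adjB l (eOf φ i) = true ↔ eOf φ i ∉ Q := by
    rw [adjB_iff hpos (by omega), Net.adjL_iff hQ hl hI (by omega), Cyc.lab_of_V hm0]
  have a1 : adjB l (eOf φ i + 1) = true ↔ eOf φ i + 1 ∉ Q := by
    rw [adjB_iff (by omega) (by omega), Net.adjL_iff hQ hl hI (by omega), Cyc.lab_of_V hm1]
  have hkv : kv (Net.cls W (hOf φ)) Q (Sum.inl k) =
      (({eOf φ i, eOf φ i + 1} : Finset ℕ).filter (fun v => v ∈ Q)).card := by
    unfold kv
    congr 1
    ext v
    rw [Finset.mem_filter, Finset.mem_filter, ← hf, Finset.mem_filter]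
    constructor
    · rintro ⟨b1, b2⟩; exact ⟨⟨hQ b1, b2⟩, b1⟩
    · rintro ⟨⟨_, b2⟩, b1⟩; exact ⟨b1, b2⟩
  have hon : Net.onP (W.oddS (kv (Net.cls W (hOf φ)) Q)) i = true ↔
      kv (Net.cls W (hOf φ)) Q (Sum.inl k) % 2 = 1 := by
    rw [← Net.mem_oddS]
    exact Net.onP_eq _ k
  rw [hkv] at hon
  unfold valOf
  have hne : eOf φ i ≠ eOf φ i + 1 := by omega
  by_cases c0 : eOf φ i ∈ Q <;> by_cases c1 : eOf φ i + 1 ∈ Q
  · have e0 : adjB l (eOf φ i) = false := by
      rw [Bool.eq_false_iff]; intro h; exact (a0.1 h) c0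
    have e1 : adjB l (eOf φ i + 1) = false := by
      rw [Bool.eq_false_iff]; intro h; exact (a1.1 h) c1
    have e2 : Net.onP (W.oddS (kv (Net.cls W (hOf φ)) Q)) i = false := by
      rw [Bool.eq_false_iff]
      intro h
      have := hon.1 h
      rw [Finset.filter_true_of_mem (by simp [c0, c1]), Finset.card_pair hne] at this
      omega
    rw [e0, e1, e2]; rfl
  · have e0 : adjB l (eOf φ i) = false := by
      rw [Bool.eq_false_iff]; intro h; exact (a0.1 h) c0
    have e1 : adjB l (eOf φ i + 1) = true := a1.2 c1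
    have e2 : Net.onP (W.oddS (kv (Net.cls W (hOf φ)) Q)) i = true := by
      rw [hon]
      have : ({eOf φ i, eOf φ i + 1} : Finset ℕ).filter (fun v => v ∈ Q) = {eOf φ i} := by
        ext v
        simp only [Finset.mem_filter, Finset.mem_insert, Finset.mem_singleton]
        constructor
        · rintro ⟨rfl | rfl, h⟩
          · rfl
          · exact absurd h c1
        · rintro rfl; exact ⟨Or.inl rfl, c0⟩
      rw [this, Finset.card_singleton]
    rw [e0, e1, e2]; rfl
  · have e0 : adjB l (eOf φ i) = true := a0.2 c0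
    have e1 : adjB l (eOf φ i + 1) = false := by
      rw [Bool.eq_false_iff]; intro h; exact (a1.1 h) c1
    have e2 : Net.onP (W.oddS (kv (Net.cls W (hOf φ)) Q)) i = true := by
      rw [hon]
      have : ({eOf φ i, eOf φ i + 1} : Finset ℕ).filter (fun v => v ∈ Q) = {eOf φ i + 1} := by
        ext v
        simp only [Finset.mem_filter, Finset.mem_insert, Finset.mem_singleton]
        constructor
        · rintro ⟨rfl | rfl, h⟩
          · exact absurd h c0
          · rfl
        · rintro rfl; exact ⟨Or.inr rfl, c1⟩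
      rw [this, Finset.card_singleton]
    rw [e0, e1, e2]; rfl
  · have e0 : adjB l (eOf φ i) = true := a0.2 c0
    have e1 : adjB l (eOf φ i + 1) = true := a1.2 c1
    have e2 : Net.onP (W.oddS (kv (Net.cls W (hOf φ)) Q)) i = false := by
      rw [Bool.eq_false_iff]
      intro h
      have := hon.1 h
      rw [Finset.filter_false_of_mem (by simp [c0, c1]), Finset.card_empty] at this
      omega
    rw [e0, e1, e2]; rfl

/-- **The optimal sorting sequences of the permutation of a satisfiable formula.** -/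
theorem assembly (hd : Distinct3 φ) (hb : Bounded3 φ) (hsat : SAT3 φ) :
    ((Opt ((netOf φ hφ).perm (hOf φ))).Finite ∧
      0 < (Opt ((netOf φ hφ).perm (hOf φ))).ncard) ∧
    4 * ({rs | ∀ k ≤ rs.length, goodB φ ((rs.take k).foldl reversal
        ((netOf φ hφ).perm (hOf φ))) = false} ∩ Opt ((netOf φ hφ).perm (hOf φ))).ncard ≤
      (Opt ((netOf φ hφ).perm (hOf φ))).ncard := by
  set W := netOf φ hφ with hW
  have hh := hOf_pos hφ
  set C := Net.cyc W (hOf φ) hh with hC
  set l0 := W.perm (hOf φ) with hl0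
  have hlen : l0.length = W.nn (hOf φ) := Net.perm_length
  have hI : Cyc.Inv C C.V (ext l0) := Net.perm_inv hh
  obtain ⟨τ, hτ⟩ := hsat
  obtain ⟨on, hon⟩ := shift_of_sat hφ hd (fun c hc b i hin => by
    obtain ⟨h1, h2, h3⟩ := hb c hc
    rcases hin with h | h | h
    · have := congrArg Prod.snd h; simp only at this; omega
    · have := congrArg Prod.snd h; simp only at this; omega
    · have := congrArg Prod.snd h; simp only at this; omega) (τ := τ) hτ
  set w := 2 * W.s + 4 * W.q with hw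
  have h2h : 2 * hOf φ = 256 * w ^ 4 := by
    have : w = 2 * (swl φ).length + 16 * φ.length := by
      rw [hw]
      change 2 * (swl φ).length + 4 * (4 * φ.length) = _
      ring
    unfold hOf
    rw [this]; ring
  set T := 2 * W.s + 2 * W.q * (256 * w ^ 4) with hT
  have hcV : C.V.card = T := by rw [hC, Net.card_V hh, h2h]
  have hkV : kv (Net.cls W (hOf φ)) C.V = W.k0 (256 * w ^ 4) := by rw [hC, Net.kv_V hh, h2h]
  have hw1 : 1 ≤ w := by
    have := W.hq; omega
  have hw4 : 1 ≤ w ^ 4 := Nat.one_le_pow _ _ hw1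
  -- the numbers of sequences
  have hcount := card_seqs C (Net.cls W (hOf φ)) W.Valid (fun _ => False)
    (fun Q hQ h => (Net.NS_fine hh hQ).2 h)
    (fun Q hQ l hl hI' => ⟨fun _ => not_false, fun _ => (Net.NS_fine hh hQ).1 (hI'.ns hQ)⟩)
    T C.V l0 (Finset.Subset.refl _) hcV hlen hI
  have hcount' := card_seqs C (Net.cls W (hOf φ))
    (fun k => W.Valid k ∧ ¬ SatBy φ (fun i => !(Net.onP (W.oddS k) i)))
    (fun l => goodB φ l = true)
    (fun Q hQ h => (Net.NS_fine hh hQ).2 h.1)
    (fun Q hQ l hl hI' => by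
      rw [goodB_iff, satBy_congr hb (fun i hi => val_key hφ hQ hl hI' hi)]
      exact ⟨fun h => h.2, fun h => ⟨(Net.NS_fine hh hQ).1 (hI'.ns hQ), h⟩⟩)
    T C.V l0 (Finset.Subset.refl _) hcV hlen hI
  rw [hkV] at hcount hcount'
  have hlow := Net.lower hon (m := 256 * w ^ 4) (by omega) (by omega)
  have hposc := lt_of_lt_of_le (Nat.factorial_pos _) hlow
  -- the reversal distance
  have hge : ∀ rs, Sorts l0 rs → T ≤ rs.length := fun rs hrs => by
    have := length_ge (Finset.Subset.refl _) hlen hI hrs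
    rwa [hcV] at this
  have hne : (seqs (fun _ => False) (W.nn (hOf φ)) T l0).Nonempty := by
    rw [← Finset.card_pos, hcount]; exact hposc
  obtain ⟨rs0, hrs0⟩ := hne
  have hrs0' := (mem_seqs _ _ _ _ hlen _).1 hrs0
  have hdist : revDist l0 = T := by
    unfold revDist
    apply le_antisymm
    · exact Nat.sInf_le ⟨rs0, hrs0'.1, hrs0'.2.1⟩
    · obtain ⟨rs, h1, h2⟩ := Nat.sInf_mem (s := {k | ∃ rs, Sorts l0 rs ∧ rs.length = k})
        ⟨T, rs0, hrs0'.1, hrs0'.2.1⟩
      rw [← h2]; exact hge rs h1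
  have hOpt : Opt l0 = ↑(seqs (fun _ => False) (W.nn (hOf φ)) T l0) := by
    ext rs
    rw [Finset.mem_coe, mem_seqs _ _ _ _ hlen]
    unfold Opt
    rw [Set.mem_setOf_eq, hdist]
    exact ⟨fun h => ⟨h.1, h.2, fun _ _ _ => not_false⟩, fun h => ⟨h.1, h.2.1⟩⟩
  have hsub : {rs | ∀ k ≤ rs.length, goodB φ ((rs.take k).foldl reversal l0) = false} ∩ Opt l0 ⊆
      ↑(seqs (fun l => goodB φ l = true) (W.nn (hOf φ)) T l0) := by
    rintro rs ⟨h1, h2⟩
    rw [Finset.mem_coe, mem_seqs _ _ _ _ hlen]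
    refine ⟨h2.1, by rw [h2.2, hdist], fun k hk1 hk2 => ?_⟩
    have := h1 k (by rw [h2.2, hdist]; exact hk2)
    rw [this]; simp
  refine ⟨⟨by rw [hOpt]; exact Finset.finite_toSet _, ?_⟩, ?_⟩
  · rw [hOpt, Set.ncard_coe_finset, hcount]; exact hposc
  · by_cases hg : goodB φ l0 = true
    · have : {rs | ∀ k ≤ rs.length, goodB φ ((rs.take k).foldl reversal l0) = false} ∩ Opt l0 =
          ∅ := by
        rw [Set.eq_empty_iff_forall_notMem]
        rintro rs ⟨h1, _⟩
        have := h1 0 (by omega)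
        rw [List.take_zero, List.foldl_nil, hg] at this
        cases this
      rw [this, Set.ncard_empty]
      omega
    · have h0 : ¬ SatBy φ (fun i => !(Net.onP (W.oddS (W.k0 (256 * w ^ 4))) i)) := by
        rw [← hkV, ← satBy_congr hb (fun i hi => val_key hφ (Finset.Subset.refl _) hlen hI hi),
          ← goodB_iff]
        exact hg
      have hr := Net.ratio hon (good := fun k => SatBy φ (fun i => !(Net.onP (W.oddS k) i)))
        (fun k hk => sat_of_shift hφ hk) (w := w) (le_refl _) h0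
      have h1 : ({rs | ∀ k ≤ rs.length, goodB φ ((rs.take k).foldl reversal l0) = false} ∩
          Opt l0).ncard ≤ (seqs (fun l => goodB φ l = true) (W.nn (hOf φ)) T l0).card := by
        rw [← Set.ncard_coe_finset]
        exact Set.ncard_le_ncard hsub (Finset.finite_toSet _)
      rw [hcount'] at h1
      have h2 : (Opt l0).ncard = (seqs (fun _ => False) (W.nn (hOf φ)) T l0).card := by
        rw [hOpt, Set.ncard_coe_finset]
      rw [hcount] at h2
      rw [h2]
      exact (Nat.mul_le_mul_left 4 h1).trans hr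

end

end Pool.Agent.TH700
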