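import Mathlib

/-!
# Nonsingular principal submatrices of symmetric matrices over the field with two elements

`NS M P`: the principal submatrix of `M` on the finite set `P` is nonsingular.  The main theorem
`hp` (after Hannenhalli and Pevzner, in matrix form): if every nonempty union of components of
`M[P]` contains an index with diagonal entry `1`, then `P` can be ordered so that all leading
principal submatrices are nonsingular.
-/

namespace Pool.Agent.TH700

open Finset

/-- The principal submatrix on `P` is nonsingular. -/
def NS {ι : Type*} (M : ι → ι → ZMod 2) (P : Finset ι) : Prop :=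
  ∀ x : ι → ZMod 2, (∀ v ∈ P, ∑ u ∈ P, M v u * x u = 0) → ∀ v ∈ P, x v = 0

theorem f2_cases (a : ZMod 2) : a = 0 ∨ a = 1 := by
  revert a; decide

theorem f2_add_self (a : ZMod 2) : a + a = 0 := by
  revert a; decide

theorem f2_add_eq_zero {a b : ZMod 2} : a + b = 0 ↔ a = b := by
  revert a b; decide

theorem f2_ne_zero {a : ZMod 2} : a ≠ 0 ↔ a = 1 := by
  revert a; decide

theorem f2_ne_one {a : ZMod 2} : a ≠ 1 ↔ a = 0 := by
  revert a; decide

variable {ι : Type*} [DecidableEq ι]

omit [DecidableEq ι] in
theorem ns_empty (M : ι → ι → ZMod 2) : NS M ∅ := fun _ _ v hv => by simp at hv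

/-- The pivoted matrix. -/
def piv (M : ι → ι → ZMod 2) (v x y : ι) : ZMod 2 := M x y + M x v * M v y

theorem ns_piv {M : ι → ι → ZMod 2} {v : ι} {P : Finset ι} (hv : v ∉ P) (h1 : M v v = 1) :
    NS M (insert v P) ↔ NS (piv M v) P := by
  constructor
  · intro h x hx w hw
    have key := h (Function.update x v (∑ u ∈ P, M v u * x u)) ?_ w (Finset.mem_insert_of_mem hw)
    · rwa [Function.update_of_ne (ne_of_mem_of_not_mem hw hv)] at key
    · intro z hz
      rw [Finset.sum_insert hv, Function.update_self]
      have e1 : ∑ u ∈ P, M z u * Function.update x v (∑ u ∈ P, M v u * x u) u =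
          ∑ u ∈ P, M z u * x u := by
        refine Finset.sum_congr rfl fun u hu => ?_
        rw [Function.update_of_ne (ne_of_mem_of_not_mem hu hv)]
      rw [e1]
      rcases Finset.mem_insert.1 hz with rfl | hz
      · rw [h1, one_mul]
        exact f2_add_self _
      · have := hx z hz
        simp only [piv, add_mul, Finset.sum_add_distrib] at this
        rw [add_comm, Finset.mul_sum]
        simpa only [mul_assoc] using this
  · intro h x hx
    have hxv : x v = ∑ u ∈ P, M v u * x u := by
      have := hx v (Finset.mem_insert_self _ _)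
      rw [Finset.sum_insert hv, h1, one_mul] at this
      exact f2_add_eq_zero.1 this
    have hP : ∀ w ∈ P, x w = 0 := by
      refine h x fun w hw => ?_
      have := hx w (Finset.mem_insert_of_mem hw)
      rw [Finset.sum_insert hv, hxv] at this
      simp only [piv, add_mul, Finset.sum_add_distrib]
      rw [add_comm, Finset.mul_sum] at this
      simpa only [mul_assoc] using this
    intro w hw
    rcases Finset.mem_insert.1 hw with rfl | hw
    · rw [hxv]
      exact Finset.sum_eq_zero fun u hu => by rw [hP u hu, mul_zero]
    · exact hP w hw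

/-- **Hannenhalli–Pevzner, matrix form.** -/
theorem hp (M : ι → ι → ZMod 2) (hs : ∀ u v, M u v = M v u) (P : Finset ι) (hNS : NS M P)
    (hC : ∀ C ⊆ P, C.Nonempty → (∀ u ∈ C, ∀ w ∈ P, w ∉ C → M u w = 0) → ∃ v ∈ C, M v v = 1) :
    ∃ l : List ι, l.Nodup ∧ (∀ v, v ∈ l ↔ v ∈ P) ∧ ∀ k, NS M (l.take k).toFinset := by
  induction hn : P.card generalizing M P with
  | zero =>
    rw [Finset.card_eq_zero] at hn
    subst hn
    exact ⟨[], List.nodup_nil, by simp, fun k => by simpa using ns_empty M⟩
  | succ n ih =>
    have hPne : P.Nonempty := by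
      rw [← Finset.card_pos, hn]; exact Nat.succ_pos _
    let sc : ι → ι → ℤ := fun x u => if M x u = 1 then (if M u u = 1 then -1 else 1) else 0
    let L : Finset ι := P.filter (fun v => M v v = 1)
    have hLne : L.Nonempty := by
      obtain ⟨v, hv, hv1⟩ := hC P (Finset.Subset.refl _) hPne (fun u hu w hw hwn => absurd hw hwn)
      exact ⟨v, Finset.mem_filter.2 ⟨hv, hv1⟩⟩
    obtain ⟨v, hvL, hmax⟩ := Finset.exists_max_image L (fun v => ∑ u ∈ P, sc v u) hLne
    obtain ⟨hvP, hv1⟩ := Finset.mem_filter.1 hvL
    have hvP' : v ∉ P.erase v := Finset.notMem_erase _ _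
    have hins : insert v (P.erase v) = P := Finset.insert_erase hvP
    have hNS' : NS (piv M v) (P.erase v) := by
      rw [← ns_piv hvP' hv1, hins]; exact hNS
    have hs' : ∀ a b, piv M v a b = piv M v b a := by
      intro a b
      simp only [piv]
      rw [hs a b, hs a v, hs v b, mul_comm]
    have hC' : ∀ C ⊆ P.erase v, C.Nonempty →
        (∀ u ∈ C, ∀ w ∈ P.erase v, w ∉ C → piv M v u w = 0) → ∃ z ∈ C, piv M v z z = 1 := by
      intro C hCP hCne hcl
      by_contra hno
      push Not at hno
      have hzero : ∀ z ∈ C, piv M v z z = 0 := fun z hz => f2_ne_one.1 (hno z hz)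
      by_cases hall : ∀ w ∈ C, M w v = 0
      · obtain ⟨z, hz, hz1⟩ := hC C (hCP.trans (Finset.erase_subset _ _)) hCne (by
          intro u hu w hw hwC
          by_cases hwv : w = v
          · rw [hwv]; exact hall u hu
          · have := hcl u hu w (Finset.mem_erase.2 ⟨hwv, hw⟩) hwC
            simpa [piv, hall u hu] using this)
        have := hzero z hz
        simp [piv, hall z hz, hz1] at this
      · push Not at hall
        obtain ⟨w, hwC, hwv⟩ := hall
        rw [f2_ne_zero] at hwv
        have hvw : M v w = 1 := by rw [hs]; exact hwv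
        have hww : M w w = 1 := by
          have := hzero w hwC
          simp only [piv, hwv, hvw, mul_one] at this
          exact f2_add_eq_zero.1 this
        have hwE := hCP hwC
        have hwP : w ∈ P := Finset.mem_of_mem_erase hwE
        have hwnv : w ≠ v := Finset.ne_of_mem_erase hwE
        have hle : ∀ u ∈ P, sc v u ≤ sc w u := by
          intro u hu
          simp only [sc]
          rcases f2_cases (M u u) with huu | huu
          · -- unlooped
            simp only [huu]
            by_cases hvu : M v u = 1
            · have hunv : u ≠ v := by rintro rfl; rw [huu] at hv1; simp at hv1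
              have huC : u ∉ C := by
                intro huC
                have := hzero u huC
                simp [piv, huu, hvu, hs u v] at this
              have := hcl w hwC u (Finset.mem_erase.2 ⟨hunv, hu⟩) huC
              simp only [piv, hwv, hvu, mul_one] at this
              rw [f2_add_eq_zero] at this
              simp [hvu, this]
            · by_cases hwu : M w u = 1 <;> simp [hvu, hwu]
          · simp only [huu, if_true]
            by_cases hwu : M w u = 1
            · have hvu : M v u = 1 := by
                by_contra hvu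
                replace hvu := f2_ne_one.1 hvu
                have hunv : u ≠ v := by rintro rfl; rw [hvu] at hv1; simp at hv1
                have huC : u ∉ C := by
                  intro huC
                  have := hzero u huC
                  simp [piv, huu, hvu, hs u v] at this
                have := hcl w hwC u (Finset.mem_erase.2 ⟨hunv, hu⟩) huC
                simp [piv, hvu, hwu] at this
              simp [hwu, hvu]
            · by_cases hvu : M v u = 1 <;> simp [hvu, hwu]
        have hsum : ∑ u ∈ P, sc v u = ∑ u ∈ P, sc w u :=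
          le_antisymm (Finset.sum_le_sum hle) (hmax w (Finset.mem_filter.2 ⟨hwP, hww⟩))
        have heq := (Finset.sum_eq_sum_iff_of_le hle).1 hsum
        have hrow : ∀ u ∈ P, M v u = M w u := by
          intro u hu
          have := heq u hu
          simp only [sc] at this
          rcases f2_cases (M v u) with h1 | h1 <;> rcases f2_cases (M w u) with h2 | h2 <;>
            rcases f2_cases (M u u) with h3 | h3 <;> simp [h1, h2, h3] at this ⊢
        have := hNS (fun z => if z = v ∨ z = w then 1 else 0) (by
          intro z hz
          have e1 : ∀ u ∈ P, M z u * (if u = v ∨ u = w then (1 : ZMod 2) else 0) =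
              (if u = v then M z v else 0) + (if u = w then M z w else 0) := by
            intro u _
            by_cases h1 : u = v
            · subst h1
              simp [Ne.symm hwnv]
            · by_cases h2 : u = w
              · subst h2; simp [h1]
              · simp [h1, h2]
          rw [Finset.sum_congr rfl e1, Finset.sum_add_distrib, Finset.sum_ite_eq' P v,
            Finset.sum_ite_eq' P w, if_pos hvP, if_pos hwP, hs z v, hs z w, hrow z hz]
          exact f2_add_self _) v hvP
        simp at this
    obtain ⟨l, hnd, hmem, hpre⟩ := ih (piv M v) hs' (P.erase v) hNS' hC' (by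
      rw [Finset.card_erase_of_mem hvP, hn]; rfl)
    have hvl : v ∉ l := fun h => hvP' ((hmem v).1 h)
    refine ⟨v :: l, List.nodup_cons.2 ⟨hvl, hnd⟩, fun z => ?_, fun k => ?_⟩
    · rw [List.mem_cons, hmem, Finset.mem_erase]
      constructor
      · rintro (rfl | h)
        · exact hvP
        · exact h.2
      · intro h
        by_cases hz : z = v
        · exact Or.inl hz
        · exact Or.inr ⟨hz, h⟩
    · cases k with
      | zero => simpa using ns_empty M
      | succ k =>
        rw [List.take_succ_cons, List.toFinset_cons, ns_piv _ hv1]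
        · exact hpre k
        · intro h
          exact hvl (List.mem_of_mem_take (List.mem_toFinset.1 h))

/-- Twin extension: the indices are partitioned in classes; only the parities of the classes
matter. -/
theorem ns_twin {κ : Type*} [DecidableEq κ] (M : ι → ι → ZMod 2) (M0 : κ → κ → ZMod 2)
    (cls : ι → κ) (Q : Finset ι)
    (hd : ∀ u ∈ Q, ∀ v ∈ Q, cls u ≠ cls v → M u v = M0 (cls u) (cls v))
    (he : ∀ u ∈ Q, M u u = M0 (cls u) (cls u))
    (hc : ∀ u ∈ Q, ∀ v ∈ Q, u ≠ v → cls u = cls v → M u v = 1 + M0 (cls u) (cls u)) :
    NS M Q ↔ NS M0 ((Q.image cls).filter (fun c => (Q.filter (fun u => cls u = c)).card % 2 = 1)) := by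
  classical
  set O := (Q.image cls).filter (fun c => (Q.filter (fun u => cls u = c)).card % 2 = 1) with hO
  -- row sums in terms of class sums
  have hrow : ∀ x : ι → ZMod 2, ∀ v ∈ Q, ∑ u ∈ Q, M v u * x u =
      ∑ c ∈ Q.image cls, M0 (cls v) c * (∑ u ∈ Q.filter (fun u => cls u = c), x u) +
        (∑ u ∈ Q.filter (fun u => cls u = cls v), x u) + x v := by
    intro x v hv
    have h1 : ∀ u ∈ Q, M v u * x u = M0 (cls v) (cls u) * x u +
        (if cls u = cls v then x u else 0) + (if u = v then x u else 0) := by
      intro u hu
      by_cases huv : u = v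
      · subst huv
        rw [he u hv]
        simp only [if_true]
        rw [add_assoc, f2_add_self, add_zero]
      · by_cases hcl : cls u = cls v
        · rw [hc v hv u hu (Ne.symm huv) hcl.symm, if_pos hcl, if_neg huv, hcl]
          ring
        · rw [hd v hv u hu (Ne.symm hcl), if_neg hcl, if_neg huv]
          ring
    rw [Finset.sum_congr rfl h1, Finset.sum_add_distrib, Finset.sum_add_distrib,
      Finset.sum_ite_eq' Q v, if_pos hv, ← Finset.sum_filter]
    congr 2
    rw [← Finset.sum_fiberwise_of_maps_to (g := cls) (t := Q.image cls)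
      (fun u hu => Finset.mem_image_of_mem cls hu)]
    refine Finset.sum_congr rfl fun c _ => ?_
    rw [Finset.mul_sum]
    refine Finset.sum_congr rfl fun u hu => ?_
    rw [(Finset.mem_filter.1 hu).2]
  constructor
  · intro h X hX c hcO
    -- build x
    let Xe : κ → ZMod 2 := fun c => if c ∈ O then X c else 0
    let η : κ → ZMod 2 := fun c => ∑ d ∈ Q.image cls, M0 c d * Xe d + Xe c
    have hη : ∀ c ∈ O, η c = X c := by
      intro c hc
      have h1 := hX c hc
      have h2 : ∑ d ∈ Q.image cls, M0 c d * Xe d = ∑ d ∈ O, M0 c d * X d := by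
        rw [hO, Finset.sum_filter]
        refine Finset.sum_congr rfl fun d hd => ?_
        simp only [Xe]
        by_cases hdO : d ∈ O
        · rw [if_pos hdO, if_pos]
          exact (Finset.mem_filter.1 hdO).2
        · rw [if_neg hdO, if_neg, mul_zero]
          intro h3
          exact hdO (Finset.mem_filter.2 ⟨hd, h3⟩)
      simp only [η]
      rw [h2, h1, zero_add]
      simp only [Xe, if_pos hc]
    have hsum : ∀ c ∈ Q.image cls, ∑ u ∈ Q.filter (fun u => cls u = c), η (cls u) = Xe c := by
      intro c hc
      have : ∑ u ∈ Q.filter (fun u => cls u = c), η (cls u) =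
          ∑ u ∈ Q.filter (fun u => cls u = c), η c :=
        Finset.sum_congr rfl fun u hu => by rw [(Finset.mem_filter.1 hu).2]
      rw [this, Finset.sum_const, nsmul_eq_mul]
      by_cases hcO : c ∈ O
      · have hodd := (Finset.mem_filter.1 hcO).2
        have : ((Q.filter (fun u => cls u = c)).card : ZMod 2) = 1 := by
          rw [← ZMod.natCast_mod, hodd]; rfl
        rw [this, one_mul, hη c hcO]
        simp only [Xe, if_pos hcO]
      · have hev : (Q.filter (fun u => cls u = c)).card % 2 = 0 := by
          have : ¬ (Q.filter (fun u => cls u = c)).card % 2 = 1 := fun h3 =>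
            hcO (Finset.mem_filter.2 ⟨hc, h3⟩)
          omega
        have : ((Q.filter (fun u => cls u = c)).card : ZMod 2) = 0 := by
          rw [← ZMod.natCast_mod, hev]; rfl
        rw [this, zero_mul]
        simp only [Xe, if_neg hcO]
    have hx := h (fun u => η (cls u)) (by
      intro v hv
      rw [hrow _ v hv]
      have e1 : ∑ c ∈ Q.image cls, M0 (cls v) c *
          (∑ u ∈ Q.filter (fun u => cls u = c), η (cls u)) =
          ∑ c ∈ Q.image cls, M0 (cls v) c * Xe c :=
        Finset.sum_congr rfl fun c hc => by rw [hsum c hc]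
      rw [e1, hsum (cls v) (Finset.mem_image_of_mem _ hv)]
      show η (cls v) + η (cls v) = 0
      exact f2_add_self _)
    obtain ⟨u, hu, hcu⟩ := Finset.mem_image.1 (Finset.mem_filter.1 hcO).1
    have := hx u hu
    simp only [hcu] at this
    rw [← hη c hcO]; exact this
  · intro h x hx
    let X : κ → ZMod 2 := fun c => ∑ u ∈ Q.filter (fun u => cls u = c), x u
    let η : κ → ZMod 2 := fun c => ∑ d ∈ Q.image cls, M0 c d * X d + X c
    have hxη : ∀ v ∈ Q, x v = η (cls v) := by
      intro v hv
      have := hx v hv
      rw [hrow x v hv, f2_add_eq_zero] at this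
      exact this.symm
    have hX : ∀ c, X c = ((Q.filter (fun u => cls u = c)).card : ZMod 2) * η c := by
      intro c
      have : X c = ∑ u ∈ Q.filter (fun u => cls u = c), η c :=
        Finset.sum_congr rfl fun u hu => by
          obtain ⟨h1, h2⟩ := Finset.mem_filter.1 hu
          rw [hxη u h1, h2]
      rw [this, Finset.sum_const, nsmul_eq_mul]
    have hXe : ∀ c ∈ Q.image cls, c ∉ O → X c = 0 := by
      intro c hc hcO
      have hev : (Q.filter (fun u => cls u = c)).card % 2 = 0 := by
        have : ¬ (Q.filter (fun u => cls u = c)).card % 2 = 1 := fun h3 =>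
          hcO (Finset.mem_filter.2 ⟨hc, h3⟩)
        omega
      rw [hX c, ← ZMod.natCast_mod, hev]
      simp
    have hXo : ∀ c ∈ O, X c = η c := by
      intro c hcO
      have hodd := (Finset.mem_filter.1 hcO).2
      rw [hX c, ← ZMod.natCast_mod, hodd]
      simp
    have hXO : ∀ c ∈ O, ∑ d ∈ O, M0 c d * X d = 0 := by
      intro c hcO
      have h1 := hXo c hcO
      have h2 : ∑ d ∈ Q.image cls, M0 c d * X d = ∑ d ∈ O, M0 c d * X d := by
        symm
        refine Finset.sum_subset (Finset.filter_subset _ _) fun d hd hdO => ?_
        rw [hXe d hd hdO, mul_zero]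
      have h3 : X c = ∑ d ∈ O, M0 c d * X d + X c := by
        rw [← h2]; exact h1
      have h4 : X c + X c = ∑ d ∈ O, M0 c d * X d + (X c + X c) := by
        rw [← add_assoc, ← h3]
      rw [f2_add_self, add_zero] at h4
      exact h4.symm
    have hX0 := h X hXO
    have hXall : ∀ c ∈ Q.image cls, X c = 0 := by
      intro c hc
      by_cases hcO : c ∈ O
      · exact hX0 c hcO
      · exact hXe c hc hcO
    intro v hv
    rw [hxη v hv]
    simp only [η]
    rw [hXall _ (Finset.mem_image_of_mem _ hv), add_zero]
    exact Finset.sum_eq_zero fun d hd => by rw [hXall d hd, mul_zero]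

section Dual

variable [Fintype ι]

/-- The row sums over all indices. -/
def rowS (M : ι → ι → ZMod 2) (x : ι → ZMod 2) (v : ι) : ZMod 2 := ∑ u, M v u * x u

omit [DecidableEq ι] in
theorem rowS_add (M : ι → ι → ZMod 2) (x y : ι → ZMod 2) (v : ι) :
    rowS M (fun u => x u + y u) v = rowS M x v + rowS M y v := by
  simp only [rowS, mul_add, Finset.sum_add_distrib]

theorem ns_iff {M : ι → ι → ZMod 2} {Q : Finset ι} :
    NS M Q ↔ ∀ x : ι → ZMod 2, (∀ v, v ∉ Q → x v = 0) → (∀ v ∈ Q, rowS M x v = 0) →
      ∀ v, x v = 0 := by
  constructor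
  · intro h x h0 h1 v
    by_cases hv : v ∈ Q
    · refine h x (fun w hw => ?_) v hv
      rw [← h1 w hw, rowS]
      exact Finset.sum_subset (Finset.subset_univ _) fun u _ hu => by rw [h0 u hu, mul_zero]
    · exact h0 v hv
  · intro h x hx v hv
    have := h (fun u => if u ∈ Q then x u else 0) (fun w hw => if_neg hw) (by
      intro w hw
      refine Eq.trans ?_ (hx w hw)
      rw [rowS, ← Finset.sum_subset (Finset.subset_univ Q)]
      · exact Finset.sum_congr rfl fun u hu => by rw [if_pos hu]
      · intro u _ hu
        rw [if_neg hu, mul_zero]) v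
    rwa [if_pos hv] at this

theorem exists_dual {M : ι → ι → ZMod 2} {Q : Finset ι} (hNS : NS M Q) (y : ι → ZMod 2) :
    ∃ x : ι → ZMod 2, (∀ v, v ∉ Q → x v = y v) ∧ (∀ v ∈ Q, rowS M x v = y v) := by
  let Φ : (ι → ZMod 2) → (ι → ZMod 2) := fun x v => if v ∈ Q then rowS M x v else x v
  have hinj : Function.Injective Φ := by
    intro x x' hxx
    have hd := (ns_iff.1 hNS) (fun u => x u + x' u) (by
      intro v hv
      have := congrFun hxx v
      simp only [Φ, if_neg hv] at this
      rw [this]; exact f2_add_self _) (by
      intro v hv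
      have := congrFun hxx v
      simp only [Φ, if_pos hv] at this
      rw [rowS_add, this]; exact f2_add_self _)
    funext v
    exact f2_add_eq_zero.1 (hd v)
  obtain ⟨x, hx⟩ := (Finite.injective_iff_surjective.1 hinj) y
  refine ⟨x, fun v hv => ?_, fun v hv => ?_⟩
  · have := congrFun hx v
    simpa only [Φ, if_neg hv] using this
  · have := congrFun hx v
    simpa only [Φ, if_pos hv] using this

omit [DecidableEq ι] in
theorem bilin_symm {M : ι → ι → ZMod 2} (hs : ∀ u v, M u v = M v u) (x y : ι → ZMod 2) :
    ∑ v, (x v * rowS M y v + rowS M x v * y v) = 0 := by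
  rw [Finset.sum_add_distrib, f2_add_eq_zero]
  simp only [rowS, Finset.mul_sum, Finset.sum_mul]
  rw [Finset.sum_comm]
  refine Finset.sum_congr rfl fun u _ => Finset.sum_congr rfl fun v _ => ?_
  rw [hs v u]; ring

/-- If all single and double toggles of indices of `Fa` keep the set nonsingular, there are dual
vectors. -/
theorem toggles {M : ι → ι → ZMod 2} (hs : ∀ u v, M u v = M v u) {Q Fa : Finset ι}
    (hNS : NS M Q) (h1 : ∀ i ∈ Fa, NS M (symmDiff Q {i}))
    (h2 : ∀ i ∈ Fa, ∀ j ∈ Fa, i ≠ j → NS M (symmDiff (symmDiff Q {i}) {j})) (i : ι)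
    (hi : i ∈ Fa) :
    ∃ x : ι → ZMod 2, (∀ v, v ∉ Q → v ∉ Fa → x v = 0) ∧
      (∀ v ∈ Q, v ∉ Fa → rowS M x v = 0) ∧
      (∀ j ∈ Fa, x j = (if j = i then 1 else 0) ∧ rowS M x j = (if j = i then 1 else 0)) := by
  have hdual : ∀ i : ι, ∃ x : ι → ZMod 2, (∀ v, v ∉ Q → x v = if v = i then 1 else 0) ∧
      (∀ v ∈ Q, rowS M x v = if v = i then 1 else 0) := fun i => exists_dual hNS _
  choose X hX1 hX2 using hdual
  -- toggled quantity
  let tq : ι → ι → ZMod 2 := fun i v => if v ∈ Q then X i v else rowS M (X i) v
  have hdiag : ∀ i ∈ Fa, tq i i = 1 := by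
    intro i hi
    by_contra hne
    replace hne := f2_ne_one.1 hne
    have hz := (ns_iff.1 (h1 i hi)) (X i) (by
      intro v hv
      rw [Finset.mem_symmDiff] at hv
      push Not at hv
      by_cases hvi : v = i
      · subst hvi
        have hvQ : v ∈ Q := hv.2 (Finset.mem_singleton_self _)
        simp only [tq, if_pos hvQ] at hne
        exact hne
      · have hvQ : v ∉ Q := fun h => hvi (Finset.mem_singleton.1 (hv.1 h))
        rw [hX1 i v hvQ, if_neg hvi]) (by
      intro v hv
      rw [Finset.mem_symmDiff] at hv
      rcases hv with ⟨hvQ, hvi⟩ | ⟨hvi, hvQ⟩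
      · rw [hX2 i v hvQ, if_neg (fun h => hvi (Finset.mem_singleton.2 h))]
      · rw [Finset.mem_singleton] at hvi
        subst hvi
        simp only [tq, if_neg hvQ] at hne
        exact hne)
    by_cases hiQ : i ∈ Q
    · have := hX2 i i hiQ
      simp [rowS, hz] at this
    · have := hX1 i i hiQ
      simp [hz] at this
  have hsym : ∀ i j : ι, i ≠ j → tq i j = tq j i := by
    intro i j hij
    have hb := bilin_symm hs (X i) (X j)
    have hterm : ∀ v : ι, X i v * rowS M (X j) v + rowS M (X i) v * X j v =
        (if v = i then tq j i else 0) + (if v = j then tq i j else 0) := by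
      intro v
      by_cases hvQ : v ∈ Q
      · rw [hX2 i v hvQ, hX2 j v hvQ]
        by_cases h1 : v = i
        · subst h1
          have : ¬ v = j := hij
          simp [this, tq, hvQ]
        · by_cases h2 : v = j
          · subst h2
            simp [h1, tq, hvQ]
          · simp [h1, h2]
      · rw [hX1 i v hvQ, hX1 j v hvQ]
        by_cases h1 : v = i
        · subst h1
          have : ¬ v = j := hij
          simp [this, tq, hvQ]
        · by_cases h2 : v = j
          · subst h2
            simp [h1, tq, hvQ]
          · simp [h1, h2]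
    simp only [hterm, Finset.sum_add_distrib, Finset.sum_ite_eq', Finset.mem_univ, if_true] at hb
    exact (f2_add_eq_zero.1 hb).symm
  have hoff : ∀ i ∈ Fa, ∀ j ∈ Fa, i ≠ j → tq i j = 0 := by
    intro i hi j hj hij
    by_contra hne
    replace hne := f2_ne_zero.1 hne
    have hne' : tq j i = 1 := by rw [← hsym i j hij]; exact hne
    have hdi := hdiag i hi
    have hdj := hdiag j hj
    have hz := (ns_iff.1 (h2 i hi j hj hij)) (fun u => X i u + X j u) (by
      intro v hv
      simp only [Finset.mem_symmDiff, Finset.mem_singleton] at hv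
      by_cases hvi : v = i
      · subst hvi
        have hvQ : v ∈ Q := by
          by_contra h
          exact hv (Or.inl ⟨Or.inr ⟨rfl, h⟩, hij⟩)
        simp only [tq, if_pos hvQ] at hdi hne'
        rw [hdi, hne']; exact f2_add_self _
      · by_cases hvj : v = j
        · subst hvj
          have hvQ : v ∈ Q := by
            by_contra h
            apply hv
            right
            refine ⟨rfl, ?_⟩
            rintro (⟨h1, _⟩ | ⟨h1, _⟩)
            · exact h h1
            · exact hvi h1
          simp only [tq, if_pos hvQ] at hdj hne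
          rw [hdj, hne]; exact f2_add_self _
        · have hvQ : v ∉ Q := by
            intro h
            exact hv (Or.inl ⟨Or.inl ⟨h, hvi⟩, hvj⟩)
          rw [hX1 i v hvQ, hX1 j v hvQ, if_neg hvi, if_neg hvj]; rfl) (by
      intro v hv
      rw [rowS_add]
      simp only [Finset.mem_symmDiff, Finset.mem_singleton] at hv
      by_cases hvi : v = i
      · subst hvi
        have hvQ : v ∉ Q := by
          intro h
          rcases hv with ⟨h1 | h1, h2⟩ | ⟨h1, h2⟩
          · exact h1.2 rfl
          · exact h1.2 h
          · exact hij h1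
        simp only [tq, if_neg hvQ] at hdi hne'
        rw [hdi, hne']; exact f2_add_self _
      · by_cases hvj : v = j
        · subst hvj
          have hvQ : v ∉ Q := by
            intro h
            rcases hv with ⟨h1, h2⟩ | ⟨h1, h2⟩
            · exact h2 rfl
            · exact h2 (Or.inl ⟨h, hvi⟩)
          simp only [tq, if_neg hvQ] at hdj hne
          rw [hdj, hne]; exact f2_add_self _
        · have hvQ : v ∈ Q := by
            rcases hv with ⟨h1 | h1, h2⟩ | ⟨h1, h2⟩
            · exact h1.1
            · exact absurd h1.1 hvi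
            · exact absurd h1 hvj
          rw [hX2 i v hvQ, hX2 j v hvQ, if_neg hvi, if_neg hvj]; rfl)
    by_cases hiQ : i ∈ Q
    · have h3 := rowS_add M (X i) (X j) i
      rw [hX2 i i hiQ, hX2 j i hiQ, if_pos rfl, if_neg hij] at h3
      simp [rowS, hz] at h3
    · have h3 := hz i
      rw [hX1 i i hiQ, hX1 j i hiQ, if_pos rfl, if_neg hij] at h3
      simp at h3
  refine ⟨X i, fun v hv hvF => ?_, fun v hv hvF => ?_, fun j hj => ?_⟩
  · rw [hX1 i v hv, if_neg]
    rintro rfl; exact hvF hi
  · rw [hX2 i v hv, if_neg]
    rintro rfl; exact hvF hi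
  · have ht : tq i j = if j = i then 1 else 0 := by
      by_cases hji : j = i
      · subst hji; rw [if_pos rfl]; exact hdiag j hj
      · rw [if_neg hji]; exact hoff i hi j hj (Ne.symm hji)
    by_cases hjQ : j ∈ Q
    · have h4 := hX2 i j hjQ
      simp only [tq, if_pos hjQ] at ht
      exact ⟨ht, h4⟩
    · have h4 := hX1 i j hjQ
      simp only [tq, if_neg hjQ] at ht
      exact ⟨h4, ht⟩

end Dual

end Pool.Agent.TH700
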