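import Pool.Agent.TH700.Coarse
import Pool.Agent.NPC.Sat

/-!
# A switching network for 3SAT
-/

namespace Pool.Agent.TH700

open Finset Pool.Agent.NPC

/-- Run a list of switches; the switch with number `off + k` is on iff `on (off + k)`. -/
def runO (on : ℕ → Bool) : ℕ → List (ℕ × ℕ) → ℕ → ℕ
  | _, [], w => w
  | off, ab :: l, w => runO on (off + 1) l (stp ab (on off) w)

theorem runO_append (on : ℕ → Bool) : ∀ (l l' : List (ℕ × ℕ)) (off w : ℕ),
    runO on off (l ++ l') w = runO on (off + l.length) l' (runO on off l w)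
  | [], l', off, w => by simp [runO]
  | ab :: l, l', off, w => by
    rw [List.cons_append, runO, runO_append on l l' (off + 1), List.length_cons, runO]
    congr 1; omega

theorem stp_invol (ab : ℕ × ℕ) (b : Bool) (j : ℕ) : stp ab b (stp ab b j) = j := by
  unfold stp
  cases b
  · simp
  · simp only [if_true]
    split_ifs <;> omega

theorem stp_inj (ab : ℕ × ℕ) (b : Bool) : Function.Injective (stp ab b) := by
  intro x y h
  have := congrArg (stp ab b) h
  rwa [stp_invol, stp_invol] at this

theorem runO_inj (on : ℕ → Bool) : ∀ (l : List (ℕ × ℕ)) (off : ℕ),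
    Function.Injective (runO on off l)
  | [], _ => fun _ _ h => h
  | ab :: l, off => fun _ _ h => stp_inj ab (on off) (runO_inj on l (off + 1) h)

theorem runO_congr {on on' : ℕ → Bool} : ∀ (l : List (ℕ × ℕ)) (off w : ℕ),
    (∀ k, off ≤ k → k < off + l.length → on k = on' k) → runO on off l w = runO on' off l w
  | [], _, _, _ => rfl
  | ab :: l, off, w, h => by
    rw [runO, runO, h off (le_refl _) (by simp), runO_congr l (off + 1) _ (fun k h1 h2 =>
      h k (by omega) (by simp only [List.length_cons]; omega))]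

/-- A wire which is not touched. -/
theorem runO_fix (on : ℕ → Bool) {w : ℕ} : ∀ (l : List (ℕ × ℕ)) (off : ℕ),
    (∀ ab ∈ l, w ≠ ab.1 ∧ w ≠ ab.2) → runO on off l w = w
  | [], _, _ => rfl
  | ab :: l, off, h => by
    have h1 := h ab (List.mem_cons_self ..)
    rw [runO]
    have : stp ab (on off) w = w := by
      unfold stp
      split_ifs <;> first | rfl | omega
    rw [this]
    exact runO_fix on l (off + 1) fun ab' h' => h ab' (List.mem_cons_of_mem _ h')

/-- The possible actions of a list of switches. -/
def Real (l : List (ℕ × ℕ)) (f : ℕ → ℕ) : Prop := ∀ off, ∃ on, ∀ w, runO on off l w = f w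

theorem Real.append {l l' : List (ℕ × ℕ)} {f g : ℕ → ℕ} (h : Real l f) (h' : Real l' g) :
    Real (l ++ l') (fun w => g (f w)) := by
  intro off
  obtain ⟨on, hon⟩ := h off
  obtain ⟨on', hon'⟩ := h' (off + l.length)
  refine ⟨fun k => if k < off + l.length then on k else on' k, fun w => ?_⟩
  rw [runO_append, runO_congr (on' := on) l off w (fun k _ h2 => if_pos h2), hon,
    runO_congr (on' := on') l' _ _ (fun k h1 _ => if_neg (by omega)), hon']

theorem Real.nil : Real [] (fun w => w) := fun _ => ⟨fun _ => false, fun _ => rfl⟩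

theorem Real.off (l : List (ℕ × ℕ)) : Real l (fun w => w) := by
  induction l with
  | nil => exact Real.nil
  | cons ab l ih =>
    have : Real [ab] (fun w => w) := fun off => ⟨fun _ => false, fun w => by
      simp [runO, stp]⟩
    exact this.append ih

theorem Real.single (ab : ℕ × ℕ) (b : Bool) : Real [ab] (stp ab b) := fun off =>
  ⟨fun _ => b, fun w => by simp [runO]⟩

theorem Real.mem {l : List (ℕ × ℕ)} {ab : ℕ × ℕ} (h : ab ∈ l) (b : Bool) :
    Real l (stp ab b) := by
  obtain ⟨l1, l2, rfl⟩ := List.append_of_mem h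
  have := (Real.off l1).append ((Real.single ab b).append (Real.off l2))
  simpa using this

/-! ### The switches -/

/-- A clause with three literals. -/
abbrev Cl : Type := Lit ℕ × Lit ℕ × Lit ℕ

/-- `l` is one of the literals of `c`. -/
def InC (l : Lit ℕ) (c : Cl) : Prop := l = c.1 ∨ l = c.2.1 ∨ l = c.2.2

instance (l : Lit ℕ) (c : Cl) : Decidable (InC l c) := by unfold InC; infer_instance

/-- The assignment `a` satisfies `φ`. -/
def SatBy (φ : List Cl) (a : ℕ → Bool) : Prop :=
  ∀ c ∈ φ, a c.1.2 = c.1.1 ∨ a c.2.1.2 = c.2.1.1 ∨ a c.2.2.2 = c.2.2.1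

theorem satBy_iff (c : Cl) (a : ℕ → Bool) :
    (a c.1.2 = c.1.1 ∨ a c.2.1.2 = c.2.1.1 ∨ a c.2.2.2 = c.2.2.1) ↔
      ∃ b i, InC (b, i) c ∧ a i = b := by
  constructor
  · rintro (h | h | h)
    · exact ⟨c.1.1, c.1.2, Or.inl rfl, h⟩
    · exact ⟨c.2.1.1, c.2.1.2, Or.inr (Or.inl rfl), h⟩
    · exact ⟨c.2.2.1, c.2.2.2, Or.inr (Or.inr rfl), h⟩
  · rintro ⟨b, i, h | h | h, h'⟩
    · left; rw [← h]; exact h'
    · right; left; rw [← h]; exact h'
    · right; right; rw [← h]; exact h'

/-- The pairs of lanes of the variables. -/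
def st1 (n : ℕ) : List (ℕ × ℕ) := (List.range n).map (fun i => (2 * i, 2 * i + 1))

/-- The lane of a literal. -/
def lane (b : Bool) (i : ℕ) : ℕ := if b then 2 * i + 1 else 2 * i

/-- The two switches of a literal of the clause `j`; there are `n` variables. -/
def two (n : ℕ) (b : Bool) (i j : ℕ) : List (ℕ × ℕ) :=
  [(lane b i, 2 * n + 2 * j), (lane b i, 2 * n + 2 * j + 1)]

/-- The switches of the variable `i` in the clause `j`. -/
def slot (n : ℕ) (c : Cl) (j i : ℕ) : List (ℕ × ℕ) :=
  if InC (true, i) c then two n true i j else if InC (false, i) c then two n false i j else []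

/-- The switches of the clause `j`. -/
def blk (n : ℕ) (c : Cl) (j : ℕ) : List (ℕ × ℕ) := (List.range n).flatMap (slot n c j)

/-- The switches of the clauses. -/
def st2 (n : ℕ) : ℕ → List Cl → List (ℕ × ℕ)
  | _, [] => []
  | j, c :: ψ => blk n c j ++ st2 n (j + 1) ψ

/-- The last stage: any permutation of the even wires. -/
def sym : ℕ → List (ℕ × ℕ)
  | 0 => []
  | z + 1 => (List.range z).map (fun i => (2 * i, 2 * z)) ++ sym z

/-- The list of the switches. -/
def swl (φ : List Cl) : List (ℕ × ℕ) :=
  st1 (3 * φ.length) ++ (st2 (3 * φ.length) 0 φ ++ (st1 (3 * φ.length) ++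
    sym (4 * φ.length + 1)))

/-! ### Bounds -/

theorem mem_st1 {n : ℕ} {ab : ℕ × ℕ} (h : ab ∈ st1 n) : ∃ i < n, ab = (2 * i, 2 * i + 1) := by
  unfold st1 at h
  obtain ⟨i, hi, rfl⟩ := List.mem_map.1 h
  exact ⟨i, List.mem_range.1 hi, rfl⟩

theorem mem_slot {n : ℕ} {c : Cl} {j i : ℕ} {ab : ℕ × ℕ} (h : ab ∈ slot n c j i) :
    ∃ b, InC (b, i) c ∧ (ab = (lane b i, 2 * n + 2 * j) ∨ ab = (lane b i, 2 * n + 2 * j + 1)) := by
  unfold slot at h
  split_ifs at h with h1 h2
  · exact ⟨true, h1, by simpa [two] using h⟩
  · exact ⟨false, h2, by simpa [two] using h⟩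
  · simp at h

theorem lane_bounds (b : Bool) (i : ℕ) : 2 * i ≤ lane b i ∧ lane b i ≤ 2 * i + 1 := by
  unfold lane; split_ifs <;> omega

theorem mem_blk {n : ℕ} {c : Cl} {j : ℕ} {ab : ℕ × ℕ} (h : ab ∈ blk n c j) :
    ∃ b, ∃ i < n, InC (b, i) c ∧
      (ab = (lane b i, 2 * n + 2 * j) ∨ ab = (lane b i, 2 * n + 2 * j + 1)) := by
  unfold blk at h
  obtain ⟨i, hi, h⟩ := List.mem_flatMap.1 h
  obtain ⟨b, hb, h⟩ := mem_slot h
  exact ⟨b, i, List.mem_range.1 hi, hb, h⟩

theorem mem_st2 {n : ℕ} : ∀ {ψ : List Cl} {j : ℕ} {ab : ℕ × ℕ}, ab ∈ st2 n j ψ →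
    ∃ b, ∃ i < n, ∃ j', j ≤ j' ∧ j' < j + ψ.length ∧
      (ab = (lane b i, 2 * n + 2 * j') ∨ ab = (lane b i, 2 * n + 2 * j' + 1))
  | [], j, ab, h => by simp [st2] at h
  | c :: ψ, j, ab, h => by
    rw [st2, List.mem_append] at h
    rcases h with h | h
    · obtain ⟨b, i, hi, _, h⟩ := mem_blk h
      exact ⟨b, i, hi, j, le_refl _, by simp, h⟩
    · obtain ⟨b, i, hi, j', h1, h2, h⟩ := mem_st2 h
      exact ⟨b, i, hi, j', by omega, by simp only [List.length_cons]; omega, h⟩

theorem mem_sym {z : ℕ} {ab : ℕ × ℕ} (h : ab ∈ sym z) :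
    ∃ i z', i < z' ∧ z' < z ∧ ab = (2 * i, 2 * z') := by
  induction z with
  | zero => simp [sym] at h
  | succ z ih =>
    rw [sym, List.mem_append] at h
    rcases h with h | h
    · obtain ⟨i, hi, rfl⟩ := List.mem_map.1 h
      exact ⟨i, z, List.mem_range.1 hi, by omega, rfl⟩
    · obtain ⟨i, z', h1, h2, h3⟩ := ih h
      exact ⟨i, z', h1, by omega, h3⟩

theorem mem_swl {φ : List Cl} {ab : ℕ × ℕ} (h : ab ∈ swl φ) :
    ab.1 < ab.2 ∧ ab.2 ≤ 2 * (4 * φ.length) := by
  unfold swl at h
  rw [List.mem_append, List.mem_append, List.mem_append] at h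
  have hst1 : ab ∈ st1 (3 * φ.length) → ab.1 < ab.2 ∧ ab.2 ≤ 2 * (4 * φ.length) := by
    intro h
    obtain ⟨i, hi, rfl⟩ := mem_st1 h
    simp only; omega
  rcases h with h | h | h | h
  · exact hst1 h
  · obtain ⟨b, i, hi, j', h1, h2, h3⟩ := mem_st2 h
    have := lane_bounds b i
    rcases h3 with rfl | rfl <;> simp only <;> omega
  · exact hst1 h
  · obtain ⟨i, z', h1, h2, rfl⟩ := mem_sym h
    simp only; omega

/-- The network of a formula. -/
def netOf (φ : List Cl) (hφ : φ ≠ []) : Net where
  q := 4 * φ.length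
  s := (swl φ).length
  sw k := (swl φ).getD k (0, 1)
  hq := by have := List.length_pos_iff.2 hφ; omega
  hsw := by
    intro k hk
    rw [List.getD_eq_getElem _ _ hk]
    exact mem_swl (List.getElem_mem hk)

theorem posn_eq_runO (W : Net) (l : List (ℕ × ℕ)) (hs : ∀ k (hk : k < l.length), W.sw k = l[k])
    (on : ℕ → Bool) : ∀ k ≤ l.length, ∀ w, W.posn on k w = runO on 0 (l.take k) w := by
  intro k
  induction k with
  | zero => intro _ w; simp [Net.posn, runO]
  | succ k ih =>
    intro hk w
    have hk' : k < l.length := by omega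
    rw [List.take_succ_eq_append_getElem hk', runO_append, ← ih (by omega) w]
    simp only [Net.posn, runO, List.length_take]
    rw [hs k hk']
    congr 2
    omega

theorem posn_netOf {φ : List Cl} (hφ : φ ≠ []) (on : ℕ → Bool) (w : ℕ) :
    (netOf φ hφ).posn on (netOf φ hφ).s w = runO on 0 (swl φ) w := by
  have := posn_eq_runO (netOf φ hφ) (swl φ) (by
    intro k hk
    change (swl φ).getD k (0, 1) = _
    rw [List.getD_eq_getElem _ _ hk]) on (swl φ).length (le_refl _) w
  rw [List.take_length] at this
  exact this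

/-! ### Stages -/

theorem run_st1 (on : ℕ → Bool) (n off w : ℕ) : runO on off (st1 n) w =
    if w < 2 * n then stp (2 * (w / 2), 2 * (w / 2) + 1) (on (off + w / 2)) w else w := by
  induction n with
  | zero => simp [st1, runO]
  | succ n ih =>
    have : st1 (n + 1) = st1 n ++ [(2 * n, 2 * n + 1)] := by
      unfold st1; rw [List.range_succ, List.map_append]; rfl
    rw [this, runO_append, ih]
    have hlen : (st1 n).length = n := by simp [st1]
    rw [hlen]
    simp only [runO]
    by_cases h1 : w < 2 * n
    · rw [if_pos h1, if_pos (by omega)]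
      have h2 : ∀ b, stp (2 * (w / 2), 2 * (w / 2) + 1) b w < 2 * n := by
        intro b; unfold stp; simp only; split_ifs <;> omega
      have h3 := h2 (on (off + w / 2))
      generalize stp (2 * (w / 2), 2 * (w / 2) + 1) (on (off + w / 2)) w = y at *
      unfold stp
      simp only
      split_ifs <;> omega
    · rw [if_neg h1]
      by_cases h2 : w < 2 * (n + 1)
      · rw [if_pos h2]
        have h3 : w / 2 = n := by omega
        rw [h3]
      · rw [if_neg h2]
        unfold stp
        simp only
        split_ifs <;> omega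

theorem st1_range (on : ℕ → Bool) (n off w : ℕ) (hw : w < 2 * n) :
    runO on off (st1 n) w / 2 = w / 2 := by
  rw [run_st1, if_pos hw]
  unfold stp
  simp only
  split_ifs <;> omega

theorem st1_ge (on : ℕ → Bool) (n off w : ℕ) (hw : ¬ w < 2 * n) :
    runO on off (st1 n) w = w := by
  rw [run_st1, if_neg hw]

/-- Odd wires are fixed by the last stage, even wires stay even. -/
theorem sym_odd (on : ℕ → Bool) (z off w : ℕ) (hw : w % 2 = 1) :
    runO on off (sym z) w = w := by
  apply runO_fix
  intro ab h
  obtain ⟨i, z', _, _, rfl⟩ := mem_sym h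
  simp only; omega

theorem runO_even (on : ℕ → Bool) : ∀ (l : List (ℕ × ℕ)) (off w : ℕ),
    (∀ ab ∈ l, ab.1 % 2 = 0 ∧ ab.2 % 2 = 0) → w % 2 = 0 → runO on off l w % 2 = 0
  | [], _, _, _, hw => hw
  | ab :: l, off, w, h, hw => by
    rw [runO]
    have h1 := h ab (List.mem_cons_self ..)
    refine runO_even on l _ _ (fun ab' h' => h ab' (List.mem_cons_of_mem _ h')) ?_
    unfold stp
    split_ifs <;> omega

theorem sym_even (on : ℕ → Bool) (z off w : ℕ) (hw : w % 2 = 0) :
    runO on off (sym z) w % 2 = 0 := by
  apply runO_even _ _ _ _ _ hw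
  intro ab h
  obtain ⟨i, z', _, _, rfl⟩ := mem_sym h
  simp only; omega

/-! ### Lost tokens -/

/-- A token of the variable `i` which left its lanes, before the slot `i'` of the clause `j`. -/
def Lost (n i j i' w : ℕ) : Prop :=
  (∃ x, i < x ∧ x < n ∧ (w = 2 * x ∨ w = 2 * x + 1)) ∨
    (∃ j', j' < j ∧ (w = 2 * n + 2 * j' ∨ w = 2 * n + 2 * j' + 1)) ∨
    ((w = 2 * n + 2 * j ∨ w = 2 * n + 2 * j + 1) ∧ i < i')

theorem run_two (on : ℕ → Bool) (n : ℕ) (b : Bool) (i j off w : ℕ) :
    runO on off (two n b i j) w = stp (lane b i, 2 * n + 2 * j + 1) (on (off + 1))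
      (stp (lane b i, 2 * n + 2 * j) (on off) w) := rfl

theorem lost_two (on : ℕ → Bool) {n : ℕ} {b : Bool} {i i' j off w : ℕ} (hi' : i' < n)
    (h : Lost n i j i' w) : Lost n i j (i' + 1) (runO on off (two n b i' j) w) := by
  have hl := lane_bounds b i'
  rw [run_two]
  -- one switch
  have key : ∀ (t : ℕ) (c : Bool) (y : ℕ), (t = 2 * n + 2 * j ∨ t = 2 * n + 2 * j + 1) →
      (∃ x, i < x ∧ x < n ∧ (y = 2 * x ∨ y = 2 * x + 1)) ∨
      (∃ j', j' < j ∧ (y = 2 * n + 2 * j' ∨ y = 2 * n + 2 * j' + 1)) ∨
      ((y = 2 * n + 2 * j ∨ y = 2 * n + 2 * j + 1) ∧ i < i') →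
      (∃ x, i < x ∧ x < n ∧ (stp (lane b i', t) c y = 2 * x ∨ stp (lane b i', t) c y =
        2 * x + 1)) ∨
      (∃ j', j' < j ∧ (stp (lane b i', t) c y = 2 * n + 2 * j' ∨
        stp (lane b i', t) c y = 2 * n + 2 * j' + 1)) ∨
      ((stp (lane b i', t) c y = 2 * n + 2 * j ∨ stp (lane b i', t) c y = 2 * n + 2 * j + 1) ∧
        i < i') := by
    intro t c y ht hy
    by_cases hc : c = true
    · by_cases h1 : y = lane b i'
      · have e : stp (lane b i', t) c y = t := by unfold stp; rw [if_pos hc, if_pos h1]
        rw [e]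
        right; right
        refine ⟨ht, ?_⟩
        rcases hy with ⟨x, hx1, hx2, hx3⟩ | ⟨j', hj1, hj2⟩ | ⟨_, h3⟩
        · omega
        · omega
        · exact h3
      · by_cases h2 : y = t
        · have e : stp (lane b i', t) c y = lane b i' := by
            unfold stp; rw [if_pos hc, if_neg h1, if_pos h2]
          rw [e]
          left
          refine ⟨i', ?_, hi', by omega⟩
          rcases hy with ⟨x, hx1, hx2, hx3⟩ | ⟨j', hj1, hj2⟩ | ⟨_, h3⟩
          · omega
          · omega
          · exact h3
        · have e : stp (lane b i', t) c y = y := by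
            unfold stp; rw [if_pos hc, if_neg h1, if_neg h2]
          rw [e]; exact hy
    · have e : stp (lane b i', t) c y = y := by unfold stp; rw [if_neg hc]
      rw [e]; exact hy
  have h1 := key _ (on off) w (Or.inl rfl) h
  have h2 := key _ (on (off + 1)) _ (Or.inr rfl) h1
  rcases h2 with h2 | h2 | h2
  · exact Or.inl h2
  · exact Or.inr (Or.inl h2)
  · exact Or.inr (Or.inr ⟨h2.1, by omega⟩)

theorem Lost.mono {n i j i' i'' w : ℕ} (h : Lost n i j i' w) (hi : i' ≤ i'') :
    Lost n i j i'' w := by
  rcases h with h | h | h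
  · exact Or.inl h
  · exact Or.inr (Or.inl h)
  · exact Or.inr (Or.inr ⟨h.1, by omega⟩)

theorem lost_slot (on : ℕ → Bool) {n : ℕ} {c : Cl} {i i' j off w : ℕ} (hi' : i' < n)
    (h : Lost n i j i' w) : Lost n i j (i' + 1) (runO on off (slot n c j i') w) := by
  unfold slot
  split_ifs
  · exact lost_two on hi' h
  · exact lost_two on hi' h
  · exact h.mono (by omega)

theorem range_split {n i' : ℕ} (h : i' < n) : List.range n =
    List.range i' ++ i' :: (List.range (n - i' - 1)).map (fun x => i' + 1 + x) := by
  obtain ⟨d, rfl⟩ : ∃ d, n = i' + 1 + d := ⟨n - i' - 1, by omega⟩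
  rw [List.range_add, List.range_succ, List.append_assoc]
  have : i' + 1 + d - i' - 1 = d := by omega
  rw [this]; rfl

theorem lost_slots (on : ℕ → Bool) {n : ℕ} {c : Cl} {i j : ℕ} : ∀ (k a off w : ℕ),
    a + k ≤ n → Lost n i j a w →
    Lost n i j (a + k) (runO on off (((List.range k).map (fun x => a + x)).flatMap (slot n c j)) w)
  | 0, a, off, w, _, h => by simpa [runO] using h
  | k + 1, a, off, w, hk, h => by
    rw [List.range_succ, List.map_append, List.flatMap_append, runO_append]
    have h1 := lost_slots on k a off w (by omega) h (c := c)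
    simp only [List.map_cons, List.map_nil, List.flatMap_cons, List.flatMap_nil,
      List.append_nil]
    exact lost_slot (i' := a + k) on (show a + k < n by omega) h1

theorem Lost.next {n i j i' w : ℕ} (h : Lost n i j i' w) : Lost n i (j + 1) 0 w := by
  rcases h with h | ⟨j', h1, h2⟩ | h
  · exact Or.inl h
  · exact Or.inr (Or.inl ⟨j', by omega, h2⟩)
  · exact Or.inr (Or.inl ⟨j, by omega, h.1⟩)

theorem lost_blk (on : ℕ → Bool) {n : ℕ} {c : Cl} {i j off w : ℕ}
    (h : Lost n i j 0 w) : Lost n i (j + 1) 0 (runO on off (blk n c j) w) := by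
  have := lost_slots on n 0 off w (by omega) h (c := c)
  have e : (List.range n).map (fun x => 0 + x) = List.range n := by simp
  rw [e] at this
  exact this.next

theorem lost_st2 (on : ℕ → Bool) {n i : ℕ} : ∀ (ψ : List Cl) (j off w : ℕ),
    Lost n i j 0 w → Lost n i (j + ψ.length) 0 (runO on off (st2 n j ψ) w)
  | [], j, off, w, h => by simpa [st2, runO] using h
  | c :: ψ, j, off, w, h => by
    rw [st2, runO_append]
    have := lost_st2 on ψ (j + 1) (off + (blk n c j).length) _ (lost_blk on h (c := c)
      (off := off))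
    rw [List.length_cons]
    have e : j + (ψ.length + 1) = j + 1 + ψ.length := by omega
    rw [e]
    exact this

theorem Lost.not_home {n i j w : ℕ} (hi : i < n) (h : Lost n i j 0 w) :
    w ≠ 2 * i ∧ w ≠ 2 * i + 1 := by
  rcases h with ⟨x, h1, h2, h3⟩ | ⟨j', h1, h2⟩ | h
  · omega
  · omega
  · omega

/-- A home token stays or gets lost in a slot. -/
theorem home_slot (on : ℕ → Bool) {n : ℕ} {c : Cl} {i i' j off w : ℕ} (hi : i < n)
    (hw : w = 2 * i ∨ w = 2 * i + 1) :
    runO on off (slot n c j i') w = w ∨ Lost n i j (i' + 1) (runO on off (slot n c j i') w) := by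
  have gen : ∀ b, runO on off (two n b i' j) w = w ∨
      Lost n i j (i' + 1) (runO on off (two n b i' j) w) := by
    intro b
    have hl := lane_bounds b i'
    rw [run_two]
    by_cases h1 : w = lane b i'
    · have hii : i' = i := by omega
      by_cases h2 : on off = true
      · have e1 : stp (lane b i', 2 * n + 2 * j) (on off) w = 2 * n + 2 * j := by
          unfold stp; rw [if_pos h2, if_pos h1]
        rw [e1]
        have e2 : stp (lane b i', 2 * n + 2 * j + 1) (on (off + 1)) (2 * n + 2 * j) =
            2 * n + 2 * j := by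
          unfold stp
          simp only
          split_ifs <;> omega
        rw [e2]
        right; right; right
        exact ⟨Or.inl rfl, by omega⟩
      · have e1 : stp (lane b i', 2 * n + 2 * j) (on off) w = w := by
          unfold stp; rw [if_neg h2]
        rw [e1]
        by_cases h3 : on (off + 1) = true
        · have e2 : stp (lane b i', 2 * n + 2 * j + 1) (on (off + 1)) w =
              2 * n + 2 * j + 1 := by
            unfold stp; rw [if_pos h3, if_pos h1]
          rw [e2]
          right; right; right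
          exact ⟨Or.inr rfl, by omega⟩
        · left
          unfold stp; rw [if_neg h3]
    · left
      have e1 : stp (lane b i', 2 * n + 2 * j) (on off) w = w := by
        unfold stp; simp only; split_ifs <;> omega
      rw [e1]
      unfold stp; simp only; split_ifs <;> omega
  unfold slot
  split_ifs
  · exact gen true
  · exact gen false
  · left; rfl

theorem home_slots (on : ℕ → Bool) {n : ℕ} {c : Cl} {i j : ℕ} (hi : i < n) : ∀ (k off w : ℕ),
    k ≤ n → (w = 2 * i ∨ w = 2 * i + 1) →
    runO on off ((List.range k).flatMap (slot n c j)) w = w ∨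
      Lost n i j k (runO on off ((List.range k).flatMap (slot n c j)) w)
  | 0, off, w, _, _ => by left; simp [runO]
  | k + 1, off, w, hk, hw => by
    rw [List.range_succ, List.flatMap_append, runO_append]
    simp only [List.flatMap_cons, List.flatMap_nil, List.append_nil]
    rcases home_slots on hi k off w (by omega) hw (c := c) (j := j) with h | h
    · rw [h]
      exact home_slot on hi hw
    · right
      exact lost_slot on (by omega) h

theorem home_st2 (on : ℕ → Bool) {n i : ℕ} (hi : i < n) : ∀ (ψ : List Cl) (j off w : ℕ),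
    (w = 2 * i ∨ w = 2 * i + 1) → runO on off (st2 n j ψ) w = w ∨
      Lost n i (j + ψ.length) 0 (runO on off (st2 n j ψ) w)
  | [], j, off, w, _ => by left; rfl
  | c :: ψ, j, off, w, hw => by
    rw [st2, runO_append, List.length_cons]
    have e : j + (ψ.length + 1) = j + 1 + ψ.length := by omega
    rw [e]
    rcases home_slots on hi n off w (le_refl _) hw (c := c) (j := j) with h | h
    · have h' : runO on off (blk n c j) w = w := h
      rw [h']
      exact home_st2 on hi ψ (j + 1) _ w hw
    · right
      exact lost_st2 on ψ (j + 1) _ _ h.next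

theorem st2_append (n : ℕ) : ∀ (ψ ψ' : List Cl) (j : ℕ),
    st2 n j (ψ ++ ψ') = st2 n j ψ ++ st2 n (j + ψ.length) ψ'
  | [], ψ', j => by simp [st2]
  | c :: ψ, ψ', j => by
    rw [List.cons_append, st2, st2, st2_append n ψ ψ' (j + 1), List.length_cons,
      List.append_assoc]
    congr 3; omega

/-- **If the network realises the shift then the formula is satisfied.** -/
theorem sat_of_shift {φ : List Cl} (hφ : φ ≠ [])
    {on : ℕ → Bool} (h : (netOf φ hφ).Shift on) : SatBy φ (fun i => !on i) := by
  set M := φ.length with hM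
  set n := 3 * M with hn
  have hM1 : 1 ≤ M := List.length_pos_iff.2 hφ
  -- final positions
  have hfin : ∀ x < 4 * M, runO on 0 (swl φ) (2 * x) = 2 * x + 1 := by
    intro x hx
    have h1 := h (2 * x) (by change 2 * x ≤ 2 * (4 * M); omega)
    rw [posn_netOf] at h1
    rw [h1]
    unfold Net.nx
    rw [if_pos]
    change 2 * x < 2 * (4 * M); omega
  -- before the last stage
  obtain ⟨off3, hoff3⟩ : ∃ off3, ∀ w, runO on 0 (swl φ) w = runO on off3 (st1 n ++
      sym (4 * M + 1)) (runO on n (st2 n 0 φ) (runO on 0 (st1 n) w)) := by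
    refine ⟨n + (st2 n 0 φ).length, fun w => ?_⟩
    have hlen : (st1 n).length = n := by simp [st1]
    change runO on 0 (st1 n ++ (st2 n 0 φ ++ (st1 n ++ sym (4 * M + 1)))) w = _
    rw [runO_append, runO_append, hlen, zero_add]
  -- the last two stages
  have hlast : ∀ y x, x < 4 * M → runO on off3 (st1 n ++ sym (4 * M + 1)) y = 2 * x + 1 →
      (x < n → (y = 2 * x ∨ y = 2 * x + 1)) ∧ (n ≤ x → y = 2 * x + 1) := by
    intro y x hx hy
    rw [runO_append] at hy
    set y' := runO on off3 (st1 n) y with hy'
    have hodd : y' % 2 = 1 := by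
      by_contra hne
      have := sym_even on (4 * M + 1) (off3 + (st1 n).length) y' (by omega)
      rw [hy] at this; omega
    rw [sym_odd on _ _ y' hodd] at hy
    by_cases hy2 : y < 2 * n
    · have := st1_range on n off3 y hy2
      rw [← hy', hy] at this
      refine ⟨fun _ => by omega, fun _ => by omega⟩
    · have := st1_ge on n off3 y hy2
      rw [← hy', hy] at this
      refine ⟨fun _ => by omega, fun _ => by omega⟩
  -- red tokens
  have hred : ∀ i < n, ∀ w, w = runO on 0 (st1 n) (2 * i) →
      (w = 2 * i ∨ w = 2 * i + 1) ∧ ¬ Lost n i M 0 (runO on n (st2 n 0 φ) w) := by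
    intro i hi w hw
    have h1 : w / 2 = i := by
      rw [hw, st1_range on n 0 (2 * i) (by omega)]; omega
    refine ⟨by omega, fun hL => ?_⟩
    have h2 := hfin i (by omega)
    rw [hoff3, ← hw] at h2
    have h3 := (hlast _ i (by omega) h2).1 hi
    have h4 := hL.not_home hi
    omega
  have hredpos : ∀ i < n, runO on 0 (st1 n) (2 * i) = if on i then 2 * i + 1 else 2 * i := by
    intro i hi
    rw [run_st1, if_pos (by omega)]
    have e : 2 * i / 2 = i := by omega
    rw [e, zero_add]
    unfold stp
    simp
  intro c hc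
  refine (satBy_iff c (fun i => !on i)).2 ?_
  obtain ⟨φ1, φ2, hsplit⟩ := List.append_of_mem hc
  set j := φ1.length with hj
  have hjM : j < M := by rw [hM, hsplit]; simp; omega
  -- the blue token
  have hblue := hfin (n + j) (by omega)
  rw [hoff3, st1_ge on n 0 (2 * (n + j)) (by omega)] at hblue
  have hblue2 := (hlast _ (n + j) (by omega) hblue).2 (by omega)
  -- split the second stage
  have hst2 : st2 n 0 φ = st2 n 0 φ1 ++ (blk n c j ++ st2 n (j + 1) φ2) := by
    rw [hsplit, st2_append, zero_add, st2]
  set o1 := n + (st2 n 0 φ1).length with ho1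
  set o2 := o1 + (blk n c j).length with ho2
  have hrun2 : ∀ w, runO on n (st2 n 0 φ) w =
      runO on o2 (st2 n (j + 1) φ2) (runO on o1 (blk n c j) (runO on n (st2 n 0 φ1) w)) := by
    intro w
    rw [hst2, runO_append, runO_append]
  rw [hrun2] at hblue2
  have hCfix : runO on n (st2 n 0 φ1) (2 * (n + j)) = 2 * (n + j) := by
    apply runO_fix
    intro ab hab
    obtain ⟨b, i, hi, j', h1, h2, h3⟩ := mem_st2 hab
    have := lane_bounds b i
    rcases h3 with rfl | rfl <;> simp only <;> omega
  have hBfix : runO on o2 (st2 n (j + 1) φ2) (2 * (n + j) + 1) = 2 * (n + j) + 1 := by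
    apply runO_fix
    intro ab hab
    obtain ⟨b, i, hi, j', h1, h2, h3⟩ := mem_st2 hab
    have := lane_bounds b i
    rcases h3 with rfl | rfl <;> simp only <;> omega
  rw [hCfix] at hblue2
  have hblk : runO on o1 (blk n c j) (2 * (n + j)) = 2 * (n + j) + 1 :=
    runO_inj on (st2 n (j + 1) φ2) o2 (hblue2.trans hBfix.symm)
  -- the first slot in which the blue token leaves
  let pos : ℕ → ℕ := fun k => runO on o1 ((List.range k).flatMap (slot n c j)) (2 * (n + j))
  have hpos0 : pos 0 = 2 * (n + j) := by simp [pos, runO]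
  have hposn : pos n = 2 * (n + j) + 1 := hblk
  obtain ⟨k, hk, hk1, hk2⟩ : ∃ k < n, pos k = 2 * (n + j) ∧ pos (k + 1) ≠ 2 * (n + j) := by
    by_contra hcon
    push Not at hcon
    have : ∀ k ≤ n, pos k = 2 * (n + j) := by
      intro k
      induction k with
      | zero => intro _; exact hpos0
      | succ k ih => intro hk; exact hcon k (by omega) (ih (by omega))
    have := this n (le_refl _)
    omega
  set o3 := o1 + ((List.range k).flatMap (slot n c j)).length with ho3
  have hpos1 : pos (k + 1) = runO on o3 (slot n c j k) (pos k) := by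
    simp only [pos]
    rw [List.range_succ, List.flatMap_append, runO_append]
    simp only [List.flatMap_cons, List.flatMap_nil, List.append_nil]
    rfl
  rw [hpos1, hk1] at hk2
  -- the red token of the variable `k`
  obtain ⟨r, hr⟩ : ∃ r, r = runO on 0 (st1 n) (2 * k) := ⟨_, rfl⟩
  obtain ⟨hr1, hr2⟩ := hred k hk r hr
  rw [hredpos k hk] at hr
  -- it is still at home before the slot
  have hlostrest : ∀ w, Lost n k j (k + 1) w →
      Lost n k M 0 (runO on o2 (st2 n (j + 1) φ2)
        (runO on (o3 + (slot n c j k).length) (((List.range (n - k - 1)).map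
          (fun x => k + 1 + x)).flatMap (slot n c j)) w)) := by
    intro w hw
    have h1 := lost_slots on (n - k - 1) (k + 1) (o3 + (slot n c j k).length) w (by omega) hw
      (c := c)
    have h2 := lost_st2 on φ2 (j + 1) o2 _ h1.next
    have e : j + 1 + φ2.length = M := by
      rw [hM, hsplit, List.length_append, List.length_cons]; omega
    rwa [e] at h2
  have hblksplit : ∀ w, runO on o1 (blk n c j) w =
      runO on (o3 + (slot n c j k).length) (((List.range (n - k - 1)).map
          (fun x => k + 1 + x)).flatMap (slot n c j)) (runO on o3 (slot n c j k)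
            (runO on o1 ((List.range k).flatMap (slot n c j)) w)) := by
    intro w
    unfold blk
    rw [range_split hk, List.flatMap_append, List.flatMap_cons, runO_append, runO_append]
  have hhome1 : runO on n (st2 n 0 φ1) r = r := by
    rcases home_st2 on hk φ1 0 n r hr1 with h1 | h1
    · exact h1
    · exfalso
      apply hr2
      rw [hrun2]
      rw [zero_add] at h1
      have h2 := lost_blk on h1 (c := c) (off := o1)
      have h3 := lost_st2 on φ2 (j + 1) o2 _ h2
      have e : j + 1 + φ2.length = M := by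
        rw [hM, hsplit, List.length_append, List.length_cons]; omega
      rwa [e] at h3
  have hhome2 : runO on o1 ((List.range k).flatMap (slot n c j)) r = r := by
    rcases home_slots on hk k o1 r (by omega) hr1 (c := c) (j := j) with h1 | h1
    · exact h1
    · exfalso
      apply hr2
      rw [hrun2, hhome1, hblksplit]
      exact hlostrest _ (lost_slot on hk h1)
  have hhome3 : runO on o3 (slot n c j k) r = r := by
    rcases home_slot on hk hr1 (c := c) (i' := k) (j := j) (off := o3) with h1 | h1
    · exact h1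
    · exfalso
      apply hr2
      rw [hrun2, hhome1, hblksplit, hhome2]
      exact hlostrest _ h1
  -- now look at the slot
  have main : ∀ b, InC (b, k) c → slot n c j k = two n b k j →
      ∃ b i, InC (b, i) c ∧ (!on i) = b := by
    intro b hb hslot
    rw [hslot] at hk2 hhome3
    refine ⟨b, k, hb, ?_⟩
    have hl := lane_bounds b k
    have hsw1 : on o3 = true := by
      by_contra hoff
      apply hk2
      rw [run_two]
      have e1 : stp (lane b k, 2 * n + 2 * j) (on o3) (2 * (n + j)) = 2 * (n + j) := by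
        unfold stp; rw [if_neg hoff]
      rw [e1]
      unfold stp; simp only; split_ifs <;> omega
    have hne : r ≠ lane b k := by
      intro hrl
      rw [run_two] at hhome3
      have e1 : stp (lane b k, 2 * n + 2 * j) (on o3) r = 2 * n + 2 * j := by
        unfold stp; rw [if_pos hsw1, if_pos hrl]
      rw [e1] at hhome3
      have e2 : stp (lane b k, 2 * n + 2 * j + 1) (on (o3 + 1)) (2 * n + 2 * j) =
          2 * n + 2 * j := by
        unfold stp; simp only; split_ifs <;> omega
      rw [e2] at hhome3
      omega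
    rw [hr] at hne
    unfold lane at hne
    cases b <;> cases hok : on k <;> simp [hok] at hne ⊢
  by_cases hT : InC (true, k) c
  · exact main true hT (by unfold slot; rw [if_pos hT])
  · by_cases hF : InC (false, k) c
    · exact main false hF (by unfold slot; rw [if_neg hT, if_pos hF])
    · exfalso
      apply hk2
      unfold slot
      rw [if_neg hT, if_neg hF]
      rfl

end Pool.Agent.TH700
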