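import Pool.Agent.TH700.Main1
import Pool.Agent.H579R2.Spt.VV3

/-!
# The reduction is computable in polynomial time
-/

namespace Pool.Agent.TH700

open Pool.Agent.NPC

section

variable {α : Type} [TEnc α]

theorem lane_poly {b : α → Bool} {i : α → ℕ} (hb : Poly b) (hi : Poly i) :
    Poly (fun a => lane (b a) (i a)) :=
  NPC.Poly.ite (p := fun a => b a = true) (NPC.Poly.decide_bool hb)
    (NPC.Poly.add (NPC.Poly.mul (NPC.Poly.const 2) hi) (NPC.Poly.const 1)) (NPC.Poly.mul (NPC.Poly.const 2) hi)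

theorem two_poly {n i j : α → ℕ} {b : α → Bool} (hn : Poly n) (hb : Poly b) (hi : Poly i)
    (hj : Poly j) : Poly (fun a => two (n a) (b a) (i a) (j a)) := by
  have h1 : Poly (fun a => 2 * n a + 2 * j a) :=
    NPC.Poly.add (NPC.Poly.mul (NPC.Poly.const 2) hn) (NPC.Poly.mul (NPC.Poly.const 2) hj)
  have h2 := lane_poly hb hi
  exact NPC.Poly.cons (NPC.Poly.pair h2 h1) (NPC.Poly.cons (NPC.Poly.pair h2 (NPC.Poly.add h1 (NPC.Poly.const 1)))
    (NPC.Poly.const []))

theorem inC_poly {l : α → Lit ℕ} {c : α → Cl} (hl : Poly l) (hc : Poly c) :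
    Poly (fun a => decide (InC (l a) (c a))) := by
  have h : Poly (fun a => decide (l a = (c a).1) || (decide (l a = (c a).2.1) ||
      decide (l a = (c a).2.2))) :=
    NPC.Poly.or (NPC.Poly.decide_eq hl (NPC.Poly.fst hc)) (NPC.Poly.or (NPC.Poly.decide_eq hl (NPC.Poly.fst (NPC.Poly.snd hc)))
      (NPC.Poly.decide_eq hl (NPC.Poly.snd (NPC.Poly.snd hc))))
  refine h.congr fun a => ?_
  unfold InC
  by_cases h1 : l a = (c a).1 <;> by_cases h2 : l a = (c a).2.1 <;>
    by_cases h3 : l a = (c a).2.2 <;> simp [h1, h2, h3]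

theorem slot_poly {n i j : α → ℕ} {c : α → Cl} (hn : Poly n) (hc : Poly c) (hj : Poly j)
    (hi : Poly i) : Poly (fun a => slot (n a) (c a) (j a) (i a)) :=
  NPC.Poly.ite (p := fun a => InC (true, i a) (c a)) (inC_poly (NPC.Poly.pair (NPC.Poly.const true) hi) hc)
    (two_poly hn (NPC.Poly.const true) hi hj)
    (NPC.Poly.ite (p := fun a => InC (false, i a) (c a))
      (inC_poly (NPC.Poly.pair (NPC.Poly.const false) hi) hc)
      (two_poly hn (NPC.Poly.const false) hi hj) (NPC.Poly.const []))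

theorem blk_poly {n j : α → ℕ} {c : α → Cl} (hn : UPoly n) (hc : Poly c) (hj : Poly j) :
    Poly (fun a => blk (n a) (c a) (j a)) :=
  NPC.Poly.flatMap (l := fun a => List.range (n a)) (F := fun a i => slot (n a) (c a) (j a) i) hn.range
    (slot_poly (n := fun p : α × ℕ => n p.1) (i := fun p => p.2) (j := fun p => j p.1)
      (c := fun p => c p.1) (hn.toPoly.comp (NPC.Poly.fst NPC.Poly.id)) (hc.comp (NPC.Poly.fst NPC.Poly.id))
      (hj.comp (NPC.Poly.fst NPC.Poly.id)) (NPC.Poly.snd NPC.Poly.id))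

theorem st2_eq (n : ℕ) : ∀ (ψ : List Cl) (j : ℕ),
    st2 n j ψ = (ψ.zipIdx j).flatMap (fun cj => blk n cj.1 cj.2)
  | [], j => by simp [st2]
  | c :: ψ, j => by
    rw [st2, List.zipIdx_cons, List.flatMap_cons, st2_eq n ψ (j + 1)]

theorem st2_poly {n : α → ℕ} {φ : α → List Cl} (hn : UPoly n) (hφ : Poly φ) :
    Poly (fun a => st2 (n a) 0 (φ a)) :=
  (NPC.Poly.flatMap (l := fun a => (φ a).zipIdx) (F := fun a cj => blk (n a) cj.1 cj.2)
    (NPC.Poly.zipIdx hφ) (blk_poly (n := fun p : α × Cl × ℕ => n p.1) (j := fun p => p.2.2)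
      (c := fun p => p.2.1) (hn.comp (NPC.Poly.fst NPC.Poly.id)) (NPC.Poly.fst (NPC.Poly.snd NPC.Poly.id))
      (NPC.Poly.snd (NPC.Poly.snd NPC.Poly.id)))).congr fun a => (st2_eq (n a) (φ a) 0).symm

theorem st1_poly {n : α → ℕ} (hn : UPoly n) : Poly (fun a => st1 (n a)) := by
  have h2 : Poly (fun p : α × ℕ => 2 * p.2) := NPC.Poly.mul (NPC.Poly.const 2) (NPC.Poly.snd NPC.Poly.id)
  exact NPC.Poly.map (l := fun a => List.range (n a)) (F := fun _ i => (2 * i, 2 * i + 1)) hn.range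
    (NPC.Poly.pair h2 (NPC.Poly.add h2 (NPC.Poly.const 1)))

theorem sym_eq : ∀ z : ℕ, sym z = (List.range z).reverse.flatMap
    (fun y => (List.range y).map (fun i => (2 * i, 2 * y)))
  | 0 => by simp [sym]
  | z + 1 => by
    rw [sym, List.range_succ, List.reverse_append, List.reverse_singleton,
      List.singleton_append, List.flatMap_cons, sym_eq z]

theorem sym_eq' (z : ℕ) : sym z = (List.range z).reverse.flatMap
    (fun y => (List.range (min y z)).map (fun i => (2 * i, 2 * y))) := by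
  rw [sym_eq]
  refine List.flatMap_congr fun y hy => ?_
  rw [List.mem_reverse, List.mem_range] at hy
  rw [Nat.min_eq_left hy.le]

theorem sym_poly {z : α → ℕ} (hz : UPoly z) : Poly (fun a => sym (z a)) := by
  refine (NPC.Poly.flatMap (l := fun a => (List.range (z a)).reverse)
    (F := fun a y => (List.range (min y (z a))).map (fun i => (2 * i, 2 * y)))
    (NPC.Poly.reverse hz.range) ?_).congr fun a => (sym_eq' (z a)).symm
  have h1 : UPoly (fun p : α × ℕ => min p.2 (z p.1)) :=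
    UPoly.of_le (NPC.Poly.min (NPC.Poly.snd NPC.Poly.id) (hz.toPoly.comp (NPC.Poly.fst NPC.Poly.id)))
      (hz.comp (NPC.Poly.fst NPC.Poly.id)) (fun p => Nat.min_le_right _ _)
  exact NPC.Poly.map (l := fun p : α × ℕ => List.range (min p.2 (z p.1)))
    (F := fun p i => (2 * i, 2 * p.2)) h1.range
    (NPC.Poly.pair (NPC.Poly.mul (NPC.Poly.const 2) (NPC.Poly.snd NPC.Poly.id))
      (NPC.Poly.mul (NPC.Poly.const 2) (NPC.Poly.snd (NPC.Poly.fst NPC.Poly.id))))

theorem swl_poly {φ : α → List Cl} (hφ : Poly φ) : Poly (fun a => swl (φ a)) := by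
  have hl := UPoly.length hφ
  have h3 : UPoly (fun a => 3 * (φ a).length) := UPoly.mul (UPoly.const 3) hl
  have h4 : UPoly (fun a => 4 * (φ a).length + 1) :=
    UPoly.add (UPoly.mul (UPoly.const 4) hl) (UPoly.const 1)
  exact NPC.Poly.append (st1_poly h3) (NPC.Poly.append (st2_poly h3 hφ)
    (NPC.Poly.append (st1_poly h3) (sym_poly h4)))

theorem hOf_upoly {φ : α → List Cl} (hφ : Poly φ) : UPoly (fun a => hOf (φ a)) := by
  have hl := UPoly.length hφ
  have hs := UPoly.length (swl_poly hφ)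
  have hw : UPoly (fun a => 2 * (swl (φ a)).length + 16 * (φ a).length) :=
    UPoly.add (UPoly.mul (UPoly.const 2) hs) (UPoly.mul (UPoly.const 16) hl)
  have h := UPoly.mul (UPoly.const 128) (UPoly.mul (UPoly.mul hw hw) (UPoly.mul hw hw))
  have e : (fun a => hOf (φ a)) = (fun a => 128 *
      (((2 * (swl (φ a)).length + 16 * (φ a).length) *
        (2 * (swl (φ a)).length + 16 * (φ a).length)) *
      ((2 * (swl (φ a)).length + 16 * (φ a).length) *
        (2 * (swl (φ a)).length + 16 * (φ a).length)))) := by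
    funext a
    unfold hOf; ring
  rw [e]
  exact h

theorem blOf_upoly {φ : α → List Cl} (hφ : Poly φ) : UPoly (fun a => blOf (φ a)) :=
  UPoly.add (UPoly.mul (UPoly.const 2) (hOf_upoly hφ)) (UPoly.length (swl_poly hφ))

theorem eOf_poly {φ : α → List Cl} {i : α → ℕ} (hφ : Poly φ) (hi : Poly i) :
    Poly (fun a => eOf (φ a) (i a)) :=
  NPC.Poly.add (NPC.Poly.const 1) (NPC.Poly.mul (NPC.Poly.const 2) (NPC.Poly.add
    (NPC.Poly.mul (NPC.Poly.mul (NPC.Poly.const 2) hi) (blOf_upoly hφ).toPoly)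
    (NPC.Poly.add (hOf_upoly hφ).toPoly hi)))

theorem adjB_poly {l : α → List ℤ} {e : α → ℕ} (hl : Poly l) (he : Poly e) :
    Poly (fun a => adjB (l a) (e a)) := by
  have h1 : Poly (fun a => (l a).zip (l a).tail) := NPC.Poly.zip hl (NPC.Poly.tail hl)
  have he' : Poly (fun p : α × ℤ × ℤ => ((e p.1 : ℕ) : ℤ)) :=
    NPC.Poly.natCast (he.comp (NPC.Poly.fst NPC.Poly.id))
  have he1 : Poly (fun p : α × ℤ × ℤ => ((e p.1 + 1 : ℕ) : ℤ)) :=
    NPC.Poly.natCast (NPC.Poly.add (he.comp (NPC.Poly.fst NPC.Poly.id)) (NPC.Poly.const 1))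
  have hx : Poly (fun p : α × ℤ × ℤ => p.2.1) := NPC.Poly.fst (NPC.Poly.snd NPC.Poly.id)
  have hy : Poly (fun p : α × ℤ × ℤ => p.2.2) := NPC.Poly.snd (NPC.Poly.snd NPC.Poly.id)
  exact NPC.Poly.any (l := fun a => (l a).zip (l a).tail)
    (p := fun a xy => (decide (xy.1 = (e a : ℤ)) && decide (xy.2 = ((e a + 1 : ℕ) : ℤ))) ||
    (decide (xy.1 = -((e a + 1 : ℕ) : ℤ)) && decide (xy.2 = -(e a : ℤ)))) h1
    (NPC.Poly.or (NPC.Poly.and (NPC.Poly.decide_eq hx he') (NPC.Poly.decide_eq hy he1))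
      (NPC.Poly.and (NPC.Poly.decide_eq hx (NPC.Poly.ineg he1)) (NPC.Poly.decide_eq hy (NPC.Poly.ineg he'))))

theorem beq_poly {b c : α → Bool} (hb : Poly b) (hc : Poly c) : Poly (fun a => b a == c a) :=
  (NPC.Poly.not (NPC.Poly.xor hb hc)).congr fun a => by cases b a <;> cases c a <;> rfl

theorem valOf_poly {φ : α → List Cl} {l : α → List ℤ} {i : α → ℕ} (hφ : Poly φ) (hl : Poly l)
    (hi : Poly i) : Poly (fun a => valOf (φ a) (l a) (i a)) :=
  beq_poly (adjB_poly hl (eOf_poly hφ hi))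
    (adjB_poly hl (NPC.Poly.add (eOf_poly hφ hi) (NPC.Poly.const 1)))

theorem goodB_poly {φ : α → List Cl} {l : α → List ℤ} (hφ : Poly φ) (hl : Poly l) :
    Poly (fun a => goodB (φ a) (l a)) := by
  have h1 : Poly (fun p : α × Cl => φ p.1) := hφ.comp (NPC.Poly.fst NPC.Poly.id)
  have h2 : Poly (fun p : α × Cl => l p.1) := hl.comp (NPC.Poly.fst NPC.Poly.id)
  have hc : Poly (fun p : α × Cl => p.2) := NPC.Poly.snd NPC.Poly.id
  exact NPC.Poly.all (l := fun a => φ a)
    (p := fun a c => (valOf (φ a) (l a) c.1.2 == c.1.1) || ((valOf (φ a) (l a) c.2.1.2 == c.2.1.1) ||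
      (valOf (φ a) (l a) c.2.2.2 == c.2.2.1))) hφ
    (NPC.Poly.or (beq_poly (valOf_poly h1 h2 (NPC.Poly.snd (NPC.Poly.fst hc))) (NPC.Poly.fst (NPC.Poly.fst hc)))
      (NPC.Poly.or (beq_poly (valOf_poly h1 h2 (NPC.Poly.snd (NPC.Poly.fst (NPC.Poly.snd hc))))
          (NPC.Poly.fst (NPC.Poly.fst (NPC.Poly.snd hc))))
        (beq_poly (valOf_poly h1 h2 (NPC.Poly.snd (NPC.Poly.snd (NPC.Poly.snd hc))))
          (NPC.Poly.fst (NPC.Poly.snd (NPC.Poly.snd hc))))))

end

end Pool.Agent.TH700
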