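import Pool.Agent.TH700.Poly1

/-!
# The permutation and the decoding are computable in polynomial time
-/

namespace Pool.Agent.TH700

open Pool.Agent.NPC

/-- `nx` for a formula. -/
def nxL (φ : List Cl) (j : ℕ) : ℕ := if j < 2 * (4 * φ.length) then j + 1 else 0

/-- `pv` for a formula. -/
def pvL (φ : List Cl) (j : ℕ) : ℕ := if j = 0 then 2 * (4 * φ.length) else j - 1

/-- `tj` for a formula. -/
def tjL (φ : List Cl) (j o : ℕ) : ℕ :=
  if o < hOf φ then (if j = 0 then 0 else nxL φ j)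
  else if o < hOf φ + (swl φ).length then
    (if j = ((swl φ).getD (o - hOf φ) (0, 1)).1 then ((swl φ).getD (o - hOf φ) (0, 1)).2
    else if j = ((swl φ).getD (o - hOf φ) (0, 1)).2 then ((swl φ).getD (o - hOf φ) (0, 1)).1
    else j)
  else (if j = 1 then 1 else pvL φ j)

/-- `ng` for a formula. -/
def ngL (φ : List Cl) (j o : ℕ) : Bool :=
  if o < hOf φ then decide (¬ j = 0) else if o < hOf φ + (swl φ).length then false else
    decide (¬ j = 1)

/-- `tt` for a formula. -/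
def ttL (φ : List Cl) (j o : ℕ) : ℕ := if ngL φ j o = true then blOf φ - 1 - o else o

/-- `tau` for a formula. -/
def tauL (φ : List Cl) (t : ℕ) : ℕ := tjL φ (t / blOf φ) (t % blOf φ) * blOf φ +
  ttL φ (t / blOf φ) (t % blOf φ)

/-- `entry` for a formula. -/
def entryL (φ : List Cl) (p : ℕ) : ℤ :=
  if p % 2 = 0 then ((p + 1 : ℕ) : ℤ)
  else if ngL φ (p / 2 / blOf φ) (p / 2 % blOf φ) = true then -((2 * tauL φ (p / 2) + 2 : ℕ) : ℤ)
  else ((2 * tauL φ (p / 2) + 2 : ℕ) : ℤ)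

/-- The signed permutation of a formula. -/
def permL (φ : List Cl) : List ℤ :=
  (List.range (2 * ((2 * (4 * φ.length) + 1) * blOf φ) + 1)).map (entryL φ)

theorem permL_eq {φ : List Cl} (hφ : φ ≠ []) : permL φ = (netOf φ hφ).perm (hOf φ) := by
  have h : ∀ p, entryL φ p = (netOf φ hφ).entry (hOf φ) p := by
    intro p
    have e1 : ∀ j o, ngL φ j o = (netOf φ hφ).ng (hOf φ) j o := fun j o => rfl
    have e2 : ∀ t, tauL φ t = (netOf φ hφ).tau (hOf φ) t := fun t => rfl
    have e3 : blOf φ = (netOf φ hφ).bl (hOf φ) := rfl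
    unfold entryL Net.entry
    rw [e1, e2, e3]
    push_cast
    rfl
  unfold permL Net.perm
  have : entryL φ = (netOf φ hφ).entry (hOf φ) := funext h
  rw [this]
  rfl

section

variable {α : Type} [TEnc α]

theorem nxL_poly {φ : α → List Cl} {j : α → ℕ} (hφ : Poly φ) (hj : Poly j) :
    Poly (fun a => nxL (φ a) (j a)) :=
  NPC.Poly.ite (p := fun a => j a < 2 * (4 * (φ a).length)) (NPC.Poly.decide_lt hj
    (NPC.Poly.mul (NPC.Poly.const 2) (NPC.Poly.mul (NPC.Poly.const 4) (NPC.Poly.length hφ))))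
    (NPC.Poly.add hj (NPC.Poly.const 1)) (NPC.Poly.const 0)

theorem pvL_poly {φ : α → List Cl} {j : α → ℕ} (hφ : Poly φ) (hj : Poly j) :
    Poly (fun a => pvL (φ a) (j a)) :=
  NPC.Poly.ite (p := fun a => j a = 0) (NPC.Poly.decide_eq hj (NPC.Poly.const 0))
    (NPC.Poly.mul (NPC.Poly.const 2) (NPC.Poly.mul (NPC.Poly.const 4) (NPC.Poly.length hφ)))
    (NPC.Poly.sub hj (NPC.Poly.const 1))

theorem tjL_poly {φ : α → List Cl} {j o : α → ℕ} (hφ : Poly φ) (hj : Poly j) (ho : Poly o) :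
    Poly (fun a => tjL (φ a) (j a) (o a)) := by
  have hh := (hOf_upoly hφ).toPoly
  have hs := swl_poly hφ
  have hx : Poly (fun a => (swl (φ a)).getD (o a - hOf (φ a)) (0, 1)) :=
    NPC.Poly.getD hs (NPC.Poly.sub ho hh) (NPC.Poly.const (0, 1))
  have hx1 := NPC.Poly.fst hx
  have hx2 := NPC.Poly.snd hx
  exact NPC.Poly.ite (p := fun a => o a < hOf (φ a)) (NPC.Poly.decide_lt ho hh)
    (NPC.Poly.ite (p := fun a => j a = 0) (NPC.Poly.decide_eq hj (NPC.Poly.const 0))
      (NPC.Poly.const 0) (nxL_poly hφ hj))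
    (NPC.Poly.ite (p := fun a => o a < hOf (φ a) + (swl (φ a)).length)
      (NPC.Poly.decide_lt ho (NPC.Poly.add hh (NPC.Poly.length hs)))
      (NPC.Poly.ite (p := fun a => j a = ((swl (φ a)).getD (o a - hOf (φ a)) (0, 1)).1)
        (NPC.Poly.decide_eq hj hx1) hx2
        (NPC.Poly.ite (p := fun a => j a = ((swl (φ a)).getD (o a - hOf (φ a)) (0, 1)).2)
          (NPC.Poly.decide_eq hj hx2) hx1 hj))
      (NPC.Poly.ite (p := fun a => j a = 1) (NPC.Poly.decide_eq hj (NPC.Poly.const 1))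
        (NPC.Poly.const 1) (pvL_poly hφ hj)))

theorem ngL_poly {φ : α → List Cl} {j o : α → ℕ} (hφ : Poly φ) (hj : Poly j) (ho : Poly o) :
    Poly (fun a => ngL (φ a) (j a) (o a)) := by
  have hh := (hOf_upoly hφ).toPoly
  have hs := swl_poly hφ
  exact NPC.Poly.ite (p := fun a => o a < hOf (φ a)) (NPC.Poly.decide_lt ho hh)
    (NPC.Poly.decide_not (p := fun a => j a = 0) (NPC.Poly.decide_eq hj (NPC.Poly.const 0)))
    (NPC.Poly.ite (p := fun a => o a < hOf (φ a) + (swl (φ a)).length)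
      (NPC.Poly.decide_lt ho (NPC.Poly.add hh (NPC.Poly.length hs)))
      (NPC.Poly.const false)
      (NPC.Poly.decide_not (p := fun a => j a = 1) (NPC.Poly.decide_eq hj (NPC.Poly.const 1))))

theorem tauL_poly {φ : α → List Cl} {t : α → ℕ} (hφ : Poly φ) (ht : Poly t) :
    Poly (fun a => tauL (φ a) (t a)) := by
  have hb := (blOf_upoly hφ).toPoly
  have h1 : Poly (fun a => t a / blOf (φ a)) := NPC.Poly.div ht hb
  have h2 : Poly (fun a => t a % blOf (φ a)) := NPC.Poly.mod ht hb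
  have h3 : Poly (fun a => ttL (φ a) (t a / blOf (φ a)) (t a % blOf (φ a))) :=
    NPC.Poly.ite (p := fun a => ngL (φ a) (t a / blOf (φ a)) (t a % blOf (φ a)) = true)
      (NPC.Poly.decide_bool (ngL_poly hφ h1 h2))
      (NPC.Poly.sub (NPC.Poly.sub hb (NPC.Poly.const 1)) h2) h2
  exact NPC.Poly.add (NPC.Poly.mul (tjL_poly hφ h1 h2) hb) h3

theorem entryL_poly {φ : α → List Cl} {p : α → ℕ} (hφ : Poly φ) (hp : Poly p) :
    Poly (fun a => entryL (φ a) (p a)) := by
  have hb := (blOf_upoly hφ).toPoly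
  have hp2 : Poly (fun a => p a / 2) := NPC.Poly.div hp (NPC.Poly.const 2)
  have h1 : Poly (fun a => p a / 2 / blOf (φ a)) := NPC.Poly.div hp2 hb
  have h2 : Poly (fun a => p a / 2 % blOf (φ a)) := NPC.Poly.mod hp2 hb
  have h3 : Poly (fun a => ((2 * tauL (φ a) (p a / 2) + 2 : ℕ) : ℤ)) :=
    NPC.Poly.natCast (NPC.Poly.add (NPC.Poly.mul (NPC.Poly.const 2) (tauL_poly hφ hp2))
      (NPC.Poly.const 2))
  exact NPC.Poly.ite (p := fun a => p a % 2 = 0)
    (NPC.Poly.decide_eq (NPC.Poly.mod hp (NPC.Poly.const 2)) (NPC.Poly.const 0))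
    (NPC.Poly.natCast (NPC.Poly.add hp (NPC.Poly.const 1)))
    (NPC.Poly.ite (p := fun a => ngL (φ a) (p a / 2 / blOf (φ a)) (p a / 2 % blOf (φ a)) = true)
      (NPC.Poly.decide_bool (ngL_poly hφ h1 h2)) (NPC.Poly.ineg h3) h3)

theorem permL_poly {φ : α → List Cl} (hφ : Poly φ) : Poly (fun a => permL (φ a)) := by
  have hl := UPoly.length hφ
  have h1 : UPoly (fun a => 2 * ((2 * (4 * (φ a).length) + 1) * blOf (φ a)) + 1) :=
    UPoly.add (UPoly.mul (UPoly.const 2) (UPoly.mul (UPoly.add (UPoly.mul (UPoly.const 2)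
      (UPoly.mul (UPoly.const 4) hl)) (UPoly.const 1)) (blOf_upoly hφ))) (UPoly.const 1)
  exact NPC.Poly.map (l := fun a => List.range (2 * ((2 * (4 * (φ a).length) + 1) * blOf (φ a)) + 1))
    (F := fun a p => entryL (φ a) p) h1.range
    (entryL_poly (hφ.comp (NPC.Poly.fst NPC.Poly.id)) (NPC.Poly.snd NPC.Poly.id))

end

/-! ### Decoding -/

/-- One step: apply the reversal if it is legal, and test the new state. -/
def decStep (φ : List Cl) (s : List ℤ × Bool) (r : ℕ × ℕ) : List ℤ × Bool :=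
  if 1 ≤ r.1 ∧ (r.1 ≤ r.2 ∧ r.2 ≤ s.1.length) then
    (reversal s.1 r, s.2 || goodB φ (reversal s.1 r)) else s

/-- Does the sequence of reversals reveal a satisfying assignment? -/
def decB (φ : List Cl) (l : List ℤ) (rs : List (ℕ × ℕ)) : Bool :=
  (rs.foldl (decStep φ) (l, goodB φ l)).2

theorem sat_of_goodB {φ : List Cl} {l : List ℤ} (h : goodB φ l = true) : SAT3 φ :=
  ⟨valOf φ l, (goodB_iff φ l).1 h⟩

theorem dec_sound_aux (φ : List Cl) : ∀ (rs : List (ℕ × ℕ)) (s : List ℤ × Bool),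
    (s.2 = true → SAT3 φ) → (rs.foldl (decStep φ) s).2 = true → SAT3 φ
  | [], s, hs, h => hs h
  | r :: rs, s, hs, h => by
    rw [List.foldl_cons] at h
    refine dec_sound_aux φ rs _ ?_ h
    unfold decStep
    split_ifs with hc
    · intro h'
      simp only [Bool.or_eq_true] at h'
      rcases h' with h' | h'
      · exact hs h'
      · exact sat_of_goodB h'
    · exact hs

theorem dec_sound {φ : List Cl} {l : List ℤ} {rs : List (ℕ × ℕ)} (h : decB φ l rs = true) :
    SAT3 φ := dec_sound_aux φ rs _ sat_of_goodB h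

theorem dec_complete_aux (φ : List Cl) : ∀ (rs : List (ℕ × ℕ)) (l : List ℤ) (b : Bool),
    (∀ r ∈ rs, Legal l.length r) → (rs.foldl (decStep φ) (l, b)).2 = false →
    b = false ∧ ∀ k, 1 ≤ k → k ≤ rs.length → goodB φ ((rs.take k).foldl reversal l) = false
  | [], l, b, _, h => ⟨h, fun k h1 h2 => by simp at h2; omega⟩
  | r :: rs, l, b, hl, h => by
    have hr := hl r (List.mem_cons_self ..)
    rw [List.foldl_cons] at h
    have e : decStep φ (l, b) r = (reversal l r, b || goodB φ (reversal l r)) := by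
      unfold decStep
      exact if_pos ⟨hr.1, hr.2.1, hr.2.2⟩
    rw [e] at h
    obtain ⟨h1, h2⟩ := dec_complete_aux φ rs _ _ (fun r' hr' => by
      rw [reversal_length hr]; exact hl r' (List.mem_cons_of_mem _ hr')) h
    rw [Bool.or_eq_false_iff] at h1
    refine ⟨h1.1, fun k hk1 hk2 => ?_⟩
    obtain ⟨k, rfl⟩ : ∃ k', k = k' + 1 := ⟨k - 1, by omega⟩
    rw [List.take_succ_cons, List.foldl_cons]
    rcases Nat.eq_zero_or_pos k with rfl | hk
    · simpa using h1.2
    · exact h2 k hk (by simp only [List.length_cons] at hk2; omega)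

theorem dec_complete {φ : List Cl} {l : List ℤ} {rs : List (ℕ × ℕ)} (hl : ∀ r ∈ rs,
    Legal l.length r) (h : decB φ l rs = false) :
    ∀ k ≤ rs.length, goodB φ ((rs.take k).foldl reversal l) = false := by
  obtain ⟨h1, h2⟩ := dec_complete_aux φ rs l _ hl h
  intro k hk
  rcases Nat.eq_zero_or_pos k with rfl | hk0
  · simpa using h1
  · exact h2 k hk0 hk

theorem mem_reversal {l : List ℤ} {r : ℕ × ℕ} {x : ℤ} (h : x ∈ reversal l r) :
    ∃ y ∈ l, x.natAbs = y.natAbs := by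
  unfold reversal at h
  rw [List.mem_append, List.mem_append] at h
  rcases h with (h | h) | h
  · exact ⟨x, List.mem_of_mem_take h, rfl⟩
  · obtain ⟨y, hy, rfl⟩ := List.mem_map.1 h
    rw [List.mem_reverse] at hy
    exact ⟨y, List.mem_of_mem_take (List.mem_of_mem_drop hy), by simp⟩
  · exact ⟨x, List.mem_of_mem_drop h, rfl⟩

theorem dec_inv (φ : List Cl) : ∀ (rs : List (ℕ × ℕ)) (s : List ℤ × Bool),
    (rs.foldl (decStep φ) s).1.length = s.1.length ∧
      ∀ x ∈ (rs.foldl (decStep φ) s).1, ∃ y ∈ s.1, x.natAbs = y.natAbs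
  | [], s => ⟨rfl, fun x hx => ⟨x, hx, rfl⟩⟩
  | r :: rs, s => by
    rw [List.foldl_cons]
    obtain ⟨h1, h2⟩ := dec_inv φ rs (decStep φ s r)
    have h3 : (decStep φ s r).1.length = s.1.length ∧
        ∀ x ∈ (decStep φ s r).1, ∃ y ∈ s.1, x.natAbs = y.natAbs := by
      unfold decStep
      split_ifs with hc
      · exact ⟨reversal_length ⟨hc.1, hc.2.1, hc.2.2⟩, fun x hx => mem_reversal hx⟩
      · exact ⟨rfl, fun x hx => ⟨x, hx, rfl⟩⟩
    refine ⟨h1.trans h3.1, fun x hx => ?_⟩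
    obtain ⟨y, hy, e1⟩ := h2 x hx
    obtain ⟨z, hz, e2⟩ := h3.2 y hy
    exact ⟨z, hz, e1.trans e2⟩

theorem sz_dec_le (φ : List Cl) (rs : List (ℕ × ℕ)) (s : List ℤ × Bool) :
    sz (rs.foldl (decStep φ) s) ≤ sz s * (sz s + 6) + 5 := by
  obtain ⟨h1, h2⟩ := dec_inv φ rs s
  have h3 : sz (rs.foldl (decStep φ) s).1 ≤ s.1.length * (sz s + 5) + 1 := by
    rw [← h1]
    refine sz_le_length_mul _ (sz s + 4) fun x hx => ?_
    obtain ⟨y, hy, e⟩ := h2 x hx
    have e1 : sz x = sz (decide (x < 0)) + sz x.natAbs + 1 := sz_pair _ _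
    have e2 : sz y = sz (decide (y < 0)) + sz y.natAbs + 1 := sz_pair _ _
    have e3 := sz_bool_le (decide (x < 0))
    have e4 : sz y < sz s.1 := sz_le_of_mem hy
    have e5 : sz s = sz s.1 + sz s.2 + 1 := sz_pair s.1 s.2
    rw [e] at e1
    omega
  have h4 : sz (rs.foldl (decStep φ) s) = sz (rs.foldl (decStep φ) s).1 +
    sz (rs.foldl (decStep φ) s).2 + 1 := sz_pair _ _
  have h5 := sz_bool_le (rs.foldl (decStep φ) s).2
  have h6 : s.1.length ≤ sz s := by
    have := length_lt_sz s.1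
    have e5 : sz s = sz s.1 + sz s.2 + 1 := sz_pair s.1 s.2
    omega
  have h7 : s.1.length * (sz s + 5) ≤ sz s * (sz s + 5) := Nat.mul_le_mul_right _ h6
  have h8 : sz s * (sz s + 6) = sz s * (sz s + 5) + sz s := by ring
  have h9 := sz_pos s
  omega

section

variable {α : Type} [TEnc α]

open Pool.Agent.H579R2.Spt (take_poly' drop_poly')

theorem reversal_poly {l : α → List ℤ} {r : α → ℕ × ℕ} (hl : Poly l) (hr : Poly r) :
    Poly (fun a => reversal (l a) (r a)) := by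
  have h1 : Poly (fun a => (r a).1 - 1) := NPC.Poly.sub (NPC.Poly.fst hr) (NPC.Poly.const 1)
  have h2 : Poly (fun a => (r a).2) := NPC.Poly.snd hr
  exact NPC.Poly.append (NPC.Poly.append (take_poly' hl h1)
    (NPC.Poly.map (l := fun a => (((l a).take (r a).2).drop ((r a).1 - 1)).reverse)
      (F := fun _ x => -x) (NPC.Poly.reverse (drop_poly' (take_poly' hl h2) h1))
      (NPC.Poly.ineg (NPC.Poly.snd NPC.Poly.id)))) (drop_poly' hl h2)

theorem decStep_poly {φ : α → List Cl} {s : α → List ℤ × Bool} {r : α → ℕ × ℕ} (hφ : Poly φ)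
    (hs : Poly s) (hr : Poly r) : Poly (fun a => decStep (φ a) (s a) (r a)) := by
  have h1 : Poly (fun a => reversal (s a).1 (r a)) := reversal_poly (NPC.Poly.fst hs) hr
  exact NPC.Poly.ite (p := fun a => 1 ≤ (r a).1 ∧ ((r a).1 ≤ (r a).2 ∧ (r a).2 ≤ (s a).1.length))
    (NPC.Poly.decide_and (p := fun a => 1 ≤ (r a).1)
      (q := fun a => (r a).1 ≤ (r a).2 ∧ (r a).2 ≤ (s a).1.length)
      (NPC.Poly.decide_le (NPC.Poly.const 1) (NPC.Poly.fst hr))
      (NPC.Poly.decide_and (p := fun a => (r a).1 ≤ (r a).2)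
        (q := fun a => (r a).2 ≤ (s a).1.length)
        (NPC.Poly.decide_le (NPC.Poly.fst hr) (NPC.Poly.snd hr))
        (NPC.Poly.decide_le (NPC.Poly.snd hr) (NPC.Poly.length (NPC.Poly.fst hs)))))
    (NPC.Poly.pair h1 (NPC.Poly.or (NPC.Poly.snd hs) (goodB_poly hφ h1))) hs

theorem decB_poly {φ : α → List Cl} {l : α → List ℤ} {rs : α → List (ℕ × ℕ)} (hφ : Poly φ)
    (hl : Poly l) (hrs : Poly rs) : Poly (fun a => decB (φ a) (l a) (rs a)) := by
  have hs : Poly (fun a => (l a, goodB (φ a) (l a))) := NPC.Poly.pair hl (goodB_poly hφ hl)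
  obtain ⟨q, hq⟩ := hs.sz_le
  exact NPC.Poly.snd (NPC.Poly.foldl (l := rs) (s := fun a => (l a, goodB (φ a) (l a)))
    (F := fun a s r => decStep (φ a) s r) hrs hs
    (decStep_poly (hφ.comp (NPC.Poly.fst NPC.Poly.id)) (NPC.Poly.fst (NPC.Poly.snd NPC.Poly.id))
      (NPC.Poly.snd (NPC.Poly.snd NPC.Poly.id))) (q * (q + 6) + 5) (by
      intro a k _
      refine (sz_dec_le _ _ _).trans ?_
      have := hq a
      simp only [Polynomial.eval_add, Polynomial.eval_mul, Polynomial.eval_ofNat]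
      have h2 : sz (l a, goodB (φ a) (l a)) * (sz (l a, goodB (φ a) (l a)) + 6) ≤
          q.eval (sz a) * (q.eval (sz a) + 6) := Nat.mul_le_mul this (by omega)
      omega))

end

end Pool.Agent.TH700
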