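import Pool.Agent.TH700.Poly2

/-!
# From samplers to `RP = NP`
-/

namespace Pool.Agent.TH700

open Pool.Agent.NPC
open Pool.Agent.H579R2.Spt (InRP bits_poly)

theorem ncard_len (m : ℕ) : {r : List Bool | r.length = m}.ncard = 2 ^ m := by
  rw [← Nat.card_coe_set_eq]
  have h3 : Nat.card {r : List Bool | r.length = m} = Nat.card (List.Vector Bool m) := rfl
  rw [h3, Nat.card_eq_fintype_card, card_vector]
  simp

theorem ncard_take (P : List Bool → Prop) {m N : ℕ} (h : m ≤ N) :
    {r : List Bool | r.length = N ∧ P (r.take m)}.ncard =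
      {s : List Bool | s.length = m ∧ P s}.ncard * 2 ^ (N - m) := by
  have h1 : {r : List Bool | r.length = N ∧ P (r.take m)} =
      (fun st : List Bool × List Bool => st.1 ++ st.2) ''
        ({s : List Bool | s.length = m ∧ P s} ×ˢ {t : List Bool | t.length = N - m}) := by
    ext r
    constructor
    · rintro ⟨h2, h3⟩
      exact ⟨(r.take m, r.drop m), ⟨⟨by rw [List.length_take]; omega, h3⟩, by
        change (r.drop m).length = N - m
        rw [List.length_drop]; omega⟩, List.take_append_drop m r⟩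
    · rintro ⟨⟨s, t⟩, ⟨⟨h2, h3⟩, h4⟩, rfl⟩
      change t.length = N - m at h4
      change s.length = m at h2
      refine ⟨?_, ?_⟩
      · change (s ++ t).length = N
        rw [List.length_append]; omega
      · change P ((s ++ t).take m)
        rw [← h2, List.take_left' rfl]; exact h3
  rw [h1, Set.InjOn.ncard_image, Set.ncard_prod, ncard_len]
  rintro ⟨s, t⟩ ⟨⟨h2, _⟩, _⟩ ⟨s', t'⟩ ⟨⟨h2', _⟩, _⟩ he
  change s.length = m at h2
  change s'.length = m at h2'
  obtain ⟨a, b⟩ := List.append_inj he (h2.trans h2'.symm)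
  exact Prod.ext a b

/-- A typed function computed by a machine is polynomial-time computable. -/
theorem poly_of_machine {α β : Type} [TEnc α] [TEnc β] [TDec β] (d : β) {F : α → β}
    {A : List Bool → List Bool} (hA : PolyTime A) (h : ∀ s, A (bits s) = bits (F s)) : Poly F := by
  have h1 : Poly A := PIso.poly_iff.2 hA
  have h2 : Poly (fun s => bits (F s)) := (h1.comp bits_poly).congr h
  have h3 : Poly (fun s => unbits β (bits (F s))) := poly_unbits.comp h2
  exact (NPC.Poly.optGetD h3 (NPC.Poly.const d)).congr fun s => by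
    simp only [unbits_bits, Option.getD_some]

theorem eval_mono' (p : Polynomial ℕ) {a b : ℕ} (h : a ≤ b) : p.eval a ≤ p.eval b := by
  rw [Polynomial.eval_eq_sum, Polynomial.eval_eq_sum, Polynomial.sum_def, Polynomial.sum_def]
  exact Finset.sum_le_sum fun i _ => Nat.mul_le_mul_left _ (Nat.pow_le_pow_left h i)

/-- **Rough samplers decide `NP` in `RP`.** -/
theorem np_le_rp (G : List ℤ × List Bool → List (ℕ × ℕ)) (hG : Poly G) (p : Polynomial ℕ)
    (hc : ∀ l, IsSignedPerm l → ∀ E : Set (List (ℕ × ℕ)),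
      |prob (p.eval (bits l).length) (fun r => G (l, r) ∈ E) -
        ((E ∩ Opt l).ncard : ℝ) / ((Opt l).ncard : ℝ)| ≤ 1 / 4)
    {L : Set (List Bool)} (hL : InNP L) : InRP L := by
  classical
  obtain ⟨f, hf, hpr, hfL⟩ := hardPr_SAT3b L hL
  have hfp : Poly f := PC.comp (g := f) (f := fun x => x) hf PIso.rawOut
  have hπ : Poly (fun x => permL (f x)) := permL_poly hfp
  -- the length of the random string used by the sampler
  set m : List Bool → ℕ := fun x => p.eval (bits (permL (f x))).length with hm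
  have hmu : UPoly m := by
    have h1 : Poly (fun x => bits (permL (f x))) := bits_poly.comp hπ
    exact (UPoly.length h1).eval p
  obtain ⟨q, hq⟩ := hπ.sz_le
  set ℓ : Polynomial ℕ := p.comp (q.comp (Polynomial.C 4 * Polynomial.X + 1)) with hℓ
  have hmℓ : ∀ x, m x ≤ ℓ.eval x.length := by
    intro x
    rw [hm, hℓ, Polynomial.eval_comp]
    refine eval_mono' p ?_
    rw [bits_length, Polynomial.eval_comp]
    refine (hq x).trans (eval_mono' q ?_)
    have := sz_listBool_le x
    simpa using this
  -- the test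
  set S : List Bool × List Bool → Bool := fun a =>
    decB (f a.1) (permL (f a.1)) (G (permL (f a.1), a.2.take (m a.1))) with hS
  have hSp : Poly S := by
    have e1 : Poly (fun a : List Bool × List Bool => f a.1) := hfp.comp (NPC.Poly.fst NPC.Poly.id)
    have e2 : Poly (fun a : List Bool × List Bool => permL (f a.1)) := permL_poly e1
    have e3 : Poly (fun a : List Bool × List Bool => a.2.take (m a.1)) :=
      Pool.Agent.H579R2.Spt.take_poly' (NPC.Poly.snd NPC.Poly.id)
        ((hmu.comp (NPC.Poly.fst NPC.Poly.id)).toPoly)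
    exact decB_poly e1 e2 (hG.comp (NPC.Poly.pair e2 e3))
  refine ⟨fun y => [S (unpair y)], ℓ, NPC.polyTime_of_poly (hSp.comp poly_unpair), fun x => ?_⟩
  obtain ⟨hd, hb, hne⟩ := hpr x
  constructor
  · intro hx
    have hsat : SAT3 (f x) := (hfL x).1 hx
    obtain ⟨⟨hfin, hpos⟩, hbad⟩ := assembly hne hd hb hsat
    have hsp : IsSignedPerm (permL (f x)) := by
      rw [permL_eq hne]; exact Net.perm_isSignedPerm (hOf_pos hne)
    rw [← permL_eq hne] at hfin hpos hbad
    set l := permL (f x) with hl
    set E : Set (List (ℕ × ℕ)) := {rs | decB (f x) l rs = true} with hE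
    have hclose := hc l hsp E
    -- the fraction of good sequences
    have hcompl : (E ∩ Opt l).ncard + (Opt l \ E).ncard = (Opt l).ncard := by
      rw [Set.inter_comm]
      exact Set.ncard_inter_add_ncard_sdiff_eq_ncard _ _ hfin
    have hsub : Opt l \ E ⊆ {rs | ∀ k ≤ rs.length, goodB (f x) ((rs.take k).foldl reversal l) =
        false} ∩ Opt l := by
      rintro rs ⟨h1, h2⟩
      refine ⟨?_, h1⟩
      have h3 : decB (f x) l rs = false := by
        rw [← Bool.not_eq_true]; exact h2
      exact dec_complete h1.1.1 h3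
    have hbad' : (Opt l \ E).ncard ≤ ({rs | ∀ k ≤ rs.length,
        goodB (f x) ((rs.take k).foldl reversal l) = false} ∩ Opt l).ncard :=
      Set.ncard_le_ncard hsub (hfin.subset Set.inter_subset_right)
    have hfrac : (3 : ℝ) / 4 ≤ ((E ∩ Opt l).ncard : ℝ) / ((Opt l).ncard : ℝ) := by
      have h1 : (0 : ℝ) < ((Opt l).ncard : ℝ) := by exact_mod_cast hpos
      rw [le_div_iff₀ h1]
      have h2 : 3 * (Opt l).ncard ≤ 4 * (E ∩ Opt l).ncard := by omega
      have h3 : (3 : ℝ) * ((Opt l).ncard : ℝ) ≤ 4 * ((E ∩ Opt l).ncard : ℝ) := by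
        exact_mod_cast h2
      linarith
    have hprob : (1 : ℝ) / 2 ≤ prob (m x) (fun r => G (l, r) ∈ E) := by
      have := (abs_le.1 hclose).1
      change -(1 / 4 : ℝ) ≤ prob (m x) (fun r => G (l, r) ∈ E) - _ at this
      linarith
    unfold prob at hprob
    have hprob2 : 2 ^ m x ≤ 2 * {r : List Bool | r.length = m x ∧ G (l, r) ∈ E}.ncard := by
      have h1 : (0 : ℝ) < 2 ^ m x := by positivity
      rw [le_div_iff₀ h1] at hprob
      have h2 : ((2 ^ m x : ℕ) : ℝ) ≤
          ((2 * {r : List Bool | r.length = m x ∧ G (l, r) ∈ E}.ncard : ℕ) : ℝ) := by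
        push_cast; linarith
      exact_mod_cast h2
    have hset : {r : List Bool | r.length = ℓ.eval x.length ∧
        [S (unpair (pairBits x r))] = [true]} =
        {r : List Bool | r.length = ℓ.eval x.length ∧ (fun s => G (l, s) ∈ E) (r.take (m x))} := by
      ext r
      simp only [unpair_pairBits, List.cons.injEq, and_true]
      rfl
    rw [hset, ncard_take (fun s => G (l, s) ∈ E) (hmℓ x)]
    have h3 : 2 ^ ℓ.eval x.length = 2 ^ m x * 2 ^ (ℓ.eval x.length - m x) := by
      rw [← pow_add]; congr 1; have := hmℓ x; omega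
    rw [h3, ← mul_assoc]
    exact Nat.mul_le_mul_right _ hprob2
  · intro hx r _ h
    apply hx
    simp only [unpair_pairBits, List.cons.injEq] at h
    exact (hfL x).2 (dec_sound h.1)

/-- **No almost uniform sampler unless `RP = NP`.** -/
theorem sampler_rp (h : HasSampler) (L : Set (List Bool)) : InRP L ↔ InNP L := by
  refine ⟨fun h' => h'.inNP, fun hL => ?_⟩
  obtain ⟨F, A, p, hA, hAF, hF⟩ := h
  have hFp : Poly F := poly_of_machine [] hA hAF
  refine np_le_rp (fun a => F (a.1, 2, a.2)) ?_ (p.comp (Polynomial.X + Polynomial.C 2)) ?_ hL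
  · exact hFp.comp (NPC.Poly.pair (NPC.Poly.fst NPC.Poly.id)
      (NPC.Poly.pair (NPC.Poly.const 2) (NPC.Poly.snd NPC.Poly.id)))
  · intro l hl E
    have := hF l hl 2 E
    rw [Polynomial.eval_comp]
    simp only [Polynomial.eval_add, Polynomial.eval_X, Polynomial.eval_C]
    norm_num at this ⊢
    exact this

/-- **No rough sampler unless `RP = NP`.** -/
theorem rough_rp (h : HasRoughSampler (1 / 4)) (L : Set (List Bool)) : InRP L ↔ InNP L := by
  refine ⟨fun h' => h'.inNP, fun hL => ?_⟩
  obtain ⟨F, A, p, hA, hAF, hF⟩ := h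
  have hFp : Poly F := poly_of_machine [] hA hAF
  refine np_le_rp (fun a => F (a.1, 0, a.2)) ?_ p ?_ hL
  · exact hFp.comp (NPC.Poly.pair (NPC.Poly.fst NPC.Poly.id)
      (NPC.Poly.pair (NPC.Poly.const 0) (NPC.Poly.snd NPC.Poly.id)))
  · intro l hl E
    exact hF l hl E

end Pool.Agent.TH700
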