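import Pool.Agent.TH700.Coarse
import Pool.Agent.TH700.Count

/-!
# Most words pass through a state where the network realises the shift
-/

namespace Pool.Agent.TH700

open Finset

namespace Net

variable (W : Net)

/-- The classes with an odd number of items. -/
def oddS (k : W.κ → ℕ) : Finset W.κ := Finset.univ.filter (fun c => k c % 2 = 1)

/-- Valid states. -/
def Valid (k : W.κ → ℕ) : Prop := NS W.D.M (W.oddS k)

/-- The initial vector. -/
def k0 (m : ℕ) : W.κ → ℕ
  | Sum.inl _ => 2
  | Sum.inr _ => m

variable {W}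

theorem mem_oddS {k : W.κ → ℕ} {c : W.κ} : c ∈ W.oddS k ↔ k c % 2 = 1 := by
  simp [oddS]

theorem oddS_dec {k : W.κ → ℕ} {c : W.κ} (h : 1 ≤ k c) :
    W.oddS (dec k c) = symmDiff (W.oddS k) {c} := by
  ext d
  rw [Finset.mem_symmDiff, mem_oddS, mem_oddS, Finset.mem_singleton]
  by_cases hd : d = c
  · subst hd
    rw [dec_self]; simp; omega
  · rw [dec_of_ne _ hd]; simp [hd]

/-- The oriented classes. -/
def Fa (W : Net) : Finset W.κ := Finset.univ.map ⟨Sum.inr, Sum.inr_injective⟩

theorem mem_Fa {v : W.κ} : v ∈ W.Fa ↔ ∃ i, v = Sum.inr i := by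
  simp only [Fa, Finset.mem_map, Finset.mem_univ, true_and, Function.Embedding.coeFn_mk]
  exact ⟨fun ⟨i, hi⟩ => ⟨i, hi.symm⟩, fun ⟨i, hi⟩ => ⟨i, hi.symm⟩⟩

theorem Fa_nonempty : W.Fa.Nonempty :=
  ⟨Sum.inr ⟨0, by have := W.hq; omega⟩, mem_Fa.2 ⟨_, rfl⟩⟩

theorem sum_κ (f : W.κ → ℕ) : ∑ c, f c = ∑ k : Fin W.s, f (Sum.inl k) +
    ∑ i : Fin (2 * W.q), f (Sum.inr i) := Fintype.sum_sum_type f

theorem sum_k0 (m : ℕ) : ∑ c, W.k0 m c = 2 * W.s + 2 * W.q * m := by
  rw [sum_κ]
  simp only [k0, Finset.sum_const, Finset.card_univ, Fintype.card_fin, smul_eq_mul]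
  ring

/-- Bad words. -/
theorem bad_word {good : (W.κ → ℕ) → Prop} (hgood : ∀ k, W.Shift (onP (W.oddS k)) → good k)
    (k : W.κ → ℕ) (hv : W.Valid k ∧ ¬ good k) (hk : ∀ i ∈ W.Fa, 2 ≤ k i) :
    (∃ i ∈ W.Fa, ¬ (W.Valid (dec k i) ∧ ¬ good (dec k i))) ∨
      (∃ i ∈ W.Fa, ∃ j ∈ W.Fa, i ≠ j ∧ ¬ (W.Valid (dec (dec k i) j) ∧
        ¬ good (dec (dec k i) j))) := by
  by_contra hcon
  push Not at hcon
  obtain ⟨h1, h2⟩ := hcon
  apply hv.2
  apply hgood
  apply shift_of_toggles hv.1
  · intro i
    have hi : (Sum.inr i : W.κ) ∈ W.Fa := mem_Fa.2 ⟨i, rfl⟩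
    have := (h1 _ hi).1
    unfold Valid at this
    rwa [oddS_dec (by have := hk _ hi; omega)] at this
  · intro i j hij
    have hi : (Sum.inr i : W.κ) ∈ W.Fa := mem_Fa.2 ⟨i, rfl⟩
    have hj : (Sum.inr j : W.κ) ∈ W.Fa := mem_Fa.2 ⟨j, rfl⟩
    have hne : (Sum.inr i : W.κ) ≠ Sum.inr j := fun h => hij (Sum.inr_injective h)
    have := (h2 _ hi _ hj hne).1
    unfold Valid at this
    rwa [oddS_dec (by rw [dec_of_ne _ (Ne.symm hne)]; have := hk _ hj; omega),
      oddS_dec (by have := hk _ hi; omega)] at this

/-- The twin extension of the matrix: two copies of every switch. -/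
def clsT : (Fin W.s × Bool) ⊕ Fin (2 * W.q) → W.κ
  | Sum.inl z => Sum.inl z.1
  | Sum.inr i => Sum.inr i

/-- The extended matrix. -/
def MT (u v : (Fin W.s × Bool) ⊕ Fin (2 * W.q)) : ZMod 2 :=
  if u = v then W.D.M (clsT u) (clsT u)
  else if clsT (W := W) u = clsT v then 1 + W.D.M (clsT u) (clsT u)
  else W.D.M (clsT u) (clsT v)

theorem MT_symm (u v : (Fin W.s × Bool) ⊕ Fin (2 * W.q)) : MT (W := W) u v = MT v u := by
  unfold MT
  by_cases h : u = v
  · subst h; rfl
  · rw [if_neg h, if_neg (Ne.symm h)]
    by_cases h1 : clsT (W := W) u = clsT v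
    · rw [if_pos h1, if_pos h1.symm, h1]
    · rw [if_neg h1, if_neg (Ne.symm h1), M_symm']

theorem NS_MT (Q : Finset ((Fin W.s × Bool) ⊕ Fin (2 * W.q))) :
    NS (MT (W := W)) Q ↔ NS W.D.M ((Q.image clsT).filter
      (fun c => (Q.filter (fun u => clsT (W := W) u = c)).card % 2 = 1)) := by
  refine ns_twin MT W.D.M clsT Q ?_ ?_ ?_
  · intro u _ v _ h
    unfold MT
    rw [if_neg (fun h' => h (by rw [h'])), if_neg h]
  · intro u _
    unfold MT
    rw [if_pos rfl]
  · intro u _ v _ h h1
    unfold MT
    rw [if_neg h, if_pos h1]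

theorem ori_diag (i : Fin (2 * W.q)) : W.D.M (Sum.inr i) (Sum.inr i) = 1 := by
  unfold CD.M
  rw [if_pos rfl]
  rfl

theorem onP_congr {P P' : Finset W.κ} (h : ∀ k, (Sum.inl k : W.κ) ∈ P ↔ Sum.inl k ∈ P') :
    onP P = onP P' := by
  funext k
  unfold onP
  split_ifs with hk
  · simp only [h]
  · rfl

theorem posn_congr {on on' : ℕ → Bool} (h : ∀ k < W.s, on k = on' k) :
    ∀ k ≤ W.s, ∀ j, W.posn on k j = W.posn on' k j := by
  intro k
  induction k with
  | zero => intro _ j; rfl
  | succ k ih =>
    intro hk j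
    change stp (W.sw k) (on k) (W.posn on k j) = stp (W.sw k) (on' k) (W.posn on' k j)
    rw [ih (by omega), h k (by omega)]

/-- **Lower bound for the number of words.** -/
theorem lower {on : ℕ → Bool} (hon : W.Shift on) {m : ℕ} (hm : 2 ≤ m) (hme : m % 2 = 0) :
    (2 * W.q * (m - 2)).factorial ≤ cnt W.Valid (2 * W.s + 2 * W.q * m) (W.k0 m) := by
  -- all sets with the right switches are nonsingular
  have hfree : ∀ P : Finset W.κ, (∀ k : Fin W.s, (Sum.inl k : W.κ) ∈ P ↔ on k = true) →
      NS W.D.M P := by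
    intro P hP
    apply allfree
    have h1 : ∀ k < W.s, onP P k = on k := by
      intro k hk
      have h2 := onP_eq P ⟨k, hk⟩
      have h3 := hP ⟨k, hk⟩
      rw [Bool.eq_iff_iff, ← h3, ← h2]
    intro j hj
    rw [posn_congr h1 W.s (le_refl _) j]
    exact hon j hj
  -- first phase
  let T : Type := (Fin W.s × Bool) ⊕ Fin (2 * W.q)
  let P1 : Finset T := Finset.univ.filter (fun u =>
    Sum.elim (fun z : Fin W.s × Bool => !z.2 || !(on z.1)) (fun _ => true) u = true)
  have hP1l : ∀ z, (Sum.inl z : T) ∈ P1 ↔ (z.2 = false ∨ on z.1 = false) := by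
    intro z; simp [P1]
  have hP1r : ∀ i, (Sum.inr i : T) ∈ P1 := by
    intro i; simp [P1]
  have hfib_l : ∀ k : Fin W.s, (P1.filter (fun u => clsT (W := W) u = Sum.inl k)).card =
      if on k = true then 1 else 2 := by
    intro k
    by_cases h : on k = true
    · rw [if_pos h]
      have : P1.filter (fun u => clsT (W := W) u = Sum.inl k) = {Sum.inl (k, false)} := by
        ext u
        rw [Finset.mem_filter, Finset.mem_singleton]
        cases u with
        | inl z =>
          rw [hP1l]
          simp only [clsT, Sum.inl.injEq]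
          constructor
          · rintro ⟨h1, rfl⟩
            obtain ⟨k, b⟩ := z
            simp only at h h1
            rw [h] at h1
            simp at h1
            rw [h1]
          · rintro rfl
            exact ⟨Or.inl rfl, rfl⟩
        | inr i =>
          simp [clsT]
      rw [this, Finset.card_singleton]
    · rw [if_neg h]
      have : P1.filter (fun u => clsT (W := W) u = Sum.inl k) =
          {Sum.inl (k, false), Sum.inl (k, true)} := by
        ext u
        rw [Finset.mem_filter, Finset.mem_insert, Finset.mem_singleton]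
        cases u with
        | inl z =>
          rw [hP1l]
          simp only [clsT, Sum.inl.injEq]
          constructor
          · rintro ⟨h1, rfl⟩
            obtain ⟨k, b⟩ := z
            cases b <;> simp
          · rintro (rfl | rfl)
            · exact ⟨Or.inl rfl, rfl⟩
            · refine ⟨Or.inr ?_, rfl⟩
              simpa using h
        | inr i =>
          simp [clsT]
      rw [this, Finset.card_pair]
      simp
  have hfib_r : ∀ i : Fin (2 * W.q), (P1.filter (fun u => clsT (W := W) u = Sum.inr i)).card =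
      1 := by
    intro i
    have : P1.filter (fun u => clsT (W := W) u = Sum.inr i) = {Sum.inr i} := by
      ext u
      rw [Finset.mem_filter, Finset.mem_singleton]
      cases u with
      | inl z => simp [clsT]
      | inr i' =>
        simp only [clsT, Sum.inr.injEq]
        exact ⟨fun h => h.2, fun h => ⟨hP1r _, h⟩⟩
    rw [this, Finset.card_singleton]
  have hNS1 : NS (MT (W := W)) P1 := by
    rw [NS_MT]
    apply hfree
    intro k
    rw [Finset.mem_filter, hfib_l k]
    constructor
    · rintro ⟨_, h⟩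
      by_contra hc
      rw [if_neg hc] at h
      omega
    · intro h
      rw [if_pos h]
      refine ⟨?_, by omega⟩
      rw [Finset.mem_image]
      exact ⟨Sum.inl (k, false), (hP1l _).2 (Or.inl rfl), rfl⟩
  obtain ⟨l1, hnd1, hmem1, hpre1⟩ := hp (MT (W := W)) MT_symm P1 hNS1 (by
    intro C hC hCne hcl
    by_cases hr : ∃ i, (Sum.inr i : T) ∈ C
    · obtain ⟨i, hi⟩ := hr
      refine ⟨_, hi, ?_⟩
      unfold MT
      rw [if_pos rfl]
      exact ori_diag i
    · exfalso
      obtain ⟨u, hu⟩ := hCne
      cases u with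
      | inr i => exact hr ⟨i, hu⟩
      | inl z =>
        obtain ⟨i, hi⟩ := switch_adj (W := W) z.1
        have := hcl _ hu (Sum.inr i) (hP1r i) (fun h => hr ⟨i, h⟩)
        unfold MT at this
        rw [if_neg (by simp), if_neg (by simp [clsT])] at this
        simp only [clsT] at this
        rw [this] at hi
        exact zero_ne_one hi)
  -- last phase
  let P2 : Finset W.κ := Finset.univ.filter (fun u =>
    Sum.elim (fun k : Fin W.s => on k) (fun _ => true) u = true)
  have hP2l : ∀ k, (Sum.inl k : W.κ) ∈ P2 ↔ on k = true := by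
    intro k; simp [P2]
  have hP2r : ∀ i, (Sum.inr i : W.κ) ∈ P2 := by
    intro i; simp [P2]
  obtain ⟨l2, hnd2, hmem2, hpre2⟩ := hp W.D.M M_symm' P2 (hfree _ hP2l) (by
    intro C hC hCne hcl
    by_cases hr : ∃ i, (Sum.inr i : W.κ) ∈ C
    · obtain ⟨i, hi⟩ := hr
      exact ⟨_, hi, ori_diag i⟩
    · exfalso
      obtain ⟨u, hu⟩ := hCne
      cases u with
      | inr i => exact hr ⟨i, hu⟩
      | inl k =>
        obtain ⟨i, hi⟩ := switch_adj (W := W) k
        have := hcl _ hu (Sum.inr i) (hP2r i) (fun h => hr ⟨i, h⟩)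
        rw [this] at hi
        exact zero_ne_one hi)
  -- the vectors
  let ke : W.κ → ℕ := fun c => if c ∈ P2 then 1 else 0
  let e : W.κ → ℕ := fun c => match c with
    | Sum.inl _ => 0
    | Sum.inr _ => m - 2
  let α : List W.κ := l1.map clsT
  have hcountα : ∀ j c, wc (α.take j) c =
      ((l1.take j).toFinset.filter (fun u => clsT (W := W) u = c)).card := by
    intro j c
    have hnd : (l1.take j).Nodup := hnd1.sublist (List.take_sublist _ _)
    simp only [α]
    rw [← List.map_take, wc, List.filter_map, List.length_map]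
    have h1 : (l1.take j).toFinset.filter (fun u => clsT (W := W) u = c) =
        ((l1.take j).filter (fun u => decide (clsT (W := W) u = c))).toFinset := by
      ext u; simp
    rw [h1, List.toFinset_card_of_nodup (hnd.filter _)]
    rfl
  have hcountα' : ∀ c, wc α c = (P1.filter (fun u => clsT (W := W) u = c)).card := by
    intro c
    have h1 := hcountα l1.length c
    have h2 : α.take l1.length = α := List.take_of_length_le (by simp [α])
    rw [h2, List.take_length] at h1
    rw [h1]
    congr 1
    congr 1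
    ext u
    rw [List.mem_toFinset, hmem1]
  -- lengths
  have hlenα : α.length = ∑ k : Fin W.s, (if on k = true then 1 else 2) + 2 * W.q := by
    have h1 : α.length = P1.card := by
      simp only [α, List.length_map]
      rw [← List.toFinset_card_of_nodup hnd1]
      congr 1
      ext u
      rw [List.mem_toFinset, hmem1]
    rw [h1, Finset.card_eq_sum_card_fiberwise (f := clsT (W := W)) (t := Finset.univ)
      (fun _ _ => by simp), sum_κ]
    congr 1
    · exact Finset.sum_congr rfl fun k _ => hfib_l k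
    · rw [Finset.sum_congr rfl fun i _ => hfib_r i]
      simp
  have hlen2 : l2.length = ∑ k : Fin W.s, (if on k = true then 1 else 0) + 2 * W.q := by
    have h1 : l2.length = P2.card := by
      rw [← List.toFinset_card_of_nodup hnd2]
      congr 1
      ext u
      rw [List.mem_toFinset, hmem2]
    have h2 : P2.card = ∑ c : W.κ, if c ∈ P2 then 1 else 0 := by
      rw [← Finset.card_filter]
      congr 1
      ext c; simp
    rw [h1, h2, sum_κ]
    congr 1
    · refine Finset.sum_congr rfl fun k _ => ?_
      simp only [hP2l]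
    · rw [Finset.sum_congr (g := fun _ => 1) rfl fun i _ => if_pos (hP2r i)]
      simp
  have hlen : 2 * W.s + 2 * W.q * m = (l2.length + 2 * W.q * (m - 2)) + α.length := by
    rw [hlenα, hlen2]
    have h1 : ∑ k : Fin W.s, (if on k = true then 1 else 0) +
        ∑ k : Fin W.s, (if on k = true then 1 else 2) = 2 * W.s := by
      rw [← Finset.sum_add_distrib]
      have : ∀ k : Fin W.s, ((if on k = true then 1 else 0) + (if on k = true then 1 else 2)) =
          2 := by intro k; split_ifs <;> rfl
      rw [Finset.sum_congr rfl fun k _ => this k]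
      simp [mul_comm]
    obtain ⟨m', rfl⟩ : ∃ m', m = m' + 2 := ⟨m - 2, by omega⟩
    rw [Nat.add_sub_cancel]
    have h2 : 2 * W.q * (m' + 2) = 2 * W.q * m' + 2 * W.q + 2 * W.q := by ring
    omega
  -- phase 1
  have hph1 : cnt W.Valid (l2.length + 2 * W.q * (m - 2)) (subw (W.k0 m) α) ≤
      cnt W.Valid (2 * W.s + 2 * W.q * m) (W.k0 m) := by
    rw [hlen]
    refine cnt_word _ α _ _ ?_ ?_
    · intro c
      rw [hcountα']
      cases c with
      | inl k => rw [hfib_l]; simp only [k0]; split_ifs <;> omega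
      | inr i => rw [hfib_r]; simp only [k0]; omega
    · intro j _ _
      have h1 := hpre1 j
      rw [NS_MT] at h1
      unfold Valid
      convert h1 using 1
      ext c
      rw [mem_oddS, Finset.mem_filter]
      have hle : wc (α.take j) c ≤ W.k0 m c := by
        refine le_trans (wc_take_le α j c) ?_
        rw [hcountα']
        cases c with
        | inl k => rw [hfib_l]; simp only [k0]; split_ifs <;> omega
        | inr i => rw [hfib_r]; simp only [k0]; omega
      have hk0 : W.k0 m c % 2 = 0 := by
        cases c with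
        | inl k => simp [k0]
        | inr i => exact hme
      simp only [subw]
      rw [← hcountα j c]
      constructor
      · intro h
        refine ⟨?_, by omega⟩
        have hpos : 0 < wc (α.take j) c := by omega
        rw [hcountα] at hpos
        obtain ⟨u, hu⟩ := Finset.card_pos.1 hpos
        obtain ⟨h3, h4⟩ := Finset.mem_filter.1 hu
        exact Finset.mem_image.2 ⟨u, h3, h4⟩
      · rintro ⟨_, h⟩
        omega
  have hk1 : subw (W.k0 m) α = fun c => ke c + e c := by
    funext c
    simp only [subw]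
    rw [hcountα']
    cases c with
    | inl k =>
      rw [hfib_l]
      simp only [k0, ke, e, hP2l]
      split_ifs <;> rfl
    | inr i =>
      rw [hfib_r]
      simp only [k0, ke, e, if_pos (hP2r i)]
      omega
  -- phase 2
  have hph2 := cnt_mid W.Valid W.Fa ke (by
    intro e' he'
    unfold Valid
    apply hfree
    intro k
    rw [mem_oddS, he' (Sum.inl k) (by rw [mem_Fa]; rintro ⟨i, hi⟩; cases hi)]
    simp only [ke, hP2l]
    split_ifs with h
    · simp [h]
    · simp [h]) l2.length (2 * W.q * (m - 2)) e (by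
    intro c hc
    cases c with
    | inl k => rfl
    | inr i => exact absurd (mem_Fa.2 ⟨i, rfl⟩) hc) (by
    rw [sum_κ]
    simp [e])
  -- phase 3
  have hph3 : 1 ≤ cnt W.Valid l2.length ke := by
    have hke : ∀ c, ke c = wc l2 c := by
      intro c
      rw [wc_nodup hnd2]
      simp only [ke, hmem2]
    have h1 := cnt_word W.Valid l2.reverse 0 ke (by
      intro c
      rw [wc_reverse, hke]) (by
      intro j hj1 hj2
      rw [List.length_reverse] at hj2
      unfold Valid
      have h2 := hpre2 (l2.length - j)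
      convert h2 using 1
      ext c
      rw [mem_oddS, List.mem_toFinset]
      simp only [subw]
      rw [List.take_reverse, wc_reverse]
      have hsplit := List.take_append_drop (l2.length - j) l2
      have hcount : wc (l2.take (l2.length - j)) c + wc (l2.drop (l2.length - j)) c =
          wc l2 c := by
        rw [← wc_append, hsplit]
      rw [hke, ← hcount, Nat.add_sub_cancel]
      have hnd : (l2.take (l2.length - j)).Nodup := hnd2.sublist (List.take_sublist _ _)
      rw [wc_nodup hnd]
      by_cases hc : c ∈ l2.take (l2.length - j)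
      · simp [hc]
      · simp [hc])
    rw [zero_add, List.length_reverse] at h1
    simpa [cnt] using h1
  calc (2 * W.q * (m - 2)).factorial
      = (2 * W.q * (m - 2)).factorial * 1 := by ring
    _ ≤ (2 * W.q * (m - 2)).factorial * cnt W.Valid l2.length ke := Nat.mul_le_mul_left _ hph3
    _ ≤ cnt W.Valid (l2.length + 2 * W.q * (m - 2)) (fun c => ke c + e c) := hph2
    _ ≤ _ := by rw [← hk1]; exact hph1

/-- **Most words meet a good state.** -/
theorem ratio {on : ℕ → Bool} (hon : W.Shift on) {good : (W.κ → ℕ) → Prop}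
    (hgood : ∀ k, W.Shift (onP (W.oddS k)) → good k) {w : ℕ} (hw : 2 * W.s + 4 * W.q ≤ w)
    (h0 : ¬ good (W.k0 (256 * w ^ 4))) :
    4 * cnt (fun k => W.Valid k ∧ ¬ good k) (2 * W.s + 2 * W.q * (256 * w ^ 4))
        (W.k0 (256 * w ^ 4)) ≤
      cnt W.Valid (2 * W.s + 2 * W.q * (256 * w ^ 4)) (W.k0 (256 * w ^ 4)) := by
  have hq := W.hq
  have hw1 : 1 ≤ w := by omega
  have hw4 : 1 ≤ w ^ 4 := Nat.one_le_pow _ _ hw1
  set m := 256 * w ^ 4 with hm
  set T := 2 * W.s + 2 * W.q * m with hT
  have hTle : T ≤ 256 * w ^ 5 := by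
    have h1 : 2 * W.q * m ≤ 128 * w ^ 5 := by
      have h2 : 4 * W.q * (128 * w ^ 4) ≤ w * (128 * w ^ 4) := Nat.mul_le_mul_right _ (by omega)
      calc 2 * W.q * m = 4 * W.q * (128 * w ^ 4) := by rw [hm]; ring
        _ ≤ w * (128 * w ^ 4) := h2
        _ = 128 * w ^ 5 := by ring
    have h3 : w ≤ 128 * w ^ 5 := by
      calc w = w * 1 := by ring
        _ ≤ w * (128 * w ^ 4) := Nat.mul_le_mul_left _ (by omega)
        _ = 128 * w ^ 5 := by ring
    omega
  have hTge : 128 * w ^ 4 ≤ T := by
    have h1 : 1 * m ≤ 2 * W.q * m := Nat.mul_le_mul_right _ (by omega)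
    omega
  have hnum := numeric w T (2 * W.s + 4 * W.q) hw1 hw hTle hTge
  have hup := cnt_upper (fun k => W.Valid k ∧ ¬ good k) W.Fa (128 * w ^ 4) T Fa_nonempty
    (fun k hk hk2 => bad_word hgood k hk hk2) (64 * w ^ 4) T (W.k0 m) (by rw [sum_k0]) (le_refl _)
    ⟨by
      unfold Valid
      have : W.oddS (W.k0 m) = ∅ := by
        ext c
        rw [mem_oddS]
        cases c with
        | inl k => simp [k0]
        | inr i => simp [k0, hm]; omega
      rw [this]
      exact ns_empty _, h0⟩ (by
      intro i hi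
      obtain ⟨i, rfl⟩ := mem_Fa.1 hi
      simp only [k0]
      omega)
  have hlow := lower hon (m := m) (by omega) (by omega)
  refine final_ratio hup hlow (u := 2 * W.s + 4 * W.q) ?_ hnum (by positivity)
  obtain ⟨m', hm'⟩ : ∃ m', m = m' + 2 := ⟨m - 2, by omega⟩
  rw [hT, hm', Nat.add_sub_cancel]
  ring

end Net

end Pool.Agent.TH700
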